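import Pool.Agent.MP_a2e0a9_al.Defs
import Mathlib

-- part MP_a2e0a9_al.Act
section

/-! Actions of lattice-ordered groups on chains, Holland representation. -/

namespace Pool.Agent.MP_a2e0a9_al

universe u v

section Basic
variable {G : Type u} [Group G] [Lattice G] [MulLeftMono G] [MulRightMono G]

theorem sup_eq_mul (x y : G) : x ⊔ y = x * (x ⊓ y)⁻¹ * y := by
  rw [inv_inf, mul_sup, sup_mul]
  simp [sup_comm]

theorem distrib_aux (x y z : G) : (x ⊔ y) ⊓ (x ⊔ z) ≤ x ⊔ y ⊓ z := by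
  have h1 : x ⊔ y ≤ x * (x ⊓ (y ⊓ z))⁻¹ * y := by
    rw [sup_eq_mul x y]
    exact mul_le_mul_left (mul_le_mul_right
      (inv_le_inv_iff.2 (inf_le_inf_left _ inf_le_left)) _) _
  have h2 : x ⊔ z ≤ x * (x ⊓ (y ⊓ z))⁻¹ * z := by
    rw [sup_eq_mul x z]
    exact mul_le_mul_left (mul_le_mul_right
      (inv_le_inv_iff.2 (inf_le_inf_left _ inf_le_right)) _) _
  calc (x ⊔ y) ⊓ (x ⊔ z) ≤ (x * (x ⊓ (y ⊓ z))⁻¹ * y) ⊓ (x * (x ⊓ (y ⊓ z))⁻¹ * z) :=
        inf_le_inf h1 h2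
    _ = x * (x ⊓ (y ⊓ z))⁻¹ * (y ⊓ z) := (mul_inf _ _ _).symm
    _ = x ⊔ y ⊓ z := (sup_eq_mul x (y ⊓ z)).symm

theorem one_le_conj {a : G} (ha : 1 ≤ a) (g h : G) (hgh : g * h = 1) : 1 ≤ g * a * h := by
  calc 1 = g * 1 * h := by rw [mul_one, hgh]
    _ ≤ g * a * h := mul_le_mul_left (mul_le_mul_right ha _) _

theorem one_le_pow_of {a : G} (ha : 1 ≤ a) (n : ℕ) : 1 ≤ a ^ n := one_le_pow_of_one_le' ha n

theorem zpow_mono_of {a : G} (ha : 1 ≤ a) {m n : ℤ} (h : m ≤ n) : a ^ m ≤ a ^ n := by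
  obtain ⟨k, rfl⟩ := Int.le.dest h
  rw [zpow_add, zpow_natCast]
  exact le_mul_of_one_le_right' (one_le_pow_of ha k)

end Basic

/-- `ρ` is an action by order automorphisms that turns joins into pointwise maxima. -/
structure IsLAct {G : Type u} [Group G] [Lattice G] {Ω : Type v} [LinearOrder Ω]
    (ρ : G → Ω → Ω) : Prop where
  one : ∀ x, ρ 1 x = x
  mul : ∀ g h x, ρ (g * h) x = ρ g (ρ h x)
  mono : ∀ g, StrictMono (ρ g)
  sup : ∀ g h x, ρ (g ⊔ h) x = max (ρ g x) (ρ h x)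

namespace IsLAct
variable {G : Type u} [Group G] [Lattice G]
  {Ω : Type v} [LinearOrder Ω] {ρ : G → Ω → Ω}

theorem inv_act (h : IsLAct ρ) (g : G) (x : Ω) : ρ g⁻¹ (ρ g x) = x := by
  rw [← h.mul, inv_mul_cancel, h.one]

theorem act_inv (h : IsLAct ρ) (g : G) (x : Ω) : ρ g (ρ g⁻¹ x) = x := by
  rw [← h.mul, mul_inv_cancel, h.one]

theorem le (h : IsLAct ρ) {g k : G} (hgk : g ≤ k) (x : Ω) : ρ g x ≤ ρ k x := by
  have := h.sup g k x
  rw [sup_eq_right.2 hgk] at this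
  rw [this]; exact le_max_left _ _

theorem le_iff (h : IsLAct ρ) (g : G) {x y : Ω} : ρ g x ≤ ρ g y ↔ x ≤ y :=
  (h.mono g).le_iff_le

theorem lt_iff (h : IsLAct ρ) (g : G) {x y : Ω} : ρ g x < ρ g y ↔ x < y :=
  (h.mono g).lt_iff_lt

theorem eq_iff (h : IsLAct ρ) (g : G) {x y : Ω} : ρ g x = ρ g y ↔ x = y :=
  (h.mono g).injective.eq_iff

theorem mon (h : IsLAct ρ) (g : G) {x y : Ω} (hxy : x ≤ y) : ρ g x ≤ ρ g y :=
  (h.mono g).monotone hxy

theorem pos (h : IsLAct ρ) {g : G} (hg : 1 ≤ g) (x : Ω) : x ≤ ρ g x := by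
  have := h.le hg x
  rwa [h.one] at this

theorem neg (h : IsLAct ρ) {g : G} (hg : g ≤ 1) (x : Ω) : ρ g x ≤ x := by
  have := h.le hg x
  rwa [h.one] at this

theorem inv_eq_iff (h : IsLAct ρ) (g : G) {x y : Ω} : ρ g⁻¹ x = y ↔ x = ρ g y := by
  constructor
  · rintro rfl; rw [h.act_inv]
  · rintro rfl; rw [h.inv_act]

theorem inv_le_iff (h : IsLAct ρ) (g : G) {x y : Ω} : ρ g⁻¹ x ≤ y ↔ x ≤ ρ g y := by
  rw [← h.le_iff g, h.act_inv]

theorem le_inv_iff (h : IsLAct ρ) (g : G) {x y : Ω} : x ≤ ρ g⁻¹ y ↔ ρ g x ≤ y := by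
  rw [← h.le_iff g, h.act_inv]

theorem inv_lt_iff (h : IsLAct ρ) (g : G) {x y : Ω} : ρ g⁻¹ x < y ↔ x < ρ g y := by
  rw [← h.lt_iff g, h.act_inv]

theorem lt_inv_iff (h : IsLAct ρ) (g : G) {x y : Ω} : x < ρ g⁻¹ y ↔ ρ g x < y := by
  rw [← h.lt_iff g, h.act_inv]

theorem fix_inv (h : IsLAct ρ) {g : G} {x : Ω} (hx : ρ g x = x) : ρ g⁻¹ x = x :=
  (h.inv_eq_iff g).2 hx.symm

theorem fix_pow (h : IsLAct ρ) {g : G} {x : Ω} (hx : ρ g x = x) (n : ℕ) : ρ (g ^ n) x = x := by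
  induction n with
  | zero => rw [pow_zero, h.one]
  | succ n ih => rw [pow_succ, h.mul, hx, ih]

theorem fix_zpow (h : IsLAct ρ) {g : G} {x : Ω} (hx : ρ g x = x) (n : ℤ) :
    ρ (g ^ n) x = x := by
  rcases n with n | n
  · simpa using h.fix_pow hx n
  · rw [zpow_negSucc]; exact h.fix_inv (h.fix_pow hx _)

theorem pow_le_of_le (h : IsLAct ρ) {g : G} {x : Ω} (hx : ρ g x ≤ x) (n : ℕ) :
    ρ (g ^ n) x ≤ x := by
  induction n with
  | zero => rw [pow_zero, h.one]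
  | succ n ih => rw [pow_succ, h.mul]; exact (h.mon _ hx).trans ih

theorem le_pow_of_le (h : IsLAct ρ) {g : G} {x : Ω} (hx : x ≤ ρ g x) (n : ℕ) :
    x ≤ ρ (g ^ n) x := by
  induction n with
  | zero => rw [pow_zero, h.one]
  | succ n ih => rw [pow_succ, h.mul]; exact ih.trans (h.mon _ hx)

theorem zpow_strictMono (h : IsLAct ρ) {g : G} {x : Ω} (hx : x < ρ g x) :
    StrictMono fun n : ℤ => ρ (g ^ n) x := by
  refine strictMono_int_of_lt_succ fun n => ?_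
  rw [zpow_add_one, h.mul]
  exact h.mono _ hx

theorem pow_strictMono (h : IsLAct ρ) {g : G} {x : Ω} (hx : x < ρ g x) :
    StrictMono fun n : ℕ => ρ (g ^ n) x := by
  refine strictMono_nat_of_lt_succ fun n => ?_
  rw [pow_succ, h.mul]
  exact h.mono _ hx

theorem sup_one_fix (h : IsLAct ρ) {g : G} {x : Ω} (hx : ρ g x ≤ x) : ρ (g ⊔ 1) x = x := by
  rw [h.sup, h.one, max_eq_right hx]

theorem sup_one_of_le (h : IsLAct ρ) {g : G} {x : Ω} (hx : x ≤ ρ g x) :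
    ρ (g ⊔ 1) x = ρ g x := by
  rw [h.sup, h.one, max_eq_left hx]

variable [MulLeftMono G] [MulRightMono G]

theorem inf (h : IsLAct ρ) (g k : G) (x : Ω) : ρ (g ⊓ k) x = min (ρ g x) (ρ k x) := by
  apply le_antisymm (le_min (h.le inf_le_left x) (h.le inf_le_right x))
  have h1 : x = max (ρ g⁻¹ (ρ (g ⊓ k) x)) (ρ k⁻¹ (ρ (g ⊓ k) x)) := by
    rw [← h.sup, ← inv_inf, h.inv_act]
  rcases max_cases (ρ g⁻¹ (ρ (g ⊓ k) x)) (ρ k⁻¹ (ρ (g ⊓ k) x)) with h2 | h2
  · rw [h2.1] at h1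
    rw [(h.inv_eq_iff g).1 h1.symm]; exact min_le_left _ _
  · rw [h2.1] at h1
    rw [(h.inv_eq_iff k).1 h1.symm]; exact min_le_right _ _

theorem disj (h : IsLAct ρ) {a b : G} (hab : a ⊓ b = 1) (x : Ω) :
    ρ a x = x ∨ ρ b x = x := by
  have := h.inf a b x
  rw [hab, h.one] at this
  rcases min_cases (ρ a x) (ρ b x) with h2 | h2
  · left; rw [← h2.1, ← this]
  · right; rw [← h2.1, ← this]

end IsLAct

section Holland
variable {G : Type u} [Group G] [Lattice G] [MulLeftMono G] [MulRightMono G]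

theorem exists_prime {a b : G} (hab : ¬ a ≤ b) : ∃ I : Set G, b ∈ I ∧ a ∉ I ∧
    (∀ x y, x ≤ y → y ∈ I → x ∈ I) ∧ (∀ x y, x ∈ I → y ∈ I → x ⊔ y ∈ I) ∧
    (∀ x y, x ⊓ y ∈ I → x ∈ I ∨ y ∈ I) := by
  letI : DistribLattice G := { (inferInstance : Lattice G) with le_sup_inf := distrib_aux }
  have hd : Disjoint ((Order.PFilter.principal a : Order.PFilter G) : Set G)
      ((Order.Ideal.principal b : Order.Ideal G) : Set G) := by
    rw [Set.disjoint_left]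
    intro x hx hx'
    exact hab (le_trans (Order.PFilter.mem_principal.1 hx) (Order.Ideal.mem_principal.1 hx'))
  obtain ⟨J, hJ, hI, hF⟩ := DistribLattice.prime_ideal_of_disjoint_filter_ideal hd
  refine ⟨J, hI (Order.Ideal.mem_principal.2 le_rfl), fun h => ?_, fun x y hxy hy => J.lower hxy hy,
    fun x y hx hy => Order.Ideal.sup_mem hx hy, fun x y hxy => hJ.mem_or_mem hxy⟩
  exact Set.disjoint_left.1 hF (Order.PFilter.mem_principal.2 le_rfl) h

/-- Holland representation, transitive form. -/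
theorem holland {a : G} (ha : a ≠ 1) : ∃ (Ω : Type u) (_ : LinearOrder Ω) (ρ : G → Ω → Ω)
    (x : Ω), IsLAct ρ ∧ (∀ y, ∃ g, ρ g x = y) ∧ ρ a x ≠ x := by
  classical
  have : ∃ I : Set G, ((1 : G) ∈ I ↔ a ∉ I) ∧
      (∀ x y, x ≤ y → y ∈ I → x ∈ I) ∧ (∀ x y, x ∈ I → y ∈ I → x ⊔ y ∈ I) ∧
      (∀ x y, x ⊓ y ∈ I → x ∈ I ∨ y ∈ I) := by
    by_cases h : a ≤ 1
    · obtain ⟨I, h1, h2, h3⟩ := exists_prime (a := 1) (b := a) fun h' => ha (le_antisymm h h')
      exact ⟨I, by simp [h1, h2], h3⟩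
    · obtain ⟨I, h1, h2, h3⟩ := exists_prime h
      exact ⟨I, by simp [h1, h2], h3⟩
  obtain ⟨I, h1, hlow, hsup, hpr⟩ := this
  let T : G → Set G := fun g => {y | g⁻¹ * y ∈ I}
  have hT : ∀ g k, T (g ⊔ k) = T g ∪ T k := by
    intro g k
    ext y
    simp only [T, Set.mem_setOf_eq, Set.mem_union, inv_sup, inf_mul]
    exact ⟨hpr _ _, fun h => h.elim (hlow _ _ inf_le_left) (hlow _ _ inf_le_right)⟩
  have htot : ∀ g k, T g ⊆ T k ∨ T k ⊆ T g := by
    intro g k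
    by_contra hc
    rw [not_or, Set.not_subset, Set.not_subset] at hc
    obtain ⟨⟨x, hx, hx'⟩, ⟨y, hy, hy'⟩⟩ := hc
    have h2 : x ⊔ y ∈ T (g ⊔ k) := by
      have e1 : x ∈ T (g ⊔ k) := by rw [hT]; exact Or.inl hx
      have e2 : y ∈ T (g ⊔ k) := by rw [hT]; exact Or.inr hy
      simp only [T, Set.mem_setOf_eq, mul_sup] at e1 e2 ⊢
      exact hsup _ _ e1 e2
    rw [hT] at h2
    rcases h2 with h2 | h2
    · exact hy' (hlow _ _ (mul_le_mul_right le_sup_right _) h2)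
    · exact hx' (hlow _ _ (mul_le_mul_right le_sup_left _) h2)
  let Ω := {J : Set G // ∃ g, J = T g}
  letI : LinearOrder Ω :=
    { (inferInstance : PartialOrder Ω) with
      le_total := by
        rintro ⟨_, g, rfl⟩ ⟨_, k, rfl⟩
        exact htot g k
      toDecidableLE := Classical.decRel _ }
  let ρ : G → Ω → Ω := fun g J => ⟨{y | g⁻¹ * y ∈ J.1}, by
    obtain ⟨_, k, rfl⟩ := J
    exact ⟨g * k, by ext y; simp [T, mul_assoc]⟩⟩
  have hρ : ∀ g k, ρ g ⟨T k, k, rfl⟩ = ⟨T (g * k), g * k, rfl⟩ := by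
    intro g k
    apply Subtype.ext
    ext y; simp [ρ, T, mul_assoc]
  have hmul : ∀ g h x, ρ (g * h) x = ρ g (ρ h x) := by
    rintro g h ⟨_, k, rfl⟩
    rw [hρ, hρ, hρ]; simp only [mul_assoc]
  have hone : ∀ x, ρ 1 x = x := by
    rintro ⟨_, k, rfl⟩
    rw [hρ]; simp only [one_mul]
  have hmon : ∀ g, Monotone (ρ g) := fun g x y hxy z hz => hxy hz
  refine ⟨Ω, inferInstance, ρ, ⟨T 1, 1, rfl⟩, ⟨hone, hmul, fun g => ?_, ?_⟩, ?_, ?_⟩
  · refine (hmon g).strictMono_of_injective fun x y hxy => ?_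
    have := congrArg (ρ g⁻¹) hxy
    rwa [← hmul, ← hmul, inv_mul_cancel, hone, hone] at this
  · rintro g h ⟨_, k, rfl⟩
    rw [hρ, hρ, hρ]
    have e : T ((g ⊔ h) * k) = T (g * k) ∪ T (h * k) := by rw [sup_mul, hT]
    rcases htot (g * k) (h * k) with h2 | h2
    · rw [max_eq_right (show (⟨T (g * k), _⟩ : Ω) ≤ ⟨T (h * k), _⟩ from h2)]
      exact Subtype.ext (e.trans (Set.union_eq_right.2 h2))
    · rw [max_eq_left (show (⟨T (h * k), _⟩ : Ω) ≤ ⟨T (g * k), _⟩ from h2)]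
      exact Subtype.ext (e.trans (Set.union_eq_left.2 h2))
  · rintro ⟨_, k, rfl⟩
    exact ⟨k, by rw [hρ]; simp only [mul_one]⟩
  · rw [hρ]
    intro h
    have h2 : T (a * 1) = T 1 := congrArg Subtype.val h
    have h3 : a ∈ T (a * 1) ↔ a ∈ T 1 := by rw [h2]
    simp only [T, Set.mem_setOf_eq, mul_one, inv_mul_cancel, inv_one, one_mul] at h3
    tauto

theorem eq_one_of_act {a : G} (h : ∀ (Ω : Type u) [LinearOrder Ω] (ρ : G → Ω → Ω), IsLAct ρ →
    ∀ x, ρ a x = x) : a = 1 := by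
  by_contra ha
  obtain ⟨Ω, _, ρ, x, hρ, -, hx⟩ := holland ha
  exact hx (h Ω ρ hρ x)

theorem le_of_act {a b : G} (h : ∀ (Ω : Type u) [LinearOrder Ω] (ρ : G → Ω → Ω), IsLAct ρ →
    ∀ x, ρ a x ≤ ρ b x) : a ≤ b := by
  have : b⁻¹ * (a ⊔ b) = 1 := by
    refine eq_one_of_act fun Ω _ ρ hρ x => ?_
    rw [hρ.mul, hρ.sup, max_eq_right (h Ω ρ hρ x), hρ.inv_act]
  rw [inv_mul_eq_one] at this
  rw [this]; exact le_sup_left

end Holland

section Lower
variable {G : Type u} [Group G] [Lattice G] [MulLeftMono G] [MulRightMono G]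
  {Ω : Type v} [LinearOrder Ω] {ρ : G → Ω → Ω}

/-- The induced action on lower sets. -/
def lowAct (h : IsLAct ρ) (g : G) (L : LowerSet Ω) : LowerSet Ω :=
  ⟨{y | ρ g⁻¹ y ∈ L}, fun _ _ hab ha => L.lower (h.mon _ hab) ha⟩

omit [MulLeftMono G] [MulRightMono G] in
theorem mem_lowAct (h : IsLAct ρ) (g : G) (L : LowerSet Ω) (y : Ω) :
    y ∈ lowAct h g L ↔ ρ g⁻¹ y ∈ L := Iff.rfl

theorem isLAct_lowAct (h : IsLAct ρ) : IsLAct (lowAct h) := by
  have hone : ∀ x, lowAct h 1 x = x := by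
    intro L; ext y
    rw [SetLike.mem_coe, mem_lowAct, inv_one, h.one]; rfl
  have hmul : ∀ g k x, lowAct h (g * k) x = lowAct h g (lowAct h k x) := by
    intro g k L; ext y
    rw [SetLike.mem_coe, SetLike.mem_coe, mem_lowAct, mem_lowAct, mem_lowAct, mul_inv_rev, h.mul]
  have hmon : ∀ g, Monotone (lowAct h g) := fun g x y hxy z hz => hxy hz
  refine ⟨hone, hmul, fun g => ?_, fun g k L => ?_⟩
  · refine (hmon g).strictMono_of_injective fun x y hxy => ?_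
    have := congrArg (lowAct h g⁻¹) hxy
    rwa [← hmul, ← hmul, inv_mul_cancel, hone, hone] at this
  · have e : ∀ y, y ∈ lowAct h (g ⊔ k) L ↔ y ∈ lowAct h g L ∨ y ∈ lowAct h k L := by
      intro y
      rw [mem_lowAct, mem_lowAct, mem_lowAct, inv_sup, h.inf]
      rcases min_cases (ρ g⁻¹ y) (ρ k⁻¹ y) with h2 | h2
      · rw [h2.1]; exact ⟨Or.inl, fun h3 => h3.elim id (fun h4 => L.lower h2.2 h4)⟩
      · rw [h2.1]; exact ⟨Or.inr, fun h3 => h3.elim (fun h4 => L.lower h2.2.le h4) id⟩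
    rcases le_total (lowAct h g L) (lowAct h k L) with h2 | h2
    · rw [max_eq_right h2]; ext y
      rw [SetLike.mem_coe, SetLike.mem_coe, e]
      exact ⟨fun h3 => h3.elim (fun h4 => h2 h4) id, Or.inr⟩
    · rw [max_eq_left h2]; ext y
      rw [SetLike.mem_coe, SetLike.mem_coe, e]
      exact ⟨fun h3 => h3.elim id (fun h4 => h2 h4), Or.inl⟩

end Lower

end Pool.Agent.MP_a2e0a9_al

end

-- part MP_a2e0a9_al.Realise
section

/-! Realising lexicographic integer patterns in a tower; integer approximation. -/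

namespace Pool.Agent.MP_a2e0a9_al

universe u

variable {G : Type u} [Group G] [Lattice G] [MulLeftMono G] [MulRightMono G]
  {Ω : Type u} [LinearOrder Ω] {ρ : G → Ω → Ω}

/-- The convex hull of the orbit of `y` under `a`. -/
def JJ (ρ : G → Ω → Ω) (y : Ω) (a : G) : Set Ω :=
  {z | (∃ k : ℤ, ρ (a ^ k) y ≤ z) ∧ ∃ k : ℤ, z ≤ ρ (a ^ k) y}

section J
omit [MulLeftMono G] [MulRightMono G]
variable (h : IsLAct ρ) {y : Ω} {a : G}
include h

theorem JJ_self : y ∈ JJ ρ y a := ⟨⟨0, by simp [h.one]⟩, ⟨0, by simp [h.one]⟩⟩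

theorem JJ_zpow {z : Ω} (hz : z ∈ JJ ρ y a) (j : ℤ) : ρ (a ^ j) z ∈ JJ ρ y a := by
  obtain ⟨⟨k, hk⟩, ⟨l, hl⟩⟩ := hz
  exact ⟨⟨j + k, by rw [zpow_add, h.mul]; exact h.mon _ hk⟩,
    ⟨j + l, by rw [zpow_add, h.mul]; exact h.mon _ hl⟩⟩

theorem JJ_reach {z z' : Ω} (hz : z ∈ JJ ρ y a) (hz' : z' ∈ JJ ρ y a) :
    ∃ k : ℤ, z' ≤ ρ (a ^ k) z := by
  obtain ⟨⟨k, hk⟩, -⟩ := hz
  obtain ⟨-, ⟨l, hl⟩⟩ := hz'
  refine ⟨l - k, hl.trans ?_⟩
  have : l = (l - k) + k := by ring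
  rw [this, zpow_add, h.mul, add_sub_cancel_right]
  exact h.mon _ hk

theorem JJ_move (hy : y < ρ a y) {z : Ω} (hz : z ∈ JJ ρ y a) : ρ a z ≠ z := by
  intro hc
  obtain ⟨k, hk⟩ := JJ_reach h hz (JJ_zpow h (JJ_self h) 0)
  obtain ⟨l, hl⟩ := hz.2
  rw [h.fix_zpow hc, zpow_zero, h.one] at hk
  have e := h.mon (a ^ (l + 1)) hk
  rw [h.fix_zpow hc] at e
  exact absurd (h.zpow_strictMono hy (lt_add_one l)) (not_lt.2 (e.trans hl))

end J

/-- The words of the tower. -/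
def word (t : ℕ → G) (v : ℕ → ℤ) : ℕ → G
  | 0 => 1
  | j + 1 => t (j + 1) ^ v j * word t v j

/-- Tower data acting on a chain. -/
structure TowerAct (ρ : G → Ω → Ω) (y : Ω) (t : ℕ → G) (N n : ℕ) : Prop where
  act : IsLAct ρ
  pos : ∀ j, 1 ≤ t j
  disj : ∀ j < n, ∀ i, 1 ≤ i → i ≤ N → t j ⊓ ((t (j + 1) ^ i)⁻¹ * t j * t (j + 1) ^ i) = 1
  move : ρ (t 0) y ≠ y
  hN : 1 ≤ N

namespace TowerAct
variable {y : Ω} {t : ℕ → G} {N n : ℕ} (T : TowerAct ρ y t N n)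
include T

theorem fix_nat {j : ℕ} (hj : j < n) {z : Ω} (hz : ρ (t j) z ≠ z) {i : ℕ} (h1 : 1 ≤ i)
    (h2 : i ≤ N) : ρ (t j) (ρ (t (j + 1) ^ i) z) = ρ (t (j + 1) ^ i) z := by
  have := (T.act.disj (T.disj j hj i h1 h2) z).resolve_left hz
  rwa [T.act.mul, T.act.mul, T.act.inv_eq_iff] at this

theorem fix_int {j : ℕ} (hj : j < n) {z : Ω} (hz : ρ (t j) z ≠ z) {d : ℤ} (h1 : d ≠ 0)
    (h2 : |d| ≤ N) : ρ (t j) (ρ (t (j + 1) ^ d) z) = ρ (t (j + 1) ^ d) z := by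
  rw [abs_le] at h2
  rcases Int.eq_nat_or_neg d with ⟨i, rfl | rfl⟩
  · rw [zpow_natCast]
    exact T.fix_nat hj hz (by omega) (by omega)
  · by_contra hc
    have := T.fix_nat hj hc (i := i) (by omega) (by omega)
    rw [zpow_neg, zpow_natCast, T.act.act_inv] at this
    exact hz this

theorem sep {j : ℕ} (hj : j < n) (hy : y < ρ (t j) y) {z z' : Ω} (hz : z ∈ JJ ρ y (t j))
    (hz' : z' ∈ JJ ρ y (t j)) : z < ρ (t (j + 1)) z' := by
  by_contra hc
  have e : ρ (t (j + 1)) z' ∈ JJ ρ y (t j) :=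
    ⟨hz'.1.imp fun _ hk => hk.trans (T.act.pos (T.pos _) _),
      hz.2.imp fun _ hk => (not_lt.1 hc).trans hk⟩
  have := T.fix_nat hj (JJ_move T.act hy hz') le_rfl T.hN
  rw [pow_one] at this
  exact JJ_move T.act hy e this

theorem lt_act {j : ℕ} (hj : j ≤ n) : y < ρ (t j) y := by
  induction j with
  | zero => exact lt_of_le_of_ne (T.act.pos (T.pos 0) y) T.move.symm
  | succ j ih => exact T.sep hj (ih (Nat.le_of_succ_le hj)) (JJ_self T.act) (JJ_self T.act)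

theorem word_mem (v : ℕ → ℤ) {j : ℕ} (hj : j ≤ n) : ρ (word t v j) y ∈ JJ ρ y (t j) := by
  induction j with
  | zero => simpa [word, T.act.one] using JJ_self T.act
  | succ j ih =>
    have e := ih (Nat.le_of_succ_le hj)
    have hy := T.lt_act (Nat.le_of_succ_le hj)
    rw [word, T.act.mul]
    refine JJ_zpow T.act ⟨⟨-1, ?_⟩, ⟨1, ?_⟩⟩ _
    · rw [zpow_neg_one, T.act.inv_le_iff]
      exact (T.sep hj hy (JJ_self T.act) e).le
    · rw [zpow_one]
      exact (T.sep hj hy e (JJ_self T.act)).le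

theorem word_lt {v w : ℕ → ℤ} {i j : ℕ} (hij : i < j) (hj : j ≤ n) (h1 : v i < w i)
    (h2 : ∀ l, i < l → l < j → v l = w l) : ρ (word t v j) y < ρ (word t w j) y := by
  induction j with
  | zero => exact absurd hij (Nat.not_lt_zero i)
  | succ j ih =>
    rw [word, word, T.act.mul, T.act.mul]
    rcases Nat.lt_succ_iff_lt_or_eq.1 hij with e | rfl
    · rw [h2 j e (Nat.lt_succ_self j)]
      exact T.act.mono _ (ih e (Nat.le_of_succ_le hj) fun l a b => h2 l a (Nat.lt_succ_of_lt b))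
    · have hi := Nat.le_of_succ_le hj
      have e := T.act.mono (t (i + 1) ^ v i)
        (T.sep hj (T.lt_act hi) (T.word_mem v hi) (T.word_mem w hi))
      rw [← T.act.mul (t (i + 1) ^ v i) (t (i + 1)), ← zpow_add_one] at e
      exact e.trans_le (T.act.le (zpow_mono_of (T.pos _) h1) _)

theorem word_pair {v v' w w' : ℕ → ℤ} {i j : ℕ} (hij : i < j) (hj : j ≤ n) (h0 : v i ≠ v' i)
    (hb : |v i - v' i| ≤ N) (h1 : w i - w' i = v i - v' i)
    (h2 : ∀ l, i < l → l < j → v l = v' l) (h3 : ∀ l, i < l → l < j → w l = w' l) :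
    ∃ g, ρ (word t w j) y ≤ ρ g (ρ (word t v j) y) ∧
      ρ g (ρ (word t v' j) y) ≤ ρ (word t w' j) y := by
  have h := T.act
  induction j with
  | zero => exact absurd hij (Nat.not_lt_zero i)
  | succ j ih =>
    simp only [word, h.mul]
    rcases Nat.lt_succ_iff_lt_or_eq.1 hij with e | rfl
    · obtain ⟨g, g1, g2⟩ := ih e (Nat.le_of_succ_le hj)
        (fun l a b => h2 l a (Nat.lt_succ_of_lt b)) (fun l a b => h3 l a (Nat.lt_succ_of_lt b))
      rw [← h2 j e (Nat.lt_succ_self j), ← h3 j e (Nat.lt_succ_self j)]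
      refine ⟨t (j + 1) ^ w j * g * (t (j + 1) ^ v j)⁻¹, ?_, ?_⟩
      · rw [h.mul, h.mul, h.inv_act]; exact h.mon _ g1
      · rw [h.mul, h.mul, h.inv_act]; exact h.mon _ g2
    · have hi := Nat.le_of_succ_le hj
      have hy := T.lt_act hi
      have z1 := T.word_mem v hi
      have z2 := T.word_mem v' hi
      have z3 := T.word_mem w hi
      have z4 := T.word_mem w' hi
      obtain ⟨k, hk⟩ := JJ_reach h z1 z3
      obtain ⟨k', hk'⟩ := JJ_reach h z4 z2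
      set d := v i - v' i with hd
      have hd0 : d ≠ 0 := sub_ne_zero.2 h0
      refine ⟨t (i + 1) ^ w i * (t i ^ k * (t (i + 1) ^ (-d) * (t i ^ (-k') *
        (t (i + 1) ^ d * (t (i + 1) ^ v i)⁻¹)))), ?_, ?_⟩
      · simp only [h.mul]
        rw [h.inv_act, h.fix_zpow (T.fix_int hj (JJ_move h hy z1) hd0 hb), zpow_neg, h.inv_act]
        exact h.mon _ hk
      · simp only [h.mul]
        have e1 : ρ (t (i + 1) ^ d) (ρ (t (i + 1) ^ v i)⁻¹ (ρ (t (i + 1) ^ v' i)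
            (ρ (word t v' i) y))) = ρ (word t v' i) y := by
          rw [← h.mul, ← h.mul, ← zpow_neg, ← zpow_add, ← zpow_add]
          have : d + -v i + v' i = 0 := by rw [hd]; ring
          rw [this, zpow_zero, h.one]
        rw [e1, h.fix_zpow (T.fix_int hj (JJ_move h hy (JJ_zpow h z2 (-k'))) (neg_ne_zero.2 hd0)
          (by rwa [abs_neg])), ← h.mul, ← zpow_add]
        have : w i + -d = w' i := by rw [← h1]; ring
        rw [this]
        refine h.mon _ ?_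
        rw [zpow_neg, h.inv_le_iff]
        exact hk'

end TowerAct

theorem int_approx (A : Finset ℝ) : ∃ π : ℝ → ℤ,
    (∀ a ∈ A, ∀ b ∈ A, ∀ c ∈ A, ∀ d ∈ A, a - b = c - d → π a - π b = π c - π d) ∧
    ∀ a ∈ A, ∀ b ∈ A, a < b → π a < π b := by
  classical
  obtain ⟨Q, hQ⟩ : ∃ Q : ℝ, ∀ a ∈ A, ∀ b ∈ A, a < b → 1 ≤ Q * (b - a) := by
    obtain ⟨Q, hQ⟩ := ((A ×ˢ A).image fun p => 1 / (p.2 - p.1)).bddAbove
    refine ⟨Q, fun a ha b hb hab => ?_⟩
    have := hQ (Finset.mem_coe.2 (Finset.mem_image.2 ⟨(a, b), Finset.mem_product.2 ⟨ha, hb⟩, rfl⟩))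
    rwa [div_le_iff₀ (sub_pos.2 hab)] at this
  have hr : ∀ x : ℝ, 0 ≤ ⌊4 * Int.fract x⌋ ∧ ⌊4 * Int.fract x⌋ < 4 := fun x =>
    ⟨Int.floor_nonneg.2 (by have := Int.fract_nonneg x; positivity),
      Int.floor_lt.2 (by have := Int.fract_lt_one x; push_cast; linarith)⟩
  let F : ℕ → A → Finset.Ico (0 : ℤ) 4 := fun j a =>
    ⟨⌊4 * Int.fract (j * Q * a)⌋, Finset.mem_Ico.2 (hr _)⟩
  obtain ⟨j, j', hjj, hF⟩ : ∃ j j', j < j' ∧ F j = F j' := by
    obtain ⟨j, j', h1, h2⟩ := Finite.exists_ne_map_eq_of_infinite F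
    rcases lt_or_gt_of_ne h1 with h | h
    · exact ⟨j, j', h, h2⟩
    · exact ⟨j', j, h, h2.symm⟩
  have key : ∀ a ∈ A, |((j' : ℝ) - j) * Q * a - ((⌊j' * Q * a⌋ - ⌊j * Q * a⌋ : ℤ) : ℝ)| < 1 / 4 := by
    intro a ha
    have e : ⌊4 * Int.fract (j * Q * a)⌋ = ⌊4 * Int.fract (j' * Q * a)⌋ :=
      congrArg Subtype.val (congrFun hF ⟨a, ha⟩)
    have e1 := Int.abs_sub_lt_one_of_floor_eq_floor e
    simp only [Int.fract] at e1
    push_cast
    rw [abs_lt] at e1 ⊢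
    constructor <;> linarith [e1.1, e1.2]
  refine ⟨fun a => ⌊j' * Q * a⌋ - ⌊j * Q * a⌋, fun a ha b hb c hc d hd h => ?_,
    fun a ha b hb h => ?_⟩
  · have k1 := abs_lt.1 (key a ha)
    have k2 := abs_lt.1 (key b hb)
    have k3 := abs_lt.1 (key c hc)
    have k4 := abs_lt.1 (key d hd)
    have e : ((j' : ℝ) - j) * Q * a - ((j' : ℝ) - j) * Q * b =
        ((j' : ℝ) - j) * Q * c - ((j' : ℝ) - j) * Q * d := by
      rw [← mul_sub, ← mul_sub, h]
    simp only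
    generalize (⌊j' * Q * a⌋ - ⌊j * Q * a⌋ : ℤ) = pa at *
    generalize (⌊j' * Q * b⌋ - ⌊j * Q * b⌋ : ℤ) = pb at *
    generalize (⌊j' * Q * c⌋ - ⌊j * Q * c⌋ : ℤ) = pc at *
    generalize (⌊j' * Q * d⌋ - ⌊j * Q * d⌋ : ℤ) = pd at *
    have l1 : ((pa - pb - (pc - pd) : ℤ) : ℝ) < 1 := by push_cast; linarith [k1.1, k2.2, k3.2, k4.1]
    have l2 : (-1 : ℝ) < ((pa - pb - (pc - pd) : ℤ) : ℝ) := by
      push_cast; linarith [k1.2, k2.1, k3.1, k4.2]
    have l1' : pa - pb - (pc - pd) < 1 := by exact_mod_cast l1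
    have l2' : -1 < pa - pb - (pc - pd) := by exact_mod_cast l2
    omega
  · have k1 := abs_lt.1 (key a ha)
    have k2 := abs_lt.1 (key b hb)
    have e1 := hQ a ha b hb h
    have e2 : (1 : ℝ) ≤ (j' : ℝ) - j := by
      have : ((j + 1 : ℕ) : ℝ) ≤ j' := by exact_mod_cast hjj
      push_cast at this; linarith
    have e3 : 1 ≤ ((j' : ℝ) - j) * Q * b - ((j' : ℝ) - j) * Q * a := by nlinarith
    simp only
    generalize (⌊j' * Q * a⌋ - ⌊j * Q * a⌋ : ℤ) = pa at *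
    generalize (⌊j' * Q * b⌋ - ⌊j * Q * b⌋ : ℤ) = pb at *
    have : (pa : ℝ) < pb := by linarith [k1.1, k2.2]
    exact_mod_cast this

end Pool.Agent.MP_a2e0a9_al

end

-- part MP_a2e0a9_al.Aut
section

/-! Lattice-ordered groups of order automorphisms of a chain; homomorphisms; products. -/

namespace Pool.Agent.MP_a2e0a9_al

universe u v

/-- A class of increasing maps closed under the operations. -/
structure Closed {Ω : Type v} [LinearOrder Ω] (P : (Ω → Ω) → Prop) : Prop where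
  id : P fun x => x
  comp : ∀ f g, P f → P g → P fun x => f (g x)
  inv : ∀ f g, P f → (∀ x, f (g x) = x) → (∀ x, g (f x) = x) → P g
  max : ∀ f g, P f → P g → P fun x => max (f x) (g x)
  mono : ∀ f, P f → StrictMono f

variable {Ω : Type v} [LinearOrder Ω] {P : (Ω → Ω) → Prop}

/-- The subgroup of permutations in the class. -/
def Closed.sub (hP : Closed P) : Subgroup (Equiv.Perm Ω) where
  carrier := {φ | P φ}
  mul_mem' := fun {a b} ha hb => hP.comp a b ha hb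
  one_mem' := hP.id
  inv_mem' := fun {a} ha => hP.inv a a.symm ha a.apply_symm_apply a.symm_apply_apply

/-- The group of permutations in the class. -/
def AutP (hP : Closed P) : Type v := hP.sub

namespace AutP
variable {hP : Closed P}

instance : Group (AutP hP) := inferInstanceAs (Group hP.sub)

/-- Underlying function. -/
def app (φ : AutP hP) (x : Ω) : Ω := φ.1 x

theorem prop (φ : AutP hP) : P φ.app := φ.2

theorem ext' {φ ψ : AutP hP} (h : ∀ x, φ.app x = ψ.app x) : φ = ψ :=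
  Subtype.ext (Equiv.ext h)

theorem app_one (x : Ω) : (1 : AutP hP).app x = x := rfl
theorem app_mul (φ ψ : AutP hP) (x : Ω) : (φ * ψ).app x = φ.app (ψ.app x) := rfl
theorem app_inv (φ : AutP hP) (x : Ω) : φ.app (φ⁻¹.app x) = x := φ.1.apply_symm_apply x
theorem inv_app (φ : AutP hP) (x : Ω) : φ⁻¹.app (φ.app x) = x := φ.1.symm_apply_apply x
theorem mono (φ : AutP hP) : StrictMono φ.app := hP.mono _ φ.prop

/-- Build an element from a function with an inverse. -/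
def mk' (hP : Closed P) (f g : Ω → Ω) (hf : P f) (h1 : ∀ x, f (g x) = x) (h2 : ∀ x, g (f x) = x) :
    AutP hP := ⟨⟨f, g, h2, h1⟩, hf⟩

/-- Pointwise maximum. -/
def sup' (φ ψ : AutP hP) : AutP hP :=
  mk' hP (fun x => max (φ.app x) (ψ.app x)) (fun x => min (φ⁻¹.app x) (ψ⁻¹.app x))
    (hP.max _ _ φ.prop ψ.prop)
    (fun x => by
      rcases le_total (φ⁻¹.app x) (ψ⁻¹.app x) with h | h
      · rw [min_eq_left h, app_inv]
        exact max_eq_left ((ψ.mono.monotone h).trans_eq (app_inv _ _))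
      · rw [min_eq_right h, app_inv]
        exact max_eq_right ((φ.mono.monotone h).trans_eq (app_inv _ _)))
    (fun x => by
      rcases le_total (φ.app x) (ψ.app x) with h | h
      · rw [max_eq_right h, inv_app]
        exact min_eq_right ((inv_app _ _).symm.trans_le (φ⁻¹.mono.monotone h))
      · rw [max_eq_left h, inv_app]
        exact min_eq_left ((inv_app _ _).symm.trans_le (ψ⁻¹.mono.monotone h)))

theorem inv_le {φ ψ : AutP hP} (h : ∀ x, φ.app x ≤ ψ.app x) (x : Ω) :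
    ψ⁻¹.app x ≤ φ⁻¹.app x := by
  have := ψ⁻¹.mono.monotone (h (φ⁻¹.app x))
  rwa [app_inv, inv_app] at this

instance : Lattice (AutP hP) where
  le φ ψ := ∀ x, φ.app x ≤ ψ.app x
  le_refl _ _ := le_rfl
  le_trans _ _ _ h1 h2 x := (h1 x).trans (h2 x)
  le_antisymm _ _ h1 h2 := ext' fun x => le_antisymm (h1 x) (h2 x)
  sup := sup'
  le_sup_left _ _ _ := le_max_left _ _
  le_sup_right _ _ _ := le_max_right _ _
  sup_le _ _ _ h1 h2 x := max_le (h1 x) (h2 x)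
  inf φ ψ := (sup' φ⁻¹ ψ⁻¹)⁻¹
  inf_le_left _ _ _ := min_le_left _ _
  inf_le_right _ _ _ := min_le_right _ _
  le_inf _ _ _ h1 h2 x := le_min (h1 x) (h2 x)

theorem le_def {φ ψ : AutP hP} : φ ≤ ψ ↔ ∀ x, φ.app x ≤ ψ.app x := Iff.rfl

instance : MulLeftMono (AutP hP) := ⟨fun φ _ _ h x => φ.mono.monotone (h x)⟩
instance : MulRightMono (AutP hP) := ⟨fun φ _ _ h x => h (φ.app x)⟩

theorem isLAct : IsLAct (app : AutP hP → Ω → Ω) :=
  ⟨app_one, app_mul, mono, fun _ _ _ => rfl⟩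

end AutP

/-- The bundled lattice-ordered group. -/
abbrev Closed.lgrp (hP : Closed P) : LGrp.{v} := { carrier := AutP hP }

section Hom
variable {G : LGrp.{u}} {H : LGrp.{v}} {f : G.carrier → H.carrier}

theorem isLHom_of (h1 : ∀ a b, f (a * b) = f a * f b) (h2 : ∀ a b, f (a ⊔ b) = f a ⊔ f b) :
    IsLHom f := by
  refine ⟨h1, h2, fun a b => ?_⟩
  have e := map_inv (MonoidHom.mk' f h1)
  simp only [MonoidHom.mk'_apply] at e
  have : a ⊓ b = (a⁻¹ ⊔ b⁻¹)⁻¹ := by rw [inv_sup, inv_inv, inv_inv]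
  rw [this, e, h2, e, e, inv_sup, inv_inv, inv_inv]

theorem IsLHom.map_one (h : IsLHom f) : f 1 = 1 := _root_.map_one (MonoidHom.mk' f h.1)
theorem IsLHom.map_inv (h : IsLHom f) (a) : f a⁻¹ = (f a)⁻¹ :=
  _root_.map_inv (MonoidHom.mk' f h.1) a
theorem IsLHom.map_pow (h : IsLHom f) (a) (n : ℕ) : f (a ^ n) = (f a) ^ n :=
  _root_.map_pow (MonoidHom.mk' f h.1) a n
theorem IsLHom.map_zpow (h : IsLHom f) (a) (n : ℤ) : f (a ^ n) = (f a) ^ n :=
  _root_.map_zpow (MonoidHom.mk' f h.1) a n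
theorem IsLHom.mono (h : IsLHom f) {a b} (hab : a ≤ b) : f a ≤ f b := by
  have := h.2.1 a b
  rw [sup_eq_right.2 hab] at this
  rw [this]; exact le_sup_left
theorem IsLHom.one_le (h : IsLHom f) {a} (ha : 1 ≤ a) : 1 ≤ f a := h.map_one ▸ h.mono ha

theorem IsLHom.comp {K : LGrp} {g : H.carrier → K.carrier} (hg : IsLHom g) (hf : IsLHom f) :
    IsLHom fun a => g (f a) :=
  ⟨fun a b => by simp only [hf.1, hg.1], fun a b => by simp only [hf.2.1, hg.2.1],
    fun a b => by simp only [hf.2.2, hg.2.2]⟩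

theorem IsLHom.emb (h : IsLHom f) (h1 : ∀ a, f a = 1 → a = 1) : IsLEmb f :=
  ⟨h, (injective_iff_map_eq_one (MonoidHom.mk' f h.1)).2 h1⟩

theorem IsLEmb.ne_one (h : IsLEmb f) {a} (ha : a ≠ 1) : f a ≠ 1 := fun hc =>
  ha (h.2 (hc.trans h.1.map_one.symm))

theorem IsLEmb.one_lt (h : IsLEmb f) {a} (ha : 1 < a) : 1 < f a :=
  lt_of_le_of_ne (h.1.one_le ha.le) (h.ne_one ha.ne').symm

theorem IsLHom.eval (h : IsLHom f) (x : ℕ → G.carrier) (t : Term) :
    t.eval (fun n => f (x n)) = f (t.eval x) := by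
  induction t with
  | var n => rfl
  | one => exact h.map_one.symm
  | mul s t hs ht => simp only [Term.eval, hs, ht, h.1]
  | inv s hs => simp only [Term.eval, hs, h.map_inv]
  | sup s t hs ht => simp only [Term.eval, hs, ht, h.2.1]
  | inf s t hs ht => simp only [Term.eval, hs, ht, h.2.2]

theorem IsLEmb.sat (h : IsLEmb f) {S : Set (Term × Term)} (hS : Sat S H) : Sat S G := by
  intro p hp x
  apply h.2
  rw [← h.1.eval, ← h.1.eval]
  exact hS p hp _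

theorem IsLHom.act (h : IsLHom f) {ρ : H.carrier → Ω → Ω} (hρ : IsLAct ρ) :
    IsLAct fun g => ρ (f g) :=
  ⟨fun x => by rw [h.map_one, hρ.one], fun a b x => by rw [h.1, hρ.mul], fun g => hρ.mono _,
    fun a b x => by rw [h.2.1, hρ.sup]⟩

end Hom

/-- An action by maps in the class gives a homomorphism. -/
theorem exists_hom_of_act (hP : Closed P) {G : LGrp.{u}} {ρ : G.carrier → Ω → Ω} (h : IsLAct ρ)
    (hρ : ∀ g, P (ρ g)) : ∃ f : G.carrier → hP.lgrp.carrier, IsLHom f ∧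
      ∀ g x, AutP.app (hP := hP) (f g) x = ρ g x := by
  refine ⟨fun g => AutP.mk' hP (ρ g) (ρ g⁻¹) (hρ g) (h.act_inv g) (h.inv_act g),
    isLHom_of (fun a b => ?_) (fun a b => ?_), fun _ _ => rfl⟩
  · exact AutP.ext' (hP := hP) fun x => h.mul a b x
  · exact AutP.ext' (hP := hP) fun x => h.sup a b x

/-- Powers of a positive element give an embedding of the integers. -/
theorem int_emb {G : LGrp.{u}} {b : G.carrier} (hb : 1 < b) :
    IsLEmb (G := intLGrp) (H := G) fun n : Multiplicative ℤ => b ^ n.toAdd := by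
  have hm : StrictMono fun n : ℤ => b ^ n := by
    refine strictMono_int_of_lt_succ fun n => ?_
    rw [zpow_add_one]
    exact lt_mul_of_one_lt_right' _ hb
  refine ⟨isLHom_of (fun a c => ?_) (fun a c => ?_), fun a c hac => ?_⟩
  · exact zpow_add b _ _
  · rcases le_total (α := ℤ) a c with h | h
    · have h' : a ≤ c := h
      rw [sup_eq_right.2 h']
      exact (sup_eq_right.2 (hm.monotone h)).symm
    · have h' : c ≤ a := h
      rw [sup_eq_left.2 h']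
      exact (sup_eq_left.2 (hm.monotone h)).symm
  · exact hm.injective hac

theorem emb_int {G : LGrp.{u}} {f : intLGrp.carrier → G.carrier} (hf : IsLEmb f) :
    ∃ b : G.carrier, 1 < b ∧ ∀ n : Multiplicative ℤ, f n = b ^ n.toAdd := by
  refine ⟨f (Multiplicative.ofAdd (1 : ℤ)), hf.one_lt ?_, fun n => ?_⟩
  · show (1 : Multiplicative ℤ) < Multiplicative.ofAdd (1 : ℤ)
    exact show (0 : ℤ) < 1 from zero_lt_one
  · refine Eq.trans ?_ (hf.1.map_zpow _ _)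
    congr 1
    show n = (Multiplicative.ofAdd (1 : ℤ)) ^ n.toAdd
    rw [← ofAdd_zsmul, smul_eq_mul, mul_one]; rfl

/-- Products. -/
abbrev piLGrp {ι : Type u} (D : ι → LGrp.{u}) : LGrp.{u} where
  carrier := ∀ i, (D i).carrier
  ml := ⟨fun a b c h i => mul_le_mul_right ((show b ≤ c from h) i) (a i)⟩
  mr := ⟨fun a b c h i => mul_le_mul_left ((show b ≤ c from h) i) (a i)⟩

end Pool.Agent.MP_a2e0a9_al

end

-- part MP_a2e0a9_al.Tower
section

/-! Towers of elements in a non-representable variety with the integers as amalgamation base. -/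

namespace Pool.Agent.MP_a2e0a9_al

universe u

theorem exists_disj_of_not_rep {G : LGrp.{u}} (hG : ¬ Representable G) :
    ∃ a g : G.carrier, 1 < a ∧ a ⊓ (g⁻¹ * a * g) = 1 := by
  by_contra hc
  push Not at hc
  apply hG
  intro a ha
  obtain ⟨Ω, _, ρ, x, h, htr, hx⟩ := holland ha
  have hP : Closed fun f : Ω → Ω => ∃ g, f = ρ g := by
    refine ⟨⟨1, funext fun z => (h.one z).symm⟩, ?_, ?_, ?_, ?_⟩
    · rintro _ _ ⟨g, rfl⟩ ⟨k, rfl⟩
      exact ⟨g * k, funext fun z => (h.mul g k z).symm⟩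
    · rintro _ k ⟨g, rfl⟩ h1 _
      exact ⟨g⁻¹, funext fun z => ((h.inv_eq_iff g).2 (h1 z).symm).symm⟩
    · rintro _ _ ⟨g, rfl⟩ ⟨k, rfl⟩
      exact ⟨g ⊔ k, funext fun z => (h.sup g k z).symm⟩
    · rintro _ ⟨g, rfl⟩
      exact h.mono g
  obtain ⟨f, hf, hf'⟩ := exists_hom_of_act hP h fun g => ⟨g, rfl⟩
  refine ⟨hP.lgrp, f, fun φ ψ => ?_, hf, fun h1 => hx ?_⟩
  · obtain ⟨g, hg⟩ := φ.prop
    obtain ⟨k, hk⟩ := ψ.prop
    rw [AutP.le_def, AutP.le_def, hg, hk]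
    by_contra h1
    push Not at h1
    obtain ⟨⟨z1, h1⟩, ⟨z2, h2⟩⟩ := h1
    have hab : ((g * k⁻¹) ⊔ 1) ⊓ ((k * g⁻¹) ⊔ 1) = 1 := by
      refine eq_one_of_act fun Ω' _ ρ' h' z => ?_
      rw [h'.inf]
      rcases le_total (ρ' (g * k⁻¹) z) z with e | e
      · rw [h'.sup_one_fix e]; exact min_eq_left (h'.pos le_sup_right z)
      · have e' : ρ' (k * g⁻¹) z ≤ z := by
          rw [h'.mul] at e ⊢
          rwa [← h'.le_inv_iff, h'.inv_le_iff]
        rw [h'.sup_one_fix e']; exact min_eq_right (h'.pos le_sup_right z)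
    obtain ⟨u, hu⟩ := htr (ρ k z1)
    obtain ⟨v, hv⟩ := htr (ρ g z2)
    set a := (g * k⁻¹) ⊔ 1
    set b := (k * g⁻¹) ⊔ 1
    set w := v * u⁻¹
    have hw : ρ w (ρ k z1) = ρ g z2 := by rw [h.mul, ← hu, h.inv_act, hv]
    have m1 : ρ k z1 < ρ a (ρ k z1) :=
      lt_of_lt_of_le (by rw [h.mul, h.inv_act]; exact h1) (h.le le_sup_left _)
    have m2 : ρ k z1 < ρ (w⁻¹ * b * w) (ρ k z1) := by
      rw [h.mul, h.mul, hw, h.lt_inv_iff, hw]
      exact lt_of_lt_of_le (by rw [h.mul, h.inv_act]; exact h2) (h.le le_sup_left _)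
    have c1 : 1 ≤ a ⊓ (w⁻¹ * b * w) :=
      le_inf le_sup_right (one_le_conj le_sup_right _ _ (inv_mul_cancel w))
    have c2 : a ⊓ (w⁻¹ * b * w) ≠ 1 := by
      intro e
      rcases h.disj e (ρ k z1) with e' | e'
      · exact m1.ne' e'
      · exact m2.ne' e'
    refine hc _ w⁻¹ (lt_of_le_of_ne c1 c2.symm) (le_antisymm ?_
      (le_inf c1 (one_le_conj c1 _ _ (inv_mul_cancel _))))
    rw [← hab]
    refine inf_le_inf inf_le_left ?_
    calc w⁻¹⁻¹ * (a ⊓ (w⁻¹ * b * w)) * w⁻¹ ≤ w⁻¹⁻¹ * (w⁻¹ * b * w) * w⁻¹ :=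
          mul_le_mul_left (mul_le_mul_right inf_le_right _) _
      _ = b := by group
  · rw [← hf', h1]; rfl

section
variable {G : Type u} [Group G] [Lattice G] [MulLeftMono G] [MulRightMono G]

theorem pos_pair_aux {a g : G} (ha : 1 ≤ a) (hd : a ⊓ (g⁻¹ * a * g) = 1) {Ω : Type u}
    [LinearOrder Ω] {ρ : G → Ω → Ω} (h : IsLAct ρ) {x : Ω} (hx : ρ a x ≠ x) (hg : x < ρ g x) :
    ∃ y t : G, 1 < y ∧ 1 < t ∧ y ⊓ (t⁻¹ * y * t) = 1 := by
  have key : ∀ (Ω : Type u) [LinearOrder Ω] (ρ : G → Ω → Ω), IsLAct ρ → ∀ z, ρ a z ≠ z →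
      ρ a (ρ g z) = ρ g z := by
    intro Ω _ ρ h z hz
    have := (h.disj hd z).resolve_left hz
    rwa [h.mul, h.mul, h.inv_eq_iff] at this
  set t := g ⊔ 1 with ht
  have ht1 : 1 ≤ t := le_sup_right
  set y := (a * (t⁻¹ * a * t)⁻¹) ⊔ 1 with hy
  have hya : y ≤ a := sup_le (mul_le_of_le_one_right' (inv_le_one'.2
    (one_le_conj ha _ _ (inv_mul_cancel t)))) ha
  have tx : ρ t x = ρ g x := h.sup_one_of_le hg.le
  refine ⟨y, t, lt_of_le_of_ne le_sup_right fun hc => hx ?_,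
    lt_of_le_of_ne ht1 fun hc => hg.ne' ?_, ?_⟩
  · have e1 : ρ (t⁻¹ * a * t) x = x := by
      rw [h.mul, h.mul, tx, key Ω ρ h x hx, ← tx, h.inv_act]
    have e2 := h.le (le_sup_left.trans_eq hc.symm) x
    rw [h.mul, h.fix_inv e1, h.one] at e2
    exact le_antisymm e2 (h.pos ha x)
  · rw [← tx, ← hc, h.one]
  · refine eq_one_of_act fun Ω' _ ρ' h' z => ?_
    rw [h'.inf]
    have p1 := h'.pos (show 1 ≤ y from le_sup_right) z
    have p2 := h'.pos (one_le_conj (show 1 ≤ y from le_sup_right) _ _ (inv_mul_cancel t)) z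
    by_cases hz : ρ' y z = z
    · rw [hz]; exact min_eq_left p2
    · have e1 : ρ' t z ≠ z := by
        intro e
        apply hz
        refine h'.sup_one_fix ?_
        have : a * (t⁻¹ * a * t)⁻¹ = a * (t⁻¹ * (a⁻¹ * t)) := by group
        rw [this, h'.mul, h'.mul, h'.mul, e, ← h'.le_inv_iff]
        exact h'.neg (inv_le_one'.2 ht1) _
      have e2 : ρ' t z = ρ' g z := by
        rw [ht, h'.sup, h'.one] at e1 ⊢
        rcases max_cases (ρ' g z) z with e | e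
        · exact e.1
        · exact absurd e.1 e1
      have e3 : ρ' a z ≠ z := fun e => hz (le_antisymm ((h'.le hya z).trans_eq e) p1)
      have e4 : ρ' y (ρ' t z) = ρ' t z := by
        refine le_antisymm ((h'.le hya _).trans_eq ?_) (h'.pos le_sup_right _)
        rw [e2, key Ω' ρ' h' z e3]
      have e5 : ρ' (t⁻¹ * y * t) z = z := by rw [h'.mul, h'.mul, e4, h'.inv_act]
      rw [e5]; exact min_eq_right p1

theorem pos_pair {a g : G} (ha : 1 < a) (hd : a ⊓ (g⁻¹ * a * g) = 1) :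
    ∃ y t : G, 1 < y ∧ 1 < t ∧ y ⊓ (t⁻¹ * y * t) = 1 := by
  obtain ⟨Ω, _, ρ, x, h, -, hx⟩ := holland ha.ne'
  rcases lt_trichotomy x (ρ g x) with h1 | h1 | h1
  · exact pos_pair_aux ha.le hd h hx h1
  · have := (h.disj hd x).resolve_left hx
    rw [h.mul, h.mul, h.inv_eq_iff, ← h1] at this
    exact absurd this hx
  · refine pos_pair_aux (g := g⁻¹) ha.le ?_ h hx ((h.lt_inv_iff g).2 h1)
    have : g * (a ⊓ (g⁻¹ * a * g)) * g⁻¹ = a ⊓ (g⁻¹⁻¹ * a * g⁻¹) := by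
      rw [mul_inf, inf_mul, inf_comm]
      congr 1 <;> group
    rw [← this, hd]; group

theorem multi_pair {y s : G} (N : ℕ) (hy : 1 < y)
    (hd : y ⊓ ((s ^ N.factorial)⁻¹ * y * s ^ N.factorial) = 1) :
    ∃ z : G, 1 < z ∧ ∀ i, 1 ≤ i → i ≤ N → z ⊓ ((s ^ i)⁻¹ * z * s ^ i) = 1 := by
  classical
  by_contra hc
  push Not at hc
  have key : ∀ k : ℕ, ∃ (z : G) (n : ℕ → ℕ), 1 < z ∧ ∑ i ∈ Finset.Icc 1 N, n i = k ∧
      ∀ i j, j ≤ n i → z ≤ (s ^ (j * i))⁻¹ * y * s ^ (j * i) := by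
    intro k
    induction k with
    | zero =>
      refine ⟨y, fun _ => 0, hy, by simp, fun i j hj => ?_⟩
      rw [Nat.le_zero.1 hj]; simp
    | succ k ih =>
      obtain ⟨z, n, hz, hn, hle⟩ := ih
      obtain ⟨i, h1, h2, h3⟩ := hc z hz
      refine ⟨z ⊓ ((s ^ i)⁻¹ * z * s ^ i), Function.update n i (n i + 1),
        lt_of_le_of_ne (le_inf hz.le (one_le_conj hz.le _ _ (inv_mul_cancel _))) h3.symm, ?_,
        fun i' j hj => ?_⟩
      · have hi : i ∈ Finset.Icc 1 N := Finset.mem_Icc.2 ⟨h1, h2⟩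
        rw [Finset.sum_update_of_mem hi, ← hn, ← Finset.sum_erase_add _ _ hi,
          Finset.sdiff_singleton_eq_erase]
        ring
      · by_cases e : i' = i
        · subst e
          rw [Function.update_self] at hj
          rcases Nat.eq_zero_or_pos j with rfl | hj0
          · exact inf_le_left.trans (hle i' 0 (Nat.zero_le _))
          · obtain ⟨j, rfl⟩ : ∃ j', j = j' + 1 := ⟨j - 1, by omega⟩
            refine inf_le_right.trans ?_
            calc (s ^ i')⁻¹ * z * s ^ i'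
                ≤ (s ^ i')⁻¹ * ((s ^ (j * i'))⁻¹ * y * s ^ (j * i')) * s ^ i' :=
                  mul_le_mul_left (mul_le_mul_right (hle i' j (by omega)) _) _
              _ = _ := by rw [add_mul, one_mul, pow_add]; group
        · rw [Function.update_of_ne e] at hj
          exact inf_le_left.trans (hle i' j hj)
  obtain ⟨z, n, hz, hn, hle⟩ := key (N * N.factorial + 1)
  have : ∃ i ∈ Finset.Icc 1 N, N.factorial < n i := by
    by_contra h1
    push Not at h1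
    have := Finset.sum_le_card_nsmul _ _ _ h1
    rw [hn, Nat.card_Icc, smul_eq_mul] at this
    simp at this
  obtain ⟨i, hi, h1⟩ := this
  rw [Finset.mem_Icc] at hi
  obtain ⟨j, hj⟩ := Nat.dvd_factorial hi.1 hi.2
  have e1 := hle i j (by nlinarith [hi.1])
  have e2 := hle i 0 (Nat.zero_le _)
  rw [mul_comm j i, ← hj] at e1
  simp only [zero_mul, pow_zero, inv_one, one_mul, mul_one] at e2
  exact absurd (le_inf e2 e1) (by rw [hd]; exact hz.not_ge)

end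

variable {S : Set (Term × Term)}

theorem IsAmalgBase.amal (hA : IsAmalgBase.{u} S intLGrp) {B C : LGrp.{u}} (hB : Sat S B)
    (hC : Sat S C) {b : B.carrier} {c : C.carrier} (hb : 1 < b) (hc : 1 < c) :
    ∃ (D : LGrp.{u}) (h : B.carrier → D.carrier) (k : C.carrier → D.carrier),
      Sat S D ∧ IsLEmb h ∧ IsLEmb k ∧ h b = k c := by
  obtain ⟨D, h, k, h1, h2, h3, h4⟩ := hA.2 B C hB hC _ _ (int_emb hb) (int_emb hc)
  refine ⟨D, h, k, h1, h2, h3, ?_⟩
  have : h (b ^ (1 : ℤ)) = k (c ^ (1 : ℤ)) := congrFun h4 (Multiplicative.ofAdd (1 : ℤ))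
  simpa using this

theorem IsLHom.disj {G H : LGrp.{u}} {f : G.carrier → H.carrier} (hf : IsLHom f)
    {y s : G.carrier} {i : ℕ} (h : y ⊓ ((s ^ i)⁻¹ * y * s ^ i) = 1) :
    f y ⊓ ((f s ^ i)⁻¹ * f y * f s ^ i) = 1 := by
  rw [← hf.map_pow, ← hf.map_inv, ← hf.1, ← hf.1, ← hf.2.2, h, hf.map_one]

theorem exists_pair (hA : IsAmalgBase.{u} S intLGrp) {G : LGrp.{u}} (hG : Sat S G)
    (hR : ¬ Representable G) (N : ℕ) : ∃ (D : LGrp.{u}) (z s : D.carrier), Sat S D ∧ 1 < z ∧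
      1 < s ∧ ∀ i, 1 ≤ i → i ≤ N → z ⊓ ((s ^ i)⁻¹ * z * s ^ i) = 1 := by
  obtain ⟨a, g, ha, hd⟩ := exists_disj_of_not_rep hR
  obtain ⟨y, t, hy, ht, hd'⟩ := pos_pair ha hd
  obtain ⟨D, h, k, h1, h2, h3, h4⟩ := hA.amal hG hG ht
    (one_lt_pow' ht (Nat.factorial_ne_zero N))
  have e := h2.1.disj (y := y) (s := t) (i := 1) (by simpa using hd')
  rw [pow_one, h4, h3.1.map_pow] at e
  obtain ⟨z, hz, hz'⟩ := multi_pair N (h2.one_lt hy) e
  exact ⟨D, z, k t, h1, hz, h3.one_lt ht, hz'⟩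

theorem exists_tower (hA : IsAmalgBase.{u} S intLGrp) {G : LGrp.{u}} (hG : Sat S G)
    (hR : ¬ Representable G) (N n : ℕ) : ∃ (D : LGrp.{u}) (t : ℕ → D.carrier), Sat S D ∧
      (∀ j, 1 < t j) ∧ ∀ j < n, ∀ i, 1 ≤ i → i ≤ N →
        t j ⊓ ((t (j + 1) ^ i)⁻¹ * t j * t (j + 1) ^ i) = 1 := by
  obtain ⟨P, z, s, hP, hz, hs, hd⟩ := exists_pair hA hG hR N
  induction n with
  | zero => exact ⟨P, fun _ => z, hP, fun _ => hz, fun j hj => absurd hj (Nat.not_lt_zero j)⟩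
  | succ n ih =>
    obtain ⟨D, t, hD, ht, htd⟩ := ih
    obtain ⟨D', h, k, h1, h2, h3, h4⟩ := hA.amal hD hP (ht n) hz
    refine ⟨D', fun j => if j ≤ n then h (t j) else k s, h1, fun j => ?_, fun j hj i i1 i2 => ?_⟩
    · by_cases e : j ≤ n
      · simp only [if_pos e]; exact h2.one_lt (ht j)
      · simp only [if_neg e]; exact h3.one_lt hs
    · rcases Nat.lt_succ_iff_lt_or_eq.1 hj with e | rfl
      · simp only [if_pos e.le, if_pos (Nat.succ_le_of_lt e)]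
        exact h2.1.disj (htd j e i i1 i2)
      · simp only [le_refl, if_true, if_neg (Nat.not_succ_le_self j), h4]
        exact h3.1.disj (hd i i1 i2)

end Pool.Agent.MP_a2e0a9_al

end

-- part MP_a2e0a9_al.Diagram
section

/-! Finite diagrams: transferring the failure of a law. -/

namespace Pool.Agent.MP_a2e0a9_al

universe u

theorem pairwise_realise {G : Type u} [Group G] [Lattice G] [MulLeftMono G] [MulRightMono G]
    {Ω : Type u} [LinearOrder Ω] {ρ : G → Ω → Ω} (h : IsLAct ρ) {ι : Type u} (Y : Finset ι)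
    (src tgt : ι → Ω)
    (hY : ∀ p ∈ Y, ∀ q ∈ Y, ∃ g, tgt p ≤ ρ g (src p) ∧ ρ g (src q) ≤ tgt q) :
    ∃ g, ∀ p ∈ Y, ρ g (src p) = tgt p := by
  classical
  rcases Y.eq_empty_or_nonempty with rfl | hne
  · exact ⟨1, by simp⟩
  choose! F hF using hY
  refine ⟨Y.sup' hne fun p => Y.inf' hne fun q => F p q, fun p hp => le_antisymm ?_ ?_⟩
  · refine Finset.sup'_induction (p := fun g => ρ g (src p) ≤ tgt p) hne _ ?_ ?_
    · intro a ha b hb
      rw [h.sup]; exact max_le ha hb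
    · intro q hq
      exact (h.le (Finset.inf'_le _ hp) _).trans (hF q hq p hp).2
  · refine le_trans ?_ (h.le (Finset.le_sup' (fun p => Y.inf' hne fun q => F p q) hp) _)
    refine Finset.inf'_induction (p := fun g => tgt p ≤ ρ g (src p)) hne _ ?_ ?_
    · intro a ha b hb
      rw [h.inf]; exact le_min ha hb
    · intro q hq
      exact (hF p hp q hq).1

variable {G : LGrp.{u}} {Ω : Type u} [LinearOrder Ω] {ρ : G.carrier → Ω → Ω}

theorem diagram (h : IsLAct ρ) (x : ℕ → G.carrier) (t : Term) (a : Ω) :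
    ∃ X : Finset Ω, a ∈ X ∧ ρ (t.eval x) a ∈ X ∧
      ∀ (G' : LGrp.{u}) (Ω' : Type u) [LinearOrder Ω'] (ρ' : G'.carrier → Ω' → Ω')
        (π : Ω → Ω') (x' : ℕ → G'.carrier) (Y : Finset Ω), IsLAct ρ' → X ⊆ Y →
        MonotoneOn π Y → (∀ i, ∀ p ∈ Y, ρ (x i) p ∈ Y → ρ' (x' i) (π p) = π (ρ (x i) p)) →
        ρ' (t.eval x') (π a) = π (ρ (t.eval x) a) := by
  classical
  induction t generalizing a with
  | var n =>
    refine ⟨{a, ρ (x n) a}, by simp, by simp [Term.eval], ?_⟩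
    intro G' Ω' _ ρ' π x' Y _ hXY _ h2
    exact h2 n a (hXY (by simp)) (hXY (by simp))
  | one =>
    refine ⟨{a}, by simp, by simp [Term.eval, h.one], ?_⟩
    intro G' Ω' _ ρ' π x' Y h' _ _ _
    simp only [Term.eval, h.one, h'.one]
  | mul s t hs ht =>
    obtain ⟨X1, a1, b1, c1⟩ := ht a
    obtain ⟨X2, a2, b2, c2⟩ := hs (ρ (t.eval x) a)
    refine ⟨X1 ∪ X2, by simp [a1], by simp [Term.eval, h.mul, b2], ?_⟩
    intro G' Ω' _ ρ' π x' Y h' hXY h1 h2
    simp only [Term.eval, h.mul, h'.mul]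
    rw [c1 G' Ω' ρ' π x' Y h' (Finset.subset_union_left.trans hXY) h1 h2,
      c2 G' Ω' ρ' π x' Y h' (Finset.subset_union_right.trans hXY) h1 h2]
  | inv s hs =>
    obtain ⟨X1, a1, b1, c1⟩ := hs (ρ (s.eval x)⁻¹ a)
    rw [h.act_inv] at b1 c1
    refine ⟨X1, b1, a1, ?_⟩
    intro G' Ω' _ ρ' π x' Y h' hXY h1 h2
    simp only [Term.eval]
    rw [h'.inv_eq_iff, c1 G' Ω' ρ' π x' Y h' hXY h1 h2]
  | sup s t hs ht =>
    obtain ⟨X1, a1, b1, c1⟩ := hs a
    obtain ⟨X2, a2, b2, c2⟩ := ht a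
    refine ⟨X1 ∪ X2, by simp [a1], ?_, ?_⟩
    · simp only [Term.eval, h.sup]
      rcases max_cases (ρ (s.eval x) a) (ρ (t.eval x) a) with e | e <;> simp [e.1, b1, b2]
    intro G' Ω' _ ρ' π x' Y h' hXY h1 h2
    simp only [Term.eval, h.sup, h'.sup]
    rw [c1 G' Ω' ρ' π x' Y h' (Finset.subset_union_left.trans hXY) h1 h2,
      c2 G' Ω' ρ' π x' Y h' (Finset.subset_union_right.trans hXY) h1 h2,
      h1.map_max (hXY (Finset.mem_union_left _ b1)) (hXY (Finset.mem_union_right _ b2))]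
  | inf s t hs ht =>
    obtain ⟨X1, a1, b1, c1⟩ := hs a
    obtain ⟨X2, a2, b2, c2⟩ := ht a
    refine ⟨X1 ∪ X2, by simp [a1], ?_, ?_⟩
    · simp only [Term.eval, h.inf]
      rcases min_cases (ρ (s.eval x) a) (ρ (t.eval x) a) with e | e <;> simp [e.1, b1, b2]
    intro G' Ω' _ ρ' π x' Y h' hXY h1 h2
    simp only [Term.eval, h.inf, h'.inf]
    rw [c1 G' Ω' ρ' π x' Y h' (Finset.subset_union_left.trans hXY) h1 h2,
      c2 G' Ω' ρ' π x' Y h' (Finset.subset_union_right.trans hXY) h1 h2,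
      h1.map_min (hXY (Finset.mem_union_left _ b1)) (hXY (Finset.mem_union_right _ b2))]

/-- The finite part `X` of the action can be imitated inside the variety. -/
def Imitable (S : Set (Term × Term)) (ρ : G.carrier → Ω → Ω) (X : Finset Ω) : Prop :=
  ∃ (G' : LGrp.{u}) (Ω' : Type u) (_ : LinearOrder Ω') (ρ' : G'.carrier → Ω' → Ω') (π : Ω → Ω'),
    Sat S G' ∧ IsLAct ρ' ∧ StrictMonoOn π X ∧
    ∀ g, ∀ p ∈ X, ∀ q ∈ X, ρ g p ∈ X → ρ g q ∈ X →
      ∃ g', π (ρ g p) ≤ ρ' g' (π p) ∧ ρ' g' (π q) ≤ π (ρ g q)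

theorem sat_of_imitable {S : Set (Term × Term)} (G : LGrp.{u})
    (hG : ∀ (Ω : Type u) [LinearOrder Ω] (ρ : G.carrier → Ω → Ω) (x : Ω), IsLAct ρ →
      (∀ y, ∃ g, ρ g x = y) → ∀ X : Finset Ω, Imitable S ρ X) : Sat S G := by
  classical
  intro p hp x
  by_contra hne
  have h1 : (p.2.eval x)⁻¹ * p.1.eval x ≠ 1 := fun hc => hne (inv_mul_eq_one.1 hc).symm
  obtain ⟨Ω, _, ρ, a, h, htr, ha⟩ := holland h1
  obtain ⟨X1, a1, b1, c1⟩ := diagram h x p.1 a
  obtain ⟨X2, a2, b2, c2⟩ := diagram h x p.2 a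
  obtain ⟨G', Ω', _, ρ', π, hS, h', hm, hr⟩ := hG Ω ρ a h htr (X1 ∪ X2)
  have : ∀ i, ∃ g', ∀ q ∈ (X1 ∪ X2).filter (fun q => ρ (x i) q ∈ X1 ∪ X2),
      ρ' g' (π q) = π (ρ (x i) q) := fun i =>
    pairwise_realise h' _ π (fun q => π (ρ (x i) q)) fun q hq r hr' =>
      hr (x i) q (Finset.mem_filter.1 hq).1 r (Finset.mem_filter.1 hr').1
        (Finset.mem_filter.1 hq).2 (Finset.mem_filter.1 hr').2
  choose x' hx' using this
  have e : ∀ i, ∀ q ∈ X1 ∪ X2, ρ (x i) q ∈ X1 ∪ X2 → ρ' (x' i) (π q) = π (ρ (x i) q) :=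
    fun i q hq hq' => hx' i q (Finset.mem_filter.2 ⟨hq, hq'⟩)
  have e1 := c1 G' Ω' ρ' π x' _ h' Finset.subset_union_left hm.monotoneOn e
  have e2 := c2 G' Ω' ρ' π x' _ h' Finset.subset_union_right hm.monotoneOn e
  rw [hS p hp x', e2] at e1
  have e3 := hm.injOn (Finset.mem_union_right _ b2) (Finset.mem_union_left _ b1) e1
  apply ha
  rw [h.mul, ← e3, h.inv_act]

end Pool.Agent.MP_a2e0a9_al

end

-- part MP_a2e0a9_al.Holder
section

/-! Hoelder's theorem for archimedean bi-invariant total preorders on groups. -/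

namespace Pool.Agent.MP_a2e0a9_al

universe u

/-- Bi-invariant preorder on a group. -/
structure BiInv {H : Type u} [Group H] (r : H → H → Prop) : Prop where
  refl : ∀ a, r a a
  trans : ∀ {a b c}, r a b → r b c → r a c
  left : ∀ {a b} c, r a b → r (c * a) (c * b)
  right : ∀ {a b} c, r a b → r (a * c) (b * c)

namespace BiInv
variable {H : Type u} [Group H] {r : H → H → Prop}

theorem flip (h : BiInv r) : BiInv (fun a b => r b a) :=
  ⟨h.refl, fun h1 h2 => h.trans h2 h1, fun c h1 => h.left c h1, fun c h1 => h.right c h1⟩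

theorem mul (h : BiInv r) {a b c d : H} (h1 : r a b) (h2 : r c d) : r (a * c) (b * d) :=
  h.trans (h.right c h1) (h.left b h2)

theorem pow (h : BiInv r) {a b : H} (h1 : r a b) (n : ℕ) : r (a ^ n) (b ^ n) := by
  induction n with
  | zero => simpa using h.refl 1
  | succ n ih => rw [pow_succ, pow_succ]; exact h.mul ih h1

theorem inv (h : BiInv r) {a b : H} (h1 : r a b) : r b⁻¹ a⁻¹ := by
  have := h.right a⁻¹ (h.left b⁻¹ h1)
  simpa using this

theorem comm_pow (h : BiInv r) {a b : H} (h1 : r (a * b) (b * a)) (n : ℕ) :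
    r (a * b ^ n) (b ^ n * a) ∧ r (a ^ n * b) (b * a ^ n) := by
  induction n with
  | zero => simpa using ⟨h.refl a, h.refl b⟩
  | succ n ih =>
    constructor
    · have e1 := h.right b ih.1
      have e2 := h.left (b ^ n) h1
      rw [pow_succ, ← mul_assoc]
      refine h.trans e1 ?_
      rwa [mul_assoc, mul_assoc]
    · have e1 := h.left (a ^ n) h1
      have e2 := h.right a ih.2
      rw [pow_succ, mul_assoc]
      refine h.trans e1 ?_
      rwa [← mul_assoc, ← mul_assoc]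

theorem mul_pow (h : BiInv r) {a b : H} (h1 : r (a * b) (b * a)) (n : ℕ) :
    r (a ^ n * b ^ n) ((a * b) ^ n) ∧ r ((a * b) ^ n) (b ^ n * a ^ n) := by
  induction n with
  | zero => simpa using h.refl 1
  | succ n ih =>
    constructor
    · have e1 := h.right b (h.left (a ^ n) (h.comm_pow h1 n).1)
      have e2 := h.right (a * b) ih.1
      have e3 : a ^ (n + 1) * b ^ (n + 1) = a ^ n * (a * b ^ n) * b := by
        rw [pow_succ, pow_succ]; group
      have e4 : a ^ n * (b ^ n * a) * b = a ^ n * b ^ n * (a * b) := by group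
      rw [e3, pow_succ]
      rw [e4] at e1
      exact h.trans e1 e2
    · have e1 := h.right (a * b) ih.2
      have e2 := h.left (b ^ n) (h.comm_pow h1 (n + 1)).2
      have e3 : b ^ n * a ^ n * (a * b) = b ^ n * (a ^ (n + 1) * b) := by
        rw [pow_succ]; group
      have e4 : b ^ (n + 1) * a ^ (n + 1) = b ^ n * (b * a ^ (n + 1)) := by
        rw [pow_succ b]; group
      rw [pow_succ (a * b), e4]
      rw [e3] at e1
      exact h.trans e1 e2

end BiInv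

theorem holder {H : Type u} [Group H] {r : H → H → Prop} (h : BiInv r)
    (tot : ∀ a b, r a b ∨ r b a) {u : H} (hu : ¬ r u 1)
    (arch : ∀ a, ¬ r a 1 → ∀ b, ∃ n : ℕ, r b (a ^ n)) :
    ∃ χ : H → ℝ, (∀ a b, χ (a * b) = χ a + χ b) ∧ ∀ a b, r a b ↔ χ a ≤ χ b := by
  have h1u : r 1 u := (tot 1 u).resolve_right hu
  have hmon : ∀ p q : ℤ, p ≤ q → r (u ^ p) (u ^ q) := by
    intro p q hpq
    obtain ⟨k, rfl⟩ := Int.le.dest hpq
    have := h.left (u ^ p) (h.pow h1u k)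
    simpa [zpow_add] using this
  have hrefl : ∀ p q : ℤ, r (u ^ p) (u ^ q) → p ≤ q := by
    intro p q hpq
    by_contra hc
    have e1 := h.trans (hmon (q + 1) p (by omega)) hpq
    have e2 := h.left (u ^ q)⁻¹ e1
    rw [zpow_add_one] at e2
    simp only [inv_mul_cancel_left, inv_mul_cancel] at e2
    exact hu e2
  have hfl : ∀ g, ∃ p : ℤ, r (u ^ p) g ∧ r g (u ^ (p + 1)) := by
    intro g
    obtain ⟨n, hn⟩ := arch u hu g
    obtain ⟨m, hm⟩ := arch u hu g⁻¹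
    obtain ⟨p, hp, hmax⟩ := Int.exists_greatest_of_bdd (P := fun p => r (u ^ p) g)
      ⟨n, fun z hz => hrefl _ _ (by rw [zpow_natCast]; exact h.trans hz hn)⟩
      ⟨-m, by have := h.inv hm; simpa using this⟩
    refine ⟨p, hp, (tot _ _).resolve_right fun hc => ?_⟩
    have := hmax _ hc
    omega
  have key : ∀ g (p p' : ℤ) (q q' : ℕ), 0 < q → 0 < q' → r (u ^ p) (g ^ q) →
      r (g ^ q') (u ^ p') → (p : ℝ) / q ≤ p' / q' := by
    intro g p p' q q' hq hq' e1 e2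
    have e3 := h.pow e1 q'
    have e4 := h.pow e2 q
    rw [← pow_mul] at e3 e4
    rw [mul_comm q' q] at e4
    have e5 := h.trans e3 e4
    rw [← zpow_natCast, ← zpow_natCast, ← zpow_mul, ← zpow_mul] at e5
    have e6 := hrefl _ _ e5
    rw [div_le_div_iff₀ (by exact_mod_cast hq) (by exact_mod_cast hq')]
    exact_mod_cast e6
  let S : H → Set ℝ := fun g => {x | ∃ (p : ℤ) (q : ℕ), 0 < q ∧ r (u ^ p) (g ^ q) ∧ x = p / q}
  have hne : ∀ g, (S g).Nonempty := by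
    intro g
    obtain ⟨p, hp, -⟩ := hfl g
    exact ⟨_, p, 1, one_pos, by simpa using hp, rfl⟩
  have hub : ∀ g (p : ℤ) (q : ℕ), 0 < q → r (g ^ q) (u ^ p) → (p : ℝ) / q ∈ upperBounds (S g) := by
    rintro g p q hq e _ ⟨p', q', hq', e', rfl⟩
    exact key g p' p q' q hq' hq e' e
  have hbdd : ∀ g, BddAbove (S g) := by
    intro g
    obtain ⟨p, -, hp⟩ := hfl g
    exact ⟨_, hub g (p + 1) 1 one_pos (by simpa using hp)⟩
  have lo : ∀ g (p : ℤ) (q : ℕ), 0 < q → r (u ^ p) (g ^ q) → (p : ℝ) / q ≤ sSup (S g) :=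
    fun g p q hq e => le_csSup (hbdd g) ⟨p, q, hq, e, rfl⟩
  have hi : ∀ g (p : ℤ) (q : ℕ), 0 < q → r (g ^ q) (u ^ p) → sSup (S g) ≤ (p : ℝ) / q :=
    fun g p q hq e => csSup_le (hne g) (hub g p q hq e)
  have hadd : ∀ a b, sSup (S (a * b)) = sSup (S a) + sSup (S b) := by
    intro a b
    have hq : ∀ q : ℕ, 0 < q → |sSup (S (a * b)) - (sSup (S a) + sSup (S b))| ≤ 2 / q := by
      intro q hq
      obtain ⟨p, hp1, hp2⟩ := hfl (a ^ q)
      obtain ⟨p', hp1', hp2'⟩ := hfl (b ^ q)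
      have l1 : r (u ^ (p + p')) (a ^ q * b ^ q) := by rw [zpow_add]; exact h.mul hp1 hp1'
      have l2 : r (u ^ (p + p')) (b ^ q * a ^ q) := by
        rw [add_comm, zpow_add]; exact h.mul hp1' hp1
      have u1 : r (a ^ q * b ^ q) (u ^ ((p + 1) + (p' + 1))) := by
        rw [zpow_add]; exact h.mul hp2 hp2'
      have u2 : r (b ^ q * a ^ q) (u ^ ((p + 1) + (p' + 1))) := by
        rw [add_comm, zpow_add]; exact h.mul hp2' hp2
      have both : r (u ^ (p + p')) ((a * b) ^ q) ∧ r ((a * b) ^ q) (u ^ ((p + 1) + (p' + 1))) := by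
        rcases tot (a * b) (b * a) with hc | hc
        · exact ⟨h.trans l1 (h.mul_pow hc q).1, h.trans (h.mul_pow hc q).2 u2⟩
        · exact ⟨h.trans l2 (h.flip.mul_pow hc q).2, h.trans (h.flip.mul_pow hc q).1 u1⟩
      have a1 := lo _ _ _ hq hp1
      have a2 := hi _ _ _ hq hp2
      have b1 := lo _ _ _ hq hp1'
      have b2 := hi _ _ _ hq hp2'
      have c1 := lo _ _ _ hq both.1
      have c2 := hi _ _ _ hq both.2
      push_cast at a1 a2 b1 b2 c1 c2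
      simp only [add_div] at a1 a2 b1 b2 c1 c2
      have : (2 : ℝ) / q = 1 / q + 1 / q := by ring
      rw [abs_le]
      constructor <;> linarith
    have : |sSup (S (a * b)) - (sSup (S a) + sSup (S b))| ≤ 0 := by
      by_contra hc
      rw [not_le] at hc
      obtain ⟨n, hn⟩ := exists_nat_gt (2 / |sSup (S (a * b)) - (sSup (S a) + sSup (S b))|)
      have hn0 : (0 : ℝ) < n := lt_trans (by positivity) hn
      have := hq n (by exact_mod_cast hn0)
      rw [div_lt_iff₀ hc] at hn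
      rw [le_div_iff₀ hn0] at this
      linarith
    have := abs_nonpos_iff.1 this
    linarith
  refine ⟨fun g => sSup (S g), hadd, fun a b => ⟨fun hab => ?_, fun hab => ?_⟩⟩
  · refine csSup_le (hne a) ?_
    rintro _ ⟨p, q, hq, e, rfl⟩
    exact lo b p q hq (h.trans e (h.pow hab q))
  · by_contra hc
    have h2 : ¬ r (b⁻¹ * a) 1 := fun h3 => hc (by simpa using h.left b h3)
    obtain ⟨n, hn⟩ := arch _ h2 u
    have hn0 : 0 < n := by
      rcases Nat.eq_zero_or_pos n with rfl | h0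
      · exact absurd (by simpa using hn) hu
      · exact h0
    have e1 := lo (b⁻¹ * a) 1 n hn0 (by simpa using hn)
    have e2 := hadd b (b⁻¹ * a)
    rw [mul_inv_cancel_left] at e2
    have : (0 : ℝ) < ((1 : ℤ) : ℝ) / n := by
      have : (0 : ℝ) < n := by exact_mod_cast hn0
      positivity
    simp only at hab
    linarith

end Pool.Agent.MP_a2e0a9_al

end

-- part MP_a2e0a9_al.Level
section

/-! Levels of an action with bounded expansion, and the strict law. -/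

namespace Pool.Agent.MP_a2e0a9_al

universe u v

variable {G : Type u} [Group G] [Lattice G] [MulLeftMono G] [MulRightMono G]
  {Ω : Type v} [LinearOrder Ω] {ρ : G → Ω → Ω}

/-- Bounded expansion. -/
def WExp (ρ : G → Ω → Ω) (m : ℕ) : Prop :=
  ∀ y t r, 1 ≤ t → ρ r y ≤ y → ρ r (ρ t y) ≤ ρ (t ^ m) y

theorem WExp.down (h : IsLAct ρ) {m : ℕ} (hW : WExp ρ m) (y : Ω) (t r : G) (ht : 1 ≤ t)
    (hr : y ≤ ρ r y) : ρ (t ^ (m + 1))⁻¹ y ≤ ρ r (ρ t⁻¹ y) := by
  by_contra hc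
  rw [not_le] at hc
  have e1 := hW (ρ (t ^ (m + 1))⁻¹ y) t (r * t⁻¹ * t ^ (m + 1)) ht (by
    rw [h.mul, h.act_inv, h.mul]; exact hc.le)
  have e2 : ρ (r * t⁻¹ * t ^ (m + 1)) (ρ t (ρ (t ^ (m + 1))⁻¹ y)) = ρ r y := by
    rw [← h.mul, ← h.mul]; congr 1; group
  have e3 : ρ (t ^ m) (ρ (t ^ (m + 1))⁻¹ y) = ρ t⁻¹ y := by
    rw [← h.mul]; congr 1; group
  rw [e2, e3] at e1
  have e4 : ρ t y = y := le_antisymm ((h.le_inv_iff t).1 (hr.trans e1)) (h.pos ht y)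
  rw [h.fix_inv e4, h.fix_inv (h.fix_pow e4 _)] at hc
  exact absurd hr (not_le.2 hc)

theorem wexp_of_law (hN : ∀ a b : G, 1 ≤ a → 1 ≤ b → a * b ≤ b ^ 2 * a ^ 2) (h : IsLAct ρ) :
    WExp ρ 2 := by
  intro y t r ht hr
  have e1 := h.le (hN (r ⊔ 1) t le_sup_right ht) y
  rw [h.mul, h.mul, h.fix_pow (h.sup_one_fix hr)] at e1
  exact (h.le le_sup_left _).trans e1

/-- Elements moving the base point a bounded number of `v`-steps. -/
def KK (ρ : G → Ω → Ω) (x : Ω) (v : G) : Set G :=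
  {g | (∃ n : ℕ, ρ (v ^ n)⁻¹ x ≤ ρ g x) ∧ ∃ n : ℕ, ρ g x ≤ ρ (v ^ n) x}

section K
variable (h : IsLAct ρ) {m : ℕ} (hW : WExp ρ m) {x : Ω} {v : G} (hv : 1 ≤ v)

omit [MulLeftMono G] [MulRightMono G] in
include h in
theorem KK_of_fix {g : G} (hg : ρ g x = x) : g ∈ KK ρ x v :=
  ⟨⟨0, by simp [h.one, hg]⟩, ⟨0, by simp [h.one, hg]⟩⟩

omit [MulLeftMono G] [MulRightMono G] in
theorem KK_conv {a b g : G} (ha : a ∈ KK ρ x v) (hb : b ∈ KK ρ x v) (h1 : ρ a x ≤ ρ g x)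
    (h2 : ρ g x ≤ ρ b x) : g ∈ KK ρ x v := by
  obtain ⟨⟨n, hn⟩, -⟩ := ha
  obtain ⟨-, ⟨k, hk⟩⟩ := hb
  exact ⟨⟨n, hn.trans h1⟩, ⟨k, h2.trans hk⟩⟩

omit [MulLeftMono G] [MulRightMono G] in
include h hv in
theorem KK_self : v ∈ KK ρ x v :=
  ⟨⟨0, by simpa [h.one] using h.pos hv x⟩, ⟨1, by simp⟩⟩

include h hW hv in
theorem KK_mul {a b : G} (ha : a ∈ KK ρ x v) (hb : b ∈ KK ρ x v) : a * b ∈ KK ρ x v := by
  obtain ⟨⟨n, hn⟩, ⟨n', hn'⟩⟩ := ha
  obtain ⟨⟨k, hk⟩, ⟨k', hk'⟩⟩ := hb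
  constructor
  · refine ⟨k * (m + 1) + n, ?_⟩
    have e1 := hW.down h x (v ^ k) (v ^ n * a) (one_le_pow_of hv k) (by
      rw [h.mul]; exact (h.inv_le_iff _).1 hn)
    rw [h.mul, ← h.inv_le_iff, ← h.mul, ← mul_inv_rev, ← pow_mul, ← pow_add] at e1
    rw [h.mul]
    exact e1.trans (h.mon _ hk)
  · refine ⟨n' + k' * m, ?_⟩
    have e1 := hW x (v ^ k') ((v ^ n')⁻¹ * a) (one_le_pow_of hv k') (by
      rw [h.mul]; exact (h.inv_le_iff _).2 hn')
    rw [h.mul, h.inv_le_iff, ← h.mul (v ^ n'), ← pow_mul, ← pow_add] at e1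
    rw [h.mul]
    exact (h.mon _ hk').trans e1

include h hW hv in
theorem KK_inv {a : G} (ha : a ∈ KK ρ x v) : a⁻¹ ∈ KK ρ x v := by
  obtain ⟨⟨n, hn⟩, ⟨n', hn'⟩⟩ := ha
  constructor
  · refine ⟨n' * (m + 1), ?_⟩
    have e1 := hW.down h x (v ^ n') (a⁻¹ * v ^ n') (one_le_pow_of hv n') (by
      rw [h.mul]; exact (h.le_inv_iff _).2 hn')
    rwa [h.mul, h.act_inv, ← pow_mul] at e1
  · refine ⟨n * m, ?_⟩
    have e1 := hW x (v ^ n) (a⁻¹ * (v ^ n)⁻¹) (one_le_pow_of hv n) (by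
      rw [h.mul]; exact (h.inv_le_iff _).2 hn)
    rwa [h.mul, h.inv_act, ← pow_mul] at e1

include h hW hv in
theorem KK_pow {a : G} (ha : a ∈ KK ρ x v) (n : ℕ) : a ^ n ∈ KK ρ x v := by
  induction n with
  | zero => rw [pow_zero]; exact KK_of_fix h (h.one x)
  | succ n ih => rw [pow_succ]; exact KK_mul h hW hv ih ha

include h hW hv in
theorem KK_sub {w : G} (hw : w ∈ KK ρ x v) : KK ρ x w ⊆ KK ρ x v := by
  rintro g ⟨⟨n, hn⟩, ⟨k, hk⟩⟩
  exact KK_conv (KK_inv h hW hv (KK_pow h hW hv hw n)) (KK_pow h hW hv hw k) hn hk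

include h hW hv in
theorem KK_total {w : G} (hw : 1 ≤ w) : KK ρ x w ⊆ KK ρ x v ∨ KK ρ x v ⊆ KK ρ x w := by
  rcases le_total (ρ w x) (ρ v x) with h1 | h1
  · exact Or.inl (KK_sub h hW hv (KK_conv (KK_of_fix h (h.one x)) (KK_self h hv)
      (h.le hw x) h1))
  · exact Or.inr (KK_sub h hW hw (KK_conv (KK_of_fix h (h.one x)) (KK_self h hw)
      (h.le hv x) h1))

end K

/-- The elements that are small with respect to `u`. -/
def MM (ρ : G → Ω → Ω) (x : Ω) (u : G) : Set G :=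
  {g | ∃ v, 1 ≤ v ∧ u ∉ KK ρ x v ∧ g ∈ KK ρ x v}

section M
variable (h : IsLAct ρ) {m : ℕ} (hW : WExp ρ m) (hW' : WExp (lowAct h) m) {x : Ω} {u : G}
  (hu : 1 ≤ u) (hux : x < ρ u x)

omit [MulLeftMono G] [MulRightMono G] in
include h hux in
theorem MM_of_fix {g : G} (hg : ρ g x = x) : g ∈ MM ρ x u := by
  refine ⟨1, le_rfl, ?_, KK_of_fix h hg⟩
  rintro ⟨-, n, hn⟩
  rw [one_pow, h.one] at hn
  exact absurd hux (not_lt.2 hn)

include h hW in
theorem MM_mul {a b : G} (ha : a ∈ MM ρ x u) (hb : b ∈ MM ρ x u) : a * b ∈ MM ρ x u := by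
  obtain ⟨v, hv, hv1, hv2⟩ := ha
  obtain ⟨w, hw, hw1, hw2⟩ := hb
  rcases KK_total (x := x) h hW hv hw with h1 | h1
  · exact ⟨v, hv, hv1, KK_mul h hW hv hv2 (h1 hw2)⟩
  · exact ⟨w, hw, hw1, KK_mul h hW hw (h1 hv2) hw2⟩

include h hW in
theorem MM_inv {a : G} (ha : a ∈ MM ρ x u) : a⁻¹ ∈ MM ρ x u := by
  obtain ⟨v, hv, hv1, hv2⟩ := ha
  exact ⟨v, hv, hv1, KK_inv h hW hv hv2⟩

include h hW in
theorem MM_conv {a b g : G} (ha : a ∈ MM ρ x u) (hb : b ∈ MM ρ x u) (h1 : ρ a x ≤ ρ g x)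
    (h2 : ρ g x ≤ ρ b x) : g ∈ MM ρ x u := by
  obtain ⟨v, hv, hv1, hv2⟩ := ha
  obtain ⟨w, hw, hw1, hw2⟩ := hb
  rcases KK_total (x := x) h hW hv hw with h3 | h3
  · exact ⟨v, hv, hv1, KK_conv hv2 (h3 hw2) h1 h2⟩
  · exact ⟨w, hw, hw1, KK_conv (h3 hv2) hw2 h1 h2⟩

include hW hW' hu hux in
theorem MM_conj {g w : G} (hg : g ∈ MM ρ x u) (hw : w ∈ KK ρ x u) :
    w⁻¹ * g * w ∈ MM ρ x u := by
  obtain ⟨v, hv, hv1, hv2⟩ := hg
  set a := g ⊔ g⁻¹ with ha
  have ha1 : 1 ≤ a := one_le_mabs g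
  have haK : a ∈ KK ρ x v := by
    rcases max_cases (ρ g x) (ρ g⁻¹ x) with h1 | h1
    · exact KK_conv hv2 hv2 (by rw [ha, h.sup, h1.1]) (by rw [ha, h.sup, h1.1])
    · exact KK_conv (KK_inv h hW hv hv2) (KK_inv h hW hv hv2) (by rw [ha, h.sup, h1.1])
        (by rw [ha, h.sup, h1.1])
  have ha' : 1 ≤ w⁻¹ * a * w := one_le_conj ha1 _ _ (inv_mul_cancel w)
  refine ⟨w⁻¹ * a * w, ha', fun hc => ?_, ⟨1, ?_⟩, ⟨1, ?_⟩⟩
  · obtain ⟨n, hn⟩ := hw.2
    let L : LowerSet Ω := ⟨{y | ∃ j : ℕ, y ≤ ρ (a ^ j) x}, fun _ _ hab ⟨j, hj⟩ => ⟨j, hab.trans hj⟩⟩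
    have hb : ∀ k : ℕ, ρ (a ^ k) (ρ (u ^ n) x) ≤ ρ (u ^ (n * m + 1)) x := by
      intro k
      have e1 := hW' L (u ^ n) (a ^ k) (one_le_pow_of hu n) (by
        rintro y ⟨j, hj⟩
        exact ⟨k + j, by rw [pow_add, h.mul]; exact (h.inv_le_iff _).1 hj⟩)
      have e2 : ρ (a ^ k) (ρ (u ^ n) x) ∈ lowAct h (a ^ k) (lowAct h (u ^ n) L) := by
        rw [mem_lowAct, mem_lowAct, h.inv_act, h.inv_act]
        exact ⟨0, by rw [pow_zero, h.one]⟩
      obtain ⟨j, hj⟩ := e1 e2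
      have e3 : ρ (a ^ j) x ≤ ρ u x := by
        by_contra h3
        exact hv1 (KK_conv (KK_of_fix h (h.one x)) (KK_pow h hW hv haK j) (h.le hu x)
          (not_le.1 h3).le)
      rw [pow_succ, h.mul, pow_mul]
      exact (h.inv_le_iff _).1 (hj.trans e3)
    have hj : w⁻¹ * u ^ (n * m + 1 + 1) ∈ KK ρ x (w⁻¹ * a * w) :=
      KK_sub h hW ha' hc (KK_mul h hW hu (KK_inv h hW hu hw) (KK_pow h hW hu (KK_self h hu) _))
    obtain ⟨k, hk⟩ := hj.2
    have e4 : (w⁻¹ * a * w) ^ k = w⁻¹ * a ^ k * w := by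
      simpa using (conj_pow (a := w⁻¹) (b := a) (i := k))
    rw [e4, h.mul, h.mul, h.mul, h.le_iff] at hk
    have e5 := (hk.trans (h.mon _ hn)).trans (hb k)
    exact absurd (h.pow_strictMono hux (Nat.lt_succ_self (n * m + 1))) (not_lt.2 e5)
  · refine h.le ?_ x
    rw [pow_one]
    have : a⁻¹ ≤ g := by rw [inv_le']; exact le_sup_right
    calc (w⁻¹ * a * w)⁻¹ = w⁻¹ * a⁻¹ * w := by group
      _ ≤ w⁻¹ * g * w := mul_le_mul_left (mul_le_mul_right this _) _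
  · refine h.le ?_ x
    rw [pow_one]
    exact mul_le_mul_left (mul_le_mul_right le_sup_left _) _

include hW hW' hu hux in
theorem exists_chi : ∃ χ : G → ℝ,
    (∀ a ∈ KK ρ x u, ∀ b ∈ KK ρ x u, χ (a * b) = χ a + χ b) ∧
    (∀ a ∈ KK ρ x u, ∀ b ∈ KK ρ x u, ρ a x ≤ ρ b x → χ a ≤ χ b) ∧
    (∀ a ∈ KK ρ x u, χ a = 0 ↔ a ∈ MM ρ x u) := by
  classical
  let K : Subgroup G :=
    { carrier := KK ρ x u
      mul_mem' := fun ha hb => KK_mul h hW hu ha hb
      one_mem' := KK_of_fix h (h.one x)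
      inv_mem' := fun ha => KK_inv h hW hu ha }
  have M1 : (1 : G) ∈ MM ρ x u := MM_of_fix h hux (h.one x)
  let r : K → K → Prop := fun a b => ρ a x ≤ ρ b x ∨ (a : G)⁻¹ * b ∈ MM ρ x u
  have hr : BiInv r := by
    refine ⟨fun a => Or.inl le_rfl, ?_, ?_, ?_⟩
    · rintro a b c (h1 | h1) (h2 | h2)
      · exact Or.inl (h1.trans h2)
      · rcases le_total (ρ a x) (ρ c x) with h3 | h3
        · exact Or.inl h3
        · right
          have e : (b : G)⁻¹ * a ∈ MM ρ x u := MM_conv h hW h2 M1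
            (by rw [h.mul, h.mul]; exact h.mon _ h3)
            (by rw [h.mul, h.one]; exact (h.inv_le_iff _).2 h1)
          have := MM_mul h hW (MM_inv h hW e) h2
          simpa [mul_assoc] using this
      · rcases le_total (ρ a x) (ρ c x) with h3 | h3
        · exact Or.inl h3
        · right
          have e : (b : G)⁻¹ * c ∈ MM ρ x u := MM_conv h hW M1 (MM_inv h hW h1)
            (by rw [h.mul, h.one]; exact (h.le_inv_iff _).2 h2)
            (by rw [mul_inv_rev, inv_inv, h.mul, h.mul]; exact h.mon _ h3)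
          have := MM_mul h hW h1 e
          simpa [mul_assoc] using this
      · right
        have := MM_mul h hW h1 h2
        simpa [mul_assoc] using this
    · rintro a b c (h1 | h1)
      · left
        rw [Subgroup.coe_mul, Subgroup.coe_mul, h.mul, h.mul]; exact h.mon _ h1
      · right
        simpa [mul_assoc] using h1
    · intro a b c h1
      have key : (a : G)⁻¹ * b ∈ MM ρ x u → r (a * c) (b * c) := by
        intro h2
        right
        have := MM_conj h hW hW' hu hux h2 c.2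
        simpa [mul_assoc] using this
      rcases h1 with h1 | h1
      · rcases le_total (ρ a (ρ c x)) (ρ b (ρ c x)) with h3 | h3
        · left
          rwa [Subgroup.coe_mul, Subgroup.coe_mul, h.mul, h.mul]
        · apply key
          have e1 : ρ ((a : G)⁻¹ * b) (ρ c x) ≤ ρ c x := by
            rw [h.mul]; exact (h.inv_le_iff _).2 h3
          have e2 : (c : G)⁻¹ * (((a : G)⁻¹ * b) ⊔ 1) * c ∈ MM ρ x u :=
            MM_of_fix h hux (by rw [h.mul, h.mul, h.sup_one_fix e1, h.inv_act])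
          have e3 := MM_conj h hW hW' hu hux e2 (c⁻¹).2
          have e4 : ((a : G)⁻¹ * b) ⊔ 1 ∈ MM ρ x u := by simpa [mul_assoc] using e3
          exact MM_conv h hW M1 e4 (by rw [h.mul, h.one]; exact (h.le_inv_iff _).2 h1)
            (h.le le_sup_left x)
      · exact key h1
  have tot : ∀ a b, r a b ∨ r b a := fun a b =>
    (le_total (ρ a x) (ρ b x)).imp Or.inl Or.inl
  have huM : u ∉ MM ρ x u := fun ⟨v, _, h1, h2⟩ => h1 h2
  have hu' : ¬ r ⟨u, KK_self h hu⟩ 1 := by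
    rintro (h1 | h1)
    · rw [Subgroup.coe_one, h.one] at h1
      exact absurd hux (not_lt.2 h1)
    · exact huM (by simpa using MM_inv h hW h1)
  have arch : ∀ a, ¬ r a 1 → ∀ b, ∃ n : ℕ, r b (a ^ n) := by
    intro a ha b
    have h1 : x < ρ a x := by
      by_contra hc
      exact ha (Or.inl (by rw [Subgroup.coe_one, h.one]; exact not_lt.1 hc))
    have h2 : (a : G) ∉ MM ρ x u := fun hc => ha (Or.inr (by simpa using MM_inv h hW hc))
    have h3 : ∀ n : ℕ, ρ (((a : G) ⊔ 1) ^ n) x = ρ ((a : G) ^ n) x := by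
      intro n
      induction n with
      | zero => simp
      | succ n ih =>
        rw [pow_succ', pow_succ', h.mul, h.mul, ih, h.sup_one_of_le]
        rw [← h.mul, ← pow_succ']
        exact (h.pow_strictMono h1 (Nat.lt_succ_self n)).le
    have h4 : (a : G) ∈ KK ρ x ((a : G) ⊔ 1) :=
      ⟨⟨0, by simpa [h.one] using h1.le⟩, ⟨1, by rw [h3, pow_one]⟩⟩
    have h5 : u ∈ KK ρ x ((a : G) ⊔ 1) := by
      by_contra hc
      exact h2 ⟨_, le_sup_right, hc, h4⟩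
    obtain ⟨n, hn⟩ := (KK_sub h hW le_sup_right h5 b.2).2
    exact ⟨n, Or.inl (by rw [Subgroup.coe_pow, ← h3]; exact hn)⟩
  obtain ⟨χ, hadd, hle⟩ := holder hr tot hu' arch
  have h0 : χ 1 = 0 := by have := hadd 1 1; rw [mul_one] at this; linarith
  refine ⟨fun g => if hg : g ∈ K then χ ⟨g, hg⟩ else 0, fun a ha b hb => ?_,
    fun a ha b hb hab => ?_, fun a ha => ?_⟩
  · have ha' : a ∈ K := ha
    have hb' : b ∈ K := hb
    simp only [dif_pos ha', dif_pos hb', dif_pos (K.mul_mem ha' hb')]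
    exact hadd ⟨a, ha'⟩ ⟨b, hb'⟩
  · have ha' : a ∈ K := ha
    have hb' : b ∈ K := hb
    simp only [dif_pos ha', dif_pos hb']
    exact (hle _ _).1 (Or.inl hab)
  · have ha' : a ∈ K := ha
    simp only [dif_pos ha']
    constructor
    · intro h1
      rcases (hle ⟨a, ha'⟩ 1).2 (by rw [h1, h0]) with h2 | h2
      · rcases (hle 1 ⟨a, ha'⟩).2 (by rw [h1, h0]) with h3 | h3
        · rw [Subgroup.coe_one, h.one] at h2 h3
          exact MM_of_fix h hux (le_antisymm h2 h3)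
        · simpa using h3
      · simpa using MM_inv h hW h2
    · intro h1
      have e1 := (hle ⟨a, ha'⟩ 1).1 (Or.inr (by simpa using MM_inv h hW h1))
      have e2 := (hle 1 ⟨a, ha'⟩).1 (Or.inr (by simpa using h1))
      linarith

end M

/-- The strict form of the normal-valued law at a moved point. -/
theorem strict_law (h : IsLAct ρ) {m : ℕ} (hW : WExp ρ m) (hW' : WExp (lowAct h) m) {a b : G}
    (ha : 1 ≤ a) (hb : 1 ≤ b) {x : Ω} (hx : ρ a x ≠ x ∨ ρ b x ≠ x) :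
    ρ (a * b) x < ρ (b ^ 2 * a ^ 2) x := by
  have hu : 1 ≤ a ⊔ b := ha.trans le_sup_left
  have hux : x < ρ (a ⊔ b) x := by
    rcases hx with hx | hx
    · exact (lt_of_le_of_ne (h.pos ha x) hx.symm).trans_le (h.le le_sup_left x)
    · exact (lt_of_le_of_ne (h.pos hb x) hx.symm).trans_le (h.le le_sup_right x)
  obtain ⟨χ, hadd, hle, hz⟩ := exists_chi h hW hW' hu hux
  have K1 : (1 : G) ∈ KK ρ x (a ⊔ b) := KK_of_fix h (h.one x)
  have Ku := KK_self (x := x) h hu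
  have Ka : a ∈ KK ρ x (a ⊔ b) := KK_conv K1 Ku (h.le ha x) (h.le le_sup_left x)
  have Kb : b ∈ KK ρ x (a ⊔ b) := KK_conv K1 Ku (h.le hb x) (h.le le_sup_right x)
  have h0 : χ 1 = 0 := by have := hadd 1 K1 1 K1; rw [mul_one] at this; linarith
  have a0 := hle 1 K1 a Ka (h.le ha x)
  have b0 := hle 1 K1 b Kb (h.le hb x)
  have u0 := hle 1 K1 _ Ku (h.le hu x)
  have u1 : χ (a ⊔ b) ≠ 0 := fun hc => by
    obtain ⟨v, _, h1, h2⟩ := (hz _ Ku).1 hc
    exact h1 h2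
  have u2 : χ (a ⊔ b) ≤ χ a ∨ χ (a ⊔ b) ≤ χ b := by
    rcases max_cases (ρ a x) (ρ b x) with h1 | h1
    · exact Or.inl (hle _ Ku _ Ka (by rw [h.sup, h1.1]))
    · exact Or.inr (hle _ Ku _ Kb (by rw [h.sup, h1.1]))
  by_contra hc
  have e := hle _ (KK_mul h hW hu (KK_pow h hW hu Kb 2) (KK_pow h hW hu Ka 2)) _
    (KK_mul h hW hu Ka Kb) (not_lt.1 hc)
  rw [hadd _ (KK_pow h hW hu Kb 2) _ (KK_pow h hW hu Ka 2), pow_two, pow_two,
    hadd _ Kb _ Kb, hadd _ Ka _ Ka, hadd _ Ka _ Kb] at e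
  have u3 : 0 < χ (a ⊔ b) := lt_of_le_of_ne (h0 ▸ u0) u1.symm
  rcases u2 with u2 | u2 <;> linarith

end Pool.Agent.MP_a2e0a9_al

end

-- part MP_a2e0a9_al.Largest
section

/-! Holland's theorem: a variety with a member that is not normal-valued is everything. -/

namespace Pool.Agent.MP_a2e0a9_al

universe u

theorem normalValued_of_wexp {G : LGrp.{u}} {m : ℕ}
    (h : ∀ (Ω : Type u) [LinearOrder Ω] (ρ : G.carrier → Ω → Ω), IsLAct ρ → WExp ρ m) :
    NormalValued G := by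
  intro a b ha hb
  refine le_of_act fun Ω _ ρ hρ x => ?_
  by_cases hx : ρ a x ≠ x ∨ ρ b x ≠ x
  · exact (strict_law hρ (h Ω ρ hρ) (h _ _ (isLAct_lowAct hρ)) ha hb hx).le
  · push Not at hx
    rw [hρ.mul, hρ.mul, hx.2, hx.1, hρ.fix_pow hx.1, hρ.fix_pow hx.2]

theorem exists_rank {Ω : Type u} [LinearOrder Ω] (X : Finset Ω) :
    ∃ rk : Ω → ℕ, StrictMonoOn rk X ∧ ∀ p, rk p ≤ X.card := by
  classical
  refine ⟨fun p => (X.filter (· < p)).card, fun p hp q _ hpq => ?_,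
    fun p => Finset.card_filter_le _ _⟩
  refine Finset.card_lt_card ⟨fun z hz => ?_, fun hc => ?_⟩
  · rw [Finset.mem_filter] at hz ⊢
    exact ⟨hz.1, hz.2.trans hpq⟩
  · have := hc (Finset.mem_filter.2 ⟨hp, hpq⟩)
    exact lt_irrefl _ (Finset.mem_filter.1 this).2

theorem sat_of_not_normalValued {S : Set (Term × Term)} {G : LGrp.{u}} (hG : Sat S G)
    (hN : ¬ NormalValued G) (H : LGrp.{u}) : Sat S H := by
  refine sat_of_imitable H fun Ω _ ρ _ hρ _ X => ?_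
  obtain ⟨rk, hrk, hm⟩ := exists_rank X
  have : ¬ ∀ (Ω : Type u) [LinearOrder Ω] (ρ : G.carrier → Ω → Ω), IsLAct ρ →
      WExp ρ X.card := fun h => hN (normalValued_of_wexp h)
  unfold WExp at this
  push Not at this
  obtain ⟨Ω', _, ρ', h, y, t, r, ht, hr, hlt⟩ := this
  have hy : y < ρ' t y := by
    refine lt_of_le_of_ne (h.pos ht y) fun hc => ?_
    rw [← hc, h.fix_pow hc.symm] at hlt
    exact absurd hr (not_le.2 hlt)
  have hs := h.pow_strictMono hy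
  have sub : ∀ a b : ℕ, a ≤ b → ρ' (t ^ a)⁻¹ (ρ' (t ^ b) y) = ρ' (t ^ (b - a)) y := by
    intro a b hab
    rw [h.inv_eq_iff, ← h.mul, ← pow_add, Nat.add_sub_cancel' hab]
  refine ⟨G, Ω', inferInstance, ρ', fun p => ρ' (t ^ rk p) y, hG, h,
    fun p hp q hq hpq => hs (hrk hp hq hpq), fun g p hp q hq hp' hq' => ?_⟩
  rcases lt_trichotomy p q with h1 | rfl | h1
  · have e1 := hrk hp hq h1
    have e2 := hrk hp' hq' (hρ.mono g h1)
    refine ⟨t ^ rk (ρ g p) * r⁻¹ * (t ^ rk p)⁻¹, ?_, ?_⟩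
    · simp only [h.mul, h.inv_act]
      exact h.mon _ ((h.le_inv_iff r).2 hr)
    · simp only [h.mul]
      rw [sub _ _ e1.le]
      have e3 : ρ' r⁻¹ (ρ' (t ^ (rk q - rk p)) y) ≤ ρ' t y :=
        (h.inv_le_iff r).2 ((hs.monotone ((Nat.sub_le _ _).trans (hm q))).trans hlt.le)
      refine (h.mon _ e3).trans ?_
      rw [← h.mul, ← pow_succ]
      exact hs.monotone e2
  · refine ⟨t ^ rk (ρ g p) * (t ^ rk p)⁻¹, ?_, ?_⟩ <;> simp only [h.mul, h.inv_act, le_refl]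
  · have e1 := hrk hq hp h1
    refine ⟨t ^ rk (ρ g q) * r * (t ^ rk q)⁻¹, ?_, ?_⟩
    · simp only [h.mul]
      rw [sub _ _ e1.le]
      have e3 : ρ' t y ≤ ρ' (t ^ (rk p - rk q)) y := by
        have := hs.monotone (show 1 ≤ rk p - rk q by omega)
        simpa using this
      refine le_trans ?_ (h.mon _ (hlt.le.trans (h.mon r e3)))
      rw [← h.mul, ← pow_add]
      exact hs.monotone ((hm _).trans (Nat.le_add_left _ _))
    · simp only [h.mul, h.inv_act]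
      exact h.mon _ hr

end Pool.Agent.MP_a2e0a9_al

end

-- part MP_a2e0a9_al.Hahn
section

/-! Hahn products of a chain and triangular automorphisms. -/

namespace Pool.Agent.MP_a2e0a9_al

universe u v w

/-- Every nonempty subset has a largest element. -/
def RW {Γ : Type u} [LinearOrder Γ] (S : Set Γ) : Prop :=
  ∀ T : Set Γ, T ⊆ S → T.Nonempty → ∃ γ ∈ T, ∀ δ ∈ T, δ ≤ γ

section RW
variable {Γ : Type u} [LinearOrder Γ]

theorem RW.mono {S T : Set Γ} (h : RW T) (hST : S ⊆ T) : RW S :=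
  fun U hU hne => h U (hU.trans hST) hne

theorem RW.union {S T : Set Γ} (hS : RW S) (hT : RW T) : RW (S ∪ T) := by
  intro U hU hne
  by_cases h1 : (U ∩ S).Nonempty
  · obtain ⟨a, ha, ha'⟩ := hS _ Set.inter_subset_right h1
    by_cases h2 : (U ∩ T).Nonempty
    · obtain ⟨b, hb, hb'⟩ := hT _ Set.inter_subset_right h2
      refine ⟨max a b, ?_, fun δ hδ => ?_⟩
      · rcases max_cases a b with h | h <;> rw [h.1]
        exacts [ha.1, hb.1]
      · rcases hU hδ with h | h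
        · exact le_max_of_le_left (ha' δ ⟨hδ, h⟩)
        · exact le_max_of_le_right (hb' δ ⟨hδ, h⟩)
    · exact ⟨a, ha.1, fun δ hδ => ha' δ ⟨hδ, (hU hδ).resolve_right fun h => h2 ⟨δ, hδ, h⟩⟩⟩
  · exact hT U (fun δ hδ => (hU hδ).resolve_left fun h => h1 ⟨δ, hδ, h⟩) hne

theorem RW.of_subsingleton {S : Set Γ} (h : S.Subsingleton) : RW S := by
  rintro T hT ⟨a, ha⟩
  exact ⟨a, ha, fun δ hδ => (h (hT hδ) (hT ha)).le⟩

theorem RW.of_local {S : Set Γ} (h : ∀ γ ∈ S, RW {δ | δ ∈ S ∧ γ < δ}) : RW S := by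
  rintro T hT ⟨a, ha⟩
  by_cases h1 : {δ | δ ∈ T ∧ a < δ}.Nonempty
  · obtain ⟨b, hb, hb'⟩ := h a (hT ha) _ (fun δ hδ => ⟨hT hδ.1, hδ.2⟩) h1
    refine ⟨b, hb.1, fun δ hδ => ?_⟩
    rcases le_or_gt δ a with h2 | h2
    · exact h2.trans hb.2.le
    · exact hb' δ ⟨hδ, h2⟩
  · exact ⟨a, ha, fun δ hδ => not_lt.1 fun h2 => h1 ⟨δ, hδ, h2⟩⟩

end RW

/-- Functions whose support has no infinite ascending sequence. -/
@[ext] structure Hahn (Γ : Type u) [LinearOrder Γ] {Λ : Type v} (l0 : Λ) where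
  val : Γ → Λ
  rw : RW {γ | val γ ≠ l0}

variable {Γ : Type u} [LinearOrder Γ] {Λ : Type v} {l0 : Λ}

/-- Agreement above a level. -/
def Agree (γ : Γ) (f g : Hahn Γ l0) : Prop := ∀ δ, γ < δ → f.val δ = g.val δ

theorem Agree.refl (γ : Γ) (f : Hahn Γ l0) : Agree γ f f := fun _ _ => rfl
theorem Agree.symm {γ : Γ} {f g : Hahn Γ l0} (h : Agree γ f g) : Agree γ g f :=
  fun δ hδ => (h δ hδ).symm
theorem Agree.trans {γ : Γ} {f g k : Hahn Γ l0} (h : Agree γ f g) (h' : Agree γ g k) :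
    Agree γ f k := fun δ hδ => (h δ hδ).trans (h' δ hδ)
theorem Agree.up {γ δ : Γ} {f g : Hahn Γ l0} (h : Agree γ f g) (hδ : γ ≤ δ) : Agree δ f g :=
  fun η hη => h η (hδ.trans_lt hη)

theorem Hahn.rw_ne (f g : Hahn Γ l0) : RW {γ | f.val γ ≠ g.val γ} := by
  refine (f.rw.union g.rw).mono fun γ hγ => ?_
  by_contra hc
  simp only [Set.mem_union, Set.mem_setOf_eq, not_or, not_not] at hc
  exact hγ (hc.1.trans hc.2.symm)

theorem Hahn.exists_top_of {f g : Hahn Γ l0} {η : Γ} (h : f.val η ≠ g.val η) :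
    ∃ γ, η ≤ γ ∧ Agree γ f g ∧ f.val γ ≠ g.val γ := by
  obtain ⟨γ, h1, h2⟩ := f.rw_ne g _ subset_rfl ⟨η, h⟩
  exact ⟨γ, h2 η h, fun δ hδ => by_contra fun hc => absurd (h2 δ hc) (not_le.2 hδ), h1⟩

theorem Hahn.exists_top {f g : Hahn Γ l0} (h : f ≠ g) :
    ∃ γ, Agree γ f g ∧ f.val γ ≠ g.val γ := by
  have : ∃ η, f.val η ≠ g.val η := by
    by_contra hc
    push Not at hc
    exact h (Hahn.ext (funext hc))
  obtain ⟨η, hη⟩ := this
  obtain ⟨γ, -, h1⟩ := Hahn.exists_top_of hη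
  exact ⟨γ, h1⟩

theorem Hahn.exists_top_above {f g : Hahn Γ l0} {η : Γ} (h : ¬ Agree η f g) :
    ∃ γ, η < γ ∧ Agree γ f g ∧ f.val γ ≠ g.val γ := by
  unfold Agree at h
  push Not at h
  obtain ⟨δ, h1, h2⟩ := h
  obtain ⟨γ, h3, h4⟩ := Hahn.exists_top_of h2
  exact ⟨γ, h1.trans_le h3, h4⟩

open Classical in
/-- Change one coordinate. -/
noncomputable def Hahn.upd (f : Hahn Γ l0) (γ : Γ) (l : Λ) : Hahn Γ l0 where
  val := Function.update f.val γ l
  rw := by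
    refine (f.rw.union (RW.of_subsingleton (Set.subsingleton_singleton (a := γ)))).mono ?_
    intro δ hδ
    by_cases h : δ = γ
    · exact Or.inr h
    · left
      simpa [Function.update_of_ne h] using hδ

theorem Hahn.upd_self (f : Hahn Γ l0) (γ : Γ) (l : Λ) : (f.upd γ l).val γ = l := by
  simp [Hahn.upd]

theorem Hahn.upd_agree (f : Hahn Γ l0) (γ : Γ) (l : Λ) : Agree γ f (f.upd γ l) := by
  intro δ hδ
  simp [Hahn.upd, Function.update_of_ne hδ.ne']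

variable [LinearOrder Λ]

/-- Lexicographic order. -/
def Hahn.lt (f g : Hahn Γ l0) : Prop := ∃ γ, Agree γ f g ∧ f.val γ < g.val γ

instance : IsStrictTotalOrder (Hahn Γ l0) Hahn.lt where
  trichotomous := fun f g h1 h2 => by
    by_contra h
    obtain ⟨γ, h3, h4⟩ := Hahn.exists_top h
    rcases lt_or_gt_of_ne h4 with h5 | h5
    · exact h1 ⟨γ, h3, h5⟩
    · exact h2 ⟨γ, h3.symm, h5⟩
  irrefl := fun f ⟨_, _, h⟩ => lt_irrefl _ h
  trans := by
    rintro f g k ⟨γ, h1, h2⟩ ⟨δ, h3, h4⟩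
    rcases lt_trichotomy γ δ with h | rfl | h
    · exact ⟨δ, (h1.up h.le).trans h3, by rw [h1 δ h]; exact h4⟩
    · exact ⟨γ, h1.trans h3, h2.trans h4⟩
    · exact ⟨γ, h1.trans (h3.up h.le), by rw [← h3 γ h]; exact h2⟩

noncomputable instance : LinearOrder (Hahn Γ l0) := by
  classical exact linearOrderOfSTO Hahn.lt

theorem Hahn.lt_iff {f g : Hahn Γ l0} : f < g ↔ ∃ γ, Agree γ f g ∧ f.val γ < g.val γ := Iff.rfl

theorem Hahn.val_le {f g : Hahn Γ l0} {γ : Γ} (h : f ≤ g) (ha : Agree γ f g) :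
    f.val γ ≤ g.val γ := by
  by_contra hc
  exact absurd (Hahn.lt_iff.2 ⟨γ, ha.symm, not_le.1 hc⟩) (not_lt.2 h)

theorem Hahn.lt_of_agree {a b a' b' : Hahn Γ l0} {γ : Γ} (h : ¬ Agree γ a b)
    (ha : Agree γ a a') (hb : Agree γ b b') (hab : a < b) : a' < b' := by
  obtain ⟨δ, h1, h2⟩ := hab
  have hδ : γ < δ := by
    by_contra hc
    exact h (h1.up (not_lt.1 hc))
  exact ⟨δ, ((ha.up hδ.le).symm.trans h1).trans (hb.up hδ.le), by
    rw [← ha δ hδ, ← hb δ hδ]; exact h2⟩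

theorem Hahn.val_max {a b : Hahn Γ l0} {γ : Γ} (h : Agree γ a b) :
    (max a b).val γ = max (a.val γ) (b.val γ) := by
  rcases le_total a b with h1 | h1
  · rw [max_eq_right h1, max_eq_right (Hahn.val_le h1 h)]
  · rw [max_eq_left h1, max_eq_left (Hahn.val_le h1 h.symm)]

variable {E : Type w} [Group E] [Lattice E] {μ : E → Λ → Λ}

/-- `ε` is a cocycle describing `φ` level by level. -/
def IsCoc (μ : E → Λ → Λ) (φ : Hahn Γ l0 → Hahn Γ l0) (ε : Γ → Hahn Γ l0 → E) : Prop :=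
  (∀ γ f g, Agree γ f g → ε γ f = ε γ g) ∧ ∀ γ f, (φ f).val γ = μ (ε γ f) (f.val γ)

/-- Triangular maps. -/
def Tri (μ : E → Λ → Λ) (φ : Hahn Γ l0 → Hahn Γ l0) : Prop := ∃ ε, IsCoc μ φ ε

omit [LinearOrder Λ] [Group E] [Lattice E] in
theorem Tri.agree {φ : Hahn Γ l0 → Hahn Γ l0} (h : Tri μ φ) {γ : Γ} {f g : Hahn Γ l0}
    (ha : Agree γ f g) : Agree γ (φ f) (φ g) := by
  obtain ⟨ε, h1, h2⟩ := h
  intro δ hδ
  rw [h2, h2, h1 δ f g (ha.up hδ.le), ha δ hδ]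

theorem Tri.agree_rev (hμ : IsLAct μ) {φ : Hahn Γ l0 → Hahn Γ l0} (h : Tri μ φ) {γ : Γ}
    {f g : Hahn Γ l0} (ha : Agree γ (φ f) (φ g)) : Agree γ f g := by
  obtain ⟨ε, h1, h2⟩ := h
  by_contra hc
  obtain ⟨δ, h3, h4, h5⟩ := Hahn.exists_top_above hc
  have := ha δ h3
  rw [h2, h2, h1 δ f g h4, hμ.eq_iff] at this
  exact h5 this

theorem closed_tri (hμ : IsLAct μ) : Closed (Tri μ : (Hahn Γ l0 → Hahn Γ l0) → Prop) where
  id := ⟨fun _ _ => 1, fun _ _ _ _ => rfl, fun γ f => (hμ.one _).symm⟩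
  comp := by
    rintro φ ψ ⟨ε, h1, h2⟩ hψ
    obtain ⟨ε', h3, h4⟩ := id hψ
    refine ⟨fun γ f => ε γ (ψ f) * ε' γ f, fun γ f g ha => ?_, fun γ f => ?_⟩
    · simp only [h1 γ _ _ (hψ.agree ha), h3 γ _ _ ha]
    · simp only [h2, h4, hμ.mul]
  inv := by
    intro φ ψ hφ e1 e2
    obtain ⟨ε, h1, h2⟩ := id hφ
    refine ⟨fun γ f => (ε γ (ψ f))⁻¹, fun γ f g ha => ?_, fun γ f => ?_⟩
    · simp only
      rw [h1 γ (ψ f) (ψ g) (hφ.agree_rev hμ (by rwa [e1, e1]))]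
    · have := h2 γ (ψ f)
      rw [e1] at this
      simp only
      rw [this, hμ.inv_act]
  max := by
    classical
    intro φ ψ hφ hψ
    obtain ⟨ε, h1, h2⟩ := id hφ
    obtain ⟨ε', h3, h4⟩ := id hψ
    refine ⟨fun γ f => if Agree γ (φ f) (ψ f) then ε γ f ⊔ ε' γ f else
      if φ f < ψ f then ε' γ f else ε γ f, fun γ f g ha => ?_, fun γ f => ?_⟩
    · have a1 := hφ.agree ha
      have a2 := hψ.agree ha
      simp only [h1 γ f g ha, h3 γ f g ha]
      by_cases hc : Agree γ (φ f) (ψ f)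
      · rw [if_pos hc, if_pos ((a1.symm.trans hc).trans a2)]
      · have hc' : ¬ Agree γ (φ g) (ψ g) := fun h => hc ((a1.trans h).trans a2.symm)
        rw [if_neg hc, if_neg hc']
        by_cases hl : φ f < ψ f
        · rw [if_pos hl, if_pos (Hahn.lt_of_agree hc a1 a2 hl)]
        · rw [if_neg hl, if_neg fun h => hl (Hahn.lt_of_agree hc' a1.symm a2.symm h)]
    · simp only
      by_cases hc : Agree γ (φ f) (ψ f)
      · rw [if_pos hc, Hahn.val_max hc, hμ.sup, h2, h4]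
      · rw [if_neg hc]
        by_cases hl : φ f < ψ f
        · rw [if_pos hl, max_eq_right hl.le, h4]
        · rw [if_neg hl, max_eq_left (not_lt.1 hl), h2]
  mono := by
    rintro φ hφ f g ⟨γ, ha, hl⟩
    obtain ⟨ε, h1, h2⟩ := id hφ
    exact ⟨γ, hφ.agree ha, by rw [h2, h2, h1 γ f g ha]; exact hμ.mono _ hl⟩

variable [MulLeftMono E] [MulRightMono E]

theorem tri_normalValued (hμ : IsLAct μ) (hN : ∀ a b : E, 1 ≤ a → 1 ≤ b → a * b ≤ b ^ 2 * a ^ 2) :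
    NormalValued (closed_tri (Γ := Γ) (l0 := l0) hμ).lgrp := by
  intro φ ψ hφ hψ f
  have hA := AutP.isLAct (hP := closed_tri (Γ := Γ) (l0 := l0) hμ)
  obtain ⟨ε, h1, h2⟩ := AutP.prop φ
  obtain ⟨ε', h3, h4⟩ := AutP.prop ψ
  by_cases hc : AutP.app φ f = f ∧ AutP.app ψ f = f
  · show AutP.app (φ * ψ) f ≤ AutP.app (ψ ^ 2 * φ ^ 2) f
    rw [hA.mul, hA.mul, hc.2, hc.1, hA.fix_pow hc.1, hA.fix_pow hc.2]
  have hne : {γ | (AutP.app φ f).val γ ≠ f.val γ ∨ (AutP.app ψ f).val γ ≠ f.val γ}.Nonempty := by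
    rcases not_and_or.1 hc with h | h
    · obtain ⟨γ, -, h5⟩ := Hahn.exists_top h
      exact ⟨γ, Or.inl h5⟩
    · obtain ⟨γ, -, h5⟩ := Hahn.exists_top h
      exact ⟨γ, Or.inr h5⟩
  obtain ⟨γ, hγ, hmax⟩ := ((Hahn.rw_ne (AutP.app φ f) f).union
    (Hahn.rw_ne (AutP.app ψ f) f)) _ (fun _ h => h) hne
  have aφ : Agree γ (AutP.app φ f) f := fun δ hδ => by_contra fun h =>
    absurd (hmax δ (Or.inl h)) (not_le.2 hδ)
  have aψ : Agree γ (AutP.app ψ f) f := fun δ hδ => by_contra fun h =>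
    absurd (hmax δ (Or.inr h)) (not_le.2 hδ)
  have key : ∀ (χ : AutP (closed_tri (Γ := Γ) (l0 := l0) hμ)) (η : Γ → Hahn Γ l0 → E),
      1 ≤ χ → IsCoc μ (AutP.app χ) η → Agree γ (AutP.app χ f) f → ∀ g, Agree γ g f →
      Agree γ (AutP.app χ g) f ∧ (AutP.app χ g).val γ = μ (η γ f ⊔ 1) (g.val γ) := by
    intro χ η hχ hη ha g hg
    have a1 : Agree γ (AutP.app χ g) f := (Tri.agree (AutP.prop χ) hg).trans ha
    refine ⟨a1, ?_⟩
    have e := Hahn.val_le (hA.pos hχ g) (hg.trans a1.symm)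
    rw [hη.2, hη.1 γ g f hg] at e ⊢
    exact (hμ.sup_one_of_le e).symm
  have kφ := key φ ε hφ ⟨h1, h2⟩ aφ
  have kψ := key ψ ε' hψ ⟨h3, h4⟩ aψ
  have r0 := Agree.refl γ f
  have hmv : μ (ε γ f ⊔ 1) (f.val γ) ≠ f.val γ ∨ μ (ε' γ f ⊔ 1) (f.val γ) ≠ f.val γ := by
    rw [← (kφ f r0).2, ← (kψ f r0).2]; exact hγ
  have hs := strict_law hμ (wexp_of_law hN hμ) (wexp_of_law hN (isLAct_lowAct hμ))
    le_sup_right le_sup_right hmv
  refine le_of_lt ⟨γ, ?_, ?_⟩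
  · show Agree γ (AutP.app (φ * ψ) f) (AutP.app (ψ ^ 2 * φ ^ 2) f)
    rw [pow_two, pow_two]
    simp only [hA.mul]
    exact (kφ _ (kψ f r0).1).1.trans (kψ _ (kψ _ (kφ _ (kφ f r0).1).1).1).1.symm
  · show (AutP.app (φ * ψ) f).val γ < (AutP.app (ψ ^ 2 * φ ^ 2) f).val γ
    rw [pow_two, pow_two] at hs ⊢
    simp only [hA.mul, hμ.mul] at hs ⊢
    rw [(kφ _ (kψ f r0).1).2, (kψ f r0).2, (kψ _ (kψ _ (kφ _ (kφ f r0).1).1).1).2,
      (kψ _ (kφ _ (kφ f r0).1).1).2, (kφ _ (kφ f r0).1).2, (kφ f r0).2]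
    exact hs

end Pool.Agent.MP_a2e0a9_al

end

-- part MP_a2e0a9_al.Coord
section

/-! Hahn coordinates for a transitive action with bounded expansion. -/

namespace Pool.Agent.MP_a2e0a9_al

universe u v w

/-- Real coordinates, indexed by a chain of levels, compatible with the action. -/
structure IsCoord {G : Type u} {Ω : Type v} [LinearOrder Ω] (ρ : G → Ω → Ω)
    {Γ : Type w} [LinearOrder Γ] (s : Γ → Ω → ℝ) : Prop where
  wf : ∀ x (S : Set Γ), S.Nonempty → (∀ γ ∈ S, s γ x ≠ 0) → ∃ γ ∈ S, ∀ δ ∈ S, δ ≤ γ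
  ord : ∀ x y, x < y → ∃ γ, (∀ δ, γ < δ → s δ x = s δ y) ∧ s γ x < s γ y
  act : ∀ g γ x y, (∀ δ, γ < δ → s δ x = s δ y) →
    s γ (ρ g x) - s γ (ρ g y) = s γ x - s γ y

variable {G : Type u} [Group G] [Lattice G] [MulLeftMono G] [MulRightMono G]
  {Ω : Type v} [LinearOrder Ω] {ρ : G → Ω → Ω}

theorem exists_coord (h : IsLAct ρ) {m : ℕ} (hW : WExp ρ m) (hW' : WExp (lowAct h) m) (x : Ω)
    (htr : ∀ y, ∃ g, ρ g x = y) :
    ∃ (Γ : Type u) (_ : LinearOrder Γ) (s : Γ → Ω → ℝ), IsCoord ρ s := by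
  classical
  let Γ := {K : Set G // ∃ u, 1 ≤ u ∧ x < ρ u x ∧ K = KK ρ x u}
  let _ : LinearOrder Γ :=
    { (inferInstance : PartialOrder Γ) with
      le_total := by
        rintro ⟨_, u, hu, -, rfl⟩ ⟨_, v, hv, -, rfl⟩
        exact KK_total h hW hv hu
      toDecidableLE := Classical.decRel _ }
  have hle : ∀ γ δ : Γ, γ ≤ δ ↔ γ.1 ⊆ δ.1 := fun _ _ => Iff.rfl
  choose U hU1 hU2 hU3 using fun γ : Γ => γ.2
  choose χ hadd hmon hz using fun γ : Γ => exists_chi h hW hW' (hU1 γ) (hU2 γ)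
  simp only [← hU3] at hadd hmon hz
  have Kfix : ∀ (γ : Γ) g, ρ g x = x → g ∈ γ.1 := fun γ g hg => by
    rw [hU3]; exact KK_of_fix h hg
  have Kmul : ∀ (γ : Γ) a b, a ∈ γ.1 → b ∈ γ.1 → a * b ∈ γ.1 := fun γ a b ha hb => by
    rw [hU3] at ha hb ⊢; exact KK_mul h hW (hU1 γ) ha hb
  have Kinv : ∀ (γ : Γ) a, a ∈ γ.1 → a⁻¹ ∈ γ.1 := fun γ a ha => by
    rw [hU3] at ha ⊢; exact KK_inv h hW (hU1 γ) ha
  have χfix : ∀ (γ : Γ) g, ρ g x = x → χ γ g = 0 := fun γ g hg =>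
    (hz γ g (Kfix γ g hg)).2 (MM_of_fix h (hU2 γ) hg)
  have χlt : ∀ γ δ : Γ, γ < δ → ∀ g ∈ γ.1, χ δ g = 0 := by
    intro γ δ hlt g hg
    refine (hz δ g ((hle _ _).1 hlt.le hg)).2 ⟨U γ, hU1 γ, fun hc => ?_, hU3 γ ▸ hg⟩
    have := KK_sub h hW (hU1 γ) hc
    rw [← hU3, ← hU3] at this
    exact absurd ((hle _ _).2 this) (not_le.2 hlt)
  have top : ∀ w, x < ρ w x → ∃ γ : Γ, w ∈ γ.1 ∧ 0 < χ γ w := by
    intro w hw
    have e : ρ (w ⊔ 1) x = ρ w x := h.sup_one_of_le hw.le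
    let γ : Γ := ⟨KK ρ x (w ⊔ 1), w ⊔ 1, le_sup_right, e ▸ hw, rfl⟩
    have hwγ : w ∈ γ.1 :=
      KK_conv (KK_self h le_sup_right) (KK_self h le_sup_right) e.le e.ge
    refine ⟨γ, hwγ, lt_of_le_of_ne ?_ fun hc => ?_⟩
    · have := hmon γ 1 (Kfix γ 1 (h.one x)) w hwγ (by rw [h.one]; exact hw.le)
      rwa [χfix γ 1 (h.one x)] at this
    · obtain ⟨v, hv, h1, h2⟩ := (hz γ w hwγ).1 hc.symm
      have h3 : KK ρ x (w ⊔ 1) ⊆ KK ρ x v := KK_sub h hW hv (KK_conv h2 h2 e.ge e.le)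
      have h4 : U γ ∈ γ.1 := by rw [hU3]; exact KK_self h (hU1 γ)
      exact h1 (h3 h4)
  choose sec hsec using htr
  let rel : Γ → Ω → Ω → Prop := fun γ a b => (sec a)⁻¹ * sec b ∈ γ.1
  let d : Γ → Ω → Ω → ℝ := fun γ a b => χ γ ((sec a)⁻¹ * sec b)
  have rrefl : ∀ γ a, rel γ a a := fun γ a => Kfix γ _ (by rw [inv_mul_cancel, h.one])
  have rsymm : ∀ γ a b, rel γ a b → rel γ b a := fun γ a b hab => by
    have := Kinv γ _ hab
    simpa using this
  have rtrans : ∀ γ a b c, rel γ a b → rel γ b c → rel γ a c := fun γ a b c hab hbc => by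
    have := Kmul γ _ _ hab hbc
    simpa [mul_assoc] using this
  have dadd : ∀ γ a b c, rel γ a b → rel γ b c → d γ a c = d γ a b + d γ b c := by
    intro γ a b c hab hbc
    have := hadd γ _ hab _ hbc
    simpa [mul_assoc] using this
  have hact : ∀ γ g a b, rel γ a b → rel γ (ρ g a) (ρ g b) ∧ d γ (ρ g a) (ρ g b) = d γ a b := by
    intro γ g a b hab
    have p1 : ρ ((sec (ρ g a))⁻¹ * g * sec a) x = x := by
      rw [h.mul, h.mul, hsec, h.inv_eq_iff, hsec]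
    have p2 : ρ ((sec b)⁻¹ * g⁻¹ * sec (ρ g b)) x = x := by
      rw [h.mul, h.mul, hsec, h.inv_act, h.inv_eq_iff, hsec]
    have e : (sec (ρ g a))⁻¹ * sec (ρ g b) = ((sec (ρ g a))⁻¹ * g * sec a) *
        (((sec a)⁻¹ * sec b) * ((sec b)⁻¹ * g⁻¹ * sec (ρ g b))) := by group
    have k1 := Kmul γ _ _ hab (Kfix γ _ p2)
    constructor
    · show _ ∈ _
      rw [e]; exact Kmul γ _ _ (Kfix γ _ p1) k1
    · show χ γ _ = χ γ _
      rw [e, hadd γ _ (Kfix γ _ p1) _ k1, hadd γ _ hab _ (Kfix γ _ p2), χfix γ _ p1, χfix γ _ p2]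
      ring
  obtain ⟨wo, hwf, htri⟩ : ∃ wo : Ω → Ω → Prop, WellFounded wo ∧
      ∀ a b, ¬ wo a b → ¬ wo b a → a = b :=
    ⟨WellOrderingRel, IsWellFounded.wf, fun a b h1 h2 =>
      ((trichotomous_of WellOrderingRel a b).resolve_left h1).resolve_right h2⟩
  let base : Γ → Ω → Ω := fun γ a => hwf.min {b | rel γ a b} ⟨a, rrefl γ a⟩
  have hb1 : ∀ γ a, rel γ a (base γ a) := fun γ a => hwf.min_mem {b | rel γ a b} _
  have hb2 : ∀ γ a b, rel γ a b → ¬ wo b (base γ a) := fun γ a b hab =>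
    hwf.not_lt_min {b | rel γ a b} hab
  have hb3 : ∀ γ a b, rel γ a b → base γ a = base γ b := by
    intro γ a b hab
    have : {c | rel γ a c} = {c | rel γ b c} :=
      Set.ext fun c => ⟨rtrans γ _ _ _ (rsymm γ _ _ hab), rtrans γ _ _ _ hab⟩
    simp only [base, this]
  let s : Γ → Ω → ℝ := fun γ a => d γ (base γ a) a
  have hs : ∀ γ a b, rel γ a b → s γ b - s γ a = d γ a b := by
    intro γ a b hab
    simp only [s]
    rw [← hb3 γ a b hab, dadd γ _ a b (rsymm γ _ _ (hb1 γ a)) hab]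
    ring
  have hup : ∀ γ δ a b, rel γ a b → γ < δ → s δ a = s δ b := by
    intro γ δ a b hab hlt
    have := hs δ a b ((hle _ _).1 hlt.le hab)
    have e : d δ a b = 0 := χlt γ δ hlt _ hab
    linarith
  have hlt : ∀ a b, a < b → ∃ γ, rel γ a b ∧ s γ a < s γ b := by
    intro a b hab
    obtain ⟨γ, h1, h2⟩ := top ((sec a)⁻¹ * sec b) (by
      rw [h.mul, hsec, h.lt_inv_iff, hsec]; exact hab)
    refine ⟨γ, h1, ?_⟩
    have := hs γ a b h1
    have e : 0 < d γ a b := h2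
    linarith
  have hrel : ∀ γ a b, (∀ δ, γ < δ → s δ a = s δ b) → rel γ a b := by
    intro γ a b hab
    rcases lt_trichotomy a b with h1 | rfl | h1
    · obtain ⟨δ, h2, h3⟩ := hlt a b h1
      exact (hle _ _).1 (not_lt.1 fun hc => h3.ne (hab δ hc)) h2
    · exact rrefl γ a
    · obtain ⟨δ, h2, h3⟩ := hlt b a h1
      exact rsymm γ _ _ ((hle _ _).1 (not_lt.1 fun hc => h3.ne' (hab δ hc)) h2)
  refine ⟨Γ, inferInstance, s, fun a S hS hS' => ?_, fun a b hab => ?_, fun g γ a b hab => ?_⟩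
  · obtain ⟨z, ⟨γ, hγ, rfl⟩, hmin⟩ := hwf.has_min ((fun γ => base γ a) '' S) (hS.image _)
    refine ⟨γ, hγ, fun δ hδ => not_lt.1 fun hc => hS' δ hδ ?_⟩
    have e1 := hb2 δ a _ ((hle _ _).1 hc.le (hb1 γ a))
    have e2 := hmin _ ⟨δ, hδ, rfl⟩
    have e3 : base δ a = base γ a := htri _ _ e2 e1
    show d δ (base δ a) a = 0
    rw [e3]
    exact χlt γ δ hc _ (rsymm γ _ _ (hb1 γ a))
  · obtain ⟨γ, h1, h2⟩ := hlt a b hab
    exact ⟨γ, fun δ hδ => hup γ δ a b h1 hδ, h2⟩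
  · have h1 := hrel γ a b hab
    have h2 := hact γ g a b h1
    have e1 := hs γ _ _ h1
    have e2 := hs γ _ _ h2.1
    linarith [h2.2]

end Pool.Agent.MP_a2e0a9_al

end

-- part MP_a2e0a9_al.Ext
section

/-! Extending an action with coordinates to a Hahn product along a flow. -/

namespace Pool.Agent.MP_a2e0a9_al

universe u

/-- A positive flow moving the base point, with inner rescalings. -/
structure Flow {E : Type u} [Group E] [Lattice E] {Λ : Type u} (μ : E → Λ → Λ) (l0 : Λ)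
    (β m : ℝ → E) : Prop where
  add : ∀ a b, β (a + b) = β a * β b
  pos : ∀ a, 0 ≤ a → 1 ≤ β a
  move : μ (β 1) l0 ≠ l0
  scale : ∀ r, 0 < r → m r * β 1 * (m r)⁻¹ = β r

section Flow
variable {E : Type u} [Group E] [Lattice E] {Λ : Type u} [LinearOrder Λ] {μ : E → Λ → Λ}
  {l0 : Λ} {β m : ℝ → E}

omit [LinearOrder Λ] in
theorem Flow.zero (h : Flow μ l0 β m) : β 0 = 1 := by
  have := h.add 0 0
  rw [add_zero] at this
  exact mul_eq_left.1 this.symm

theorem Flow.le (h : Flow μ l0 β m) (hμ : IsLAct μ) {a b : ℝ} (hab : a ≤ b) (l : Λ) :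
    μ (β a) l ≤ μ (β b) l := by
  have : b = a + (b - a) := by ring
  rw [this, h.add, hμ.mul]
  exact hμ.mon _ (hμ.pos (h.pos _ (sub_nonneg.2 hab)) l)

theorem Flow.strictMono (h : Flow μ l0 β m) (hμ : IsLAct μ) :
    StrictMono fun a => μ (β a) l0 := by
  have key : ∀ t, 0 < t → l0 < μ (β t) l0 := by
    intro t ht
    refine lt_of_le_of_ne (hμ.pos (h.pos t ht.le) l0) fun hc => ?_
    have e : ∀ n : ℕ, μ (β (n * t)) l0 = l0 := by
      intro n
      induction n with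
      | zero => simp [h.zero, hμ.one]
      | succ n ih => rw [Nat.cast_succ, add_mul, one_mul, h.add, hμ.mul, ← hc, ih]
    obtain ⟨n, hn⟩ := exists_nat_ge (1 / t)
    rw [div_le_iff₀ ht] at hn
    have e2 := h.le hμ hn l0
    rw [e] at e2
    exact h.move (le_antisymm e2 (hμ.pos (h.pos 1 zero_le_one) l0))
  intro a b hab
  have : b = a + (b - a) := by ring
  simp only
  rw [this, h.add, hμ.mul]
  exact hμ.mono _ (key _ (sub_pos.2 hab))

end Flow

variable {C : Type u} [Group C] [Lattice C] {Ω : Type u} [LinearOrder Ω] {ρ : C → Ω → Ω}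
  {Γ : Type u} [LinearOrder Γ] {s : Γ → Ω → ℝ}
  {E : Type u} [Group E] [Lattice E] {Λ : Type u} [LinearOrder Λ] {μ : E → Λ → Λ}
  {l0 : Λ} {β m : ℝ → E}

/-- All the data. -/
structure Setup (ρ : C → Ω → Ω) (s : Γ → Ω → ℝ) (μ : E → Λ → Λ) (l0 : Λ) (β m : ℝ → E) :
    Prop where
  hρ : IsLAct ρ
  hs : IsCoord ρ s
  hμ : IsLAct μ
  hF : Flow μ l0 β m

namespace Setup
variable (H : Setup ρ s μ l0 β m)

include H in
theorem rw_s (x : Ω) : RW {γ | s γ x ≠ 0} := fun T hT hne => H.hs.wf x T hne fun _ h => hT h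

/-- The embedding of points. -/
def emb (x : Ω) : Hahn Γ l0 where
  val γ := μ (β (s γ x)) l0
  rw := (H.rw_s x).mono fun γ hγ hc => hγ (by
    simp only [hc, H.hF.zero, H.hμ.one])

theorem agree_emb {γ : Γ} {x y : Ω} :
    Agree γ (H.emb x) (H.emb y) ↔ ∀ δ, γ < δ → s δ x = s δ y :=
  ⟨fun h δ hδ => (H.hF.strictMono H.hμ).injective (h δ hδ),
    fun h δ hδ => by simp only [emb, h δ hδ]⟩

theorem emb_mono : StrictMono H.emb := by
  intro x y hxy
  obtain ⟨γ, h1, h2⟩ := H.hs.ord x y hxy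
  exact ⟨γ, H.agree_emb.2 h1, H.hF.strictMono H.hμ h2⟩

open Classical in
/-- Translation amount at a level. -/
noncomputable def σ (γ : Γ) (g : C) (f : Hahn Γ l0) : ℝ :=
  if h : ∃ x, Agree γ (H.emb x) f then s γ (ρ g h.choose) - s γ h.choose else 0

theorem σ_eq {γ : Γ} {x : Ω} {f : Hahn Γ l0} (g : C) (h : Agree γ (H.emb x) f) :
    H.σ γ g f = s γ (ρ g x) - s γ x := by
  have h1 : ∃ x, Agree γ (H.emb x) f := ⟨x, h⟩
  rw [σ, dif_pos h1]
  have := H.hs.act g γ _ _ (H.agree_emb.1 (h1.choose_spec.trans h.symm))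
  linarith

theorem σ_zero {γ : Γ} {f : Hahn Γ l0} (g : C) (h : ¬ ∃ x, Agree γ (H.emb x) f) :
    H.σ γ g f = 0 := by
  rw [σ, dif_neg h]

theorem σ_wit {γ : Γ} {f : Hahn Γ l0} {g : C} (h : H.σ γ g f ≠ 0) :
    ∃ x, Agree γ (H.emb x) f := by_contra fun hc => h (H.σ_zero g hc)

theorem σ_congr {γ : Γ} {f f' : Hahn Γ l0} (g : C) (h : Agree γ f f') :
    H.σ γ g f = H.σ γ g f' := by
  by_cases h1 : ∃ x, Agree γ (H.emb x) f
  · obtain ⟨x, hx⟩ := h1
    rw [H.σ_eq g hx, H.σ_eq g (hx.trans h)]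
  · rw [H.σ_zero g h1, H.σ_zero g fun ⟨x, hx⟩ => h1 ⟨x, hx.trans h.symm⟩]

theorem rw_σ (g : C) (f : Hahn Γ l0) : RW {γ | H.σ γ g f ≠ 0} := by
  refine RW.of_local fun γ hγ => ?_
  obtain ⟨x, hx⟩ := H.σ_wit hγ
  refine ((H.rw_s (ρ g x)).union (H.rw_s x)).mono fun δ hδ => ?_
  by_contra hc
  simp only [Set.mem_union, Set.mem_ofPred_eq, not_or, not_not] at hc
  apply hδ.1
  rw [H.σ_eq g (hx.up hδ.2.le), hc.1, hc.2, sub_zero]

/-- The extended action. -/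
noncomputable def kf (g : C) (f : Hahn Γ l0) : Hahn Γ l0 where
  val γ := μ (β (H.σ γ g f)) (f.val γ)
  rw := ((H.rw_σ g f).union f.rw).mono fun γ hγ => by
    by_contra hc
    simp only [Set.mem_union, Set.mem_ofPred_eq, not_or, not_not] at hc
    exact hγ (by simp only [hc.1, hc.2, H.hF.zero, H.hμ.one])

theorem kf_val (g : C) (f : Hahn Γ l0) (γ : Γ) :
    (H.kf g f).val γ = μ (β (H.σ γ g f)) (f.val γ) := rfl

theorem tri_kf (g : C) : Tri μ (H.kf g) :=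
  ⟨fun γ f => β (H.σ γ g f), fun _ _ _ h => by simp only [H.σ_congr g h], fun _ _ => rfl⟩

theorem kf_emb (g : C) (x : Ω) : H.kf g (H.emb x) = H.emb (ρ g x) := by
  ext γ
  rw [kf_val, H.σ_eq g (Agree.refl _ _)]
  simp only [emb]
  rw [← H.hμ.mul, ← H.hF.add, sub_add_cancel]

theorem kf_agree (g : C) {γ : Γ} {x : Ω} {f : Hahn Γ l0} (h : Agree γ (H.emb x) f) :
    Agree γ (H.emb (ρ g x)) (H.kf g f) := by
  rw [← kf_emb]; exact (H.tri_kf g).agree h

theorem σ_mul (g k : C) (γ : Γ) (f : Hahn Γ l0) :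
    H.σ γ (g * k) f = H.σ γ g (H.kf k f) + H.σ γ k f := by
  by_cases h1 : ∃ x, Agree γ (H.emb x) f
  · obtain ⟨x, hx⟩ := h1
    rw [H.σ_eq _ hx, H.σ_eq _ hx, H.σ_eq _ (H.kf_agree k hx), H.hρ.mul]
    ring
  · rw [H.σ_zero _ h1, H.σ_zero _ h1, H.σ_zero, add_zero]
    rintro ⟨y, hy⟩
    refine h1 ⟨ρ k⁻¹ y, (H.tri_kf k).agree_rev H.hμ ?_⟩
    rwa [kf_emb, H.hρ.act_inv]

theorem kf_sup_of_le (g k : C) (f : Hahn Γ l0) (h : H.kf g f ≤ H.kf k f) :
    H.kf (g ⊔ k) f = H.kf k f := by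
  ext γ
  by_cases h1 : ∃ x, Agree γ (H.emb x) f
  · obtain ⟨x, hx⟩ := h1
    rcases le_or_gt (ρ g x) (ρ k x) with h2 | h2
    · rw [kf_val, kf_val, H.σ_eq _ hx, H.σ_eq _ hx, H.hρ.sup, max_eq_right h2]
    · have e : (H.kf (g ⊔ k) f).val γ = (H.kf g f).val γ := by
        rw [kf_val, kf_val, H.σ_eq _ hx, H.σ_eq _ hx, H.hρ.sup, max_eq_left h2.le]
      rw [e]
      have a1 := H.kf_agree g hx
      have a2 := H.kf_agree k hx
      have a3 : Agree γ (H.emb (ρ k x)) (H.emb (ρ g x)) := by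
        by_contra hc
        exact absurd (Hahn.lt_of_agree hc a2 a1 (H.emb_mono h2)) (not_lt.2 h)
      refine le_antisymm (Hahn.val_le h ((a1.symm.trans a3.symm).trans a2)) ?_
      have e2 : s γ (ρ k x) ≤ s γ (ρ g x) :=
        (H.hF.strictMono H.hμ).le_iff_le.1 (Hahn.val_le (H.emb_mono h2).le a3)
      rw [kf_val, kf_val, H.σ_eq _ hx, H.σ_eq _ hx]
      exact H.hF.le H.hμ (by linarith) _
  · rw [kf_val, kf_val, H.σ_zero _ h1, H.σ_zero _ h1]

theorem isLAct_kf : IsLAct H.kf where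
  one f := by
    ext γ
    have : H.σ γ 1 f = 0 := by
      by_contra hc
      obtain ⟨x, hx⟩ := H.σ_wit hc
      exact hc (by rw [H.σ_eq _ hx, H.hρ.one, sub_self])
    rw [kf_val, this, H.hF.zero, H.hμ.one]
  mul g k f := by
    ext γ
    rw [kf_val, kf_val, kf_val, σ_mul, H.hF.add, H.hμ.mul]
  mono g := (closed_tri H.hμ).mono _ (H.tri_kf g)
  sup g k f := by
    rcases le_total (H.kf g f) (H.kf k f) with h | h
    · rw [max_eq_right h, H.kf_sup_of_le g k f h]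
    · rw [max_eq_left h, sup_comm, H.kf_sup_of_le k g f h]

/-- The top level at which `c` translates. -/
def Act (c : C) (γ : Γ) (f : Hahn Γ l0) : Prop :=
  H.σ γ c f ≠ 0 ∧ ∀ δ, γ < δ → H.σ δ c f = 0

variable {H} {c : C}

theorem Act.congr {γ : Γ} {f g : Hahn Γ l0} (h : H.Act c γ f) (ha : Agree γ f g) :
    H.Act c γ g :=
  ⟨H.σ_congr c ha ▸ h.1, fun δ hδ => H.σ_congr c (ha.up hδ.le) ▸ h.2 δ hδ⟩

theorem Act.unique {γ δ : Γ} {f : Hahn Γ l0} (h : H.Act c γ f) (h' : H.Act c δ f) : γ = δ :=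
  le_antisymm (not_lt.1 fun hc => h.1 (h'.2 γ hc)) (not_lt.1 fun hc => h'.1 (h.2 δ hc))

theorem Act.pos (hc : 1 ≤ c) {γ : Γ} {f : Hahn Γ l0} (h : H.Act c γ f) : 0 < H.σ γ c f := by
  obtain ⟨x, hx⟩ := H.σ_wit h.1
  have a : Agree γ (H.emb x) (H.emb (ρ c x)) := H.agree_emb.2 fun δ hδ => by
    have := h.2 δ hδ
    rw [H.σ_eq c (hx.up hδ.le)] at this
    linarith
  have e : s γ x ≤ s γ (ρ c x) :=
    (H.hF.strictMono H.hμ).le_iff_le.1 (Hahn.val_le (H.emb_mono.monotone (H.hρ.pos hc x)) a)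
  refine lt_of_le_of_ne ?_ h.1.symm
  rw [H.σ_eq c hx]; linarith

theorem exists_act {δ : Γ} {f : Hahn Γ l0} (h : H.σ δ c f ≠ 0) : ∃ γ, δ ≤ γ ∧ H.Act c γ f := by
  obtain ⟨γ, h1, h2⟩ := H.rw_σ c f _ subset_rfl ⟨δ, h⟩
  exact ⟨γ, h2 δ h, h1, fun η hη => by_contra fun hc => absurd (h2 η hc) (not_le.2 hη)⟩

variable (H) (c)

open Classical in
/-- The cocycle of the auxiliary group. -/
noncomputable def Ac (e : E) (γ : Γ) (f : Hahn Γ l0) : E :=
  if H.Act c γ f then m (H.σ γ c f) * e * (m (H.σ γ c f))⁻¹ else 1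

/-- The action of the auxiliary group on active blocks. -/
noncomputable def Af (e : E) (f : Hahn Γ l0) : Hahn Γ l0 where
  val γ := μ (H.Ac c e γ f) (f.val γ)
  rw := ((RW.of_subsingleton (S := {γ | H.Act c γ f}) fun _ h _ h' => h.unique h').union
    f.rw).mono fun γ hγ => by
    by_contra hc
    simp only [Set.mem_union, Set.mem_ofPred_eq, not_or, not_not] at hc
    exact hγ (by simp only [Ac, if_neg hc.1, hc.2, H.hμ.one])

variable {H} {c}

theorem Af_of_act (e : E) {γ : Γ} {f : Hahn Γ l0} (h : H.Act c γ f) :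
    (H.Af c e f).val γ = μ (m (H.σ γ c f) * e * (m (H.σ γ c f))⁻¹) (f.val γ) := by
  simp only [Af, Ac, if_pos h]

theorem Af_of_not (e : E) {γ : Γ} {f : Hahn Γ l0} (h : ¬ H.Act c γ f) :
    (H.Af c e f).val γ = f.val γ := by
  simp only [Af, Ac, if_neg h, H.hμ.one]

theorem Af_agree (e : E) {γ : Γ} {f : Hahn Γ l0} (h : H.Act c γ f) : Agree γ f (H.Af c e f) :=
  fun _ hδ => (Af_of_not e fun h' => hδ.ne (h.unique h')).symm

theorem act_Af (e : E) {γ : Γ} {f : Hahn Γ l0} (h : H.Act c γ (H.Af c e f)) : H.Act c γ f := by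
  by_cases h1 : ∃ δ, H.Act c δ f
  · obtain ⟨δ, hδ⟩ := h1
    rwa [h.unique (hδ.congr (Af_agree e hδ))]
  · have : H.Af c e f = f := by
      ext δ; exact Af_of_not e fun h' => h1 ⟨δ, h'⟩
    rwa [this] at h

theorem tri_Af (e : E) : Tri μ (H.Af c e) := by
  refine ⟨H.Ac c e, fun γ f g h => ?_, fun _ _ => rfl⟩
  by_cases h1 : H.Act c γ f
  · simp only [Ac, if_pos h1, if_pos (h1.congr h), H.σ_congr c h]
  · simp only [Ac, if_neg h1, if_neg fun h' : H.Act c γ g => h1 (h'.congr h.symm)]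

theorem isLAct_Af [MulLeftMono E] [MulRightMono E] : IsLAct (H.Af c) where
  one f := by
    ext γ
    by_cases h : H.Act c γ f
    · rw [Af_of_act _ h, mul_one, mul_inv_cancel, H.hμ.one]
    · exact Af_of_not _ h
  mul e e' f := by
    ext γ
    by_cases h : H.Act c γ f
    · rw [Af_of_act _ h, Af_of_act _ (h.congr (Af_agree e' h)), Af_of_act _ h,
        ← H.σ_congr c (Af_agree e' h), ← H.hμ.mul]
      congr 1; group
    · rw [Af_of_not _ h, Af_of_not _ fun h' => h (act_Af _ h'), Af_of_not _ h]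
  mono e := (closed_tri H.hμ).mono _ (tri_Af e)
  sup e e' f := by
    ext γ
    by_cases h : H.Act c γ f
    · rw [Hahn.val_max ((Af_agree e h).symm.trans (Af_agree e' h)), Af_of_act _ h,
        Af_of_act _ h, Af_of_act _ h, mul_sup, sup_mul, H.hμ.sup]
    · rw [Af_of_not _ h]
      rcases max_cases (H.Af c e f) (H.Af c e' f) with h1 | h1 <;> rw [h1.1, Af_of_not _ h]

end Setup

end Pool.Agent.MP_a2e0a9_al

end
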