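import Mathlib
import Pool.Agent.MP_a2e0a9_al.Defs
import Pool.Agent.MP_a2e0a9_al.Mg.Ext

attribute [-instance] MonTypeEquivalenceMon.monMonoid Field.toSemifield
  NonUnitalRingHomClass.toMulHomClass CommSemiring.toSemiring Ring.toSemiring
  MonoidWithZero.toMulZeroOneClass CompletePartialOrder.toPartialOrder
  CommGrpTypeEquivalenceCommGrp.commGrpCommGroup NonUnitalAlgSemiHomClass.toMulHomClass
  IsCyclic.isMulCommutative GeneralizedCoheytingAlgebra.toLattice IdemSemiring.toSemiring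
  NonUnitalRing.toNonUnitalNonAssocRing NonAssocSemiring.toMulZeroOneClass RKHS.instFunLike
  Field.toDivisionRing CommMonTypeEquivalenceCommMon.commMonCommMonoid DivisionSemiring.toSemiring
  MulZeroClass.toMul SemigroupWithZero.toSemigroup CommRing.toRing
  NonUnitalNonAssocCommRing.toNonUnitalNonAssocCommSemiring
  NonUnitalSemiring.toNonUnitalNonAssocSemiring MonoidWithZero.toMonoid
  NonAssocSemiring.toNonUnitalNonAssocSemiring CommGroupWithZero.toDivisionCommMonoid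
  GroupWithZero.toDivInvMonoid GroupWithZero.toDivisionMonoid GeneralizedHeytingAlgebra.toLattice
  NonUnitalNormedCommRing.toNonUnitalCommRing OmegaCompletePartialOrder.toPartialOrder
  DivisionRing.toDivInvMonoid LieAdmissibleRing.toNonUnitalNonAssocRing
  ConditionallyCompleteLinearOrderBot.toConditionallyCompleteLinearOrder
  SubringClass.toSubsemiringClass RingConeClass.toSubsemiringClass
  instCommGroupOfIsSimpleGroupOfIsNilpotent AddCommMonoidWithOne.toAddMonoidWithOne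

-- part MP_a2e0a9_al.H1.Free
section

/-! Stages: ordered free bases with sign data, and the class of an element. -/

namespace Pool.Agent.MP_a2e0a9_al.H1

universe u

/-- An ordered family of letters with data on pairs of letters. -/
structure St (Ω : Type u) where
  Λ : Type u
  [lo : LinearOrder Λ]
  N : Λ → Λ → ℕ
  e : Λ → Λ → Prop
  b : Λ → Ω

attribute [instance] St.lo

variable {Ω : Type u}

/-- Letters of the next stage. -/
@[ext] structure DL (s : St Ω) (δ : s.Λ) where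
  γ : s.Λ
  h : γ < δ
  k : ℤ

open Classical in
/-- The twisted exponent. -/
noncomputable def sg (p : Prop) (k : ℤ) : ℤ := if p then -k else k

theorem sg_inj {p : Prop} {k l : ℤ} (h : sg p k = sg p l) : k = l := by
  unfold sg at h; split_ifs at h <;> omega

theorem sg_add {p : Prop} {k l m : ℤ} (h : sg p k < sg p l) : sg p (k + m) < sg p (l + m) := by
  unfold sg at h ⊢; split_ifs at h ⊢ <;> omega

noncomputable instance DL.lo (s : St Ω) (δ : s.Λ) : LinearOrder (DL s δ) :=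
  LinearOrder.lift' (fun p => toLex (p.γ, sg (s.e p.γ δ) p.k)) fun p q h => by
    have h' := Prod.ext_iff.1 (toLex.injective h)
    have h1 : p.γ = q.γ := h'.1
    have h2 : sg (s.e p.γ δ) p.k = sg (s.e q.γ δ) q.k := h'.2
    rw [← h1] at h2
    exact DL.ext h1 (sg_inj h2)

theorem DL.lt_iff {s : St Ω} {δ : s.Λ} {p q : DL s δ} :
    p < q ↔ p.γ < q.γ ∨ p.γ = q.γ ∧ sg (s.e p.γ δ) p.k < sg (s.e q.γ δ) q.k :=
  Prod.Lex.toLex_lt_toLex

variable [Group Ω] (σ : ℕ → ℕ → Prop)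

/-- The next stage below the letter `δ`. -/
@[reducible] noncomputable def down (s : St Ω) (δ : s.Λ) : St Ω where
  Λ := DL s δ
  N p q := if p.γ = q.γ then (p.k - q.k).natAbs else s.N p.γ q.γ
  e p q := if p.γ = q.γ then σ (p.k - q.k).natAbs (s.N p.γ δ) else s.e p.γ q.γ
  b p := s.b δ ^ p.k * s.b p.γ * (s.b δ ^ p.k)⁻¹

/-- The subgroup generated by the letters. -/
def Sub (s : St Ω) : Subgroup Ω := Subgroup.closure (Set.range s.b)

theorem b_mem (s : St Ω) (γ : s.Λ) : s.b γ ∈ Sub s := Subgroup.subset_closure ⟨γ, rfl⟩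

/-- `g` is a product of letters at most `δ`, with exponent `k` at `δ`. -/
def Dec (s : St Ω) (δ : s.Λ) (g : Ω) (k : ℤ) : Prop := g * (s.b δ ^ k)⁻¹ ∈ Sub (down σ s δ)

/-- The letters are a free basis. -/
def Free (s : St Ω) : Prop := Function.Injective (FreeGroup.lift s.b)

/-- Embeddings of stages. -/
structure Emb (s s' : St Ω) (j : s.Λ → s'.Λ) (φ : Ω →* Ω) : Prop where
  mono : StrictMono j
  N : ∀ a c, a ≠ c → s'.N (j a) (j c) = s.N a c
  e : ∀ a c, a ≠ c → (s'.e (j a) (j c) ↔ s.e a c)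
  b : ∀ a, s'.b (j a) = φ (s.b a)

variable {σ} {s s' : St Ω} {j : s.Λ → s'.Λ} {φ : Ω →* Ω}

theorem Emb.mem (h : Emb s s' j φ) {g : Ω} (hg : g ∈ Sub s) : φ g ∈ Sub s' := by
  induction hg using Subgroup.closure_induction with
  | mem x hx => obtain ⟨a, rfl⟩ := hx; rw [← h.b]; exact b_mem _ _
  | one => rw [map_one]; exact one_mem _
  | mul x y _ _ hx hy => rw [map_mul]; exact mul_mem hx hy
  | inv x _ hx => rw [map_inv]; exact inv_mem hx

theorem Emb.down (h : Emb s s' j φ) (δ : s.Λ) :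
    Emb (down σ s δ) (down σ s' (j δ)) (fun p => ⟨j p.γ, h.mono p.h, p.k⟩) φ := by
  have hi := h.mono.injective
  refine ⟨fun p q hpq => ?_, fun p q _ => ?_, fun p q _ => ?_, fun p => ?_⟩
  · rw [DL.lt_iff] at hpq ⊢
    simp only [h.mono.lt_iff_lt, hi.eq_iff, propext (h.e _ _ p.h.ne), propext (h.e _ _ q.h.ne)]
    exact hpq
  · simp only [hi.eq_iff]
    split_ifs with h1
    · rfl
    · exact h.N _ _ h1
  · simp only [hi.eq_iff]
    split_ifs with h1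
    · rw [h.N _ _ p.h.ne]
    · exact h.e _ _ h1
  · simp only [h.b, map_mul, map_inv, map_zpow]

theorem emb_shift (s : St Ω) (δ : s.Λ) (m : ℤ) :
    Emb (down σ s δ) (down σ s δ) (fun p => ⟨p.γ, p.h, p.k + m⟩)
      (MulAut.conj (s.b δ ^ m)).toMonoidHom := by
  refine ⟨fun p q hpq => ?_, fun p q _ => ?_, fun p q _ => ?_, fun p => ?_⟩
  · rw [DL.lt_iff] at hpq ⊢
    rcases hpq with h | ⟨h, h'⟩
    · exact Or.inl h
    · refine Or.inr ⟨h, ?_⟩
      simp only [h] at h' ⊢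
      exact sg_add h'
  · simp only [add_sub_add_right_eq_sub]
  · simp only [add_sub_add_right_eq_sub]
  · simp only [MulEquiv.toMonoidHom_eq_coe, MonoidHom.coe_coe, MulAut.conj_apply]
    rw [add_comm, zpow_add]
    group

omit [Group Ω] in
theorem lt_zero {δ₀ : s.Λ} {γ δ : s.Λ} (h : γ < δ) (h' : δ < δ₀) :
    (⟨γ, h.trans h', 0⟩ : DL s δ₀) < ⟨δ, h', 0⟩ := DL.lt_iff.2 (Or.inl h)

theorem emb_low (s : St Ω) {δ δ₀ : s.Λ} (h : δ < δ₀) :
    Emb (down σ s δ) (down σ (down σ s δ₀) ⟨δ, h, 0⟩)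
      (fun p => ⟨⟨p.γ, p.h.trans h, 0⟩, lt_zero p.h h, p.k⟩) (MonoidHom.id Ω) := by
  refine ⟨fun p q hpq => ?_, fun p q _ => ?_, fun p q _ => ?_, fun p => ?_⟩
  · rw [DL.lt_iff] at hpq ⊢
    rcases hpq with h1 | ⟨h1, h'⟩
    · exact Or.inl (DL.lt_iff.2 (Or.inl h1))
    · refine Or.inr ⟨DL.ext h1 rfl, ?_⟩
      simpa only [if_neg p.h.ne, if_neg q.h.ne] using h'
  · simp only [DL.ext_iff, and_true]
    split_ifs <;> rfl
  · simp only [DL.ext_iff, and_true, if_neg p.h.ne]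
    split_ifs <;> rfl
  · simp only [zpow_ofNat, pow_zero, one_mul, inv_one, mul_one, MonoidHom.id_apply]

theorem sub_down (s : St Ω) (δ : s.Λ) : Sub (down σ s δ) ≤ Sub s :=
  (Subgroup.closure_le _).2 <| by
    rintro _ ⟨p, rfl⟩
    exact mul_mem (mul_mem (zpow_mem (b_mem _ _) _) (b_mem _ _)) (inv_mem (zpow_mem (b_mem _ _) _))

variable {δ : s.Λ} {g h : Ω} {k l : ℤ}

theorem conj_mem (m : ℤ) (hg : g ∈ Sub (down σ s δ)) :
    s.b δ ^ m * g * (s.b δ ^ m)⁻¹ ∈ Sub (down σ s δ) := (emb_shift s δ m).mem hg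

theorem dec_zero : Dec σ s δ g 0 ↔ g ∈ Sub (down σ s δ) := by simp [Dec]

theorem Dec.mul (h1 : Dec σ s δ g k) (h2 : Dec σ s δ h l) : Dec σ s δ (g * h) (k + l) := by
  have := mul_mem h1 (conj_mem k h2)
  unfold Dec
  convert this using 1
  rw [zpow_add]; group

theorem Dec.inv (h1 : Dec σ s δ g k) : Dec σ s δ g⁻¹ (-k) := by
  have := conj_mem (-k) (inv_mem h1)
  unfold Dec
  convert this using 1
  group

theorem Dec.one : Dec σ s δ 1 0 := dec_zero.2 (one_mem _)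

theorem Dec.pow (h1 : Dec σ s δ g k) : ∀ n : ℕ, Dec σ s δ (g ^ n) (k * n)
  | 0 => by simpa using Dec.one
  | n + 1 => by
    rw [pow_succ, Nat.cast_succ, mul_add, mul_one]
    exact (h1.pow n).mul h1

theorem Dec.conj (h1 : Dec σ s δ g k) (h2 : Dec σ s δ h l) : Dec σ s δ (g * h * g⁻¹) l := by
  simpa only [add_neg_cancel_comm] using (h1.mul h2).mul h1.inv

theorem Dec.mem (h1 : Dec σ s δ g k) : g ∈ Sub s := by
  simpa using mul_mem (sub_down s δ h1) (zpow_mem (b_mem s δ) k)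

theorem Dec.emb (he : Emb s s' j φ) (h1 : Dec σ s δ g k) : Dec σ s' (j δ) (φ g) k := by
  have := (he.down (σ := σ) δ).mem h1
  rwa [map_mul, map_inv, map_zpow, ← he.b] at this

theorem Dec.low {δ₀ : s.Λ} (hδ : δ < δ₀) (h1 : Dec σ s δ g k) :
    Dec σ (down σ s δ₀) ⟨δ, hδ, 0⟩ g k := by
  have := (emb_low (σ := σ) s hδ).mem h1
  unfold Dec
  simpa using this

theorem Dec.lt {δ₀ : s.Λ} (hδ : δ < δ₀) (h1 : Dec σ s δ g k) : Dec σ s δ₀ g 0 :=
  dec_zero.2 (h1.low hδ).mem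

theorem Dec.unique (hs : Free s) (h1 : Dec σ s δ g k) (h2 : Dec σ s δ g l) : k = l := by
  classical
  let χ : FreeGroup s.Λ →* Multiplicative ℤ :=
    FreeGroup.lift fun γ => if γ = δ then Multiplicative.ofAdd 1 else 1
  have key : ∀ g ∈ Sub (down σ s δ), ∃ w, FreeGroup.lift s.b w = g ∧ χ w = 1 := by
    intro g hg
    induction hg using Subgroup.closure_induction with
    | mem x hx =>
      obtain ⟨p, rfl⟩ := hx
      exact ⟨FreeGroup.of δ ^ p.k * FreeGroup.of p.γ * (FreeGroup.of δ ^ p.k)⁻¹, by simp only [map_mul, map_zpow, FreeGroup.lift_apply_of, map_inv],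
        by simp only [χ, map_mul, map_zpow, FreeGroup.lift_apply_of, ↓ reduceIte, p.h.ne, mul_one, map_inv, mul_inv_cancel]⟩
    | one => exact ⟨1, map_one _, map_one _⟩
    | mul x y _ _ hx hy =>
      obtain ⟨v, rfl, hv⟩ := hx
      obtain ⟨w, rfl, hw⟩ := hy
      exact ⟨v * w, map_mul _ _ _, by rw [map_mul, hv, hw, mul_one]⟩
    | inv x _ hx =>
      obtain ⟨v, rfl, hv⟩ := hx
      exact ⟨v⁻¹, map_inv _ _, by rw [map_inv, hv, inv_one]⟩
  have h3 := h1.inv.mul h2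
  rw [inv_mul_cancel, Dec, one_mul] at h3
  obtain ⟨w, hw, hw'⟩ := key _ (inv_mem h3)
  have : w = FreeGroup.of δ ^ (-k + l) := hs (by simp [hw])
  rw [this, map_zpow] at hw'
  simp only [χ, FreeGroup.lift_apply_of, if_true, ← ofAdd_zsmul, smul_eq_mul, mul_one,
    ofAdd_eq_one] at hw'
  omega

theorem Free.down (hs : Free s) (δ : s.Λ) : Free (down σ s δ) := by
  classical
  let sh : ℤ → DL s δ ≃ DL s δ := fun m =>
    ⟨fun p => ⟨p.γ, p.h, m + p.k⟩, fun p => ⟨p.γ, p.h, p.k - m⟩, fun p => DL.ext rfl (by simp),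
      fun p => DL.ext rfl (by simp)⟩
  let α : Multiplicative ℤ →* MulAut (FreeGroup (DL s δ)) :=
    MonoidHom.mk' (fun m => FreeGroup.freeGroupCongr (sh m.toAdd)) fun a c => by
      apply MulEquiv.toMonoidHom_injective
      ext p
      simp [sh, add_assoc]
  let Φ : FreeGroup s.Λ →* FreeGroup (DL s δ) ⋊[α] Multiplicative ℤ := FreeGroup.lift fun γ =>
    if h : γ < δ then SemidirectProduct.inl (FreeGroup.of ⟨γ, h, 0⟩)
    else SemidirectProduct.inr (Multiplicative.ofAdd 1)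
  let ι : FreeGroup (DL s δ) →* FreeGroup s.Λ := FreeGroup.lift fun p =>
    FreeGroup.of δ ^ p.k * FreeGroup.of p.γ * (FreeGroup.of δ ^ p.k)⁻¹
  have h1 : Φ.comp ι = SemidirectProduct.inl := by
    refine FreeGroup.ext_hom _ _ fun p => ?_
    simp only [ι, Φ, MonoidHom.comp_apply, FreeGroup.lift_apply_of, map_mul, map_inv, map_zpow,
      dif_pos p.h, dif_neg (lt_irrefl δ)]
    rw [← map_zpow, ← map_inv, ← SemidirectProduct.inl_aut]
    simp only [α, sh, ← ofAdd_zsmul, Int.zsmul_eq_mul, mul_one, MonoidHom.mk'_apply, toAdd_ofAdd, FreeGroup.freeGroupCongr_apply, Equiv.coe_fn_mk, FreeGroup.map.of, add_zero]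
  have h2 : FreeGroup.lift (H1.down σ s δ).b = (FreeGroup.lift s.b).comp ι := by
    refine FreeGroup.ext_hom _ _ fun p => ?_
    simp only [FreeGroup.lift_apply_of, ι, MonoidHom.coe_comp, Function.comp_apply, map_mul, map_zpow, map_inv]
  unfold Free
  rw [h2, MonoidHom.coe_comp]
  refine hs.comp (Function.Injective.of_comp (f := Φ) ?_)
  rw [← MonoidHom.coe_comp, h1]
  exact SemidirectProduct.inl_injective

/-- Value of a word. -/
def ev (s : St Ω) (L : List (s.Λ × ℤ)) : Ω := (L.map fun p => s.b p.1 ^ p.2).prod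

/-- `g` is a product of at most `n` syllables. -/
def Len (s : St Ω) (g : Ω) (n : ℕ) : Prop := ∃ L, L.length ≤ n ∧ ev s L = g

theorem ev_cons (p : s.Λ × ℤ) (L : List (s.Λ × ℤ)) : ev s (p :: L) = s.b p.1 ^ p.2 * ev s L := by
  simp [ev]

theorem Len.mem {n : ℕ} (h1 : Len s g n) : g ∈ Sub s := by
  obtain ⟨L, -, rfl⟩ := h1
  induction L with
  | nil => exact one_mem _
  | cons p L ih => rw [ev_cons]; exact mul_mem (zpow_mem (b_mem _ _) _) ih

theorem exists_len (hg : g ∈ Sub s) : ∃ n, Len s g n := by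
  suffices ∃ L, ev s L = g from this.elim fun L hL => ⟨_, L, le_rfl, hL⟩
  induction hg using Subgroup.closure_induction_left with
  | one => exact ⟨[], rfl⟩
  | mul_left x hx y _ ih =>
    obtain ⟨a, rfl⟩ := hx
    obtain ⟨L, rfl⟩ := ih
    exact ⟨(a, 1) :: L, by simp [ev_cons]⟩
  | inv_mul_cancel x hx y _ ih =>
    obtain ⟨a, rfl⟩ := hx
    obtain ⟨L, rfl⟩ := ih
    exact ⟨(a, -1) :: L, by simp [ev_cons]⟩

theorem Len.emb (he : Emb s s' j φ) {n : ℕ} (h1 : Len s g n) : Len s' (φ g) n := by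
  obtain ⟨L, hL, rfl⟩ := h1
  refine ⟨L.map fun p => (j p.1, p.2), by simpa using hL, ?_⟩
  simp [ev, map_list_prod, Function.comp_def, he.b]

theorem rewrite (δ : s.Λ) : ∀ (L : List (s.Λ × ℤ)), (∀ p ∈ L, p.1 ≤ δ) → ∀ i : ℤ,
    ∃ (L' : List (DL s δ × ℤ)) (k : ℤ), s.b δ ^ i * ev s L = ev (down σ s δ) L' * s.b δ ^ k ∧
      L'.length ≤ L.length ∧ ((∃ p ∈ L, p.1 = δ) → L'.length < L.length)
  | [], _, i => ⟨[], i, by simp only [ev, List.map_nil, List.prod_nil, mul_one, conj_zpow, one_mul], le_rfl, by simp only [List.not_mem_nil, false_and, exists_false, List.length_nil, lt_self_iff_false, imp_self]⟩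
  | (γ, m) :: L, hL, i => by
    have hL' : ∀ p ∈ L, p.1 ≤ δ := fun p hp => hL p (List.mem_cons_of_mem _ hp)
    rcases (hL _ List.mem_cons_self).eq_or_lt with h | h
    · obtain rfl : γ = δ := h
      obtain ⟨L', k, h1, h2, -⟩ := rewrite γ L hL' (i + m)
      refine ⟨L', k, ?_, h2.trans (Nat.le_succ _), fun _ => Nat.lt_succ_of_le h2⟩
      rw [← h1, ev_cons, zpow_add, mul_assoc]
    · obtain ⟨L', k, h1, h2, h3⟩ := rewrite δ L hL' i
      refine ⟨(⟨γ, h, i⟩, m) :: L', k, ?_, Nat.succ_le_succ h2, fun ⟨p, hp, e⟩ => ?_⟩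
      · rw [ev_cons, ev_cons, mul_assoc, ← h1]
        simp only [conj_zpow]
        group
      · rcases List.mem_cons.1 hp with rfl | hp
        · exact absurd e h.ne
        · exact Nat.succ_lt_succ (h3 ⟨p, hp, e⟩)

theorem pair {a c : ℕ} (h1 : Len s g a) (h2 : Len s h c) (hne : g ≠ 1 ∨ h ≠ 1) :
    ∃ (δ : s.Λ) (k l : ℤ) (a' c' : ℕ), Len (down σ s δ) (g * (s.b δ ^ k)⁻¹) a' ∧
      Len (down σ s δ) (h * (s.b δ ^ l)⁻¹) c' ∧ a' + c' < a + c := by
  obtain ⟨L, hL, rfl⟩ := h1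
  obtain ⟨M, hM, rfl⟩ := h2
  have h0 : ((L ++ M).map Prod.fst).toFinset.Nonempty := by
    rcases L with _ | ⟨p, L⟩
    · rcases M with _ | ⟨p, M⟩
      · simp [ev] at hne
      · simp only [List.nil_append, List.map_cons, List.toFinset_cons, Finset.insert_nonempty]
    · simp only [List.cons_append, List.map_cons, List.map_append, List.toFinset_cons, List.toFinset_append, Finset.insert_nonempty]
  obtain ⟨δ, hδ, hm⟩ := Finset.exists_max_image _ id h0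
  simp only [List.mem_toFinset, List.mem_map, List.mem_append, id] at hδ hm
  obtain ⟨L', k, e1, e2, e3⟩ := rewrite (σ := σ) δ L (fun p hp => hm _ ⟨p, Or.inl hp, rfl⟩) 0
  obtain ⟨M', l, e4, e5, e6⟩ := rewrite (σ := σ) δ M (fun p hp => hm _ ⟨p, Or.inr hp, rfl⟩) 0
  rw [zpow_zero, one_mul] at e1 e4
  refine ⟨δ, k, l, _, _, ⟨L', le_rfl, by simp [e1]⟩, ⟨M', le_rfl, by simp [e4]⟩, ?_⟩
  obtain ⟨p, hp | hp, e⟩ := hδ
  · have := e3 ⟨p, hp, e⟩
    omega
  · have := e6 ⟨p, hp, e⟩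
    omega

theorem len_one : Len s 1 0 := ⟨[], le_rfl, rfl⟩

variable (σ) in
/-- The class of `g` lies over the letter `γ` and `g` has value `k`. -/
inductive Cl : (s : St Ω) → Ω → s.Λ → ℤ → Prop
  | base (s : St Ω) (δ : s.Λ) (g : Ω) (k : ℤ) : k ≠ 0 → Dec σ s δ g k → Cl s g δ k
  | step (s : St Ω) (δ : s.Λ) (g : Ω) (p : DL s δ) (k : ℤ) :
      Cl (down σ s δ) g p k → Cl s g p.γ k

variable {γ : s.Λ}

theorem Cl.mem (h1 : Cl σ s g γ k) : g ∈ Sub s := by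
  induction h1 with
  | base s δ g k _ h => exact h.mem
  | step s δ g p k _ ih => exact sub_down s δ ih

theorem Cl.ne (h1 : Cl σ s g γ k) : k ≠ 0 := by
  induction h1 with
  | base s δ g k h _ => exact h
  | step s δ g p k _ ih => exact ih

theorem Cl.ne_one (hs : Free s) (h1 : Cl σ s g γ k) : g ≠ 1 := by
  induction h1 with
  | base s δ g k h h' => rintro rfl; exact h (h'.unique hs Dec.one)
  | step s δ g p k _ ih => exact ih (hs.down δ)

theorem Cl.inv (h1 : Cl σ s g γ k) : Cl σ s g⁻¹ γ (-k) := by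
  induction h1 with
  | base s δ g k h h' => exact .base _ _ _ _ (neg_ne_zero.2 h) h'.inv
  | step s δ g p k _ ih => exact .step _ _ _ _ _ ih

theorem Cl.emb (h1 : Cl σ s g γ k) : ∀ {s' : St Ω} {j : s.Λ → s'.Λ} {φ : Ω →* Ω},
    Emb s s' j φ → Cl σ s' (φ g) (j γ) k := by
  induction h1 with
  | base s δ g k h h' => exact fun he => .base _ _ _ _ h (h'.emb he)
  | step s δ g p k _ ih => exact fun he => .step _ _ _ ⟨_, he.mono p.h, p.k⟩ _ (ih (he.down δ))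

theorem exists_cl_len : ∀ (n : ℕ) (s : St Ω) (g : Ω), Len s g n → g ≠ 1 → ∃ γ k, Cl σ s g γ k := by
  intro n
  induction n using Nat.strong_induction_on with
  | _ n ih =>
    intro s g h1 h2
    obtain ⟨δ, k, -, a, c, h3, -, h4⟩ := pair (σ := σ) h1 len_one (Or.inl h2)
    by_cases hk : k = 0
    · rw [hk, zpow_zero, inv_one, mul_one] at h3
      obtain ⟨p, l, h5⟩ := ih a (by omega) _ _ h3 h2
      exact ⟨_, l, .step _ _ _ p _ h5⟩
    · exact ⟨δ, k, .base _ _ _ _ hk h3.mem⟩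

theorem exists_cl (h1 : g ∈ Sub s) (h2 : g ≠ 1) : ∃ γ k, Cl σ s g γ k :=
  (exists_len h1).elim fun n h => exists_cl_len n s g h h2

theorem unique_aux {n : ℕ} (ih : ∀ (s : St Ω) (g : Ω), Free s → Len s g n → ∀ γ k γ' k',
    Cl σ s g γ k → Cl σ s g γ' k' → γ = γ' ∧ k = k') (h1 : Cl σ s g γ k) :
    Free s → ∀ δ₀ k₀, Dec σ s δ₀ g k₀ → (k₀ = 0 → Len (down σ s δ₀) g n) →
      (k₀ ≠ 0 → γ = δ₀ ∧ k = k₀) ∧ (k₀ = 0 → ∃ p : DL s δ₀, p.γ = γ ∧ Cl σ (down σ s δ₀) g p k) := by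
  induction h1 with
  | base s δ g k h h' =>
    intro hs δ₀ k₀ h2 _
    rcases lt_trichotomy δ δ₀ with e | rfl | e
    · exact ⟨fun h3 => absurd (h2.unique hs (h'.lt e)) h3,
        fun _ => ⟨⟨δ, e, 0⟩, rfl, .base _ _ _ _ h (h'.low e)⟩⟩
    · exact ⟨fun _ => ⟨rfl, h'.unique hs h2⟩, fun h3 => absurd ((h'.unique hs h2).trans h3) h⟩
    · exact absurd (h'.unique hs (h2.lt e)) h
  | step s δ g p k h ih' =>
    intro hs δ₀ k₀ h2 h3
    have h' : Dec σ s δ g 0 := dec_zero.2 h.mem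
    rcases lt_trichotomy δ δ₀ with e | rfl | e
    · exact ⟨fun h3 => absurd (h2.unique hs (h'.lt e)) h3, fun _ => ⟨⟨p.γ, p.h.trans e, 0⟩, rfl,
        .step (down σ s δ₀) ⟨δ, e, 0⟩ g ⟨_, lt_zero p.h e, p.k⟩ k (h.emb (emb_low s e))⟩⟩
    · exact ⟨fun h3 => absurd (h2.unique hs h') h3, fun _ => ⟨p, rfl, h⟩⟩
    · obtain ⟨h4, h5⟩ := ih' (hs.down δ) ⟨δ₀, e, 0⟩ k₀ (h2.low e)
        fun h6 => (h3 h6).emb (emb_low s e)
      refine ⟨fun h6 => ⟨congrArg DL.γ (h4 h6).1, (h4 h6).2⟩, fun h6 => ?_⟩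
      obtain ⟨p', h7, h8⟩ := h5 h6
      obtain ⟨q, k', h9⟩ := exists_cl (σ := σ) (h3 h6).mem (h.ne_one (hs.down δ))
      obtain ⟨rfl, rfl⟩ := ih _ g ((hs.down δ).down _) ((h3 h6).emb (emb_low s e)) _ _ _ _ h8
        (h9.emb (emb_low s e))
      exact ⟨q, congrArg DL.γ h7, h9⟩

theorem unique_len : ∀ (n : ℕ) (s : St Ω) (g : Ω), Free s → Len s g n → ∀ γ k γ' k',
    Cl σ s g γ k → Cl σ s g γ' k' → γ = γ' ∧ k = k' := by
  intro n
  induction n using Nat.strong_induction_on with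
  | _ n ih =>
    intro s g hs h1 γ k γ' k' h2 h3
    obtain ⟨δ, l, -, a, c, h4, -, h5⟩ := pair (σ := σ) h1 len_one (Or.inl (h2.ne_one hs))
    have h6 : l = 0 → Len (down σ s δ) g a := fun e => by simpa [e] using h4
    have ih' := ih a (by omega)
    obtain ⟨h7, h8⟩ := unique_aux ih' h2 hs δ l h4.mem h6
    obtain ⟨h9, h10⟩ := unique_aux ih' h3 hs δ l h4.mem h6
    by_cases e : l = 0
    · obtain ⟨p, rfl, hp⟩ := h8 e
      obtain ⟨q, rfl, hq⟩ := h10 e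
      obtain ⟨rfl, rfl⟩ := ih' _ g (hs.down δ) (h6 e) _ _ _ _ hp hq
      exact ⟨rfl, rfl⟩
    · exact ⟨(h7 e).1.trans (h9 e).1.symm, (h7 e).2.trans (h9 e).2.symm⟩

theorem Cl.unique (hs : Free s) {γ' : s.Λ} (h1 : Cl σ s g γ k) (h2 : Cl σ s g γ' l) :
    γ = γ' ∧ k = l :=
  (exists_len h1.mem).elim fun n h => unique_len n s g hs h _ _ _ _ h1 h2

theorem Cl.down (hs : Free s) (h1 : Cl σ s g γ k) (h2 : Dec σ s δ g 0) :
    ∃ p : DL s δ, p.γ = γ ∧ Cl σ (down σ s δ) g p k := by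
  obtain ⟨p, l, h3⟩ := exists_cl (σ := σ) (dec_zero.1 h2) (h1.ne_one hs)
  obtain ⟨h4, rfl⟩ := h1.unique hs (.step _ _ _ p _ h3)
  exact ⟨p, h4.symm, h3⟩

theorem conj_aux (u v g : Ω) :
    u * v⁻¹ * (MulAut.conj v).toMonoidHom g * (u * v⁻¹)⁻¹ = u * g * u⁻¹ := by
  simp only [MulEquiv.toMonoidHom_eq_coe, MonoidHom.coe_coe, MulAut.conj_apply, mul_assoc, inv_mul_cancel_left, mul_inv_rev, inv_inv]

theorem conj_len : ∀ (n : ℕ) (s : St Ω) (u g : Ω) (a c : ℕ), Free s → Len s u a → Len s g c →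
    a + c ≤ n → ∀ γ k, Cl σ s g γ k → Cl σ s (u * g * u⁻¹) γ k := by
  intro n
  induction n using Nat.strong_induction_on with
  | _ n ih =>
    intro s u g a c hs h1 h2 hn γ k h3
    obtain ⟨δ, m, l, a', c', h4, h5, h6⟩ := pair (σ := σ) h1 h2 (Or.inr (h3.ne_one hs))
    by_cases e : l = 0
    · rw [e, zpow_zero, inv_one, mul_one] at h5
      obtain ⟨p, rfl, hp⟩ := h3.down hs (dec_zero.2 h5.mem)
      have h7 := ih (a' + c') (by omega) _ _ _ _ _ (hs.down δ) h4 (h5.emb (emb_shift s δ m)) le_rfl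
        _ _ (hp.emb (emb_shift s δ m))
      have h8 := Cl.step s δ _ _ _ h7
      rwa [conj_aux] at h8
    · obtain ⟨rfl, rfl⟩ := h3.unique hs (.base _ _ _ _ e h5.mem)
      exact .base _ _ _ _ e (Dec.conj h4.mem h5.mem)

theorem Cl.conj (hs : Free s) {u : Ω} (hu : u ∈ Sub s) (h1 : Cl σ s g γ k) :
    Cl σ s (u * g * u⁻¹) γ k := by
  obtain ⟨a, ha⟩ := exists_len hu
  obtain ⟨c, hc⟩ := exists_len h1.mem
  exact conj_len _ s u g a c hs ha hc le_rfl γ k h1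

theorem Cl.move (hs : Free s) {t : Ω} {p : DL s δ} (ht : Dec σ s δ t l)
    (h1 : Cl σ (H1.down σ s δ) g p k) :
    Cl σ (H1.down σ s δ) (t * g * t⁻¹) ⟨p.γ, p.h, p.k + l⟩ k := by
  have := (h1.emb (emb_shift s δ l)).conj (hs.down δ) ht
  rwa [conj_aux] at this

variable (σ) in
/-- `s'` is a later stage than `s`, with projection `π` on letters. -/
structure Red (s s' : St Ω) (π : s'.Λ → s.Λ) : Prop where
  cl : ∀ {g γ k}, Cl σ s' g γ k → Cl σ s g (π γ) k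
  mono : Monotone π
  N : ∀ a c, π a ≠ π c → s'.N a c = s.N (π a) (π c)
  e : ∀ a c, π a ≠ π c → (s'.e a c ↔ s.e (π a) (π c))
  free : Free s'

theorem Red.refl (hs : Free s) : Red σ s s id :=
  ⟨id, monotone_id, fun _ _ _ => rfl, fun _ _ _ => Iff.rfl, hs⟩

theorem red_down (hs : Free s) (δ : s.Λ) : Red σ s (down σ s δ) DL.γ :=
  ⟨fun h => .step _ _ _ _ _ h, fun _ _ h => h.eq_or_lt.elim (fun e => e ▸ le_rfl) fun e =>
    (DL.lt_iff.1 e).elim le_of_lt fun e => e.1.le, fun _ _ h => if_neg h,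
    fun _ _ h => iff_of_eq (if_neg h), hs.down δ⟩

theorem Red.trans {s'' : St Ω} {π : s'.Λ → s.Λ} {π' : s''.Λ → s'.Λ} (h1 : Red σ s s' π)
    (h2 : Red σ s' s'' π') : Red σ s s'' (π ∘ π') :=
  ⟨fun h => h1.cl (h2.cl h), h1.mono.comp h2.mono,
    fun a c h => (h2.N a c fun e => h (congrArg π e)).trans (h1.N _ _ h),
    fun a c h => (h2.e a c fun e => h (congrArg π e)).trans (h1.e _ _ h), h2.free⟩

theorem descent_len : ∀ (n : ℕ) (s : St Ω) (g h : Ω) (a c : ℕ), Free s → Len s g a → Len s h c →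
    a + c ≤ n → (g ≠ 1 ∨ h ≠ 1) → ∃ (s' : St Ω) (π : s'.Λ → s.Λ) (δ : s'.Λ) (k l : ℤ),
      Red σ s s' π ∧ Dec σ s' δ g k ∧ Dec σ s' δ h l ∧ (k ≠ 0 ∨ l ≠ 0) := by
  intro n
  induction n using Nat.strong_induction_on with
  | _ n ih =>
    intro s g h a c hs h1 h2 hn h3
    obtain ⟨δ, k, l, a', c', h4, h5, h6⟩ := pair (σ := σ) h1 h2 h3
    by_cases e : k ≠ 0 ∨ l ≠ 0
    · exact ⟨s, id, δ, k, l, .refl hs, h4.mem, h5.mem, e⟩
    · push Not at e
      rw [e.1, zpow_zero, inv_one, mul_one] at h4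
      rw [e.2, zpow_zero, inv_one, mul_one] at h5
      obtain ⟨s', π, δ', k, l, h7, h8⟩ := ih (a' + c') (by omega) _ g h _ _ (hs.down δ) h4 h5 le_rfl h3
      exact ⟨s', _, δ', k, l, (red_down hs δ).trans h7, h8⟩

theorem descent (hs : Free s) (h1 : g ∈ Sub s) (h2 : h ∈ Sub s) (h3 : g ≠ 1 ∨ h ≠ 1) :
    ∃ (s' : St Ω) (π : s'.Λ → s.Λ) (δ : s'.Λ) (k l : ℤ),
      Red σ s s' π ∧ Dec σ s' δ g k ∧ Dec σ s' δ h l ∧ (k ≠ 0 ∨ l ≠ 0) := by
  obtain ⟨a, ha⟩ := exists_len h1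
  obtain ⟨c, hc⟩ := exists_len h2
  exact descent_len _ s g h a c hs ha hc le_rfl h3

theorem separate (hs : Free s) {γ' : s.Λ} (h1 : Cl σ s g γ k) (h2 : Cl σ s h γ' l) (h3 : γ < γ') :
    ∃ (s' : St Ω) (π : s'.Λ → s.Λ) (δ : s'.Λ) (p : DL s' δ), Red σ s s' π ∧ π δ = γ' ∧
      π p.γ = γ ∧ Dec σ s' δ h l ∧ Cl σ (down σ s' δ) g p k := by
  obtain ⟨s', π, δ, m, n, h4, h5, h6, h7⟩ :=
    descent (σ := σ) hs h1.mem h2.mem (Or.inl (h1.ne_one hs))
  have hm : m = 0 := by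
    by_contra e
    obtain ⟨rfl, -⟩ := h1.unique hs (h4.cl (.base _ _ _ _ e h5))
    by_cases e' : n = 0
    · obtain ⟨p, i, h8⟩ := exists_cl (σ := σ) (dec_zero.1 (e' ▸ h6)) (h2.ne_one hs)
      obtain ⟨rfl, -⟩ := h2.unique hs (h4.cl (.step _ _ _ p _ h8))
      exact h3.not_ge (h4.mono p.h.le)
    · exact h3.ne' (h2.unique hs (h4.cl (.base _ _ _ _ e' h6))).1
  obtain ⟨rfl, rfl⟩ := h2.unique hs (h4.cl (.base _ _ _ _ (h7.resolve_left (not_not.2 hm)) h6))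
  obtain ⟨p, i, h8⟩ := exists_cl (σ := σ) (dec_zero.1 (hm ▸ h5)) (h1.ne_one hs)
  obtain ⟨rfl, rfl⟩ := h1.unique hs (h4.cl (.step _ _ _ p _ h8))
  exact ⟨s', π, δ, p, h4, rfl, rfl, h6, h8⟩

end Pool.Agent.MP_a2e0a9_al.H1

end

-- part MP_a2e0a9_al.H1.Model
section

/-! Bi-invariant orders on the free group of rank two that store an arbitrary relation. -/

namespace Pool.Agent.MP_a2e0a9_al.H1

universe u

section
variable {G : Type u} [Group G] [Lattice G]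

/-- The larger of the two conjugates. -/
def up (x t : G) : G := t * x * t⁻¹ ⊔ t⁻¹ * x * t

/-- `u` is large compared with `x`. -/
def Big (x u : G) : Prop := x * x ≤ u

/-- `u` is not large compared with `x`. -/
def Sml (x u : G) : Prop := u * u ≤ x * x * x

/-- The conjugate of `x` that carries the bit of `y`. -/
def cj (x y : G) : G := (up x y)⁻¹ * x * up x y

/-- The bit of `y` at `x` is `p`. -/
def Bit (x y : G) (p : Prop) : Prop := (p → Big x (cj x y)) ∧ (¬ p → Sml x (cj x y))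

end

theorem exists_order {G : Type u} [Group G] (P : G → Prop) (h1 : ¬ P 1)
    (hm : ∀ a b, P a → P b → P (a * b)) (hc : ∀ u a, P a → P (u * a * u⁻¹))
    (ht : ∀ a, a ≠ 1 → P a ∨ P a⁻¹) :
    ∃ _ : LinearOrder G, MulLeftMono G ∧ MulRightMono G ∧ ∀ a b : G, a < b ↔ P (a⁻¹ * b) := by
  classical
  let r : G → G → Prop := fun a b => P (a⁻¹ * b)
  have : IsStrictTotalOrder G r :=
    { trichotomous := fun a b h2 h3 => by
        by_contra h
        rcases ht (a⁻¹ * b) (fun e => h (inv_mul_eq_one.1 e)) with h4 | h4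
        · exact h2 h4
        · exact h3 (by simpa only [r, mul_inv_rev, inv_inv] using h4)
      irrefl := fun a h => h1 (by simpa [r] using h)
      trans := fun a b c h2 h3 => by simpa only [r, mul_assoc, mul_inv_cancel_left] using hm _ _ h2 h3 }
  let _ := linearOrderOfSTO r
  have key : ∀ a b : G, a < b ↔ P (a⁻¹ * b) := fun _ _ => Iff.rfl
  refine ⟨inferInstance, ⟨fun a b c h => ?_⟩, ⟨fun a b c h => ?_⟩, key⟩
  · rcases h.eq_or_lt with rfl | h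
    · exact le_rfl
    · exact ((key _ _).2 (by simpa only [mul_inv_rev, mul_assoc, inv_mul_cancel_left] using (key _ _).1 h)).le
  · rcases h.eq_or_lt with rfl | h
    · exact le_rfl
    · exact ((key _ _).2 (by simpa only [mul_inv_rev, mul_assoc, inv_inv] using hc a⁻¹ _ ((key _ _).1 h))).le

variable {Ω : Type u} [Group Ω] {σ : ℕ → ℕ → Prop} {s₀ : St Ω}

variable (σ s₀) in
/-- The positive cone. -/
def Pos (g : Ω) : Prop := ∃ γ k, 0 < k ∧ Cl σ s₀ g γ k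

theorem Pos.mul (hs : Free s₀) {g h : Ω} (h1 : Pos σ s₀ g) (h2 : Pos σ s₀ h) : Pos σ s₀ (g * h) := by
  obtain ⟨γ, k, hk, h1⟩ := h1
  obtain ⟨γ', l, hl, h2⟩ := h2
  obtain ⟨s, π, δ, m, n, h3, h4, h5, h6⟩ :=
    descent (σ := σ) hs h1.mem h2.mem (Or.inl (h1.ne_one hs))
  have e1 : m ≠ 0 → k = m := fun e => (h1.unique hs (h3.cl (.base _ _ _ _ e h4))).2
  have e2 : n ≠ 0 → l = n := fun e => (h2.unique hs (h3.cl (.base _ _ _ _ e h5))).2
  exact ⟨_, m + n, by omega, h3.cl (.base _ _ _ _ (by omega) (h4.mul h5))⟩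

variable (σ s₀) in
/-- The class of `t` is at most the class of `x`. -/
def Sm (x t : Ω) : Prop := ∃ (s : St Ω) (π : s.Λ → s₀.Λ) (δ : s.Λ) (k l : ℤ),
  Red σ s₀ s π ∧ 0 < k ∧ Dec σ s δ x k ∧ Dec σ s δ t l

variable (σ s₀) in
/-- The class of `t` is above the class of `x`, with the given data. -/
def Ab (x : Ω) (v : ℤ) (t : Ω) (n : ℤ) (n' : ℕ) (ε : Prop) : Prop :=
  ∃ (s : St Ω) (π : s.Λ → s₀.Λ) (δ : s.Λ) (p : DL s δ), Red σ s₀ s π ∧ Dec σ s δ t n ∧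
    Cl σ (down σ s δ) x p v ∧ s.N p.γ δ = n' ∧ (s.e p.γ δ ↔ ε)

theorem Sm.pow {x t : Ω} (h : Sm σ s₀ x t) (m : ℕ) : Sm σ s₀ x (t ^ m) := by
  obtain ⟨s, π, δ, k, l, h1, h2, h3, h4⟩ := h
  exact ⟨s, π, δ, k, _, h1, h2, h3, h4.pow m⟩

theorem Ab.pow {x t : Ω} {v n : ℤ} {n' : ℕ} {ε : Prop} (h : Ab σ s₀ x v t n n' ε) (m : ℕ) :
    Ab σ s₀ x v (t ^ m) (n * m) n' ε := by
  obtain ⟨s, π, δ, p, h1, h2, h3⟩ := h
  exact ⟨s, π, δ, p, h1, h2.pow m, h3⟩

section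
variable [LinearOrder Ω] (hlt : ∀ a b : Ω, a < b ↔ Pos σ s₀ (a⁻¹ * b))
  {s : St Ω} {π : s.Λ → s₀.Λ} {δ γ γ' : s.Λ} {g h x t : Ω} {k l v n : ℤ} {n' : ℕ} {ε : Prop}
include hlt

theorem lt_of_dec (hr : Red σ s₀ s π) (h1 : Dec σ s δ g k) (h2 : Dec σ s δ h l) (h3 : k < l) :
    g < h :=
  (hlt _ _).2 ⟨_, -k + l, by omega, hr.cl (.base _ _ _ _ (by omega) (h1.inv.mul h2))⟩

theorem val_pos (hs : Free s₀) (hr : Red σ s₀ s π) (h1 : Cl σ s x γ v) (hx : 1 < x) : 0 < v := by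
  obtain ⟨γ', k, hk, h2⟩ := (hlt _ _).1 hx
  rw [inv_one, one_mul] at h2
  exact (h2.unique hs (hr.cl h1)).2 ▸ hk

theorem lt_of_cl (hr : Red σ s₀ s π) (h1 : Cl σ s g γ k) (h2 : Cl σ s h γ' l) (h3 : γ < γ')
    (hl : 0 < l) : g < h ∧ g * g < h ∧ g * g < h * h * h := by
  obtain ⟨s', π', δ, p, h4, -, -, h5, h6⟩ := separate hr.free h1 h2 h3
  have h7 : Dec σ s' δ g 0 := dec_zero.2 h6.mem
  exact ⟨lt_of_dec hlt (hr.trans h4) h7 h5 hl, lt_of_dec hlt (hr.trans h4) (h7.mul h7) h5 (by omega),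
    lt_of_dec hlt (hr.trans h4) (h7.mul h7) ((h5.mul h5).mul h5) (by omega)⟩

theorem dichotomy (hs : Free s₀) (htop : ∀ g, g ∈ Sub s₀) (hx : 1 < x) (t : Ω) :
    Sm σ s₀ x t ∨ ∃ v n n' ε, 0 < v ∧ n ≠ 0 ∧ Ab σ s₀ x v t n n' ε := by
  obtain ⟨s, π, δ, k, l, h1, h2, h3, h4⟩ := descent (σ := σ) hs (htop x) (htop t) (Or.inl hx.ne')
  by_cases e : k = 0
  · obtain ⟨p, v, h5⟩ := exists_cl (σ := σ) (dec_zero.1 (e ▸ h2)) hx.ne'
    exact Or.inr ⟨v, l, _, _, val_pos hlt hs h1 (.step _ _ _ p _ h5) hx,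
      h4.resolve_left (not_not.2 e), s, π, δ, p, h1, h3, h5, rfl, Iff.rfl⟩
  · exact Or.inl ⟨s, π, δ, k, l, h1, val_pos hlt hs h1 (.base _ _ _ _ e h2) hx, h2, h3⟩

omit hlt in
theorem Dec.up (h1 : Dec σ s δ x k) (h2 : Dec σ s δ t l) : Dec σ s δ (up x t) k := by
  unfold H1.up
  rcases le_total (t * x * t⁻¹) (t⁻¹ * x * t) with e | e
  · rw [sup_eq_right.2 e]; simpa only [inv_inv] using h2.inv.conj h1
  · rw [sup_eq_left.2 e]; exact h2.conj h1

theorem Sm.sml (h : Sm σ s₀ x t) : Sml x (up x t) ∧ Sml x (cj x t) := by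
  obtain ⟨s, π, δ, k, l, h1, h2, h3, h4⟩ := h
  have h5 := h3.up h4
  have h6 : Dec σ s δ (cj x t) k := by simpa only [cj, inv_inv] using h5.inv.conj h3
  exact ⟨(lt_of_dec hlt h1 (h5.mul h5) ((h3.mul h3).mul h3) (by omega)).le,
    (lt_of_dec hlt h1 (h6.mul h6) ((h3.mul h3).mul h3) (by omega)).le⟩

theorem Ab.up (h : Ab σ s₀ x v t n n' ε) (hv : 0 < v) (hn : n ≠ 0) :
    Ab σ s₀ x v (up x t) v n.natAbs (σ n.natAbs n') ∧ Big x (up x t) := by
  obtain ⟨s, π, δ, p, h1, h2, h3, rfl, -⟩ := h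
  have h4 := h3.move h1.free h2
  have h5 := h3.move h1.free h2.inv
  rw [inv_inv] at h5
  have hr := h1.trans (red_down h1.free δ)
  obtain ⟨i, h6, h7, h8⟩ : ∃ i, p < ⟨p.γ, p.h, i⟩ ∧ (p.k - i).natAbs = n.natAbs ∧
      Cl σ (down σ s δ) (H1.up x t) ⟨p.γ, p.h, i⟩ v := by
    unfold H1.up
    by_cases e : sg (s.e p.γ δ) 0 < sg (s.e p.γ δ) n
    · refine ⟨p.k + n, DL.lt_iff.2 (Or.inr ⟨rfl, ?_⟩), by omega, ?_⟩
      · simp only [sg] at e ⊢; split_ifs at e ⊢ <;> omega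
      · rwa [sup_eq_left.2 (lt_of_cl hlt hr h5 h4 (DL.lt_iff.2 (Or.inr ⟨rfl, ?_⟩)) hv).1.le]
        simp only [sg] at e ⊢; split_ifs at e ⊢ <;> omega
    · refine ⟨p.k + -n, DL.lt_iff.2 (Or.inr ⟨rfl, ?_⟩), by omega, ?_⟩
      · simp only [sg] at e ⊢; split_ifs at e ⊢ <;> omega
      · rwa [sup_eq_right.2 (lt_of_cl hlt hr h4 h5 (DL.lt_iff.2 (Or.inr ⟨rfl, ?_⟩)) hv).1.le]
        simp only [sg] at e ⊢; split_ifs at e ⊢ <;> omega
  refine ⟨?_, (lt_of_cl hlt hr h3 h8 h6 hv).2.1.le⟩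
  obtain ⟨s', π', ν, q, h9, h10, h11, h12, h13⟩ := separate hr.free h3 h8 h6
  have hne : π' q.γ ≠ π' ν := by rw [h10, h11]; exact h6.ne
  refine ⟨s', _, ν, q, hr.trans h9, h12, h13, ?_, ?_⟩
  · rw [h9.N _ _ hne, h10, h11]; simp [h7]
  · rw [h9.e _ _ hne, h10, h11]; simp [h7]

theorem Ab.bit (h : Ab σ s₀ x v t n n' ε) (hv : 0 < v) (hn : n ≠ 0) (m : ℕ) (hm : 0 < m) :
    Bit x (t ^ m) (σ (n.natAbs * m) n') := by
  obtain ⟨s, π, δ, p, h1, h2, h3, -, h4⟩ :=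
    ((h.pow m).up hlt hv (mul_ne_zero hn (by omega))).1
  have h5 := h3.move h1.free h2.inv
  rw [inv_inv] at h5
  rw [Int.natAbs_mul, Int.natAbs_natCast] at h4
  have hr := h1.trans (red_down h1.free δ)
  refine ⟨fun e => (lt_of_cl hlt hr h3 h5 (DL.lt_iff.2 (Or.inr ⟨rfl, ?_⟩)) hv).2.1.le,
    fun e => (lt_of_cl hlt hr h5 h3 (DL.lt_iff.2 (Or.inr ⟨rfl, ?_⟩)) hv).2.2.le⟩
  · simp only [sg, if_pos (h4.2 e)]; omega
  · simp only [sg, if_neg (mt h4.1 e)]; omega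

end

/-- The properties of the ordered groups used below. -/
structure Model (σ : ℕ → ℕ → Prop) (G : LGrp.{u}) : Prop where
  tot : ∀ a b : G.carrier, a ≤ b ∨ b ≤ a
  comm : ∀ x y : G.carrier, 1 < x * y * x⁻¹ * y⁻¹ →
    Big (x * y * x⁻¹ * y⁻¹) (up (x * y * x⁻¹ * y⁻¹) x) ∨
      Big (x * y * x⁻¹ * y⁻¹) (up (x * y * x⁻¹ * y⁻¹) y)
  bits : ∀ x y : G.carrier, 1 < x → ∃ n n', ∀ m, 0 < m → Bit x (y ^ m) (σ (n * m) n')
  orig : ∀ x t : G.carrier, 1 < x → Sml x (up x t) ∨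
    ∃ n, 0 < n ∧ ∀ m, 0 < m → Bit x (up x (up x t) ^ m) (σ (n * m) n)
  ex : ∃ x t : G.carrier, 1 < x ∧ Big x (up x t)

theorem exists_model (σ : ℕ → ℕ → Prop) (h0 : ∀ n, ¬ σ 0 n) : ∃ G : LGrp.{u}, Model σ G := by
  let s₀ : St (FreeGroup (ULift.{u} Bool)) :=
    { Λ := ULift.{u} Bool, N := fun _ _ => 0, e := fun _ _ => False, b := FreeGroup.of }
  have hs : Free s₀ := by
    have : FreeGroup.lift s₀.b = MonoidHom.id _ := FreeGroup.ext_hom _ _ fun p => by simp [s₀]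
    unfold Free
    rw [this]
    exact fun _ _ h => h
  have htop : ∀ g, g ∈ Sub s₀ := fun g => by
    rw [Sub, FreeGroup.closure_range_of]; trivial
  obtain ⟨_, _, _, hlt⟩ := exists_order (Pos σ s₀) (fun ⟨_, _, _, h⟩ => h.ne_one hs rfl)
    (fun _ _ => Pos.mul hs) (fun u _ ⟨γ, k, hk, h⟩ => ⟨γ, k, hk, h.conj hs (htop u)⟩) fun a ha => by
      obtain ⟨γ, k, h⟩ := exists_cl (σ := σ) (htop a) ha
      rcases lt_or_gt_of_ne h.ne with e | e
      · exact Or.inr ⟨γ, -k, by omega, h.inv⟩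
      · exact Or.inl ⟨γ, k, e, h⟩
  refine ⟨{ carrier := FreeGroup (ULift.{u} Bool) }, le_total, fun x y hc => ?_, fun x y hx => ?_,
    fun x t hx => ?_, ?_⟩
  · obtain ⟨s, π, δ, k, l, h1, h2, h3, h4⟩ := descent (σ := σ) hs (htop x) (htop y) (by
      by_contra h
      push Not at h
      simp [h.1] at hc)
    have h5 : Dec σ s δ (x * y * x⁻¹ * y⁻¹) 0 := by simpa only [add_neg_cancel] using (h2.conj h3).mul h3.inv
    obtain ⟨p, v, h6⟩ := exists_cl (σ := σ) (dec_zero.1 h5) hc.ne'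
    have hv := val_pos hlt hs h1 (.step _ _ _ p _ h6) hc
    exact h4.imp (fun e => (Ab.up hlt ⟨s, π, δ, p, h1, h2, h6, rfl, Iff.rfl⟩ hv e).2)
      fun e => (Ab.up hlt ⟨s, π, δ, p, h1, h3, h6, rfl, Iff.rfl⟩ hv e).2
  · rcases dichotomy hlt hs htop hx y with h | ⟨v, n, n', ε, hv, hn, h⟩
    · exact ⟨0, 0, fun m _ => ⟨fun e => absurd e (by simpa using h0 0),
        fun _ => ((h.pow m).sml hlt).2⟩⟩
    · exact ⟨_, n', h.bit hlt hv hn⟩
  · rcases dichotomy hlt hs htop hx t with h | ⟨v, n, n', ε, hv, hn, h⟩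
    · exact Or.inl (h.sml hlt).1
    · exact Or.inr ⟨v.natAbs, by omega,
        ((h.up hlt hv hn).1.up hlt hv hv.ne').1.bit hlt hv hv.ne'⟩
  · have h1 : ∀ δ, Dec σ s₀ δ (s₀.b δ) 1 := fun δ => by simp [Dec]
    have h2 : Cl σ s₀ _ ⟨false⟩ 1 := .base _ _ _ _ one_ne_zero (h1 _)
    obtain ⟨p, -, h3⟩ := h2.down hs ((h1 ⟨false⟩).lt (s := s₀) (δ₀ := ⟨true⟩) (by decide))
    exact ⟨_, _, (hlt _ _).2 ⟨_, 1, one_pos, by simpa using h2⟩,
      (Ab.up hlt ⟨s₀, id, _, p, .refl hs, h1 _, h3, rfl, Iff.rfl⟩ one_pos one_ne_zero).2⟩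

end Pool.Agent.MP_a2e0a9_al.H1

end

-- part MP_a2e0a9_al.H1.Abel
section

/-! Chain quotients, and amalgamation of abelian ordered groups over the integers. -/

namespace Pool.Agent.MP_a2e0a9_al.H1

universe u

/-- Totally ordered. -/
def Tot (G : LGrp.{u}) : Prop := ∀ a b : G.carrier, a ≤ b ∨ b ≤ a

/-- Abelian. -/
def Com (G : LGrp.{u}) : Prop := ∀ a b : G.carrier, a * b = b * a

theorem sat_of_surj {S : Set (Term × Term)} {G H : LGrp.{u}} {f : G.carrier → H.carrier}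
    (hf : IsLHom f) (hs : Function.Surjective f) (hG : Sat S G) : Sat S H := fun p hp x => by
  choose y hy using fun n => hs (x n)
  rw [← funext hy, hf.eval, hf.eval, hG p hp]

theorem chain_quot {S : Set (Term × Term)} {G : LGrp.{u}} (hG : Sat S G) (hR : Representable G)
    {a : G.carrier} (ha : a ≠ 1) : ∃ (H : LGrp.{u}) (f : G.carrier → H.carrier),
      Tot H ∧ Sat S H ∧ IsLHom f ∧ f a ≠ 1 := by
  obtain ⟨H, f, tot, hf, hfa⟩ := hR a ha
  let K := (MonoidHom.mk' f hf.1).range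
  let H' : LGrp.{u} :=
    { carrier := K
      lat := Subtype.lattice
        (by rintro _ _ ⟨a, rfl⟩ ⟨b, rfl⟩; exact ⟨a ⊔ b, hf.2.1 a b⟩)
        (by rintro _ _ ⟨a, rfl⟩ ⟨b, rfl⟩; exact ⟨a ⊓ b, hf.2.2 a b⟩)
      ml := ⟨fun a b c h => mul_le_mul_right (show b.1 ≤ c.1 from h) a.1⟩
      mr := ⟨fun a b c h => mul_le_mul_left (show b.1 ≤ c.1 from h) a.1⟩ }
  have h1 : IsLHom (H := H') fun a => ⟨f a, a, rfl⟩ :=
    isLHom_of (fun a b => Subtype.ext (hf.1 a b)) fun a b => Subtype.ext (hf.2.1 a b)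
  exact ⟨H', _, fun a b => tot a.1 b.1, sat_of_surj h1 (by rintro ⟨_, a, rfl⟩; exact ⟨a, rfl⟩) hG,
    h1, fun e => hfa (congrArg Subtype.val e)⟩

theorem isLHom_of_mono {G H : LGrp.{u}} (tot : Tot G) {f : G.carrier → H.carrier}
    (h1 : ∀ a b, f (a * b) = f a * f b) (h2 : Monotone f) : IsLHom f :=
  isLHom_of h1 fun a b => by
    rcases tot a b with h | h
    · rw [sup_eq_right.2 h, sup_eq_right.2 (h2 h)]
    · rw [sup_eq_left.2 h, sup_eq_left.2 (h2 h)]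

theorem exists_total {A : Type u} [CommGroup A] (Q₀ : Submonoid A) (a : A)
    (h : ∀ n, 0 < n → a ^ n ∉ Q₀) :
    ∃ Q : Submonoid A, Q₀ ≤ Q ∧ a ∉ Q ∧ ∀ g, g ∈ Q ∨ g⁻¹ ∈ Q := by
  obtain ⟨Q, h1, h2⟩ := zorn_le_nonempty₀ {Q : Submonoid A | ∀ n, 0 < n → a ^ n ∉ Q}
    (fun c hc hch y hy => ⟨sSup c, fun n hn hm => by
      obtain ⟨Q, hQ, h3⟩ := (Submonoid.mem_sSup_of_directedOn ⟨y, hy⟩ hch.directedOn).1 hm
      exact hc hQ n hn h3, fun z hz => le_sSup hz⟩) Q₀ h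
  refine ⟨Q, h1, by simpa using h2.1 1 one_pos, fun g => ?_⟩
  by_contra hc
  push Not at hc
  have key : ∀ g, g ∉ Q → ∃ n i : ℕ, 0 < n ∧ 0 < i ∧ a ^ n * (g ^ i)⁻¹ ∈ Q := fun g hg => by
    by_contra h3
    push Not at h3
    refine hg (h2.2 (y := Q ⊔ Submonoid.powers g) (fun n hn h4 => ?_) le_sup_left
      (Submonoid.mem_sup_right (Submonoid.mem_powers g)))
    obtain ⟨q, hq, _, ⟨i, rfl⟩, e⟩ := Submonoid.mem_sup.1 h4
    rcases Nat.eq_zero_or_pos i with rfl | hi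
    · exact h2.1 n hn (by simpa [← e] using hq)
    · exact h3 n i hn hi (by simpa [← e] using hq)
  obtain ⟨n, i, hn, hi, h3⟩ := key g hc.1
  obtain ⟨m, j, -, hj, h4⟩ := key g⁻¹ hc.2
  refine h2.1 (n * j + m * i) (by positivity) ?_
  convert mul_mem (pow_mem h3 j) (pow_mem h4 i) using 1
  simp only [mul_pow, inv_pow, inv_inv, ← pow_mul, pow_add, mul_comm j i]
  rw [mul_mul_mul_comm, inv_mul_cancel, mul_one]

theorem abel_chain {H H' : LGrp.{u}} (tot : Tot H) (tot' : Tot H') (com : Com H) (com' : Com H')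
    {b x : H.carrier} {c : H'.carrier} (hb : 1 < b) (hc : 1 < c) (hx : 1 < x) :
    ∃ (D : LGrp.{u}) (h : H.carrier → D.carrier) (k : H'.carrier → D.carrier),
      Tot D ∧ Com D ∧ IsLHom h ∧ IsLHom k ∧ h b = k c ∧ h x ≠ 1 := by
  let _ : CommGroup H.carrier := { H.grp with mul_comm := com }
  let _ : CommGroup H'.carrier := { H'.grp with mul_comm := com' }
  let Q₀ : Submonoid (H.carrier × H'.carrier) :=
    { carrier := {p | ∃ k : ℤ, b ^ k ≤ p.1 ∧ c ^ (-k) ≤ p.2}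
      one_mem' := ⟨0, by simp, by simp⟩
      mul_mem' := fun ⟨k, h1, h2⟩ ⟨l, h3, h4⟩ => ⟨k + l, by
        rw [zpow_add]; exact mul_le_mul' h1 h3, by
        rw [neg_add, zpow_add]; exact mul_le_mul' h2 h4⟩ }
  obtain ⟨Q, h1, h2, h3⟩ := exists_total Q₀ (x⁻¹, 1) fun n hn ⟨k, h1, h2⟩ => by
    have h3 : 0 ≤ k := by
      by_contra h
      have := (int_emb hc).one_lt (a := Multiplicative.ofAdd (-k)) (show (0 : ℤ) < -k by omega)
      exact this.not_ge (show c ^ (-k) ≤ 1 by simpa only [zpow_neg, Left.inv_le_one_iff, Prod.pow_mk, inv_pow, one_pow] using h2)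
    have h4 : 1 ≤ b ^ k := by simpa only [zpow_ofNat, pow_zero] using zpow_mono_of hb.le h3
    have h5 : 1 < x ^ n := one_lt_pow' hx hn.ne'
    exact h5.not_ge (by simpa using h4.trans h1)
  let N : Subgroup (H.carrier × H'.carrier) :=
    { carrier := {g | g ∈ Q ∧ g⁻¹ ∈ Q}
      one_mem' := ⟨one_mem _, by simp⟩
      mul_mem' := fun h h' => ⟨mul_mem h.1 h'.1, by rw [mul_inv]; exact mul_mem h.2 h'.2⟩
      inv_mem' := fun h => ⟨h.2, by simpa using h.1⟩ }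
  obtain ⟨_, _, _, hlt⟩ := exists_order (G := (H.carrier × H'.carrier) ⧸ N)
    (fun d => ∃ q ∈ Q, q⁻¹ ∉ Q ∧ QuotientGroup.mk' N q = d)
    (fun ⟨q, _, h4, h5⟩ => h4 ((QuotientGroup.eq_one_iff q).1 h5).2)
    (by
      rintro _ _ ⟨q, h4, h5, rfl⟩ ⟨r, h6, -, rfl⟩
      exact ⟨q * r, mul_mem h4 h6, fun h => h5 (by simpa using mul_mem h h6), map_mul _ _ _⟩)
    (fun u a h => by rwa [mul_comm u a, mul_inv_cancel_right])
    (fun a ha => by
      obtain ⟨g, rfl⟩ := QuotientGroup.mk'_surjective N a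
      by_cases h : g⁻¹ ∈ Q
      · exact Or.inr ⟨g⁻¹, h, fun h' => ha ((QuotientGroup.eq_one_iff g).2
          ⟨by simpa using h', h⟩), map_inv _ _⟩
      · exact Or.inl ⟨g, (h3 g).resolve_right h, h, rfl⟩)
  have mono : ∀ p q, p⁻¹ * q ∈ Q₀ → QuotientGroup.mk' N p ≤ QuotientGroup.mk' N q := by
    intro p q h
    by_cases h' : (p⁻¹ * q)⁻¹ ∈ Q
    · exact le_of_eq (QuotientGroup.eq.2 ⟨h1 h, h'⟩)
    · exact ((hlt _ _).2 ⟨_, h1 h, h', by simp only [QuotientGroup.mk'_apply, QuotientGroup.mk_mul, QuotientGroup.mk_inv]⟩).le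
  refine ⟨{ carrier := (H.carrier × H'.carrier) ⧸ N }, fun u => QuotientGroup.mk' N (u, 1),
    fun v => QuotientGroup.mk' N (1, v), le_total, mul_comm,
    isLHom_of_mono tot (fun _ _ => by rw [← map_mul]; simp) fun u v h => mono _ _
      ⟨0, by simpa only [zpow_ofNat, pow_zero, Prod.inv_mk, inv_one, Prod.mk_mul_mk, mul_one, le_inv_mul_iff_mul_le] using h, by simp⟩,
    isLHom_of_mono tot' (fun _ _ => by rw [← map_mul]; simp) fun u v h => mono _ _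
      ⟨0, by simp, by simpa only [neg_zero, zpow_ofNat, pow_zero, Prod.inv_mk, inv_one, Prod.mk_mul_mk, mul_one, le_inv_mul_iff_mul_le] using h⟩,
    le_antisymm (mono _ _ ⟨-1, by simp, by simp⟩) (mono _ _ ⟨1, by simp, by simp⟩),
    fun e => h2 (by simpa using ((QuotientGroup.eq_one_iff _).1 e).2)⟩

theorem sat_pi {ι : Type u} {D : ι → LGrp.{u}} {S : Set (Term × Term)} (h : ∀ i, Sat S (D i)) :
    Sat S (piLGrp D) := fun p hp x => funext fun i => by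
  have e : IsLHom (G := piLGrp D) (H := D i) fun a => a i :=
    ⟨fun _ _ => rfl, fun _ _ => rfl, fun _ _ => rfl⟩
  exact (e.eval x _).symm.trans ((h i p hp _).trans (e.eval x _))

variable {S : Set (Term × Term)} (hR : ∀ G : LGrp.{u}, Sat S G → Representable G)
  (hA : ∀ G : LGrp.{u}, Tot G → (Sat S G ↔ Com G))
include hR hA

theorem half {B C : LGrp.{u}} (hB : Sat S B) (hC : Sat S C) {b : B.carrier}
    {c : C.carrier} (hb : 1 < b) (hc : 1 < c) (x : B.carrier) :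
    ∃ (D : LGrp.{u}) (h : B.carrier → D.carrier) (k : C.carrier → D.carrier),
      Sat S D ∧ IsLHom h ∧ IsLHom k ∧ h b = k c ∧ (h x = 1 → x = 1) := by
  have h0 : ∀ D : LGrp.{u}, IsLHom (G := C) (H := D) fun _ => 1 := fun _ =>
    ⟨by simp, by simp, by simp⟩
  by_cases hx : x = 1
  · exact ⟨B, fun _ => 1, _, hB, ⟨by simp, by simp, by simp⟩, h0 B, rfl, fun _ => hx⟩
  obtain ⟨H, f, tot, hH, hf, hfx⟩ := chain_quot hB (hR B hB) hx
  rcases (hf.one_le hb.le).eq_or_lt with h | h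
  · exact ⟨H, f, _, hH, hf, h0 H, h.symm, fun e => absurd e hfx⟩
  obtain ⟨H', f', tot', hH', hf', hfc⟩ := chain_quot hC (hR C hC) hc.ne'
  obtain ⟨y, hy, hy'⟩ : ∃ y, 1 < y ∧ (y = f x ∨ y = (f x)⁻¹) := by
    rcases tot 1 (f x) with e | e
    · exact ⟨_, e.lt_of_ne' hfx, Or.inl rfl⟩
    · exact ⟨_, one_lt_inv'.2 (e.lt_of_ne hfx), Or.inr rfl⟩
  obtain ⟨D, h, k, h1, h2, h3, h4, h5, h6⟩ := abel_chain tot tot' ((hA H tot).1 hH)
    ((hA H' tot').1 hH') h ((hf'.one_le hc.le).lt_of_ne' hfc) hy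
  refine ⟨D, _, _, (hA D h1).2 h2, h3.comp hf, h4.comp hf', h5, fun e => absurd ?_ h6⟩
  rcases hy' with rfl | rfl
  · exact e
  · rw [h3.map_inv, inv_eq_one]; exact e

theorem amalgBase (hZ : Sat S intLGrp) : IsAmalgBase.{u} S intLGrp := by
  refine ⟨hZ, fun B C hB hC f g hf hg => ?_⟩
  obtain ⟨b, hb, hfb⟩ := emb_int hf
  obtain ⟨c, hc, hgc⟩ := emb_int hg
  have key : ∀ i : B.carrier ⊕ C.carrier, ∃ (D : LGrp.{u}) (h : B.carrier → D.carrier)
      (k : C.carrier → D.carrier), Sat S D ∧ IsLHom h ∧ IsLHom k ∧ h b = k c ∧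
      (∀ g, i = Sum.inl g → h g = 1 → g = 1) ∧ (∀ g, i = Sum.inr g → k g = 1 → g = 1) := by
    rintro (g | g)
    · obtain ⟨D, h, k, h1, h2, h3, h4, h5⟩ := half hR hA hB hC hb hc g
      exact ⟨D, h, k, h1, h2, h3, h4, fun g' hg => Sum.inl.inj hg ▸ h5,
        fun g' hg => absurd hg Sum.inl_ne_inr⟩
    · obtain ⟨D, k, h, h1, h2, h3, h4, h5⟩ := half hR hA hC hB hc hb g
      exact ⟨D, h, k, h1, h3, h2, h4.symm, fun g' hg => absurd hg Sum.inr_ne_inl,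
        fun g' hg => Sum.inr.inj hg ▸ h5⟩
  choose D h k h1 h2 h3 h4 h5 h6 using key
  have e1 : IsLHom (H := piLGrp D) fun a i => h i a :=
    isLHom_of (fun x y => funext fun i => (h2 i).1 x y) fun x y => funext fun i => (h2 i).2.1 x y
  have e2 : IsLHom (H := piLGrp D) fun a i => k i a :=
    isLHom_of (fun x y => funext fun i => (h3 i).1 x y) fun x y => funext fun i => (h3 i).2.1 x y
  refine ⟨piLGrp D, _, _, sat_pi h1, e1.emb fun a ha => h5 _ a rfl (congrFun ha _),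
    e2.emb fun a ha => h6 _ a rfl (congrFun ha _), funext fun n => ?_⟩
  show (fun a i => h i a) (f n) = (fun a i => k i a) (g n)
  rw [hfb n, hgc n]
  exact (e1.map_zpow _ _).trans ((congrArg (· ^ _) (funext h4)).trans (e2.map_zpow _ _).symm)

end Pool.Agent.MP_a2e0a9_al.H1

end
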