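import Pool.Agent.MP_a2e0a9_al.Mg.H1_Abel
import Pool.Agent.MP_a2e0a9_al.H1.Code
import Pool.Agent.MP_a2e0a9_al.H1.Mach

-- part MP_a2e0a9_al.H1.Laws
section

/-! The laws attached to a counter machine. -/

namespace Pool.Agent.MP_a2e0a9_al.H1

universe u v

/-- Natural powers of a term. -/
def tpow (t : Term) : ℕ → Term
  | 0 => .one
  | n + 1 => .mul (tpow t n) t

/-- Term for `up`. -/
def upT (x t : Term) : Term := .sup (.mul (.mul t x) (.inv t)) (.mul (.mul (.inv t) x) t)

/-- Term for `cj`. -/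
def cjT (x y : Term) : Term := .mul (.mul (.inv (upT x y)) x) (upT x y)

/-- The inequality `Big`. -/
def bigT (x u : Term) : Term × Term := (.mul x x, u)

/-- The inequality `Sml`. -/
def smlT (x u : Term) : Term × Term := (.mul u u, .mul (.mul x x) x)

/-- Meet of positive parts. -/
def meet (t : Term) : List (Term × Term) → Term
  | [] => .sup t .one
  | p :: L => .inf (.sup (.mul p.1 (.inv p.2)) .one) (meet t L)

/-- The origin. -/
def oT (t : Term) : Term := upT (.var 0) (upT (.var 0) t)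

/-- The bit is on. -/
def onT (t : Term) (m : ℕ) : Term × Term := bigT (.var 0) (cjT (.var 0) (tpow t m))

/-- The bit is off. -/
def offT (t : Term) (m : ℕ) : Term × Term := smlT (.var 0) (cjT (.var 0) (tpow t m))

/-- No move. -/
def noT (t : Term) : Term × Term := smlT (.var 0) (upT (.var 0) t)

/-- The commutator. -/
def comT : Term := .mul (.mul (.mul (.var 0) (.var 1)) (.inv (.var 0))) (.inv (.var 1))

/-- Law of representability. -/
def lawRep : Term × Term := (.inf (.mul (.var 0) (.inv (.inf (.var 0) (.var 1))))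
  (.mul (.mul (.var 2) (.mul (.var 1) (.inv (.inf (.var 0) (.var 1))))) (.inv (.var 2))), .one)

/-- Commutators are moved by an entry. -/
def lawCom : Term × Term :=
  (meet comT [bigT comT (upT comT (.var 0)), bigT comT (upT comT (.var 1))], .one)

/-- All origins carry the same bit at `m`. -/
def lawBad (m : ℕ) : Term × Term := (meet (.var 0)
  [noT (.var 1), noT (.var 2), offT (oT (.var 1)) m, onT (oT (.var 2)) m], .one)

/-- The bit at `m` is on at every origin. -/
def lawOrig (m : ℕ) : Term × Term := (meet (.var 0) [noT (.var 1), onT (oT (.var 1)) m], .one)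

/-- A Horn clause between bits. -/
def lawHorn (A B : List ℕ) : Term × Term :=
  (meet (.var 0) (A.map (offT (.var 1)) ++ B.map (onT (.var 1))), .one)

/-- The law holds. -/
def Hold (G : LGrp.{u}) (p : Term × Term) : Prop := ∀ a : ℕ → G.carrier, p.1.eval a = p.2.eval a

section
variable {G : LGrp.{u}}

theorem tpow_eval (a : ℕ → G.carrier) (t : Term) : ∀ n, (tpow t n).eval a = t.eval a ^ n
  | 0 => (pow_zero _).symm
  | n + 1 => by rw [pow_succ, ← tpow_eval a t n]; rfl

theorem Tot.le_of_not_lt (tot : Tot G) {a b : G.carrier} (h : ¬ a < b) : b ≤ a :=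
  (tot b a).elim id fun h' => h'.eq_or_lt.elim Eq.ge fun e => absurd e h

theorem meet_eval (tot : Tot G) (a : ℕ → G.carrier) (t : Term) (L : List (Term × Term)) :
    1 ≤ (meet t L).eval a ∧ ((meet t L).eval a = 1 ↔
      (1 < t.eval a → ∃ p ∈ L, p.1.eval a ≤ p.2.eval a)) := by
  induction L with
  | nil =>
    refine ⟨le_sup_right, sup_eq_right.trans ?_⟩
    simp only [List.not_mem_nil, false_and, exists_false, imp_false]
    exact ⟨fun h => h.not_gt, tot.le_of_not_lt⟩
  | cons p L ih =>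
    refine ⟨le_inf le_sup_right ih.1, ?_⟩
    have h1 : ∀ A B : G.carrier, 1 ≤ A → 1 ≤ B → (A ⊓ B = 1 ↔ A = 1 ∨ B = 1) := fun A B hA hB => by
      refine ⟨fun h => ?_, fun h => h.elim (fun e => e ▸ inf_eq_left.2 (e ▸ hB))
        fun e => e ▸ inf_eq_right.2 (e ▸ hA)⟩
      rcases tot A B with e | e
      · exact Or.inl (inf_eq_left.2 e ▸ h)
      · exact Or.inr (inf_eq_right.2 e ▸ h)
    refine (h1 _ _ le_sup_right ih.1).trans ?_
    rw [ih.2]
    simp only [Term.eval, sup_eq_right, mul_inv_le_one_iff_le, List.exists_mem_cons_iff]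
    by_cases h : 1 < t.eval a
    · simp only [h, forall_const]
    · simp only [h, IsEmpty.forall_iff, or_true]

theorem on_eval (a : ℕ → G.carrier) (t : Term) (m : ℕ) :
    (onT t m).1.eval a ≤ (onT t m).2.eval a ↔ Big (a 0) (cj (a 0) (t.eval a ^ m)) := by
  rw [← tpow_eval]; rfl

theorem off_eval (a : ℕ → G.carrier) (t : Term) (m : ℕ) :
    (offT t m).1.eval a ≤ (offT t m).2.eval a ↔ Sml (a 0) (cj (a 0) (t.eval a ^ m)) := by
  rw [← tpow_eval]; rfl

theorem hold_com (tot : Tot G) : Hold G lawCom ↔ ∀ x y : G.carrier, 1 < x * y * x⁻¹ * y⁻¹ →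
    Big (x * y * x⁻¹ * y⁻¹) (up (x * y * x⁻¹ * y⁻¹) x) ∨
      Big (x * y * x⁻¹ * y⁻¹) (up (x * y * x⁻¹ * y⁻¹) y) := by
  refine ⟨fun h x y hc => ?_, fun h a => (meet_eval tot a _ _).2.2 fun hc => ?_⟩
  · have := (meet_eval tot _ _ _).2.1 (h fun n => if n = 0 then x else y) hc
    simp only [List.mem_cons, List.not_mem_nil, or_false, exists_eq_or_imp, exists_eq_left] at this
    exact this
  · simp only [List.mem_cons, List.not_mem_nil, or_false, exists_eq_or_imp, exists_eq_left]
    exact h _ _ hc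

theorem hold_bad (tot : Tot G) (m : ℕ) : Hold G (lawBad m) ↔ ∀ x y z : G.carrier, 1 < x →
    Sml x (up x y) ∨ Sml x (up x z) ∨ Sml x (cj x (up x (up x y) ^ m)) ∨
      Big x (cj x (up x (up x z) ^ m)) := by
  refine ⟨fun h x y z hc => ?_, fun h a => (meet_eval tot a _ _).2.2 fun hc => ?_⟩
  · have := (meet_eval tot _ _ _).2.1 (h fun n => if n = 0 then x else if n = 1 then y else z) hc
    simp only [List.mem_cons, List.not_mem_nil, or_false, exists_eq_or_imp, exists_eq_left,
      on_eval, off_eval] at this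
    exact this
  · simp only [List.mem_cons, List.not_mem_nil, or_false, exists_eq_or_imp, exists_eq_left,
      on_eval, off_eval]
    exact h _ (a 1) (a 2) hc

theorem hold_orig (tot : Tot G) (m : ℕ) : Hold G (lawOrig m) ↔ ∀ x y : G.carrier, 1 < x →
    Sml x (up x y) ∨ Big x (cj x (up x (up x y) ^ m)) := by
  refine ⟨fun h x y hc => ?_, fun h a => (meet_eval tot a _ _).2.2 fun hc => ?_⟩
  · have := (meet_eval tot _ _ _).2.1 (h fun n => if n = 0 then x else y) hc
    simp only [List.mem_cons, List.not_mem_nil, or_false, exists_eq_or_imp, exists_eq_left,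
      on_eval] at this
    exact this
  · simp only [List.mem_cons, List.not_mem_nil, or_false, exists_eq_or_imp, exists_eq_left,
      on_eval]
    exact h _ (a 1) hc

theorem hold_horn (tot : Tot G) (A B : List ℕ) : Hold G (lawHorn A B) ↔ ∀ x y : G.carrier, 1 < x →
    (∃ m ∈ A, Sml x (cj x (y ^ m))) ∨ ∃ m ∈ B, Big x (cj x (y ^ m)) := by
  refine ⟨fun h x y hc => ?_, fun h a => (meet_eval tot a _ _).2.2 fun hc => ?_⟩
  · obtain ⟨p, hp, h1⟩ := (meet_eval tot _ _ _).2.1 (h fun n => if n = 0 then x else y) hc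
    rcases List.mem_append.1 hp with hp | hp <;> obtain ⟨m, hm, rfl⟩ := List.mem_map.1 hp
    · exact Or.inl ⟨m, hm, (off_eval _ _ _).1 h1⟩
    · exact Or.inr ⟨m, hm, (on_eval _ _ _).1 h1⟩
  · rcases h _ (a 1) hc with ⟨m, hm, h1⟩ | ⟨m, hm, h1⟩
    · exact ⟨_, List.mem_append_left _ (List.mem_map_of_mem hm), (off_eval _ _ _).2 h1⟩
    · exact ⟨_, List.mem_append_right _ (List.mem_map_of_mem hm), (on_eval _ _ _).2 h1⟩

theorem hold_rep (tot : Tot G) : Hold G lawRep := fun y => by
  simp only [lawRep, Term.eval]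
  rcases tot (y 0) (y 1) with h | h
  · rw [inf_eq_left.2 h, mul_inv_cancel, inf_eq_left]
    exact one_le_conj (by simpa only [le_mul_inv_iff_mul_le, one_mul] using h) _ _ (mul_inv_cancel _)
  · rw [inf_eq_right.2 h, mul_inv_cancel, mul_one, mul_inv_cancel, inf_eq_right]
    simpa only [le_mul_inv_iff_mul_le, one_mul] using h

theorem rep_of_hold (hG : Hold G lawRep) : Representable G := by
  by_contra h
  obtain ⟨a, g, h1, h2⟩ := exists_disj_of_not_rep h
  have h4 := hG fun n => if n = 0 then a else if n = 1 then g⁻¹ * a * g else g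
  have h5 : a * (a ⊓ (g⁻¹ * a * g))⁻¹ ⊓ (g * (g⁻¹ * a * g * (a ⊓ (g⁻¹ * a * g))⁻¹) * g⁻¹) = 1 := h4
  rw [h2] at h5
  simp only [inv_one, mul_one, mul_assoc, mul_inv_cancel_left, mul_inv_cancel, Std.le_refl, inf_of_le_left] at h5
  exact h1.ne' h5

theorem not_sml {x w : G.carrier} (hx : 1 < x) (h1 : Big x w) : ¬ Sml x w := fun h2 => by
  have h3 : x * x * (x * x) ≤ x * x * x := (mul_le_mul' h1 h1).trans h2
  exact hx.not_ge (by simpa only [mul_assoc, mul_le_iff_le_one_left'] using h3)

theorem com_sml (com : Com G) {x : G.carrier} (hx : 1 < x) (t : G.carrier) :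
    Sml x (up x t) ∧ Sml x (cj x t) := by
  have h1 : ∀ u, u * x * u⁻¹ = x := fun u => by rw [com u, mul_inv_cancel_right]
  have h2 : ∀ u, u⁻¹ * x * u = x := fun u => by simpa only [inv_inv] using h1 u⁻¹
  have h3 : Sml x x := le_mul_of_one_le_right' hx.le
  exact ⟨by rwa [up, h1, h2, sup_idem], by rwa [cj, h2]⟩

variable {H : LGrp.{u}} {f : G.carrier → H.carrier} (hf : IsLHom f) {x t : G.carrier}
include hf

theorem map_up : f (up x t) = up (f x) (f t) := by simp only [up, hf.1, hf.2.1, hf.map_inv]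

theorem map_cj : f (cj x t) = cj (f x) (f t) := by simp only [cj, hf.1, map_up hf, hf.map_inv]

theorem map_big (h : Big x t) : Big (f x) (f t) := by
  simpa only [Big, hf.1] using hf.mono h

theorem map_sml (h : Sml x t) : Sml (f x) (f t) := by
  simpa only [Sml, hf.1] using hf.mono h

end

end Pool.Agent.MP_a2e0a9_al.H1

end

-- part MP_a2e0a9_al.H1.Main
section

/-! The reduction from the halting problem. -/

namespace Pool.Agent.MP_a2e0a9_al.H1

open Function

universe u v

section
variable {A : Type} [Finite A]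

/-- Product of prime powers. -/
noncomputable def gd (f : A → ℕ) : ℕ :=
  letI := Fintype.ofFinite A
  ∏ a, Nat.nth Nat.Prime (Fintype.equivFin A a) ^ f a

theorem gd_add (f g : A → ℕ) : gd (f + g) = gd f * gd g := by
  simp only [gd, Pi.add_apply, pow_add, Finset.prod_mul_distrib]

theorem gd_smul (f : A → ℕ) (n : ℕ) : gd (n • f) = gd f ^ n := by
  simp only [gd, Pi.smul_apply, smul_eq_mul, ← Finset.prod_pow, ← pow_mul, mul_comm]

theorem gd_pos (f : A → ℕ) : 0 < gd f :=
  Finset.prod_pos fun _ _ => pow_pos (Nat.prime_nth_prime _).pos _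

theorem gd_inj : Injective (gd : (A → ℕ) → ℕ) := by
  classical
  let _ := Fintype.ofFinite A
  have key : ∀ (f : A → ℕ) a, (gd f).factorization (Nat.nth Nat.Prime (Fintype.equivFin A a)) = f a := by
    intro f a
    rw [gd, Nat.factorization_prod fun _ _ => (pow_pos (Nat.prime_nth_prime _).pos _).ne']
    simp only [Nat.factorization_pow, Nat.prime_nth_prime, Nat.Prime.factorization, Finsupp.smul_single, smul_eq_mul, mul_one, Finsupp.coe_finsetSum, Finset.sum_apply, Finsupp.single_apply, (Nat.nth_injective Nat.infinite_setOfPred_prime).eq_iff, Fin.val_inj, EmbeddingLike.apply_eq_iff_eq, Finset.sum_ite_eq', Finset.mem_univ, ↓ reduceIte]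
  intro f g h
  funext a
  rw [← key f, ← key g, h]

end

variable {P : Type} [Finite P] (M : MM P)

/-- Flags. -/
abbrev Fl := Fin 3 ⊕ Fin M.K ⊕ P

/-- Positions. -/
abbrev Ps := Fin M.K → ℕ

open Classical in
/-- Number of a flag at a position. -/
noncomputable def wt (c : Ps M) (i : Fl M) : ℕ := gd (Sum.elim c (Pi.single i 1))

/-- Number of a position. -/
noncomputable def pp (c : Ps M) : ℕ := gd (Sum.elim c (0 : Fl M → ℕ))

/-- The machine halts on the input. -/
def Halts (N : ℕ) : Prop := ∃ k, M.halt (M.cfg N k).1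

/-- Truth of a flag at a position. -/
def tr (N : ℕ) (ver : Prop) : Fl M → Ps M → Prop
  | .inl i, _ => i = 2 → ver
  | .inr (.inl r), c => c r = 0
  | .inr (.inr q), c => ∃ k, (M.cfg N k).1 = q ∧ (fun r : Fin M.K => (M.cfg N k).2 r) = c

/-- The relation stored in the order. -/
def sig (N : ℕ) (ver : Prop) (a n : ℕ) : Prop :=
  a ≠ 0 ∧ ∃ i c, tr M N ver i c ∧ a = n * wt M c i

/-- Flags at a neighbouring position. -/
abbrev At := Option (Fin M.K) × Fl M

/-- The shift of the position. -/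
def dv (d : Option (Fin M.K)) : Ps M := d.elim 0 fun r => Pi.single r 1

/-- Sound rules. -/
def Sound (a b : At M) (o : Option (At M)) : Prop := ∀ N ver c, ¬ Halts M N →
  tr M N ver a.2 (c + dv M a.1) → tr M N ver b.2 (c + dv M b.1) →
    ∃ e ∈ o, tr M N ver e.2 (c + dv M e.1)

/-- The law of a rule. -/
noncomputable def rule (a b : At M) (o : Option (At M)) : Term × Term :=
  lawHorn [wt M 0 (.inl 0), wt M 0 (.inl 1), wt M (dv M a.1) a.2, wt M (dv M b.1) b.2]
    (o.toList.map fun e => wt M (dv M e.1) e.2)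

/-- The laws that do not depend on the input. -/
def S₀ : Set (Term × Term) := {lawRep, lawCom, lawBad (wt M 0 (.inl 2))} ∪
  (fun i => lawOrig (wt M 0 i)) '' {i | ∀ N ver, tr M N ver i 0} ∪
  (fun p : At M × At M × Option (At M) => rule M p.1 p.2.1 p.2.2) '' {p | Sound M p.1 p.2.1 p.2.2}

/-- All laws. -/
def laws (N : ℕ) : Set (Term × Term) :=
  insert (lawOrig (pp M 1 ^ N * wt M 0 (.inr (.inr M.start)))) (S₀ M)

variable {M} {N : ℕ} {ver : Prop}

theorem finite_S₀ : (S₀ M).Finite :=
  ((Set.toFinite _).union ((Set.toFinite _).image _)).union ((Set.toFinite _).image _)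

theorem wt_add (c d : Ps M) (i : Fl M) : wt M (c + d) i = pp M c * wt M d i := by
  rw [wt, wt, pp, ← gd_add]
  congr 1
  ext (a | a) <;> simp

theorem wt_start (i : Fl M) : pp M 1 ^ N * wt M 0 i = wt M (fun _ => N) i := by
  rw [← add_zero (fun _ => N : Ps M), wt_add, pp, pp, ← gd_smul]
  congr 2
  ext (a | a) <;> simp

theorem wt_pos (c : Ps M) (i : Fl M) : 0 < wt M c i := gd_pos _

theorem sig_iff {n : ℕ} (hn : 0 < n) (c : Ps M) (i : Fl M) :
    sig M N ver (n * wt M c i) n ↔ tr M N ver i c := by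
  classical
  refine ⟨fun ⟨_, j, d, h1, h2⟩ => ?_, fun h => ⟨(mul_pos hn (wt_pos c i)).ne', i, c, h, rfl⟩⟩
  have h3 := gd_inj (Nat.eq_of_mul_eq_mul_left hn h2)
  obtain rfl : c = d := funext fun r => congrFun h3 (.inl r)
  obtain rfl : j = i := by
    by_contra h
    simpa [Pi.single_apply, Ne.symm h] using congrFun h3 (.inr i)
  exact h1

theorem garbage {n n' : ℕ} (h1 : sig M N ver (n * wt M 0 (.inl 0)) n')
    (h2 : sig M N ver (n * wt M 0 (.inl 1)) n') : 0 < n' ∧ ∃ c, n = n' * pp M c := by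
  classical
  obtain ⟨h0, i, c, -, h1⟩ := h1
  obtain ⟨-, j, d, -, h2⟩ := h2
  have hn : 0 < n' := Nat.pos_of_ne_zero fun e => h0 (by rw [h1, e, zero_mul])
  have h3 : wt M c i * wt M 0 (.inl 1) = wt M d j * wt M 0 (.inl 0) :=
    Nat.eq_of_mul_eq_mul_left hn (by rw [← mul_assoc, ← mul_assoc, ← h1, ← h2]; ring)
  rw [wt, wt, wt, wt, ← gd_add, ← gd_add] at h3
  obtain rfl : i = .inl 0 := by
    by_contra h
    simpa [Pi.single_apply, Ne.symm h] using congrFun (gd_inj h3) (.inr (.inl 0))
  refine ⟨hn, c, Nat.eq_of_mul_eq_mul_right (wt_pos (M := M) 0 (.inl 0)) ?_⟩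
  rw [h1, mul_assoc, ← wt_add, add_zero]

theorem sat_iff {G : LGrp.{u}} : Sat (laws M N) G ↔
    Hold G (lawOrig (wt M (fun _ => N) (.inr (.inr M.start)))) ∧ Hold G lawRep ∧ Hold G lawCom ∧
    Hold G (lawBad (wt M 0 (.inl 2))) ∧ (∀ i, (∀ N ver, tr M N ver i 0) → Hold G (lawOrig (wt M 0 i))) ∧
    ∀ a b o, Sound M a b o → Hold G (rule M a b o) := by
  rw [← wt_start]
  refine ⟨fun h => ⟨h _ (Or.inl rfl), h _ (Or.inr (Or.inl (Or.inl (by simp)))),
    h _ (Or.inr (Or.inl (Or.inl (by simp)))), h _ (Or.inr (Or.inl (Or.inl (by simp)))),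
    fun i hi => h _ (Or.inr (Or.inl (Or.inr ⟨i, hi, rfl⟩))),
    fun a b o ho => h _ (Or.inr (Or.inr ⟨(a, b, o), ho, rfl⟩))⟩, ?_⟩
  rintro ⟨h1, h2, h3, h4, h5, h6⟩ _
    (rfl | ((rfl | rfl | rfl) | ⟨i, hi, rfl⟩) | ⟨⟨a, b, o⟩, ho, rfl⟩)
  exacts [h1, h2, h3, h4, h5 i hi, h6 a b o ho]

theorem sat_of_com {G : LGrp.{u}} (tot : Tot G) (com : Com G) : Sat (laws M N) G := by
  have h1 : ∀ m, Hold G (lawOrig m) := fun m =>
    (hold_orig tot m).2 fun x y hx => Or.inl (com_sml com hx y).1
  refine sat_iff.2 ⟨h1 _, hold_rep tot, (hold_com tot).2 fun x y h => ?_,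
    (hold_bad tot _).2 fun x y _ hx => Or.inl (com_sml com hx y).1, fun _ _ => h1 _,
    fun a b o _ => (hold_horn tot _ _).2 fun x y hx =>
      Or.inl ⟨_, List.mem_cons_self, (com_sml com hx _).2⟩⟩
  rw [com x y] at h
  simp at h

theorem rep_of_sat {G : LGrp.{u}} (h : Sat (laws M N) G) : Representable G :=
  rep_of_hold (sat_iff.1 h).2.1

theorem sat_of_model (hN : ¬ Halts M N) {G : LGrp.{u}} (hG : Model (sig M N ver) G) :
    Sat (laws M N) G := by
  have h1 : ∀ c i, ∀ x t : G.carrier, 1 < x → Sml x (up x t) ∨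
      Bit x (up x (up x t) ^ wt M c i) (tr M N ver i c) := fun c i x t hx =>
    (hG.orig x t hx).imp_right fun ⟨n, hn, h⟩ => by
      have := h _ (wt_pos c i)
      rwa [sig_iff hn] at this
  have h2 : ∀ c i, tr M N ver i c → Hold G (lawOrig (wt M c i)) := fun c i h =>
    (hold_orig hG.tot _).2 fun x t hx => (h1 c i x t hx).imp_right fun h' => h'.1 h
  refine sat_iff.2 ⟨h2 _ _ ⟨0, rfl, rfl⟩, hold_rep hG.tot, (hold_com hG.tot).2 hG.comm,
    (hold_bad hG.tot _).2 fun x y z hx => ?_, fun i hi => h2 _ _ (hi N ver),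
    fun a b o ho => (hold_horn hG.tot _ _).2 fun x y hx => ?_⟩
  · rcases h1 0 (.inl 2) x y hx with h3 | h3
    · exact Or.inl h3
    rcases h1 0 (.inl 2) x z hx with h4 | h4
    · exact Or.inr (Or.inl h4)
    by_cases h : tr M N ver (.inl 2) 0
    · exact Or.inr (Or.inr (Or.inr (h4.1 h)))
    · exact Or.inr (Or.inr (Or.inl (h3.2 h)))
  · obtain ⟨n, n', h⟩ := hG.bits x y hx
    refine or_iff_not_imp_left.2 fun h3 => ?_
    have h4 : ∀ c i, wt M c i ∈ [wt M 0 (.inl 0), wt M 0 (.inl 1), wt M (dv M a.1) a.2,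
        wt M (dv M b.1) b.2] → sig M N ver (n * wt M c i) n' := fun c i hm =>
      not_not.1 fun e => h3 ⟨_, hm, (h _ (wt_pos c i)).2 e⟩
    obtain ⟨hn, c, rfl⟩ := garbage (h4 0 (.inl 0) (by simp)) (h4 0 (.inl 1) (by simp))
    have h5 : ∀ d i, sig M N ver (n' * pp M c * wt M d i) n' ↔ tr M N ver i (c + d) :=
      fun d i => by rw [mul_assoc, ← wt_add, sig_iff hn]
    obtain ⟨e, he, h6⟩ := ho N ver c hN ((h5 _ _).1 (h4 _ _ (by simp)))
      ((h5 _ _).1 (h4 _ _ (by simp)))
    exact ⟨_, List.mem_map_of_mem (Option.mem_toList.2 he), (h _ (wt_pos _ _)).1 ((h5 _ _).2 h6)⟩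

theorem not_amalg (hN : ¬ Halts M N) : ¬ IsAmalgBase.{u} (laws M N) intLGrp := by
  intro hA
  obtain ⟨B, hB⟩ := exists_model.{u} (sig M N True) fun _ h => h.1 rfl
  obtain ⟨C, hC⟩ := exists_model.{u} (sig M N False) fun _ h => h.1 rfl
  obtain ⟨x, t, hx, ht⟩ := hB.ex
  obtain ⟨x', t', hx', ht'⟩ := hC.ex
  obtain ⟨n, hn, h1⟩ := (hB.orig x t hx).resolve_left (not_sml hx ht)
  obtain ⟨n', hn', h2⟩ := (hC.orig x' t' hx').resolve_left (not_sml hx' ht')
  have h3 := (h1 _ (wt_pos (M := M) 0 (.inl 2))).1 ((sig_iff hn _ _).2 fun _ => trivial)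
  have h4 := (h2 _ (wt_pos (M := M) 0 (.inl 2))).2 fun h => (sig_iff hn' _ _).1 h rfl
  obtain ⟨D, h, k, hD, hh, hk, e⟩ := hA.amal (sat_of_model hN hB) (sat_of_model hN hC) hx hx'
  obtain ⟨H, f, tot, hH, hf, hfx⟩ := chain_quot hD (rep_of_sat hD) (hh.ne_one hx.ne')
  have h5 := hf.comp hh.1
  have h6 := hf.comp hk.1
  have h7 : 1 < f (h x) := (h5.one_le hx.le).lt_of_ne' hfx
  have h8 := map_big h5 ht
  have h9 := map_big h6 ht'
  have h10 := map_big h5 h3
  have h11 := map_sml h6 h4
  simp only [map_cj h5, map_cj h6, h5.map_pow, h6.map_pow, map_up h5, map_up h6, ← e]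
    at h8 h9 h10 h11
  rcases (hold_bad tot _).1 (sat_iff.1 hH).2.2.2.1 _ (f (h t)) (f (k t')) h7 with h | h | h | h
  exacts [not_sml h7 h8 h, not_sml h7 h9 h, not_sml h7 h10 h, not_sml h7 h h11]

/-- The register used in a state. -/
def rg (q : P) : Fin M.K := ⟨_, M.reg_lt q⟩

/-- Registers of a configuration. -/
def res (s : ℕ → ℕ) : Ps M := fun r => s r

omit [Finite P] in
theorem res_update (s : ℕ → ℕ) (r : Fin M.K) (v : ℕ) :
    res (M := M) (update s r v) = update (res s) r v := by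
  funext r'
  simp [res, update_apply, Fin.val_inj]

omit [Finite P] in
theorem tr_step {q : P} {c : Ps M} (h : tr M N ver (.inr (.inr q)) c) :
    tr M N ver (.inr (.inr (M.nxt q (M.dec q && decide (c (rg q) = 0)))))
      (update c (rg q) (if M.dec q then c (rg q) - 1
        else if M.inc q then c (rg q) + 1 else c (rg q))) := by
  obtain ⟨k, rfl, rfl⟩ := h
  refine ⟨k + 1, by rw [MM.cfg_succ]; rfl, ?_⟩
  rw [MM.cfg_succ]
  exact res_update _ (rg _) _

theorem com_of_halts (hN : Halts M N) {G : LGrp.{u}} (tot : Tot G) (hG : Sat (laws M N) G) :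
    Com G := by
  obtain ⟨h1, -, h2, -, h3, h4⟩ := sat_iff.1 hG
  suffices key : ∀ x t : G.carrier, 1 < x → Sml x (up x t) by
    have h5 : ∀ x y : G.carrier, x * y * x⁻¹ * y⁻¹ ≤ 1 := fun x y => tot.le_of_not_lt fun h =>
      ((hold_com tot).1 h2 x y h).elim (fun e => not_sml h e (key _ _ h))
        fun e => not_sml h e (key _ _ h)
    have h6 : ∀ x y : G.carrier, x * y ≤ y * x := fun x y => by
      have := h5 x y
      rwa [mul_inv_le_one_iff_le, mul_inv_le_iff_le_mul] at this
    exact fun x y => le_antisymm (h6 x y) (h6 y x)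
  intro x t hx
  by_contra ht
  let On : Fl M → Ps M → Prop := fun i c => Big x (cj x (up x (up x t) ^ wt M c i))
  have o1 : ∀ c i, Hold G (lawOrig (wt M c i)) → On i c := fun c i h =>
    ((hold_orig tot _).1 h x t hx).resolve_left ht
  have o2 : ∀ a b o c, Sound M a b o → On (.inl 0) c → On (.inl 1) c → On a.2 (c + dv M a.1) →
      On b.2 (c + dv M b.1) → ∃ e ∈ o, On e.2 (c + dv M e.1) := by
    intro a b o c hs e1 e2 e3 e4
    have e5 : ∀ d i, (up x (up x t) ^ pp M c) ^ wt M d i = up x (up x t) ^ wt M (c + d) i :=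
      fun d i => by rw [← pow_mul, wt_add]
    rcases (hold_horn tot _ _).1 (h4 a b o hs) x (up x (up x t) ^ pp M c) hx with
      ⟨m, hm, h⟩ | ⟨m, hm, h⟩
    · simp only [List.mem_cons, List.not_mem_nil, or_false] at hm
      rcases hm with rfl | rfl | rfl | rfl <;> rw [e5] at h
      · exact absurd (add_zero c ▸ h) (not_sml hx e1)
      · exact absurd (add_zero c ▸ h) (not_sml hx e2)
      · exact absurd h (not_sml hx e3)
      · exact absurd h (not_sml hx e4)
    · obtain ⟨e, he, rfl⟩ := List.mem_map.1 hm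
      exact ⟨e, Option.mem_toList.1 he, by rwa [e5] at h⟩
  have o3 : ∀ n, ∀ c : Ps M, ∑ r, c r = n → ∀ i,
      (i = .inl 0 ∨ i = .inl 1 ∨ ∃ r, i = .inr (.inl r) ∧ c r = 0) → On i c := by
    intro n
    induction n with
    | zero =>
      intro c hc i hi
      obtain rfl : c = 0 := funext fun r => Finset.sum_eq_zero_iff.1 hc r (Finset.mem_univ _)
      refine o1 _ _ (h3 i fun N ver => ?_)
      rcases hi with rfl | rfl | ⟨r, rfl, -⟩ <;> simp [tr]
    | succ n ih =>
      intro c hc i hi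
      obtain ⟨r, -, hr⟩ := Finset.exists_ne_zero_of_sum_ne_zero (hc.trans_ne (Nat.succ_ne_zero n))
      obtain ⟨c, rfl⟩ : ∃ d : Ps M, c = d + Pi.single r 1 := ⟨c - Pi.single r 1, funext fun r' => by
        by_cases e : r' = r
        · subst e; simp only [Pi.add_apply, Pi.sub_apply, Pi.single_eq_same]; omega
        · simp [e]⟩
      have hc' : ∑ r, c r = n := by simpa only [Pi.add_apply, Finset.sum_add_distrib, Finset.sum_pi_single', Finset.mem_univ, ↓ reduceIte, Nat.add_right_cancel_iff] using hc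
      have h5 : On i (c + dv M none) := by
        refine ih _ (by simpa only [dv, Option.elim_none, Pi.add_apply, Pi.zero_apply, add_zero] using hc') i (hi.imp_right (Or.imp_right ?_))
        rintro ⟨r', e1, e2⟩
        exact ⟨r', e1, by simpa [dv] using (Nat.add_eq_zero_iff.1 e2).1⟩
      obtain ⟨e, he, h6⟩ := o2 (none, i) (none, i) (some (some r, i)) c (fun N ver d _ h _ => by
        refine ⟨_, rfl, ?_⟩
        rcases hi with rfl | rfl | ⟨r', rfl, e⟩
        · simp [tr]
        · simp [tr]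
        · simpa [tr, dv, (Nat.add_eq_zero_iff.1 e).2] using h)
        (ih c hc' _ (Or.inl rfl)) (ih c hc' _ (Or.inr (Or.inl rfl))) h5 h5
      obtain rfl := Option.some.inj he
      exact h6
  have o4 : ∀ a b o c, Sound M a b o → On a.2 (c + dv M a.1) → On b.2 (c + dv M b.1) →
      ∃ e ∈ o, On e.2 (c + dv M e.1) := fun a b o c hs =>
    o2 a b o c hs (o3 _ c rfl _ (Or.inl rfl)) (o3 _ c rfl _ (Or.inr (Or.inl rfl)))
  have o5 : ∀ a b e c, Sound M a b (some e) → On a.2 (c + dv M a.1) → On b.2 (c + dv M b.1) →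
      On e.2 (c + dv M e.1) := fun a b e c hs e1 e2 => by
    obtain ⟨_, he, h⟩ := o4 a b _ c hs e1 e2
    obtain rfl := Option.some.inj he
    exact h
  have z : ∀ c : Ps M, c + dv M none = c := fun c => add_zero c
  have o6 : ∀ k, On (.inr (.inr (M.cfg N k).1)) (res (M.cfg N k).2) := by
    intro k
    induction k with
    | zero => exact o1 _ _ h1
    | succ k ih =>
      rw [MM.cfg_succ]
      generalize M.cfg N k = p at ih
      obtain ⟨q, s⟩ := p
      have e0 : s (M.reg q) = res (M := M) s (rg q) := rfl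
      have e1 : res (M := M) (M.step (q, s)).2 = update (res s) (rg q) _ := res_update s (rg q) _
      rw [e1]
      simp only [MM.step, MM.zf, e0] at ih ⊢
      generalize res (M := M) s = c at ih
      have u1 : ∀ c : Ps M, c + dv M (some (rg q)) = update c (rg q) (c (rg q) + 1) :=
        fun c => funext fun r' => by
          by_cases e : r' = rg q
          · subst e; simp [dv]
          · simp [dv, e]
      have u2 : ∀ c : Ps M, c (rg q) = 0 → update c (rg q) 0 = c := fun c e => by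
        rw [← e, update_eq_self]
      cases hd : M.dec q
      · cases hi : M.inc q
        · have := o5 (none, .inr (.inr q)) (none, .inr (.inr q))
            (none, .inr (.inr (M.nxt q false))) c (fun N ver d _ h _ =>
              ⟨_, rfl, by simpa [hd, hi, -Pi.add_apply] using tr_step h⟩) (z c ▸ ih) (z c ▸ ih)
          simpa [z] using this
        · have := o5 (none, .inr (.inr q)) (none, .inr (.inr q))
            (some (rg q), .inr (.inr (M.nxt q false))) c (fun N ver d _ h _ =>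
              ⟨_, rfl, by simpa [hd, hi, z, u1, -Pi.add_apply] using tr_step h⟩) (z c ▸ ih) (z c ▸ ih)
          simpa [u1] using this
      · by_cases e : c (rg q) = 0
        · have := o5 (none, .inr (.inr q)) (none, .inr (.inl (rg q)))
            (none, .inr (.inr (M.nxt q true))) c (fun N ver d _ h h' => ⟨_, rfl, by
              have h'' : (d + dv M none) (rg q) = 0 := h'
              simpa [hd, h'', u2 _ h'', -Pi.add_apply] using tr_step h⟩) (z c ▸ ih)
            (o3 _ _ rfl _ (Or.inr (Or.inr ⟨rg q, rfl, by rwa [z]⟩)))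
          simpa [z, e, u2 c e] using this
        · obtain ⟨d, rfl⟩ : ∃ d : Ps M, c = d + dv M (some (rg q)) :=
            ⟨update c (rg q) (c (rg q) - 1), by
              rw [u1]; simp [Nat.sub_add_cancel (Nat.pos_of_ne_zero e)]⟩
          have := o5 (some (rg q), .inr (.inr q)) (some (rg q), .inr (.inr q))
            (none, .inr (.inr (M.nxt q false))) d (fun N ver d _ h _ =>
              ⟨_, rfl, by simpa [hd, z, u1, -Pi.add_apply] using tr_step h⟩) ih ih
          simpa only [u1, update_self, Nat.add_eq_zero_iff, one_ne_zero, and_false, decide_false, Bool.and_false, ↓ reduceIte, add_tsub_cancel_right, update_idem, update_eq_self, z] using this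
  obtain ⟨k, hk⟩ := hN
  obtain ⟨e, he, -⟩ := o4 (none, .inr (.inr (M.cfg N k).1)) (none, .inr (.inr (M.cfg N k).1)) none
    (res (M.cfg N k).2) (fun N ver d h ⟨j, e, _⟩ _ => absurd ⟨j, e ▸ hk⟩ h)
    (by rw [z]; exact o6 k) (by rw [z]; exact o6 k)
  simp at he

theorem amalg_iff : IsAmalgBase.{u} (laws M N) intLGrp ↔ Halts M N :=
  ⟨fun h => not_not.1 fun hN => not_amalg hN h, fun hN => amalgBase (fun _ => rep_of_sat)
    (fun _ tot => ⟨com_of_halts hN tot, sat_of_com tot⟩)
    (sat_of_com (le_total (α := Multiplicative ℤ)) (mul_comm (G := Multiplicative ℤ)))⟩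

/-- The numbers of the terms form a primitive recursive sequence. -/
def PR (f : ℕ → Term) : Prop := Primrec fun n => (f n).code

theorem PR.const (t : Term) : PR fun _ => t := Primrec.const _

theorem PR.mul {f g : ℕ → Term} (hf : PR f) (hg : PR g) : PR fun n => .mul (f n) (g n) :=
  Primrec₂.natPair.comp (Primrec.const 2) (Primrec₂.natPair.comp hf hg)

theorem PR.inv {f : ℕ → Term} (hf : PR f) : PR fun n => .inv (f n) :=
  Primrec₂.natPair.comp (Primrec.const 3) hf

theorem PR.sup {f g : ℕ → Term} (hf : PR f) (hg : PR g) : PR fun n => .sup (f n) (g n) :=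
  Primrec₂.natPair.comp (Primrec.const 4) (Primrec₂.natPair.comp hf hg)

theorem PR.inf {f g : ℕ → Term} (hf : PR f) (hg : PR g) : PR fun n => .inf (f n) (g n) :=
  Primrec₂.natPair.comp (Primrec.const 5) (Primrec₂.natPair.comp hf hg)

theorem PR.tpow (t : Term) : PR (tpow t) := by
  refine (Primrec.nat_rec₁ (f := fun _ c => Nat.pair 2 (Nat.pair c t.code)) Term.one.code
    (Primrec₂.natPair.comp (Primrec.const 2)
      (Primrec₂.natPair.comp Primrec.snd (Primrec.const _)))).of_eq fun n => ?_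
  induction n with
  | zero => rfl
  | succ n ih => exact congrArg (fun c => Nat.pair 2 (Nat.pair c t.code)) ih

theorem pr_orig : PR fun m => (lawOrig m).1 := by
  have h1 := PR.tpow (oT (.var 1))
  have h0 := PR.const (.var 0)
  have h2 := ((h1.mul h0).mul h1.inv).sup ((h1.inv.mul h0).mul h1)
  exact (PR.const _).inf (((((PR.const _).mul ((h2.inv.mul h0).mul h2).inv)).sup
    (PR.const _)).inf (PR.const _))

theorem undecidable : ¬ ∃ f : List (ℕ × ℕ) →. Bool, Partrec f ∧ ∀ L : List (Term × Term),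
    (∀ G : LGrp.{u}, Sat {p | p ∈ L} G → Representable G) →
      ∃ b ∈ f (L.map fun p => (p.1.code, p.2.code)),
        (b = true ↔ IsAmalgBase.{u} {p | p ∈ L} intLGrp) := by
  rintro ⟨f, hf, h⟩
  obtain ⟨P, _, M, S, hS, hM⟩ := exists_mm0
  obtain ⟨L₀, hL⟩ : ∃ L : List (Term × Term), ∀ p, p ∈ L ↔ p ∈ S₀ M :=
    ⟨(finite_S₀ (M := M)).toFinset.toList, fun p => by simp⟩
  let L := fun N => lawOrig (pp M 1 ^ N * wt M 0 (.inr (.inr M.start))) :: L₀
  have e : ∀ N, {p | p ∈ L N} = laws M N := fun N => by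
    ext p
    simp [L, laws, hL]
  have h1 : Primrec fun N => (L N).map fun p => (p.1.code, p.2.code) :=
    Primrec.list_cons.comp ((Primrec.comp pr_orig (Primrec.nat_mul.comp
      ((Primrec₂.unpaired'.1 Nat.Primrec.pow).comp (Primrec.const _) Primrec.id)
      (Primrec.const _))).pair (Primrec.const Term.one.code)) (Primrec.const _)
  choose b h2 h3 using fun N => h (L N) fun G hG => rep_of_sat (e N ▸ hG)
  refine hS (ComputablePred.computable_iff.2 ⟨b, (hf.comp h1.to_comp).of_eq_tot h2, ?_⟩)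
  funext N
  rw [h3, e, amalg_iff, ← hM]
  rfl

end Pool.Agent.MP_a2e0a9_al.H1

end
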