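import Mathlib
import Pool.Agent.MP_a2e0a9_al.Mg.Ext

attribute [-instance] MonTypeEquivalenceMon.monMonoid Finite.of_subsingleton RKHS.instFunLike
  CommGroup.toDivisionCommMonoid NormedDivisionRing.toDivisionRing NormedField.toField
  GeneralizedCoheytingAlgebra.toLattice IdemSemiring.toSemiring NonUnitalRing.toNonUnitalNonAssocRing
  Unique.fintype NormedRing.toRing MulZeroOneClass.toMulZeroClass SemilinearMapClass.toAddHomClass
  Field.toCommRing instCoeHTCTOfCoeTailOfCoeHTC NormedCommRing.toCommRing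
  AlgHom.instNonUnitalAlgHomClassOfAlgHomClass instCoeHTCOfCoeHeadOfCoeOTC
  mulRightReflectLE_of_mulLeftReflectLE Order.Coframe.toCompleteLattice
  ContinuousSemilinearMapClass.toSemilinearMapClass EuclideanDomain.toCommRing
  CompletelyDistribLattice.toCompleteLattice NonAssocCommSemiring.toNonAssocSemiring
  LieAdmissibleRing.toNonUnitalNonAssocRing NonUnitalNonAssocCommSemiring.toNonUnitalNonAssocSemiring
  SeminormedRing.toRing OmegaCompletePartialOrder.toPartialOrder UniformSpace.toTopologicalSpace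
  CategoryTheory.FinCategory.fintypeObj BooleanRing.toRing
  ConditionallyCompleteLinearOrderBot.toConditionallyCompleteLinearOrder
  GeneralizedHeytingAlgebra.toLattice Order.Frame.toCompleteLattice
  NonUnitalSeminormedCommRing.toNonUnitalCommRing SeminormedCommRing.toCommRing
  TestFunctionClass.toDFunLike NonUnitalNormedCommRing.toNonUnitalCommRing
  OrderTop.instIsDirectedOrder instNonUnitalAlgHomClassOfNonUnitalAlgEquivClass
  AddCommGroupWithOne.toAddGroupWithOne decidableEq_of_subsingleton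
  GeneralizedHeytingAlgebra.toDistribLattice MonoidWithZero.toMulZeroOneClass
  ConditionallyCompletePartialOrderInf.toPartialOrder AlgHomClass.toRingHomClass
  ESeminormedAddMonoid.toAddMonoid ContinuousMonoidHom.instCoeOutOfMonoidHomClassOfContinuousMapClass
  Semifield.toCommGroupWithZero ChainCompletePartialOrder.toPartialOrder instCoeTCOfCoe
  CompleteSemilatticeSup.toPartialOrder CompleteSemilatticeInf.toPartialOrder
  NonAssocCommRing.toNonUnitalNonAssocCommRing Field.toDivisionRing IdemCommSemiring.toCommSemiring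
  NonAssocRing.toNonAssocSemiring GrpTypeEquivalenceGrp.grpGroup FinEnum.instFintype
  GroupWithZero.toDivInvMonoid BooleanRing.toCommRing SemigroupWithZero.toMulZeroClass
  Nontrivial.to_nonempty AddQuantale.instAddRightMono instCoeOutOfCoeFun Field.isDomain
  SemilinearIsometryClass.toSemilinearMapClass LinearOrderedCommGroupWithZero.toCommGroupWithZero
  LinearOrderedAddCommGroupWithTop.toAddCommMonoid BialgHomClass.toMonoidHomClass
  FunLike.toDecidableEq CompleteAtomicBooleanAlgebra.toCompleteBooleanAlgebra Invertible.toNeZero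
  FirstOrder.Language.instDecidableEqRelations GeneralizedCoheytingAlgebra.toDistribLattice
  List.instDecidableMemOfLawfulBEq SetLike.instFinite ZSMul.ofSMul
  GeneralizedBooleanAlgebra.toDistribLattice contravariant_swap_mul_of_contravariant_mul
  Semifield.toCommSemiring NonUnitalNonAssocSemiring.toMulZeroClass IsDomain.of_isSimpleRing
  instCoeTOfCoeDep DivisionRing.toDivInvMonoid ConditionallyCompleteLattice.toLattice CommRing.toRing
  MulRingSeminormClass.toMonoidWithZeroHomClass MonoidWithZero.toMonoid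
  CompleteLinearOrder.toCompleteLattice LeftPreLieRing.toNonUnitalNonAssocRing instIsDomain
  LinearOrderedCommMonoidWithZero.toIsBotZeroClass NSMul.ofSMul instFiniteProp
  NonUnitalRing.toNonUnitalSemiring instCharZeroOfIsSemireal instConditionallyCompletePartialOrderSup
  LinearOrderedAddCommMonoidWithTop.toAddCommMonoid NonUnitalNonAssocSemiring.toAddCommMonoid
  NonUnitalAlgHomClass.instSemilinearMapClassOfNonUnitalAlgSemiHomClassToMonoidHomRingHom
  FinEnum.decEq SetLike.instFintype RightPreLieRing.toNonUnitalNonAssocRing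
  CommGroupWithZero.toGroupWithZero
  ContinuousAddMonoidHom.instCoeOutOfAddMonoidHomClassOfContinuousMapClass
  CompleteLinearOrder.toLinearOrder NonUnitalNormedRing.toNormedAddCommGroup
  Order.Coframe.toDistribLattice CommSemiring.toNonUnitalCommSemiring
  LinearOrderedCommMonoidWithZero.toPosMulStrictMono BooleanAlgebra.toDistribLattice
  FirstOrder.Language.instDecidableEqFunctions AlgHomClass.linearMapClass
  SubsemiringClass.toCommSemiring NonUnitalAlgHomClass.instLinearMapClass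
  IsStrictOrderedRing.noZeroDivisors Option.decidableForallMem ContDiffMapSupportedInClass.toDFunLike
  Finset.decidableDforallFinset LinearOrderedCommMonoidWithZero.toLinearOrder
  CompleteLattice.toConditionallyCompleteLattice IsometryClass.instCoeOutIsometryEquiv
  RingEquivClass.toRingHomClass CompleteLattice.toLattice Multiset.decidableDforallMultiset
  Vector.instDecidableExistsAndMemOfDecidablePred Order.Frame.toDistribLattice
  RightCancelMonoid.toMonoid CommGrpTypeEquivalenceCommGrp.commGrpCommGroup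
  ConditionallyCompleteLinearOrder.toLinearOrder CoalgHomClass.toSemilinearMapClass
  RingHomClass.toLinearMapClassRat DivisionMonoid.toDivInvMonoid

-- part MP_a2e0a9_al.H74.MN
section

/-! Malcev–Neumann series with rational coefficients over a bi-ordered group. -/

namespace Pool.Agent.MP_a2e0a9_al.H74

open Function
open scoped Pointwise

/-- Functions with well ordered support. -/
def MNs (H : Type) [LinearOrder H] : AddSubgroup (H → ℚ) where
  carrier := {f | (support f).IsPWO}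
  zero_mem' := by simp
  add_mem' {f g} hf hg := (Set.IsPWO.union hf hg).mono (support_add f g)
  neg_mem' {f} hf := by
    have : support (-f) = support f := by ext; simp
    show (support (-f)).IsPWO
    rw [this]; exact hf

/-- Malcev–Neumann series. -/
def MN (H : Type) [LinearOrder H] : Type := ↥(MNs H)

namespace MN

section Add
variable {H : Type} [LinearOrder H]

instance : AddCommGroup (MN H) := inferInstanceAs (AddCommGroup ↥(MNs H))

/-- Coefficients. -/
def co (x : MN H) : H → ℚ := x.1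

theorem pwo (x : MN H) : (support x.co).IsPWO := x.2

theorem ext {x y : MN H} (h : ∀ a, x.co a = y.co a) : x = y := Subtype.ext (funext h)

/-- Series from a function. -/
def mk (f : H → ℚ) (h : (support f).IsPWO) : MN H := ⟨f, h⟩

@[simp] theorem co_mk (f : H → ℚ) (h : (support f).IsPWO) : (mk f h).co = f := rfl
@[simp] theorem co_zero (a : H) : (0 : MN H).co a = 0 := rfl
@[simp] theorem co_add (x y : MN H) (a : H) : (x + y).co a = x.co a + y.co a := rfl
@[simp] theorem co_neg (x : MN H) (a : H) : (-x).co a = -x.co a := rfl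
@[simp] theorem co_sub (x y : MN H) (a : H) : (x - y).co a = x.co a - y.co a := rfl

/-- Coefficient as an additive map. -/
def coH (a : H) : MN H →+ ℚ := AddMonoidHom.mk' (fun x => x.co a) fun _ _ => rfl

theorem co_sum {ι : Type*} (s : Finset ι) (f : ι → MN H) (a : H) :
    (∑ i ∈ s, f i).co a = ∑ i ∈ s, (f i).co a := map_sum (coH a) f s

theorem co_zsmul (n : ℤ) (x : MN H) (a : H) : (n • x).co a = n * x.co a := by
  have := map_zsmul (coH a) n x
  simpa only [coH, AddMonoidHom.mk'_apply, zsmul_eq_mul] using this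

open Classical in
/-- A monomial. -/
noncomputable def sg (a : H) (q : ℚ) : MN H :=
  mk (fun b => if b = a then q else 0)
    ((Set.isPWO_singleton a).mono fun b hb => by by_contra h; exact hb (if_neg h))

open Classical in
theorem co_sg (a b : H) (q : ℚ) : (sg a q).co b = if b = a then q else 0 := rfl

/-- `a` is the least element of the support. -/
def Lead (x : MN H) (a : H) : Prop := x.co a ≠ 0 ∧ ∀ b < a, x.co b = 0

theorem exists_lead {x : MN H} (h : x ≠ 0) : ∃ a, Lead x a := by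
  have hn : (support x.co).Nonempty := by
    by_contra hn
    exact h (ext fun a => by by_contra ha; exact hn ⟨a, ha⟩)
  refine ⟨x.pwo.isWF.min hn, x.pwo.isWF.min_mem hn, fun b hb => ?_⟩
  by_contra hb'
  exact x.pwo.isWF.not_lt_min hn hb' hb

theorem Lead.le {x : MN H} {a b : H} (h : Lead x a) (hb : x.co b ≠ 0) : a ≤ b :=
  not_lt.1 fun hl => hb (h.2 b hl)

theorem Lead.unique {x : MN H} {a b : H} (h : Lead x a) (h' : Lead x b) : a = b :=
  le_antisymm (h.le h'.1) (h'.le h.1)

theorem Lead.ne_zero {x : MN H} {a : H} (h : Lead x a) : x ≠ 0 := fun h0 => h.1 (by simp [h0])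

/-- Positive leading coefficient. -/
def Pos (x : MN H) : Prop := ∃ a, 0 < x.co a ∧ ∀ b < a, x.co b = 0

theorem Pos.ne_zero {x : MN H} (h : Pos x) : x ≠ 0 := by
  obtain ⟨a, h1, _⟩ := h
  rintro rfl; simp at h1

theorem Pos.co_nonneg {x : MN H} (h : Pos x) {a : H} (ha : ∀ b < a, x.co b = 0) : 0 ≤ x.co a := by
  obtain ⟨c, h1, h2⟩ := h
  rcases lt_trichotomy a c with h | rfl | h
  · exact (h2 a h).ge
  · exact h1.le
  · exact absurd (ha c h) h1.ne'

theorem Pos.add {x y : MN H} (hx : Pos x) (hy : Pos y) : Pos (x + y) := by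
  obtain ⟨a, h1, h2⟩ := hx
  obtain ⟨b, h3, h4⟩ := hy
  rcases lt_trichotomy a b with h | rfl | h
  · exact ⟨a, by simp [h4 a h, h1], fun c hc => by simp [h2 c hc, h4 c (hc.trans h)]⟩
  · exact ⟨a, by simp only [co_add]; linarith, fun c hc => by simp [h2 c hc, h4 c hc]⟩
  · exact ⟨b, by simp [h2 b h, h3], fun c hc => by simp [h4 c hc, h2 c (hc.trans h)]⟩

theorem pos_or_neg {x : MN H} (h : x ≠ 0) : Pos x ∨ Pos (-x) := by
  obtain ⟨a, h1, h2⟩ := exists_lead h
  rcases lt_or_gt_of_ne h1 with h | h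
  · exact Or.inr ⟨a, by simpa using h, fun b hb => by simp [h2 b hb]⟩
  · exact Or.inl ⟨a, h, h2⟩

/-- If `-m ≤ x ≤ m` then `x` vanishes below the leading exponent of `m`. -/
theorem dom {m x : MN H} {a : H} (ha : ∀ b < a, m.co b = 0) (h1 : m - x = 0 ∨ Pos (m - x))
    (h2 : m + x = 0 ∨ Pos (m + x)) : (∀ b < a, x.co b = 0) ∧ |x.co a| ≤ m.co a := by
  have key : ∀ c ≤ a, (∀ b < c, x.co b = 0) → |x.co c| ≤ m.co c := by
    intro c hc h
    have e1 : 0 ≤ (m - x).co c := by
      rcases h1 with h1 | h1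
      · simp [h1]
      · exact h1.co_nonneg fun b hb => by simp [h b hb, ha b (hb.trans_le hc)]
    have e2 : 0 ≤ (m + x).co c := by
      rcases h2 with h2 | h2
      · simp [h2]
      · exact h2.co_nonneg fun b hb => by simp [h b hb, ha b (hb.trans_le hc)]
    simp only [co_sub, co_add] at e1 e2
    exact abs_le.2 ⟨by linarith, by linarith⟩
  have h0 : ∀ b < a, x.co b = 0 := by
    by_cases hx : x = 0
    · simp [hx]
    obtain ⟨c, h3, h4⟩ := exists_lead hx
    intro b hb
    by_contra hb'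
    have hcb : c ≤ b := Lead.le ⟨h3, h4⟩ hb'
    have := key c (hcb.trans hb.le) h4
    rw [ha c (hcb.trans_lt hb)] at this
    exact h3 (abs_nonpos_iff.1 this)
  exact ⟨h0, key a le_rfl h0⟩

end Add

variable {H : Type} [Group H] [LinearOrder H] [MulLeftMono H] [MulRightMono H]

instance ocs : IsOrderedCancelSMul H H where
  smul_le_smul_left _ _ h c := mul_le_mul_right h c
  smul_le_smul_right _ _ h c := mul_le_mul_left h c
  le_of_smul_le_smul_left _ _ _ h := le_of_mul_le_mul_left' h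
  le_of_smul_le_smul_right _ _ _ h := le_of_mul_le_mul_right' h

theorem finAD {s t : Set H} (hs : s.IsPWO) (ht : t.IsPWO) (a : H) :
    {b | b ∈ s ∧ b⁻¹ * a ∈ t}.Finite := by
  refine ((Set.SMulAntidiagonal.finite_of_isPWO hs ht a).image Prod.fst).subset ?_
  rintro b ⟨h1, h2⟩
  exact ⟨(b, b⁻¹ * a), ⟨h1, h2, by simp⟩, rfl⟩

theorem fin_mul (x y : MN H) (a : H) :
    (support fun b => x.co b * y.co (b⁻¹ * a)).Finite :=
  (finAD x.pwo y.pwo a).subset fun _ hb => ⟨left_ne_zero_of_mul hb, right_ne_zero_of_mul hb⟩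

omit [LinearOrder H] [MulLeftMono H] [MulRightMono H] in
theorem exists_of_conv {f g : H → ℚ} {a : H} (h : ∑ᶠ b, f b * g (b⁻¹ * a) ≠ 0) :
    ∃ b c, f b ≠ 0 ∧ g c ≠ 0 ∧ b * c = a := by
  by_contra hn
  apply h
  refine finsum_eq_zero_of_forall_eq_zero fun b => ?_
  by_contra hb
  exact hn ⟨b, _, left_ne_zero_of_mul hb, right_ne_zero_of_mul hb, by simp⟩

noncomputable instance : Mul (MN H) where
  mul x y := mk (fun a => ∑ᶠ b, x.co b * y.co (b⁻¹ * a))
    ((x.pwo.smul y.pwo).mono fun a ha => by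
      obtain ⟨b, c, h1, h2, rfl⟩ := exists_of_conv ha
      exact ⟨b, h1, c, h2, rfl⟩)

theorem co_mul (x y : MN H) (a : H) : (x * y).co a = ∑ᶠ b, x.co b * y.co (b⁻¹ * a) := rfl

theorem supp_mul {x y : MN H} {a : H} (h : (x * y).co a ≠ 0) :
    ∃ b c, x.co b ≠ 0 ∧ y.co c ≠ 0 ∧ b * c = a := exists_of_conv h

theorem co_sg_mul (g : H) (q : ℚ) (x : MN H) (a : H) :
    (sg g q * x).co a = q * x.co (g⁻¹ * a) := by
  rw [co_mul, finsum_eq_single _ g fun b hb => by simp [co_sg, hb]]
  simp [co_sg]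

theorem co_mul_sg (g : H) (q : ℚ) (x : MN H) (a : H) :
    (x * sg g q).co a = x.co (a * g⁻¹) * q := by
  rw [co_mul, finsum_eq_single _ (a * g⁻¹) fun b hb => by
    rw [co_sg, if_neg, mul_zero]
    rintro rfl; exact hb (by simp)]
  simp [co_sg]

theorem mul_assoc' (x y z : MN H) : x * y * z = x * (y * z) := by
  refine ext fun a => ?_
  have hF : (support fun p : H × H => x.co p.2 * y.co (p.2⁻¹ * p.1) * z.co (p.1⁻¹ * a)).Finite := by
    refine ((finAD (x.pwo.smul y.pwo) z.pwo a).biUnion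
      fun c _ => (finAD x.pwo y.pwo c).image fun b => (c, b)).subset ?_
    rintro ⟨c, b⟩ h
    have h1 := left_ne_zero_of_mul (left_ne_zero_of_mul h)
    have h2 := right_ne_zero_of_mul (left_ne_zero_of_mul h)
    have h3 := right_ne_zero_of_mul h
    simp only [Set.mem_iUnion]
    exact ⟨c, ⟨⟨b, h1, _, h2, by simp⟩, h3⟩, b, ⟨h1, h2⟩, rfl⟩
  have hF' : (support fun p : H × H => x.co p.1 * y.co (p.1⁻¹ * p.2) * z.co (p.2⁻¹ * a)).Finite := by
    refine (hF.image Prod.swap).subset ?_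
    rintro ⟨b, c⟩ h
    exact ⟨(c, b), h, rfl⟩
  simp only [co_mul]
  calc ∑ᶠ c, (∑ᶠ b, x.co b * y.co (b⁻¹ * c)) * z.co (c⁻¹ * a)
      = ∑ᶠ c, ∑ᶠ b, x.co b * y.co (b⁻¹ * c) * z.co (c⁻¹ * a) :=
        finsum_congr fun c => finsum_mul' _ _ (fin_mul x y c)
    _ = ∑ᶠ p : H × H, x.co p.2 * y.co (p.2⁻¹ * p.1) * z.co (p.1⁻¹ * a) :=
        (finsum_curry _ hF).symm
    _ = ∑ᶠ p : H × H, x.co p.1 * y.co (p.1⁻¹ * p.2) * z.co (p.2⁻¹ * a) :=
        (finsum_comp_equiv (Equiv.prodComm H H)).symm.trans rfl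
    _ = ∑ᶠ b, ∑ᶠ c, x.co b * y.co (b⁻¹ * c) * z.co (c⁻¹ * a) := finsum_curry _ hF'
    _ = _ := finsum_congr fun b => by
        rw [mul_finsum' _ _ (fin_mul y z _), ← finsum_comp_equiv (Equiv.mulLeft b)]
        exact finsum_congr fun c => by simp only [Equiv.coe_mulLeft, inv_mul_cancel_left, mul_inv_rev, mul_assoc]

noncomputable instance : Ring (MN H) :=
  { (inferInstance : AddCommGroup (MN H)) with
    mul := (· * ·)
    one := sg 1 1
    left_distrib := fun x y z => ext fun a => by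
      simp only [co_add, co_mul, mul_add]
      exact finsum_add_distrib (fin_mul x y a) (fin_mul x z a)
    right_distrib := fun x y z => ext fun a => by
      simp only [co_add, co_mul, add_mul]
      exact finsum_add_distrib (fin_mul x z a) (fin_mul y z a)
    zero_mul := fun x => ext fun a => by simp [co_mul]
    mul_zero := fun x => ext fun a => by simp [co_mul]
    mul_assoc := mul_assoc'
    one_mul := fun x => ext fun a => (co_sg_mul 1 1 x a).trans (by simp)
    mul_one := fun x => ext fun a => (co_mul_sg 1 1 x a).trans (by simp) }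

theorem one_def : (1 : MN H) = sg 1 1 := rfl

theorem sg_mul_sg (a b : H) (p q : ℚ) :
    sg a p * sg b q = sg (a * b) (p * q) := by
  refine ext fun c => ?_
  simp only [co_sg_mul, co_sg, inv_mul_eq_iff_eq_mul]
  split_ifs <;> simp

theorem co_mul_lead {x y : MN H} {a b : H} (hx : ∀ c < a, x.co c = 0) (hy : ∀ c < b, y.co c = 0) :
    (x * y).co (a * b) = x.co a * y.co b ∧ ∀ c < a * b, (x * y).co c = 0 := by
  constructor
  · rw [co_mul, finsum_eq_single _ a fun c hc => ?_]
    · simp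
    rcases lt_or_gt_of_ne hc with h | h
    · simp [hx c h]
    · rw [hy, mul_zero]
      rw [inv_mul_lt_iff_lt_mul]; exact mul_lt_mul_left h b
  · intro c hc
    by_contra h
    obtain ⟨d, e, h1, h2, rfl⟩ := supp_mul h
    exact hc.not_ge (mul_le_mul' (not_lt.1 fun h => h1 (hx d h)) (not_lt.1 fun h => h2 (hy e h)))

theorem Pos.mul {x y : MN H} (hx : Pos x) (hy : Pos y) : Pos (x * y) := by
  obtain ⟨a, h1, h2⟩ := hx
  obtain ⟨b, h3, h4⟩ := hy
  obtain ⟨h5, h6⟩ := co_mul_lead h2 h4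
  exact ⟨a * b, h5 ▸ mul_pos h1 h3, h6⟩

theorem pos_sg (a : H) {q : ℚ} (hq : 0 < q) : Pos (sg a q) :=
  ⟨a, by simpa [co_sg] using hq, fun b hb => by simp [co_sg, hb.ne]⟩

theorem pwo_closure {s : Set H} (hpos : ∀ x ∈ s, 1 ≤ x) (h : s.IsPWO) :
    Set.IsPWO (Submonoid.closure s : Set H) := by
  rw [Submonoid.closure_eq_image_prod]
  refine (h.partiallyWellOrderedOn_sublistForall₂ (· ≤ ·)).image_of_monotone_on ?_
  exact fun l1 _ l2 hl2 h12 => h12.prod_le_prod' fun x hx => hpos x <| hl2 x hx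

theorem exists_geom (e : MN H) (he : ∀ b, e.co b ≠ 0 → 1 < b) : ∃ z, (1 - e) * z = 1 := by
  classical
  set S : Submonoid H := Submonoid.closure (support e.co) with hS
  have hp : Set.IsPWO (S : Set H) := pwo_closure (fun x hx => (he x hx).le) e.pwo
  have hw : WellFounded fun a b : H => a < b ∧ a ∈ (S : Set H) ∧ b ∈ (S : Set H) :=
    Set.wellFoundedOn_iff.1 hp.isWF
  let F : (a : H) → ((b : H) → (b < a ∧ b ∈ (S : Set H) ∧ a ∈ (S : Set H)) → ℚ) → ℚ :=
    fun a r => if a ∈ S then (if a = 1 then 1 else 0) + ∑ᶠ b, e.co b *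
      (if h : b⁻¹ * a < a ∧ b⁻¹ * a ∈ (S : Set H) ∧ a ∈ (S : Set H) then r _ h else 0) else 0
  let z : H → ℚ := hw.fix F
  have hz : ∀ a, z a = F a fun b _ => z b := fun a => hw.fix_eq F a
  have hsup : ∀ a, z a ≠ 0 → a ∈ S := fun a ha => by
    by_contra h
    exact ha (by rw [hz]; simp only [F, if_neg h])
  refine ⟨mk z (hp.mono hsup), ext fun a => ?_⟩
  rw [sub_mul, one_mul, co_sub, co_mul, one_def, co_sg]
  simp only [co_mk]
  by_cases ha : a ∈ S
  · rw [hz a]
    simp only [F, if_pos ha]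
    rw [add_sub_assoc, finsum_congr (g := fun b => e.co b * z (b⁻¹ * a)) fun b => ?_]
    · simp
    by_cases hb : e.co b = 0
    · simp only [hb, mul_lt_iff_lt_one_right', Left.inv_lt_one_iff, SetLike.mem_coe, dite_eq_ite, mul_ite, zero_mul, mul_zero, ite_self]
    split_ifs with h
    · rfl
    · have : z (b⁻¹ * a) = 0 := by
        by_contra h'
        exact h ⟨by simpa only [mul_lt_iff_lt_one_right', Left.inv_lt_one_iff] using he b hb, hsup _ h', ha⟩
      rw [this]
  · have h1 : a ≠ 1 := fun h => ha (h ▸ S.one_mem)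
    have h2 : z a = 0 := by by_contra h; exact ha (hsup a h)
    have h3 : ∑ᶠ b, e.co b * z (b⁻¹ * a) = 0 := by
      by_contra h
      obtain ⟨b, c, h4, h5, rfl⟩ := exists_of_conv h
      exact ha (S.mul_mem (Submonoid.subset_closure h4) (hsup c h5))
    rw [h2, h3, if_neg h1, sub_zero]

theorem exists_rinv {x : MN H} (hx : x ≠ 0) : ∃ y, x * y = 1 := by
  obtain ⟨a, h1, h2⟩ := exists_lead hx
  obtain ⟨z, hz⟩ := exists_geom (1 - sg a⁻¹ (x.co a)⁻¹ * x) fun b hb => by
    rw [co_sub, co_sg_mul, one_def, co_sg, inv_inv] at hb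
    rcases lt_trichotomy b 1 with h | rfl | h
    · exact absurd (by rw [if_neg h.ne, h2 (a * b) (by simpa using h)]; simp) hb
    · exact absurd (by simp [h1]) hb
    · exact h
  rw [sub_sub_cancel] at hz
  refine ⟨z * sg a⁻¹ (x.co a)⁻¹, ?_⟩
  have e1 : sg a (x.co a) * sg a⁻¹ (x.co a)⁻¹ = 1 := by
    rw [sg_mul_sg]; simp [h1, one_def]
  calc x * (z * sg a⁻¹ (x.co a)⁻¹)
      = sg a (x.co a) * (sg a⁻¹ (x.co a)⁻¹ * x * z) * sg a⁻¹ (x.co a)⁻¹ := by
        rw [← mul_assoc, ← mul_assoc, ← mul_assoc, e1, one_mul]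
    _ = 1 := by rw [hz, mul_one, e1]

instance : Nontrivial (MN H) :=
  ⟨⟨1, 0, (pos_sg (1 : H) one_pos).ne_zero⟩⟩

noncomputable instance : DivisionRing (MN H) :=
  DivisionRing.ofIsUnitOrEqZero fun x => by
    by_cases hx : x = 0
    · exact Or.inr hx
    obtain ⟨y, hy⟩ := exists_rinv hx
    obtain ⟨w, hw⟩ := exists_rinv (x := y) (by rintro rfl; simp at hy)
    have : x = w := by rw [← mul_one x, ← hw, ← mul_assoc, hy, one_mul]
    exact Or.inl ⟨⟨x, y, hy, this ▸ hw⟩, rfl⟩

theorem Pos.inv {x : MN H} (hx : Pos x) : Pos x⁻¹ := by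
  rcases pos_or_neg (inv_ne_zero hx.ne_zero) with h | h
  · exact h
  · have := (hx.mul h).add (pos_sg (1 : H) one_pos)
    rw [mul_neg, mul_inv_cancel₀ hx.ne_zero, ← one_def, neg_add_cancel] at this
    exact absurd rfl this.ne_zero

section Map
variable {H' : Type} [Group H'] [LinearOrder H'] [MulLeftMono H'] [MulRightMono H']

/-- Extension of the exponent group. -/
noncomputable def mapF (f : H →* H') (hf : StrictMono f) (x : MN H) : MN H' :=
  mk (extend f x.co 0) ((x.pwo.image_of_monotone hf.monotone).mono fun b hb => by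
    by_cases h : ∃ a, f a = b
    · obtain ⟨a, rfl⟩ := h
      exact ⟨a, by rwa [mem_support, hf.injective.extend_apply] at hb, rfl⟩
    · exact absurd (extend_apply' _ _ _ h) hb)

omit [MulLeftMono H] [MulRightMono H] [MulLeftMono H'] [MulRightMono H'] in
theorem co_mapF (f : H →* H') (hf : StrictMono f) (x : MN H) (a : H) :
    (mapF f hf x).co (f a) = x.co a := hf.injective.extend_apply _ _ _

omit [MulLeftMono H] [MulRightMono H] [MulLeftMono H'] [MulRightMono H'] in
theorem supp_mapF {f : H →* H'} {hf : StrictMono f} {x : MN H} {b : H'}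
    (h : (mapF f hf x).co b ≠ 0) : ∃ a, x.co a ≠ 0 ∧ f a = b := by
  by_cases h' : ∃ a, f a = b
  · obtain ⟨a, rfl⟩ := h'
    exact ⟨a, by rwa [co_mapF] at h, rfl⟩
  · exact absurd (extend_apply' _ _ _ h') h

omit [MulLeftMono H] [MulRightMono H] [MulLeftMono H'] [MulRightMono H'] in
theorem eq_mapF {f : H →* H'} {hf : StrictMono f} {x : MN H} {y : MN H'}
    (h1 : ∀ a, y.co (f a) = x.co a) (h2 : ∀ b, y.co b ≠ 0 → ∃ a, f a = b) : mapF f hf x = y := by
  refine ext fun b => ?_
  by_cases h' : ∃ a, f a = b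
  · obtain ⟨a, rfl⟩ := h'
    rw [co_mapF, h1]
  · have : y.co b = 0 := by by_contra h; exact h' (h2 b h)
    rw [this]; exact extend_apply' _ _ _ h'

omit [MulLeftMono H] [MulRightMono H] [MulLeftMono H'] [MulRightMono H'] in
theorem mapF_sg (f : H →* H') (hf : StrictMono f) (a : H) (q : ℚ) :
    mapF f hf (sg a q) = sg (f a) q :=
  eq_mapF (fun b => by simp [co_sg, hf.injective.eq_iff]) fun b hb => by
    by_contra h
    exact hb (by rw [co_sg, if_neg fun hb => h ⟨a, hb.symm⟩])

/-- Extension of the exponent group as a ring homomorphism. -/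
noncomputable def map (f : H →* H') (hf : StrictMono f) : MN H →+* MN H' where
  toFun := mapF f hf
  map_zero' := eq_mapF (fun _ => rfl) fun _ h => absurd rfl h
  map_one' := by rw [one_def, mapF_sg, map_one, one_def]
  map_add' x y := eq_mapF (fun a => by simp [co_mapF]) fun b h => by
    by_contra h'
    apply h
    have h1 : ∀ z : MN H, (mapF f hf z).co b = 0 := fun z => extend_apply' _ _ _ h'
    simp [h1]
  map_mul' x y := eq_mapF (fun a => by
      rw [co_mul, co_mul, ← finsum_mem_inter_support_eq' (s := Set.range f) (t := Set.univ) _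
        (fun b hb => ?_) |>.trans (finsum_mem_univ _), finsum_mem_range hf.injective]
      · exact finsum_congr fun b => by rw [← map_inv, ← map_mul, co_mapF, co_mapF]
      · obtain ⟨c, _, rfl⟩ := supp_mapF (left_ne_zero_of_mul hb)
        simp) fun b h => by
    obtain ⟨c, d, h1, h2, rfl⟩ := supp_mul h
    obtain ⟨c, _, rfl⟩ := supp_mapF h1
    obtain ⟨d, _, rfl⟩ := supp_mapF h2
    exact ⟨c * d, map_mul f c d⟩

theorem map_sg (f : H →* H') (hf : StrictMono f) (a : H) (q : ℚ) :
    map f hf (sg a q) = sg (f a) q := mapF_sg f hf a q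

theorem supp_map {f : H →* H'} {hf : StrictMono f} {x : MN H} {b : H'}
    (h : (map f hf x).co b ≠ 0) : ∃ a, x.co a ≠ 0 ∧ f a = b := supp_mapF (hf := hf) h

theorem Pos.map {x : MN H} (hx : Pos x) (f : H →* H') (hf : StrictMono f) :
    Pos (map f hf x) := by
  obtain ⟨a, h1, h2⟩ := hx
  refine ⟨f a, (co_mapF f hf x a).symm ▸ h1, fun b hb => ?_⟩
  by_contra h
  obtain ⟨c, h3, rfl⟩ := supp_map h
  exact h3 (h2 c (hf.lt_iff_lt.1 hb))

end Map

end MN

end Pool.Agent.MP_a2e0a9_al.H74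

end

-- part MP_a2e0a9_al.H74.Row
section

/-! Bounded generalised inverses over Malcev–Neumann series. -/

namespace Pool.Agent.MP_a2e0a9_al.H74

open Function MN Matrix

theorem exists_rinv_matrix {K : Type} [DivisionRing K] {κ ι : Type} [Fintype κ] [Fintype ι]
    [DecidableEq κ] (r : Matrix κ ι K) (h : LinearIndependent K fun i => r i) :
    ∃ B : Matrix ι κ K, r * B = 1 := by
  classical
  obtain ⟨L, hL⟩ := LinearMap.exists_leftInverse_of_injective (Fintype.linearCombination K fun i => r i)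
    (LinearMap.ker_eq_bot.2 h.fintypeLinearCombination_injective)
  refine ⟨fun j k => L (Pi.single j 1) k, ?_⟩
  ext i k
  have e1 : L (r i) = Pi.single i 1 := by
    have := LinearMap.congr_fun hL (Pi.single i 1)
    simpa using this
  have e2 : r i = ∑ j, r i j • (Pi.single j 1 : ι → K) := by
    ext j; simp only [Finset.sum_apply, Pi.smul_apply, Pi.single_apply, smul_eq_mul, mul_ite, mul_one, mul_zero, Finset.sum_ite_eq, Finset.mem_univ, ↓ reduceIte]
  rw [e2, map_sum] at e1
  have := congrFun e1 k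
  simp only [map_smul, Finset.sum_apply, Pi.smul_apply, smul_eq_mul] at this
  rw [Matrix.mul_apply, this, Matrix.one_apply, Pi.single_apply]
  simp [eq_comm]

variable {H : Type} [Group H] [LinearOrder H] [MulLeftMono H] [MulRightMono H]

/-- The support lies in `p`. -/
def Sup (p : H → Prop) (x : MN H) : Prop := ∀ h, x.co h ≠ 0 → p h

section
variable {p q : H → Prop} {x y : MN H}

theorem Sup.zero : Sup p (0 : MN H) := fun _ h => absurd rfl h
theorem Sup.mono (h : Sup p x) (hpq : ∀ a, p a → q a) : Sup q x := fun a ha => hpq a (h a ha)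
theorem Sup.sub (hx : Sup p x) (hy : Sup p y) : Sup p (x - y) := fun a ha => by
  by_contra h
  exact ha (by rw [co_sub, not_not.1 (mt (hx a) h), not_not.1 (mt (hy a) h), sub_zero])
theorem Sup.neg (hx : Sup p x) : Sup p (-x) := fun a ha => hx a (by simpa using ha)
theorem Sup.add (hx : Sup p x) (hy : Sup p y) : Sup p (x + y) := by
  simpa using hx.sub hy.neg
theorem Sup.sum {ι : Type} (s : Finset ι) {f : ι → MN H} (h : ∀ i ∈ s, Sup p (f i)) :
    Sup p (∑ i ∈ s, f i) :=
  Finset.sum_induction f (Sup p) (fun _ _ => Sup.add) Sup.zero h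
theorem Sup.sg {a : H} (ha : p a) (c : ℚ) : Sup p (sg a c) := fun b hb => by
  by_cases h : b = a
  · exact h ▸ ha
  · exact absurd (by rw [co_sg, if_neg h]) hb
end

theorem Sup.mul {p q r : H → Prop} {x y : MN H} (hx : Sup p x) (hy : Sup q y)
    (h : ∀ a b, p a → q b → r (a * b)) : Sup r (x * y) := fun a ha => by
  obtain ⟨b, c, h1, h2, rfl⟩ := supp_mul ha
  exact h b c (hx b h1) (hy c h2)

/-- The part of degree zero. -/
noncomputable def pz (φ : H → ℤ) : MN H →+ MN H :=
  AddMonoidHom.mk' (fun x => mk (fun h => if φ h = 0 then x.co h else 0)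
    (x.pwo.mono fun h hh h0 => hh (by simp [h0]))) fun x y => MN.ext fun a => by
      simp only [co_mk, co_add]; split_ifs <;> simp

theorem co_pz (φ : H → ℤ) (x : MN H) (a : H) : (pz φ x).co a = if φ a = 0 then x.co a else 0 := rfl

variable {φ : H → ℤ}

theorem sup_pz (x : MN H) : Sup (φ · = 0) (pz φ x) := fun a ha => by
  by_contra h; exact ha (by rw [co_pz, if_neg h])

theorem sup_sub_pz {x : MN H} (hx : Sup (0 ≤ φ ·) x) : Sup (1 ≤ φ ·) (x - pz φ x) := fun a ha => by
  rw [co_sub, co_pz] at ha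
  split_ifs at ha with h
  · simp at ha
  · have := hx a (by simpa using ha)
    omega

omit [LinearOrder H] [MulLeftMono H] [MulRightMono H] in
theorem phi_one (hφ : ∀ a b, φ (a * b) = φ a + φ b) : φ 1 = 0 := by
  have := hφ 1 1; rw [mul_one] at this; omega

omit [LinearOrder H] [MulLeftMono H] [MulRightMono H] in
theorem phi_inv (hφ : ∀ a b, φ (a * b) = φ a + φ b) (a : H) : φ a⁻¹ = -φ a := by
  have := hφ a a⁻¹; rw [mul_inv_cancel, phi_one hφ] at this; omega

theorem pz_mul (hφ : ∀ a b, φ (a * b) = φ a + φ b) (x : MN H) {y : MN H} (hy : Sup (φ · = 0) y) :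
    pz φ (x * y) = pz φ x * y := MN.ext fun a => by
  have key : ∀ b, (pz φ x).co b * y.co (b⁻¹ * a) =
      if φ a = 0 then x.co b * y.co (b⁻¹ * a) else 0 := fun b => by
    by_cases h : y.co (b⁻¹ * a) = 0
    · simp [h]
    · have := hy _ h
      simp only [hφ, phi_inv hφ] at this
      rw [co_pz, show φ b = φ a by omega]
      split_ifs <;> simp
  rw [co_pz, co_mul, co_mul, finsum_congr key]
  split_ifs <;> simp

theorem mul_pz (hφ : ∀ a b, φ (a * b) = φ a + φ b) {x : MN H} (hx : Sup (φ · = 0) x) (y : MN H) :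
    pz φ (x * y) = x * pz φ y := MN.ext fun a => by
  have key : ∀ b, x.co b * (pz φ y).co (b⁻¹ * a) =
      if φ a = 0 then x.co b * y.co (b⁻¹ * a) else 0 := fun b => by
    by_cases h : x.co b = 0
    · simp [h]
    · have := hx _ h
      rw [co_pz, show φ (b⁻¹ * a) = φ a by rw [hφ, phi_inv hφ]; omega]
      split_ifs <;> simp
  rw [co_pz, co_mul, co_mul, finsum_congr key]
  split_ifs <;> simp

theorem boot (hm : Monotone φ) {κ : Type} [Finite κ] (x : κ → MN H) (a : ℤ)
    (h : ∀ b < a, (∀ i, Sup (b ≤ φ ·) (x i)) → ∀ i, Sup (b + 1 ≤ φ ·) (x i)) :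
    ∀ i, Sup (a ≤ φ ·) (x i) := by
  have h0 : ∀ i, ∃ b : ℤ, Sup (b ≤ φ ·) (x i) := fun i => by
    by_cases hx : x i = 0
    · exact ⟨0, hx ▸ Sup.zero⟩
    · obtain ⟨c, hc⟩ := exists_lead hx
      exact ⟨φ c, fun d hd => hm (hc.le hd)⟩
  choose b hb using h0
  obtain ⟨b0, hb0⟩ := (Set.finite_range b).bddBelow
  have h1 : ∀ n : ℕ, b0 + n ≤ a → ∀ i, Sup (b0 + n ≤ φ ·) (x i) := by
    intro n
    induction n with
    | zero => exact fun _ i => (hb i).mono fun c hc => by
                have := hb0 ⟨i, rfl⟩; simp only [Nat.cast_zero]; omega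
    | succ n ih =>
      intro hn i
      exact (h _ (by push_cast at hn; omega) (ih (by push_cast at hn; omega)) i).mono
        fun c hc => by push_cast; omega
  intro i
  by_cases ha : b0 ≤ a
  · exact (h1 (a - b0).toNat (by omega) i).mono fun c hc => by omega
  · exact (h1 0 · i) |> fun _ => (hb i).mono fun c hc => by have := hb0 ⟨i, rfl⟩; omega

theorem row_base (hφ : ∀ a b, φ (a * b) = φ a + φ b) (hm : Monotone φ) {κ ι : Type} [Fintype κ]
    [Fintype ι] (r : Matrix κ ι (MN H)) (h0 : ∀ i j, Sup (0 ≤ φ ·) (r i j))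
    (hB : ∀ c : κ → MN H, (∀ i, Sup (φ · = 0) (c i)) → (∀ j, ∑ i, c i * pz φ (r i j) = 0) →
      ∀ i, c i = 0) (a : ℤ) (t : κ → MN H) (ht : ∀ i, Sup (a ≤ φ ·) (t i)) :
    ∃ z : ι → MN H, (∀ j, Sup (a ≤ φ ·) (z j)) ∧ r *ᵥ z = t := by
  classical
  let l : Matrix κ ι (MN H) := Matrix.of fun i j => pz φ (r i j)
  have hl : LinearIndependent (MN H) fun i => l i := by
    refine Fintype.linearIndependent_iff.2 fun g hg i => ?_
    refine MN.ext fun h => ?_
    have := hB (fun i => pz φ (sg h⁻¹ 1 * g i)) (fun i => sup_pz _) (fun j => by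
      have e := congrFun hg j
      simp only [Finset.sum_apply, Pi.smul_apply, smul_eq_mul, Pi.zero_apply, l, of_apply] at e
      rw [Finset.sum_congr rfl fun i _ => (pz_mul hφ _ (sup_pz (r i j))).symm]
      simp only [mul_assoc]
      rw [← map_sum, ← Finset.mul_sum, e, mul_zero, map_zero]) i
    have := congrArg (fun x => x.co 1) this
    simpa only [co_zero, co_pz, phi_one hφ, ↓ reduceIte, co_sg_mul, inv_inv, mul_one, one_mul] using this
  obtain ⟨B', hB'⟩ := exists_rinv_matrix l hl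
  let B : Matrix ι κ (MN H) := Matrix.of fun j k => pz φ (B' j k)
  have h1 : Sup (φ · = 0) (1 : MN H) := Sup.sg (p := (φ · = 0)) (phi_one hφ) 1
  have hlB : l * B = 1 := by
    ext i k
    have e := congrArg (pz φ) (congrFun (congrFun hB' i) k)
    rw [Matrix.mul_apply, map_sum] at e
    rw [Matrix.mul_apply, Finset.sum_congr rfl fun j _ =>
      show l i j * B j k = pz φ (l i j * B' j k) from (mul_pz hφ (sup_pz (r i j)) _).symm, e,
      Matrix.one_apply]
    split_ifs
    · refine MN.ext fun a => ?_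
      rw [co_pz]; split_ifs with h
      · rfl
      · by_contra h'; exact h (h1 a (Ne.symm h'))
    · exact map_zero _
  let E : Matrix κ κ (MN H) := (r - l) * B
  have hE : ∀ i k, Sup (1 ≤ φ ·) (E i k) := fun i k =>
    Sup.sum _ fun j _ => (sup_sub_pz (h0 i j)).mul (sup_pz _) fun a b h1 h2 => by rw [hφ]; omega
  have hM : r * B = 1 + E := by simp only [E, Matrix.sub_mul, hlB]; abel
  have hi : LinearIndependent (MN H) fun i => (r * B) i := by
    refine Fintype.linearIndependent_iff.2 fun g hg i => MN.ext fun h => ?_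
    have e : ∀ k, g k = -∑ i, g i * E i k := fun k => by
      have e := congrFun hg k
      simp only [hM, Finset.sum_apply, Pi.smul_apply, smul_eq_mul, Pi.zero_apply,
        Matrix.add_apply, mul_add, Finset.sum_add_distrib, Matrix.one_apply, mul_ite, mul_one,
        mul_zero, Finset.sum_ite_eq', Finset.mem_univ, if_true] at e
      exact eq_neg_of_add_eq_zero_left e
    by_contra hh
    have := boot hm g (φ h + 1) (fun b _ hb k => by
      rw [e k]
      exact (Sup.sum _ fun i _ => (hb i).mul (hE i k) fun a b h1 h2 => by rw [hφ]; omega).neg) i h hh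
    omega
  obtain ⟨C, hC⟩ := exists_rinv_matrix _ hi
  have hu : (r * B) *ᵥ (C *ᵥ t) = t := by rw [mulVec_mulVec, hC, one_mulVec]
  have hu' : ∀ i, Sup (a ≤ φ ·) ((C *ᵥ t) i) := boot hm _ a fun b hb h i => by
    have e : (C *ᵥ t) i = t i - ∑ k, E i k * (C *ᵥ t) k := by
      have := congrFun hu i
      rw [hM, add_mulVec, one_mulVec, Pi.add_apply] at this
      exact eq_sub_of_add_eq this
    rw [e]
    exact Sup.sub ((ht i).mono fun c hc => by omega)
      (Sup.sum _ fun k _ => (hE i k).mul (h k) fun a b h1 h2 => by rw [hφ]; omega)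
  refine ⟨B *ᵥ (C *ᵥ t), fun j => ?_, by rw [mulVec_mulVec, hu]⟩
  exact Sup.sum _ fun k _ => (sup_pz _).mul (hu' k) fun a b h1 h2 => by rw [hφ]; omega

theorem row (hφ : ∀ a b, φ (a * b) = φ a + φ b) (hm : Monotone φ) {κ ι : Type} [Fintype κ]
    [Fintype ι] (W : ℕ) : ∀ (r : Matrix κ ι (MN H)) (w : κ → ℕ), ∑ i, w i = W →
    LinearIndependent (MN H) (fun i => r i) → (∀ i j, Sup (fun h => 0 ≤ φ h ∧ φ h ≤ w i) (r i j)) →
    ∀ (a : ℤ) (t : κ → MN H), (∀ i, Sup (a ≤ φ ·) (t i)) →
    ∃ z : ι → MN H, (∀ j, Sup (a - W ≤ φ ·) (z j)) ∧ r *ᵥ z = t := by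
  classical
  induction W using Nat.strong_induction_on with
  | _ W ih =>
  intro r w hW hr h0 a t ht
  by_cases hB : ∀ c : κ → MN H, (∀ i, Sup (φ · = 0) (c i)) →
      (∀ j, ∑ i, c i * pz φ (r i j) = 0) → ∀ i, c i = 0
  · obtain ⟨z, h1, h2⟩ := row_base hφ hm r (fun i j => (h0 i j).mono fun _ h => h.1) hB a t ht
    exact ⟨z, fun j => (h1 j).mono fun c hc => by omega, h2⟩
  push Not at hB
  obtain ⟨c, hc0, hc1, i1, hi1⟩ := hB
  obtain ⟨i0, hi0, hmax⟩ := Finset.exists_max_image (Finset.univ.filter fun i => c i ≠ 0) w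
    ⟨i1, by simpa only [ne_eq, Finset.mem_filter, Finset.mem_univ, true_and] using hi1⟩
  simp only [Finset.mem_filter, Finset.mem_univ, true_and] at hi0 hmax
  let r' : ι → MN H := fun j => ∑ i, c i * r i j
  have hge : ∀ j, Sup (1 ≤ φ ·) (r' j) := fun j => by
    have : r' j = ∑ i, c i * (r i j - pz φ (r i j)) := by
      simp only [mul_sub, Finset.sum_sub_distrib, hc1 j, sub_zero, r']
    rw [this]
    exact Sup.sum _ fun i _ => (hc0 i).mul (sup_sub_pz ((h0 i j).mono fun _ h => h.1))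
      fun a b h1 h2 => by rw [hφ]; omega
  have hle : ∀ j, Sup (φ · ≤ w i0) (r' j) := fun j => Sup.sum _ fun i _ => by
    by_cases h : c i = 0
    · rw [h, zero_mul]; exact Sup.zero
    · have := hmax i h
      exact (hc0 i).mul (h0 i j) fun a b h1 h2 => by rw [hφ]; omega
  have hne : ∃ e : ℤ, ∃ j h, (r' j).co h ≠ 0 ∧ φ h = e := by
    by_contra hn
    refine hi0 (Fintype.linearIndependent_iff.1 hr c (funext fun j => MN.ext fun h => ?_) i0)
    by_contra hh
    refine hn ⟨_, j, h, ?_, rfl⟩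
    simpa only [r', ne_eq, Finset.sum_apply, Pi.smul_apply, smul_eq_mul, Pi.zero_apply, co_zero] using hh
  obtain ⟨e, ⟨j0, h, hh, he⟩, hmin⟩ := Int.exists_least_of_bdd
    (P := fun e => ∃ j h, (r' j).co h ≠ 0 ∧ φ h = e)
    ⟨1, by rintro _ ⟨j, h, h1, rfl⟩; exact hge j h h1⟩ hne
  have he1 : 1 ≤ e := he ▸ hge j0 h hh
  have he2 : e ≤ w i0 := he ▸ hle j0 h hh
  have hs : Sup (φ · = -e) (sg h⁻¹ (1 : ℚ)) :=
    Sup.sg (p := (φ · = -e)) (by rw [phi_inv hφ, he]) 1
  have hs0 : (sg h⁻¹ (1 : ℚ)) ≠ 0 := (pos_sg _ one_pos).ne_zero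
  have hsum : ∑ i, update w i0 (w i0 - e.toNat) i = W - e.toNat := by
    rw [Finset.sum_update_of_mem (Finset.mem_univ _), ← hW,
      ← Finset.add_sum_erase _ _ (Finset.mem_univ i0), Finset.sdiff_singleton_eq_erase]
    omega
  have hW' : e.toNat ≤ W := by
    have := Finset.single_le_sum (f := w) (fun _ _ => Nat.zero_le _) (Finset.mem_univ i0)
    omega
  let r2 : Matrix κ ι (MN H) := Matrix.of fun i j => if i = i0 then sg h⁻¹ 1 * r' j else r i j
  obtain ⟨z, hz1, hz2⟩ := ih (W - e.toNat) (by omega) r2 _ hsum (by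
      refine Fintype.linearIndependent_iff.2 fun g hg => ?_
      have key := Fintype.linearIndependent_iff.1 hr
        (fun i => (if i = i0 then 0 else g i) + g i0 * sg h⁻¹ 1 * c i) (funext fun j => by
          have e := congrFun hg j
          simp only [Finset.sum_apply, Pi.smul_apply, smul_eq_mul, Pi.zero_apply, r2,
            of_apply] at e ⊢
          refine Eq.trans ?_ e
          simp only [add_mul, Finset.sum_add_distrib, mul_assoc, ← Finset.mul_sum]
          rw [← Finset.add_sum_erase _ _ (Finset.mem_univ i0),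
            ← Finset.add_sum_erase _ (fun i => g i * _) (Finset.mem_univ i0)]
          simp only [if_true, zero_mul, zero_add]
          rw [add_comm]
          congr 1
          exact Finset.sum_congr rfl fun i hi => by simp [Finset.ne_of_mem_erase hi])
      have k0 : g i0 = 0 := by simpa [hi0, hs0] using key i0
      intro i
      by_cases hi : i = i0
      · exact hi ▸ k0
      · simpa [hi, k0] using key i)
    (fun i j => by
      by_cases hi : i = i0
      · subst hi
        simp only [r2, if_true, update_self, of_apply]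
        exact hs.mul (q := fun b => e ≤ φ b ∧ φ b ≤ w i)
          (fun b hb => ⟨hmin _ ⟨j, b, hb, rfl⟩, hle j b hb⟩) fun a b h1 h2 => by rw [hφ]; omega
      · simpa only [r2, of_apply, if_neg hi, update_of_ne hi] using h0 i j)
    (a - e) (fun i => if i = i0 then sg h⁻¹ 1 * ∑ i, c i * t i else t i) (fun i => by
      split_ifs
      · refine hs.mul (q := (a ≤ φ ·)) (Sup.sum _ fun i _ => (hc0 i).mul (ht i)
          fun a b h1 h2 => ?_) fun a b h1 h2 => ?_ <;> simp only [hφ] <;> omega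
      · exact (ht i).mono fun c hc => by omega)
  refine ⟨z, fun j => (hz1 j).mono fun c hc => by omega, ?_⟩
  have h1 : ∀ i, i ≠ i0 → (r *ᵥ z) i = t i := fun i hi => by
    have := congrFun hz2 i
    simpa only [mulVec, dotProduct, r2, of_apply, if_neg hi] using this
  funext i
  by_cases hi : i = i0
  swap
  · exact h1 i hi
  subst hi
  have h2 := congrFun hz2 i
  simp only [mulVec, dotProduct, r2, of_apply, if_true, mul_assoc, ← Finset.mul_sum] at h2
  have h3 : ∑ k, c k * (r *ᵥ z) k = ∑ k, c k * t k := by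
    rw [← mul_left_cancel₀ hs0 h2]
    simp only [mulVec, dotProduct, r', Finset.sum_mul, Finset.mul_sum, mul_assoc]
    exact Finset.sum_comm
  rw [← Finset.add_sum_erase _ _ (Finset.mem_univ i),
    ← Finset.add_sum_erase _ (fun k => c k * t k) (Finset.mem_univ i),
    Finset.sum_congr rfl (g := fun k => c k * t k) fun k hk => by
      rw [h1 k (Finset.ne_of_mem_erase hk)]] at h3
  exact mul_left_cancel₀ hi0 (add_right_cancel h3)

/-- Generalised inverse with a uniform lower bound for the degrees. -/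
theorem exists_ginv (hφ : ∀ a b, φ (a * b) = φ a + φ b) (hm : Monotone φ) {κ ι : Type} [Fintype κ]
    [Fintype ι] (P : Matrix κ ι (MN H)) (t : H) (ht : 0 ≤ φ t)
    (hP : ∀ i j, Sup (fun h => -φ t ≤ φ h ∧ φ h ≤ φ t) (P i j)) :
    ∃ G : Matrix ι κ (MN H), (∀ j i, Sup (-(2 * Fintype.card κ * φ t) ≤ φ ·) (G j i)) ∧
      P * G * P = P := by
  classical
  obtain ⟨κ', a, ha, hsp, hli⟩ := exists_linearIndependent' (MN H) fun i => P i
  haveI : Finite κ' := Finite.of_injective a ha
  haveI := Fintype.ofFinite κ'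
  have hs0 : (sg t (1 : ℚ)) ≠ 0 := (pos_sg _ one_pos).ne_zero
  have hs : Sup (φ · = φ t) (sg t (1 : ℚ)) := Sup.sg (p := (φ · = φ t)) rfl 1
  have hcard : Fintype.card κ' ≤ Fintype.card κ := Fintype.card_le_of_injective a ha
  have key := fun k : κ' => row hφ hm _ (Matrix.of fun i j => sg t 1 * P (a i) j)
    (fun _ => (2 * φ t).toNat) rfl (hli.units_smul fun _ => Units.mk0 _ hs0)
    (fun i j => hs.mul (hP (a i) j) fun a b h1 h2 => by rw [hφ]; omega) 0
    (Pi.single k (sg t 1)) fun i => by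
      rw [Pi.single_apply]; split_ifs
      · exact hs.mono fun c hc => by omega
      · exact Sup.zero
  choose z hz1 hz2 using key
  let Z : Matrix ι κ' (MN H) := Matrix.of fun j k => z k j
  let S : Matrix κ' κ (MN H) := Matrix.of fun k i => if a k = i then 1 else 0
  have hPZ : S * P * Z = 1 := by
    ext i k
    have := congrFun (hz2 k) i
    simp only [mulVec, dotProduct, of_apply, mul_assoc, ← Finset.mul_sum] at this
    apply mul_left_cancel₀ hs0
    rw [Matrix.mul_apply, Matrix.one_apply]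
    simp only [Matrix.mul_apply, S, Z, of_apply, ite_mul, one_mul, zero_mul, Finset.sum_ite_eq,
      Finset.mem_univ, if_true]
    rw [this, Pi.single_apply]
    split_ifs <;> simp
  have hA : ∀ i, ∃ α : κ' → MN H, ∑ k, α k • P (a k) = P i := fun i => by
    have : P i ∈ Submodule.span (MN H) (Set.range ((fun i => P i) ∘ a)) :=
      hsp ▸ Submodule.subset_span ⟨i, rfl⟩
    exact (Submodule.mem_span_range_iff_exists_fun _).1 this
  choose A hA using hA
  have hAP : Matrix.of A * (S * P) = P := by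
    ext i j
    rw [← hA i]
    simp only [S, Matrix.mul_apply, of_apply, ite_mul, one_mul, zero_mul, Finset.sum_ite_eq, Finset.mem_univ, ↓ reduceIte, Finset.sum_apply, Pi.smul_apply, smul_eq_mul]
  refine ⟨Z * S, fun j i => Sup.sum _ fun k _ => ?_, ?_⟩
  · simp only [S, Z, of_apply]
    split_ifs
    · rw [mul_one]
      refine (hz1 k j).mono fun c hc => le_trans ?_ hc
      simp only [Finset.sum_const, Finset.card_univ, smul_eq_mul, Nat.cast_mul]
      rw [Int.toNat_of_nonneg (by omega)]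
      have : (Fintype.card κ' : ℤ) ≤ Fintype.card κ := by exact_mod_cast hcard
      nlinarith only [ht, hcard]
    · rw [mul_zero]; exact Sup.zero
  · calc P * (Z * S) * P = Matrix.of A * (S * P) * (Z * S) * P := by rw [hAP]
      _ = Matrix.of A * ((S * P * Z) * (S * P)) := by simp only [Matrix.mul_assoc]
      _ = P := by rw [hPZ, Matrix.one_mul, hAP]

end Pool.Agent.MP_a2e0a9_al.H74

end

-- part MP_a2e0a9_al.H74.Tower
section

/-! Finite towers of Malcev–Neumann fields with a sign pattern. -/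

namespace Pool.Agent.MP_a2e0a9_al.H74

open Function MN

/-- Positive cone of a bi-invariant total order. -/
structure Cone (G : Type) [Group G] where
  P : G → Prop
  mul : ∀ a b, P a → P b → P (a * b)
  conj : ∀ g a, P a → P (g * a * g⁻¹)
  tri : ∀ a, a ≠ 1 → P a ∨ P a⁻¹
  irr : ¬ P 1

namespace Cone
variable {G : Type} [Group G] (c : Cone G)

/-- The order defined by a cone. -/
@[reducible] noncomputable def lin : LinearOrder G :=
  haveI : IsStrictTotalOrder G fun a b => c.P (a⁻¹ * b) :=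
    { trichotomous := fun a b h1 h2 => by
        by_contra h
        rcases c.tri (a⁻¹ * b) (fun h' => h (inv_mul_eq_one.1 h')) with h' | h'
        · exact h1 h'
        · exact h2 (by simpa using h')
      irrefl := fun a => by simpa using c.irr
      trans := fun a b d h1 h2 => by simpa using c.mul _ _ h1 h2 }
  open Classical in linearOrderOfSTO fun a b => c.P (a⁻¹ * b)

theorem ml : @MulLeftMono G _ c.lin.toLE := ⟨fun g a b h => by
  rcases h with h | h
  · exact Or.inl (by rw [h])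
  · exact Or.inr (by simpa using h)⟩

theorem mr : @MulRightMono G _ c.lin.toLE := ⟨fun g a b h => by
  rcases h with h | h
  · exact Or.inl (by rw [h])
  · exact Or.inr (by simpa only [mul_inv_rev, mul_assoc, inv_inv] using c.conj g⁻¹ _ h)⟩

end Cone

/-- Totally ordered group with finitely many convex normal levels. -/
structure LG where
  G : Type
  [grp : Group G]
  [lin : LinearOrder G]
  [ml : MulLeftMono G]
  [mr : MulRightMono G]
  ht : ℕ
  lv : G → ℕ
  lv_one : lv 1 = ht
  lv_lt : ∀ a, a ≠ 1 → lv a < ht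
  lv_inv : ∀ a, lv a⁻¹ = lv a
  lv_conj : ∀ g a, lv (g * a * g⁻¹) = lv a
  lv_mul : ∀ a b, min (lv a) (lv b) ≤ lv (a * b)
  lv_mono : ∀ a b, 1 ≤ a → a ≤ b → lv b ≤ lv a

attribute [instance] LG.grp LG.lin LG.ml LG.mr

theorem conj_pos {G : Type} [Group G] [LinearOrder G] [MulLeftMono G] [MulRightMono G] (g : G)
    {a : G} : 1 < g * a * g⁻¹ ↔ 1 < a := by
  rw [lt_mul_inv_iff_mul_lt, one_mul, lt_mul_iff_one_lt_right']

namespace LG
variable (X : LG)

theorem lv_le (a : X.G) : X.lv a ≤ X.ht := by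
  by_cases h : a = 1
  · rw [h, X.lv_one]
  · exact (X.lv_lt a h).le

theorem lv_mul_left {a b : X.G} (h : X.lv a < X.lv b) : X.lv (a * b) = X.lv a := by
  have h1 := X.lv_mul a b
  have h2 := X.lv_mul (a * b) b⁻¹
  rw [X.lv_inv, mul_inv_cancel_right] at h2
  omega

theorem pos_mul_left {a b : X.G} (h : X.lv a < X.lv b) (ha : 1 < a) : 1 < a * b := by
  by_contra hn
  have h1 : a ≤ b⁻¹ := by rw [le_inv_iff_mul_le_one_right]; exact not_lt.1 hn
  have := X.lv_mono a b⁻¹ ha.le h1
  rw [X.lv_inv] at this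
  omega

theorem lv_mul_pos {a b : X.G} (ha : 1 < a) (hb : 1 < b) (h : X.lv a = X.lv b) :
    X.lv (a * b) = X.lv a := by
  have h1 := X.lv_mul a b
  have h2 := X.lv_mono a (a * b) ha.le (le_mul_of_one_le_right' hb.le)
  omega

/-- Sign of `a` after reversing the levels selected by `e`. -/
def Q (e : ℕ → Bool) (a : X.G) : Prop := if e (X.lv a) then 1 < a⁻¹ else 1 < a

theorem Q_conj (e : ℕ → Bool) (g a : X.G) (h : X.Q e a) : X.Q e (g * a * g⁻¹) := by
  unfold Q at h ⊢
  rw [X.lv_conj]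
  split_ifs at h ⊢
  · simpa only [mul_assoc, mul_inv_rev, inv_inv] using (conj_pos g).2 h
  · exact (conj_pos g).2 h

theorem Q_mul_left (e : ℕ → Bool) {a b : X.G} (h : X.lv a < X.lv b) (ha : X.Q e a) :
    X.Q e (a * b) := by
  unfold Q at ha ⊢
  rw [X.lv_mul_left h]
  split_ifs at ha ⊢
  · have := X.pos_mul_left (a := a⁻¹) (b := b⁻¹) (by rwa [X.lv_inv, X.lv_inv]) ha
    simpa only [mul_inv_rev, lt_mul_inv_iff_mul_lt, one_mul, gt_iff_lt, mul_assoc, inv_inv, inv_mul_cancel_left, inv_mul_cancel, mul_one, mul_inv_cancel_left] using (conj_pos a).2 ((conj_pos (a⁻¹ * b⁻¹)).2 this)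
  · exact X.pos_mul_left h ha

/-- The twisted cone. -/
def twCone (e : ℕ → Bool) : Cone X.G where
  P := X.Q e
  conj := X.Q_conj e
  mul a b ha hb := by
    rcases lt_trichotomy (X.lv a) (X.lv b) with h | h | h
    · exact X.Q_mul_left e h ha
    · unfold Q at ha hb ⊢
      rw [← h] at hb
      split_ifs at ha hb with h'
      · have := X.lv_mul_pos hb ha (by rw [X.lv_inv, X.lv_inv, h])
        rw [← mul_inv_rev, X.lv_inv, X.lv_inv, ← h] at this
        rw [this, if_pos h', mul_inv_rev]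
        exact one_lt_mul'' hb ha
      · rw [X.lv_mul_pos ha hb h, if_neg h']
        exact one_lt_mul'' ha hb
    · simpa [mul_assoc] using X.Q_conj e a _ (X.Q_mul_left e h hb)
  tri a ha := by
    unfold Q
    rw [X.lv_inv, inv_inv]
    rcases lt_or_gt_of_ne ha with h | h <;> split_ifs <;> simp [h]
  irr := by unfold Q; split_ifs <;> simp

/-- The group with the twisted order. -/
def Tw (_e : ℕ → Bool) : Type := X.G

variable (e : ℕ → Bool)

instance : Group (X.Tw e) := inferInstanceAs (Group X.G)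
noncomputable instance : LinearOrder (X.Tw e) := (X.twCone e).lin
instance : MulLeftMono (X.Tw e) := (X.twCone e).ml
instance : MulRightMono (X.Tw e) := (X.twCone e).mr

/-- Identity map to the twisted group. -/
def tw : X.G ≃* X.Tw e := MulEquiv.refl X.G

theorem one_lt_tw (a : X.G) : 1 < X.tw e a ↔ X.Q e a := by
  show X.Q e ((1 : X.G)⁻¹ * a) ↔ _
  rw [inv_one, one_mul]

/-- Monomials. -/
noncomputable def σ : X.G →* MN (X.Tw e) where
  toFun h := sg (X.tw e h) 1
  map_one' := rfl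
  map_mul' a b := by rw [sg_mul_sg, map_mul, mul_one]

theorem σ_pos (h : X.G) : Pos (X.σ e h) := pos_sg _ one_pos

theorem σ_cancel (h : X.G) (y : MN (X.Tw e)) : X.σ e h * (X.σ e h⁻¹ * y) = y := by
  rw [← mul_assoc, ← map_mul, mul_inv_cancel, map_one, one_mul]

theorem co_σ_mul (h : X.G) (x : MN (X.Tw e)) (a : X.Tw e) :
    (X.σ e h * x).co a = x.co ((X.tw e h)⁻¹ * a) := (co_sg_mul _ _ _ _).trans (one_mul _)

/-- Semidirect product of the series field with the group. -/
@[ext] structure SD where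
  m : MN (X.Tw e)
  h : X.G

namespace SD
variable {X e}

noncomputable instance : Group (X.SD e) where
  mul x y := ⟨x.m + X.σ e x.h * y.m, x.h * y.h⟩
  one := ⟨0, 1⟩
  inv x := ⟨-(X.σ e x.h⁻¹ * x.m), x.h⁻¹⟩
  mul_assoc x y z := SD.ext (by
    show x.m + X.σ e x.h * y.m + X.σ e (x.h * y.h) * z.m =
      x.m + X.σ e x.h * (y.m + X.σ e y.h * z.m)
    rw [map_mul, mul_add, mul_assoc, add_assoc]) (mul_assoc _ _ _)
  one_mul x := SD.ext (by show 0 + X.σ e 1 * x.m = x.m; simp) (one_mul _)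
  mul_one x := SD.ext (by show x.m + X.σ e x.h * 0 = x.m; simp) (mul_one _)
  inv_mul_cancel x := SD.ext (neg_add_cancel _) (inv_mul_cancel _)

@[simp] theorem mul_m (x y : X.SD e) : (x * y).m = x.m + X.σ e x.h * y.m := rfl
@[simp] theorem mul_h (x y : X.SD e) : (x * y).h = x.h * y.h := rfl
@[simp] theorem one_m : (1 : X.SD e).m = 0 := rfl
@[simp] theorem one_h : (1 : X.SD e).h = 1 := rfl
@[simp] theorem inv_m (x : X.SD e) : x⁻¹.m = -(X.σ e x.h⁻¹ * x.m) := rfl
@[simp] theorem inv_h (x : X.SD e) : x⁻¹.h = x.h⁻¹ := rfl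

theorem conj_m (g : X.SD e) {x : X.SD e} (hx : x.h = 1) :
    (g * x * g⁻¹).m = X.σ e g.h * x.m := by
  rw [mul_m, mul_m, mul_h, inv_m, hx, mul_one, mul_neg, σ_cancel]
  abel

/-- Lexicographic cone. -/
def cone : Cone (X.SD e) where
  P x := 1 < x.h ∨ x.h = 1 ∧ Pos x.m
  mul x y hx hy := by
    rcases hx with hx | ⟨hx, hx'⟩ <;> rcases hy with hy | ⟨hy, hy'⟩
    · exact Or.inl (one_lt_mul'' hx hy)
    · exact Or.inl (by simpa [hy] using hx)
    · exact Or.inl (by simpa [hx] using hy)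
    · exact Or.inr ⟨by simp [hx, hy], hx'.add ((X.σ_pos e _).mul hy')⟩
  conj g x hx := by
    rcases hx with hx | ⟨hx, hx'⟩
    · exact Or.inl ((conj_pos g.h).2 hx)
    · exact Or.inr ⟨by simp only [mul_h, hx, mul_one, inv_h, mul_inv_cancel], conj_m g hx ▸ (X.σ_pos e _).mul hx'⟩
  tri x hx := by
    rcases lt_trichotomy x.h 1 with h | h | h
    · exact Or.inr (Or.inl (by simpa using h))
    · rcases pos_or_neg (x := x.m) (fun h' => hx (SD.ext h' h)) with h' | h'
      · exact Or.inl (Or.inr ⟨h, h'⟩)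
      · exact Or.inr (Or.inr ⟨by simp [h], by simpa [h] using h'⟩)
    · exact Or.inl (Or.inl h)
  irr := by
    rintro (h | h)
    · exact lt_irrefl _ h
    · exact h.2.ne_zero rfl

noncomputable instance : LinearOrder (X.SD e) := cone.lin
instance : MulLeftMono (X.SD e) := cone.ml
instance : MulRightMono (X.SD e) := cone.mr

theorem one_lt {x : X.SD e} : 1 < x ↔ 1 < x.h ∨ x.h = 1 ∧ Pos x.m := by
  show cone.P (1⁻¹ * x) ↔ _
  rw [inv_one, one_mul]; rfl

theorem lt_iff {x y : X.SD e} : x < y ↔ x.h < y.h ∨ x.h = y.h ∧ Pos (y.m - x.m) := by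
  rw [← lt_mul_inv_iff_lt (a := y), one_lt]
  simp only [mul_h, inv_h, lt_mul_inv_iff_lt, mul_inv_eq_one, eq_comm (a := y.h)]
  refine or_congr_right (and_congr_right fun h => ?_)
  rw [mul_m, inv_m, ← h, mul_neg, σ_cancel, sub_eq_add_neg]

theorem h_mono {x y : X.SD e} (h : x ≤ y) : x.h ≤ y.h := by
  rcases h.eq_or_lt with rfl | h
  · exact le_rfl
  · rcases lt_iff.1 h with h | h
    · exact h.le
    · exact h.1.le

/-- Projection to the acting group. -/
noncomputable def pr : X.SD e →* X.G := MonoidHom.mk' SD.h fun _ _ => rfl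

theorem zpow_h (x : X.SD e) (k : ℤ) : (x ^ k).h = x.h ^ k := map_zpow pr x k

theorem zpow_m {x : X.SD e} (hx : x.h = 1) (k : ℤ) : (x ^ k).m = k • x.m := by
  induction k using Int.induction_on with
  | zero => simp
  | succ k ih => rw [zpow_add_one, mul_m, ih, zpow_h, hx, add_smul]; simp only [zsmul_eq_mul, Int.cast_natCast, zpow_natCast, one_pow, map_one, one_mul, one_smul]
  | pred k ih => rw [zpow_sub_one, mul_m, ih, zpow_h, inv_m, hx, sub_smul]; simp only [neg_smul, zsmul_eq_mul, Int.cast_natCast, zpow_neg, zpow_natCast, one_pow, inv_one, map_one, one_mul, mul_neg, one_smul, sub_eq_add_neg]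

end SD

open Classical in
/-- One more level at the bottom. -/
noncomputable def W : LG where
  G := X.SD e
  ht := X.ht + 1
  lv x := if x = 1 then X.ht + 1 else X.lv x.h
  lv_one := if_pos rfl
  lv_lt a ha := by rw [if_neg ha]; exact Nat.lt_succ_of_le (X.lv_le _)
  lv_inv a := by simp [X.lv_inv]
  lv_conj g a := by simp only [mul_inv_eq_one, mul_eq_left, SD.mul_h, SD.inv_h, X.lv_conj]
  lv_mul a b := by
    by_cases ha : a = 1
    · simp only [ha, ↓ reduceIte, one_mul, inf_le_right]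
    by_cases hb : b = 1
    · simp only [hb, ↓ reduceIte, mul_one, inf_le_left]
    rw [if_neg ha, if_neg hb]
    split_ifs
    · exact (min_le_left _ _).trans (Nat.le_succ_of_le (X.lv_le _))
    · exact X.lv_mul _ _
  lv_mono a b h1 h2 := by
    by_cases ha : a = 1
    · rw [if_pos ha]; split_ifs
      · exact le_rfl
      · exact Nat.le_succ_of_le (X.lv_le _)
    · rw [if_neg ha, if_neg fun hb : b = 1 => ha (le_antisymm (hb ▸ h2) h1)]
      exact X.lv_mono _ _ (SD.h_mono h1) (SD.h_mono h2)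

theorem W_lv {x : X.SD e} (hx : x ≠ 1) : (X.W e).lv x = X.lv x.h := if_neg hx

end LG

/-- Order embedding which maps levels by `φ`. -/
structure Emb (X Y : LG) (φ : ℕ → ℕ) where
  f : X.G →* Y.G
  pos : ∀ a, 1 < a → 1 < f a
  lv : ∀ a, a ≠ 1 → Y.lv (f a) = φ (X.lv a)

theorem strictMono_of_pos {G H : Type} [Group G] [LinearOrder G] [MulLeftMono G] [Group H]
    [LinearOrder H] [MulLeftMono H] (f : G →* H) (h : ∀ a, 1 < a → 1 < f a) : StrictMono f :=
  fun a b hab => by
    have := h (a⁻¹ * b) (by simpa using hab)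
    simpa only [gt_iff_lt, map_mul, map_inv, lt_inv_mul_iff_mul_lt, mul_one] using this

namespace Emb
open LG
variable {X Y Z : LG} {φ ψ : ℕ → ℕ}

theorem mono (E : Emb X Y φ) : StrictMono E.f := strictMono_of_pos E.f E.pos

theorem ne_one (E : Emb X Y φ) {a : X.G} (h : a ≠ 1) : E.f a ≠ 1 := fun h' =>
  h (E.mono.injective (h'.trans (map_one _).symm))

/-- Composition. -/
def comp (F : Emb Y Z ψ) (E : Emb X Y φ) : Emb X Z fun i => ψ (φ i) where
  f := F.f.comp E.f
  pos a h := F.pos _ (E.pos a h)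
  lv a h := by rw [← E.lv a h]; exact F.lv _ (E.ne_one h)

/-- Inclusion of the acting group. -/
noncomputable def incl (X : LG) (e : ℕ → Bool) : Emb X (X.W e) fun i => i where
  f := MonoidHom.mk' (fun h => (⟨0, h⟩ : X.SD e)) fun a b =>
    SD.ext (by show 0 = 0 + X.σ e a * 0; simp) rfl
  pos a h := SD.one_lt.2 (Or.inl h)
  lv a h := X.W_lv e fun h' => h (congrArg SD.h h')

/-- Inner automorphism. -/
def conj (X : LG) (g : X.G) : Emb X X fun i => i where
  f := (MulAut.conj g).toMonoidHom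
  pos _ h := (conj_pos g).2 h
  lv a _ := X.lv_conj g a

/-- Right multiplication by a positive series. -/
noncomputable def rmul (X : LG) (e : ℕ → Bool) {k : MN (X.Tw e)} (hk : Pos k) :
    Emb (X.W e) (X.W e) fun i => i where
  f := MonoidHom.mk' (fun x : X.SD e => (⟨x.m * k, x.h⟩ : X.SD e)) fun a b =>
    SD.ext (by
      show (SD.m a + X.σ e (SD.h a) * SD.m b) * k = SD.m a * k + X.σ e (SD.h a) * (SD.m b * k)
      rw [add_mul, mul_assoc]) rfl
  pos a h := SD.one_lt.2 ((SD.one_lt.1 h).imp id fun h => ⟨h.1, h.2.mul hk⟩)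
  lv a h := by
    rw [X.W_lv e h]
    refine X.W_lv e (x := ⟨SD.m a * k, SD.h a⟩) fun h' => h (SD.ext ?_ ?_)
    · exact (mul_eq_zero.1 (congrArg SD.m h')).resolve_right hk.ne_zero
    · have := congrArg SD.h h'
      exact this

variable (E : Emb X Y φ) {e e' : ℕ → Bool} (he : ∀ j < X.ht, e' (φ j) = e j)

/-- The embedding on the twisted groups. -/
def ftw (e e' : ℕ → Bool) : X.Tw e →* Y.Tw e' := E.f

include he in
theorem ftw_mono : StrictMono (E.ftw e e') := strictMono_of_pos _ fun a ha => by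
  have h1 : X.Q e a := (X.one_lt_tw e a).1 ha
  have h2 : (X.tw e).symm a ≠ 1 := ha.ne'
  refine (Y.one_lt_tw e' (E.f a)).2 ?_
  unfold Q at h1 ⊢
  rw [E.lv a h2, he _ (X.lv_lt a h2), ← map_inv]
  split_ifs at h1 ⊢ <;> exact E.pos _ h1

/-- Extension of an embedding to the next level. -/
noncomputable def W (hφ : φ X.ht = Y.ht) : Emb (X.W e) (Y.W e') φ where
  f := MonoidHom.mk' (fun x : X.SD e =>
      (⟨MN.map (E.ftw e e') (E.ftw_mono he) x.m, E.f x.h⟩ : Y.SD e')) fun a b =>
    SD.ext (by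
      show MN.map _ _ (SD.m a + X.σ e (SD.h a) * SD.m b) =
        MN.map _ _ (SD.m a) + Y.σ e' (E.f (SD.h a)) * MN.map _ _ (SD.m b)
      rw [map_add, map_mul]
      congr 2
      exact map_sg (E.ftw e e') (E.ftw_mono he) _ _) (map_mul E.f _ _)
  pos a h := SD.one_lt.2 ((SD.one_lt.1 h).imp (E.pos _) fun h =>
    ⟨(congrArg E.f h.1).trans (map_one _), h.2.map _ _⟩)
  lv a h := by
    rw [X.W_lv e h]
    refine (Y.W_lv e' fun h' => h (SD.ext ?_ ?_)).trans ?_
    · exact (map_eq_zero _).1 (congrArg SD.m h')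
    · by_contra h2; exact E.ne_one h2 (congrArg SD.h h')
    · show Y.lv (E.f (SD.h a)) = _
      by_cases h2 : SD.h a = 1
      · rw [h2, map_one, X.lv_one, Y.lv_one, hφ]
      · exact E.lv _ h2

end Emb

/-- The trivial group. -/
def triv : LG where
  G := Unit
  ml := ⟨fun _ _ _ _ => le_rfl⟩
  mr := ⟨fun _ _ _ _ => le_rfl⟩
  ht := 0
  lv _ := 0
  lv_one := rfl
  lv_lt _ h := absurd rfl h
  lv_inv _ := rfl
  lv_conj _ _ := rfl
  lv_mul _ _ := le_rfl
  lv_mono _ _ _ _ := le_rfl

/-- The tower with sign pattern `g` and `n` levels. -/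
noncomputable def T (g : ℕ → ℕ → Bool) : ℕ → LG
  | 0 => triv
  | n + 1 => (T g n).W (g n)

theorem T_ht (g : ℕ → ℕ → Bool) : ∀ n, (T g n).ht = n
  | 0 => rfl
  | n + 1 => congrArg (· + 1) (T_ht g n)

theorem T_zero {g : ℕ → ℕ → Bool} (a : (T g 0).G) : a = 1 := rfl

/-- The series `1` at level `i`. -/
noncomputable def U (g : ℕ → ℕ → Bool) : (n : ℕ) → ℕ → (T g n).G
  | 0, _ => 1
  | n + 1, i => if i = n then (⟨1, 1⟩ : (T g n).SD (g n)) else ⟨0, U g n i⟩

theorem U_last (g : ℕ → ℕ → Bool) (n : ℕ) : U g (n + 1) n = (⟨1, 1⟩ : (T g n).SD (g n)) :=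
  if_pos rfl

theorem U_incl (g : ℕ → ℕ → Bool) {n i : ℕ} (h : i ≠ n) :
    U g (n + 1) i = (Emb.incl (T g n) (g n)).f (U g n i) := if_neg h

theorem U_spec (g : ℕ → ℕ → Bool) : ∀ n i, i < n → 1 < U g n i ∧ (T g n).lv (U g n i) = i
  | 0, _, h => absurd h (Nat.not_lt_zero _)
  | n + 1, i, h => by
    by_cases hi : i = n
    · subst hi
      have : (1 : (T g i).SD (g i)) < ⟨1, 1⟩ := LG.SD.one_lt.2 (Or.inr ⟨rfl, pos_sg _ one_pos⟩)
      rw [U_last]
      exact ⟨this, ((T g i).W_lv _ this.ne').trans ((T g i).lv_one.trans (T_ht g i))⟩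
    · obtain ⟨h1, h2⟩ := U_spec g n i (by omega)
      rw [U_incl g hi]
      exact ⟨Emb.pos _ _ h1, (Emb.lv _ _ h1.ne').trans h2⟩

/-- An induced subpattern gives an embedding of towers. -/
theorem exists_emb (g g' : ℕ → ℕ → Bool) (φ : ℕ → ℕ) : ∀ n m, (∀ i j, j < i → i < m → φ j < φ i) →
    (∀ i < m, φ i < n) → (∀ i j, j < i → i < m → g' (φ i) (φ j) = g i j) →
    ∃ E : Emb (T g m) (T g' n) φ, ∀ i < m, E.f (U g m i) = U g' n (φ i)
  | n, 0, _, _, _ => ⟨⟨1, fun a h => absurd h (by rw [T_zero a]; exact lt_irrefl _),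
      fun a h => absurd (T_zero a) h⟩, fun _ h => absurd h (Nat.not_lt_zero _)⟩
  | 0, m + 1, _, h, _ => absurd (h 0 (Nat.succ_pos _)) (Nat.not_lt_zero _)
  | n + 1, m + 1, h1, h2, h3 => by
    by_cases h : φ m = n
    · obtain ⟨E, hE⟩ := exists_emb g g' φ n m (fun i j a b => h1 i j a (by omega))
        (fun i a => h ▸ h1 m i a (by omega)) fun i j a b => h3 i j a (by omega)
      refine ⟨E.W (e := g m) (e' := g' n)
        (fun j hj => h ▸ h3 m j (by rwa [T_ht] at hj) (by omega)) (by rw [T_ht, T_ht, h]),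
        fun i hi => ?_⟩
      by_cases hi' : i = m
      · subst hi'
        subst h
        rw [U_last, U_last]
        exact LG.SD.ext (map_one (MN.map _ _)) (map_one E.f)
      · have := h1 m i (by omega) (by omega)
        rw [U_incl g hi', U_incl g' (by omega)]
        exact LG.SD.ext (map_zero (MN.map _ _)) (hE i (by omega))
    · have h4 : ∀ i < m + 1, φ i < n := fun i hi => by
        have := h2 m (by omega)
        rcases Nat.lt_succ_iff_lt_or_eq.1 hi with hi | rfl
        · have := h1 m i hi (by omega); omega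
        · omega
      obtain ⟨E, hE⟩ := exists_emb g g' φ n (m + 1) h1 h4 h3
      exact ⟨(Emb.incl (T g' n) (g' n)).comp E, fun i hi => by
        rw [U_incl g' (h4 i hi).ne, ← hE i hi]; rfl⟩

/-- Every positive element can be moved to the basic element of its level. -/
theorem straighten (g : ℕ → ℕ → Bool) : ∀ n (b : (T g n).G), 1 < b →
    ∃ E : Emb (T g n) (T g n) fun i => i, E.f b = U g n ((T g n).lv b)
  | 0, b, h => absurd h (by rw [T_zero b]; exact lt_irrefl _)
  | n + 1, b, h => by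
    have hl : (T g (n + 1)).lv b = (T g n).lv (LG.SD.h b) := (T g n).W_lv _ h.ne'
    rw [hl]
    rcases LG.SD.one_lt.1 h with h | ⟨h1, h2⟩
    · obtain ⟨E, hE⟩ := straighten g n _ h
      have hlt := (T g n).lv_lt _ h.ne'
      rw [T_ht] at hlt
      set u := U g n ((T g n).lv (LG.SD.h b)) with hu
      have hu1 : u ≠ 1 := (U_spec g n _ hlt).1.ne'
      have hne : 1 - (T g n).σ (g n) u ≠ 0 := fun h0 => by
        have := congrArg (fun x => x.co 1) h0
        have h1 : (1 : (T g n).Tw (g n)) ≠ (T g n).tw (g n) u := fun h => hu1 h.symm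
        simp [one_def, LG.σ, co_sg, h1] at this
      let F := E.W (e := g n) (e' := g n) (fun _ _ => rfl) rfl
      let m : MN ((T g n).Tw (g n)) := LG.SD.m (F.f b)
      let x : (T g n).SD (g n) := ⟨-((1 - (T g n).σ (g n) u)⁻¹ * m), 1⟩
      refine ⟨(Emb.conj (T g (n + 1)) x).comp F, ?_⟩
      rw [U_incl g hlt.ne]
      have hF : LG.SD.h (F.f b) = u := hE
      refine LG.SD.ext ?_ ?_
      · show LG.SD.m (x * (show (T g n).SD (g n) from F.f b) * x⁻¹) = 0
        simp only [LG.SD.mul_m, LG.SD.mul_h, LG.SD.inv_m, x, hF, map_one, one_mul, inv_one, neg_neg]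
        have : (1 - (T g n).σ (g n) u) * ((1 - (T g n).σ (g n) u)⁻¹ * m) = m :=
          mul_inv_cancel_left₀ hne m
        rw [sub_mul, one_mul] at this
        rw [← sub_eq_zero.2 this.symm]
        simp only [m]; abel
      · show LG.SD.h (x * (show (T g n).SD (g n) from F.f b) * x⁻¹) = u
        simp only [x, LG.SD.mul_h, hF, one_mul, LG.SD.inv_h, inv_one, mul_one]
    · refine ⟨Emb.rmul (T g n) (g n) h2.inv, ?_⟩
      rw [h1, (T g n).lv_one, T_ht, U_last]
      exact LG.SD.ext (mul_inv_cancel₀ h2.ne_zero) h1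

/-- Conjugation moves the archimedean class according to the pattern. -/
theorem signs (g : ℕ → ℕ → Bool) : ∀ n (x z : (T g n).G), 1 < x →
    (((T g n).lv z < (T g n).lv x ∧ (T g n).Q (g ((T g n).lv x)) z⁻¹) → x * x < z * x * z⁻¹) ∧
    (¬ ((T g n).lv z < (T g n).lv x ∧ (T g n).Q (g ((T g n).lv x)) z⁻¹) → z * x * z⁻¹ < x * x)
  | 0, x, _, h => absurd h (by rw [T_zero x]; exact lt_irrefl _)
  | n + 1, x, z, h => by
    have hl : (T g (n + 1)).lv x = (T g n).lv (LG.SD.h x) := (T g n).W_lv _ h.ne'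
    have key : ((T g (n + 1)).lv z < (T g (n + 1)).lv x ∧
        (T g (n + 1)).Q (g ((T g (n + 1)).lv x)) z⁻¹) ↔
        ((T g n).lv (LG.SD.h z) < (T g n).lv (LG.SD.h x) ∧
        (T g n).Q (g ((T g n).lv (LG.SD.h x))) (LG.SD.h z)⁻¹) := by
      rw [hl]
      have hle := (T g n).lv_le (LG.SD.h x)
      by_cases hz : LG.SD.h z = 1
      · refine iff_of_false (fun h => ?_) fun h => ?_
        · by_cases hz' : z = 1
          · have := h.1
            rw [hz', LG.lv_one, T_ht] at this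
            rw [T_ht] at hle; omega
          · have e : (T g (n + 1)).lv z = _ := (T g n).W_lv _ hz'
            have := h.1
            rw [e, hz, LG.lv_one] at this; omega
        · have := h.1
          rw [hz, LG.lv_one] at this; omega
      · have e : (T g (n + 1)).lv z = _ := (T g n).W_lv _ fun h => hz (congrArg LG.SD.h h)
        unfold LG.Q
        rw [LG.lv_inv, LG.lv_inv, e, inv_inv, inv_inv]
        refine and_congr_right fun _ => ?_
        split_ifs
        · exact LG.SD.one_lt.trans (or_iff_left fun h => hz h.1)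
        · exact LG.SD.one_lt.trans (or_iff_left fun h => hz (inv_eq_one.1 h.1))
    rw [key]
    rcases LG.SD.one_lt.1 h with h | ⟨h1, a, h2, h3⟩
    · obtain ⟨i1, i2⟩ := signs g n _ (LG.SD.h z) h
      exact ⟨fun h => LG.SD.lt_iff.2 (Or.inl (i1 h)), fun h => LG.SD.lt_iff.2 (Or.inl (i2 h))⟩
    · rw [h1, LG.lv_one, T_ht, ← LG.one_lt_tw]
      have e1 := LG.SD.conj_m z h1
      have e2 : LG.SD.h (z * x * z⁻¹) = LG.SD.h (x * x) := by
        show LG.SD.h z * LG.SD.h x * (LG.SD.h z)⁻¹ = LG.SD.h x * LG.SD.h x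
        simp [h1]
      have e3 : LG.SD.m (x * x) = LG.SD.m x + LG.SD.m x := by
        show LG.SD.m x + _ * LG.SD.m x = _
        simp [h1]
      set t := (T g n).tw (g n) (LG.SD.h z) with ht
      have e4 : (T g n).tw (g n) (LG.SD.h z)⁻¹ = t⁻¹ := map_inv _ _
      rw [e4, one_lt_inv']
      constructor
      · rintro ⟨_, h⟩
        have h4 : t * a < a := by simpa using h
        refine LG.SD.lt_iff.2 (Or.inr ⟨e2.symm, ?_⟩)
        erw [e1, e3]
        refine ⟨t * a, ?_, fun b hb => ?_⟩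
        · simpa only [co_sub, LG.co_σ_mul, ← ht, inv_mul_cancel_left, co_add, h3 _ h4, add_zero, sub_zero] using h2
        · simp [LG.co_σ_mul, ← ht, h3 _ (hb.trans h4), h3 _ (inv_mul_lt_iff_lt_mul.2 hb)]
      · intro h
        have h4 : 1 ≤ t := by
          by_contra h'
          refine h ⟨?_, not_le.1 h'⟩
          have := (T g n).lv_lt (LG.SD.h z) fun h0 => h' (by rw [ht, h0, map_one])
          rwa [T_ht] at this
        refine LG.SD.lt_iff.2 (Or.inr ⟨e2, ?_⟩)
        erw [e1, e3]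
        have h5 : ∀ b, t⁻¹ * b ≤ b := fun b => by simpa only [mul_le_iff_le_one_left', Left.inv_le_one_iff] using h4
        refine ⟨a, ?_, fun b hb => ?_⟩
        · simp only [co_sub, co_add, LG.co_σ_mul, ← ht]
          rcases (h5 a).eq_or_lt with h6 | h6
          · rw [h6]; linarith only [h2]
          · rw [h3 _ h6]; linarith only [h2]
        · simp only [co_sub, co_add, h3 _ hb, add_zero, LG.co_σ_mul, ← ht, h3 _ ((h5 b).trans_lt hb), sub_self]

/-- A finite family lies in a subgroup with a rational valued order homomorphism. -/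
theorem arch (g : ℕ → ℕ → Bool) {ι : Type} [Finite ι] : ∀ n (v : ι → (T g n).G), (∃ j, v j ≠ 1) →
    ∃ (S : Subgroup (T g n).G) (φ : (T g n).G → ℚ) (l : ℕ), (∀ j, v j ∈ S) ∧
      (∀ a ∈ S, ∀ b ∈ S, φ (a * b) = φ a + φ b) ∧
      (∀ a ∈ S, φ a ≠ 0 → (T g n).lv a = l ∧ (0 < φ a ↔ 1 < a)) ∧ ∃ j, φ (v j) ≠ 0
  | 0, v, ⟨j, h⟩ => absurd (T_zero _) h
  | n + 1, v, ⟨j0, h0⟩ => by
    by_cases h : ∃ j, LG.SD.h (v j) ≠ 1
    · obtain ⟨S, φ, l, h1, h2, h3, h4⟩ := arch g n (fun j => LG.SD.h (v j)) h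
      have hφ1 : φ 1 = 0 := by simpa using h2 1 S.one_mem 1 S.one_mem
      refine ⟨S.comap LG.SD.pr, fun a => φ (LG.SD.h a), l, h1, fun a ha b hb => h2 _ ha _ hb,
        fun a ha hne => ?_, h4⟩
      have ha1 : LG.SD.h a ≠ 1 := fun h => hne (by simp only [h, hφ1])
      obtain ⟨h5, h6⟩ := h3 _ ha hne
      exact ⟨((T g n).W_lv _ fun h => ha1 (congrArg LG.SD.h h)).trans h5,
        h6.trans (LG.SD.one_lt.trans (or_iff_left fun h => ha1 h.1)).symm⟩
    · push Not at h
      have hp : (⋃ j, support (LG.SD.m (v j)).co).IsPWO := by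
        haveI := Fintype.ofFinite ι
        simpa only [Finset.mem_univ, Set.iUnion_true] using (Finset.isPWO_bUnion Finset.univ).2 fun j _ => (LG.SD.m (v j)).pwo
      obtain ⟨c, hc⟩ := exists_lead (x := LG.SD.m (v j0)) fun h' => h0 (LG.SD.ext h' (h j0))
      have hn : (⋃ j, support (LG.SD.m (v j)).co).Nonempty := ⟨c, Set.mem_iUnion.2 ⟨j0, hc.1⟩⟩
      set a := hp.isWF.min hn
      let S : Subgroup ((T g n).SD (g n)) :=
        { carrier := {x | x.h = 1 ∧ ∀ b < a, x.m.co b = 0}
          one_mem' := ⟨rfl, fun _ _ => rfl⟩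
          mul_mem' := fun {x y} hx hy =>
            ⟨by simp [hx.1, hy.1], fun b hb => by simp [hx.1, hx.2 b hb, hy.2 b hb]⟩
          inv_mem' := fun {x} hx => ⟨by simp [hx.1], fun b hb => by simp [hx.1, hx.2 b hb]⟩ }
      refine ⟨S, fun x => (LG.SD.m x).co a, n, fun j => ⟨h j, fun b hb => ?_⟩,
        fun x hx y hy => ?_, fun x hx hne => ⟨?_, ?_⟩, Set.mem_iUnion.1 (hp.isWF.min_mem hn)⟩
      · by_contra hb'
        exact hp.isWF.not_lt_min hn (Set.mem_iUnion.2 ⟨j, hb'⟩) hb
      · show (LG.SD.m x + (T g n).σ (g n) (LG.SD.h x) * LG.SD.m y).co a = _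
        simp [hx.1]
      · refine ((T g n).W_lv _ fun h => hne (by rw [h]; rfl)).trans ?_
        rw [hx.1, LG.lv_one, T_ht]
      · refine ⟨fun h => LG.SD.one_lt.2 (Or.inr ⟨hx.1, a, h, hx.2⟩), fun h => ?_⟩
        rcases LG.SD.one_lt.1 h with h | h
        · exact absurd hx.1 h.ne'
        · exact lt_of_le_of_ne (h.2.co_nonneg hx.2) (Ne.symm hne)

end Pool.Agent.MP_a2e0a9_al.H74

end

-- part MP_a2e0a9_al.H74.Approx
section

/-! Approximate solutions of a finite diagram in a tower give exact solutions. -/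

namespace Pool.Agent.MP_a2e0a9_al.H74

open Function MN Matrix LG

instance subMl {G : Type} [Group G] [LinearOrder G] [MulLeftMono G] (S : Subgroup G) :
    MulLeftMono S := ⟨fun a _ _ h => mul_le_mul_right (α := G) h a⟩

instance subMr {G : Type} [Group G] [LinearOrder G] [MulRightMono G] (S : Subgroup G) :
    MulRightMono S := ⟨fun a _ _ h => mul_le_mul_left (α := G) h a⟩

theorem arch_int (g : ℕ → ℕ → Bool) (n : ℕ) (e : ℕ → Bool) {ι : Type} [Fintype ι]
    (v : ι → (T g n).G) (hv : ∃ j, v j ≠ 1) :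
    ∃ (S : Subgroup ((T g n).Tw e)) (ψ : S → ℤ) (w : ι → S), (∀ j, (w j).1 = (T g n).tw e (v j)) ∧
      (∀ a b, ψ (a * b) = ψ a + ψ b) ∧ Monotone ψ ∧ ∃ j, ψ (w j) ≠ 0 := by
  obtain ⟨S, φ, l, h1, h2, h3, j0, h4⟩ := arch g n v hv
  have hφ1 : φ 1 = 0 := by simpa using h2 1 S.one_mem 1 S.one_mem
  have hφi : ∀ a ∈ S, φ a⁻¹ = -φ a := fun a ha => by
    have := h2 a ha a⁻¹ (S.inv_mem ha)
    rw [mul_inv_cancel, hφ1] at this; linarith
  set D : ℚ := ∏ j, ((φ (v j)).den : ℚ) with hD
  have hD0 : 0 < D := Finset.prod_pos fun j _ => by exact_mod_cast (φ (v j)).den_pos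
  let S' : Subgroup (T g n).G :=
    { carrier := {a | a ∈ S ∧ ∃ k : ℤ, (k : ℚ) = D * φ a}
      one_mem' := ⟨S.one_mem, 0, by simp [hφ1]⟩
      mul_mem' := by
        rintro a b ⟨ha, k, hk⟩ ⟨hb, k', hk'⟩
        exact ⟨S.mul_mem ha hb, k + k', by rw [h2 a ha b hb]; push_cast; linarith⟩
      inv_mem' := by
        rintro a ⟨ha, k, hk⟩
        exact ⟨S.inv_mem ha, -k, by rw [hφi a ha]; push_cast; linarith⟩ }
  have hvS : ∀ j, v j ∈ S' := fun j => ⟨h1 j, by
    classical
    refine ⟨(∏ i ∈ Finset.univ.erase j, ((φ (v i)).den : ℤ)) * (φ (v j)).num, ?_⟩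
    rw [hD, ← Finset.prod_erase_mul _ _ (Finset.mem_univ j), mul_assoc, Rat.den_mul_eq_num]
    push_cast; rfl⟩
  choose k hk using fun a : S' => a.2.2
  let s : ℤ := if e l then -1 else 1
  have hadd : ∀ a b : S', k (a * b) = k a + k b := fun a b => by
    have := hk (a * b)
    rw [Subgroup.coe_mul, h2 _ a.2.1 _ b.2.1, mul_add, ← hk, ← hk] at this
    exact_mod_cast this
  have hpos : ∀ a : S', (T g n).Q e a.1 → 0 ≤ s * k a := fun a ha => by
    by_cases h0 : φ a.1 = 0
    · have := hk a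
      rw [h0, mul_zero] at this
      rw [show k a = 0 by exact_mod_cast this, mul_zero]
    obtain ⟨h5, h6⟩ := h3 _ a.2.1 h0
    unfold LG.Q at ha
    rw [h5] at ha
    have hka := hk a
    simp only [s]
    split_ifs at ha ⊢
    · have : φ a.1 ≤ 0 := not_lt.1 fun h => (h6.1 h).not_gt (by simpa using ha)
      have : (k a : ℚ) ≤ 0 := hka ▸ mul_nonpos_of_nonneg_of_nonpos hD0.le this
      have : k a ≤ 0 := by exact_mod_cast this
      omega
    · have : (0 : ℚ) < k a := hka ▸ mul_pos hD0 (h6.2 ha)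
      have : 0 < k a := by exact_mod_cast this
      omega
  refine ⟨S', fun a => s * k a, fun j => ⟨v j, hvS j⟩, fun _ => rfl, fun a b => ?_, fun a b hab => ?_,
    j0, fun h => h4 ?_⟩
  · rw [← mul_add]; exact congrArg _ (hadd a b)
  · rcases hab.eq_or_lt with rfl | hab
    · exact le_rfl
    have h7 : (1 : (T g n).Tw e) < a.1⁻¹ * b.1 := by simpa using hab
    have h8 := hpos (a⁻¹ * b) (((T g n).one_lt_tw e _).1 h7)
    have h9 := hadd a (a⁻¹ * b)
    erw [mul_inv_cancel_left] at h9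
    show s * k a ≤ s * k b
    rw [h9, mul_add]; linarith only [h8]
  · have h5 : k ⟨v j0, hvS j0⟩ = 0 := (mul_eq_zero.1 h).resolve_left (by simp only [s]; split_ifs <;> simp)
    have := hk ⟨v j0, hvS j0⟩
    rw [h5] at this
    exact (mul_eq_zero.1 (by exact_mod_cast this.symm)).resolve_left hD0.ne'

variable {ι κ : Type} [Fintype ι] [Fintype κ] (A B C : κ → ι) (Ps : ι → Prop)

/-- Approximate solution of the diagram. -/
def Hyp {G : Type} [Group G] [LinearOrder G] (N : ℕ) (v : ι → G) : Prop :=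
  ∀ p, Ps p → 1 < v p ∧ ∀ r j, ∀ k l : ℤ, (k = N ∨ k = -N) → (l = N ∨ l = -N) →
    v j ^ k * (v (A r) * v (B r) * (v (C r))⁻¹) ^ l * (v j ^ k)⁻¹ ≤ v p

/-- Exact solution of the diagram. -/
def Sol {G : Type} [Group G] [LinearOrder G] (v : ι → G) : Prop :=
  (∀ p, Ps p → 1 < v p) ∧ ∀ r, v (A r) * v (B r) = v (C r)

open Classical in
/-- The matrix of the linearised relations. -/
noncomputable def Pm {R : Type} [Ring R] (s : ι → R) : Matrix κ ι R :=
  Matrix.of fun r j => (if j = A r then 1 else 0) + (if j = B r then s (A r) else 0) -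
    if j = C r then 1 else 0

theorem Pm_mulVec {R : Type} [Ring R] (s m : ι → R) (r : κ) :
    (Pm A B C s *ᵥ m) r = m (A r) + s (A r) * m (B r) - m (C r) := by
  classical
  have k : ∀ (a : ι) (c : R), ∑ j, (@ite _ (j = a) (Classical.propDecidable _) c 0) * m j = c * m a :=
    fun a c => by
      rw [Finset.sum_eq_single a (fun b _ hb => by rw [if_neg hb, zero_mul]) (by simp only [Finset.mem_univ, not_true_eq_false, ↓ reduceIte, IsEmpty.forall_iff]), if_pos rfl]
  simp only [Pm, mulVec, dotProduct, add_mul, sub_mul, Finset.sum_add_distrib,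
    Finset.sum_sub_distrib, Matrix.of_apply, k, one_mul]

omit [Fintype ι] [Fintype κ] in
theorem Pm_map {R R' : Type} [Ring R] [Ring R'] (f : R →+* R') (s : ι → R) :
    (Pm A B C s).map f = Pm A B C fun j => f (s j) := by
  ext r j
  simp [Pm, apply_ite f]

omit [Fintype ι] [Fintype κ] in
theorem Pm_sup {H : Type} [Group H] [LinearOrder H] [MulLeftMono H] [MulRightMono H]
    {p : H → Prop} (h1 : p 1) (w : ι → H) (hw : ∀ j, p (w j)) (r : κ) (j : ι) :
    Sup p (Pm A B C (fun j => sg (w j) 1) r j) := by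
  have e : Sup p (1 : MN H) := Sup.sg h1 1
  refine Sup.sub (Sup.add ?_ ?_) ?_ <;> split_ifs
  exacts [e, Sup.zero, Sup.sg (hw _) 1, Sup.zero, e, Sup.zero]

instance : MulLeftMono Unit := ⟨fun _ _ _ _ => le_rfl⟩
instance : MulRightMono Unit := ⟨fun _ _ _ _ => le_rfl⟩

variable {A B C Ps}

theorem step_dom {X : LG} {e : ℕ → Bool} {N : ℕ} {v : ι → X.SD e} (hv : Hyp A B C Ps N v)
    (hh : ∀ r, (v (A r)).h * (v (B r)).h = (v (C r)).h) {p : ι} (hp : Ps p) (h1 : (v p).h = 1)
    {a : X.Tw e} (ha : ∀ b < a, (v p).m.co b = 0) (r : κ) (j : ι) {k : ℤ} (hk : k = N ∨ k = -N) :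
    let ε := (Pm A B C (fun j => X.σ e (v j).h) *ᵥ fun j => (v j).m) r
    let t := X.tw e ((v j).h ^ k)
    (∀ b < a, (N : ℚ) * ε.co (t⁻¹ * b) = 0) ∧ |(N : ℚ) * ε.co (t⁻¹ * a)| ≤ (v p).m.co a := by
  intro ε t
  set ρ := v (A r) * v (B r) * (v (C r))⁻¹ with hρ
  have e1 : ρ.h = 1 := by simp only [hρ, SD.mul_h, hh, SD.inv_h, mul_inv_cancel]
  have e2 : ρ.m = ε := by
    simp only [ε, Pm_mulVec, hρ, SD.mul_m, SD.mul_h, SD.inv_m, hh, mul_neg, σ_cancel, sub_eq_add_neg]
  have key : ∀ l : ℤ, (l = N ∨ l = -N) →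
      (v p).m - X.σ e ((v j).h ^ k) * (l • ε) = 0 ∨ Pos ((v p).m - X.σ e ((v j).h ^ k) * (l • ε)) := by
    intro l hl
    have h2 := (hv p hp).2 r j k l hk hl
    have h3 : (ρ ^ l).h = 1 := by rw [SD.zpow_h, e1, _root_.one_zpow]
    have h4 := SD.conj_m (v j ^ k) h3
    rw [SD.zpow_h, SD.zpow_m e1, e2] at h4
    rw [← h4, ← hρ] at *
    rcases h2.eq_or_lt with h2 | h2
    · exact Or.inl (by rw [h2, sub_self])
    · rcases SD.lt_iff.1 h2 with h2 | h2
      · simp only [SD.mul_h, h3, mul_one, SD.inv_h, mul_inv_cancel, h1, lt_self_iff_false] at h2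
      · exact Or.inr h2.2
  have := dom (x := X.σ e ((v j).h ^ k) * ((N : ℤ) • ε)) ha (key _ (Or.inl rfl))
    (by simpa only [map_zpow, zsmul_eq_mul, Int.cast_natCast, neg_smul, mul_neg, sub_eq_add_neg, neg_neg] using key _ (Or.inr rfl))
  simpa only [co_σ_mul, co_zsmul, Int.cast_natCast] using this

theorem step_sol {X : LG} {e : ℕ → Bool} {v : ι → X.SD e} (h0 : ∀ p, Ps p → 1 < v p)
    (hh : ∀ r, (v (A r)).h * (v (B r)).h = (v (C r)).h) (G : Matrix ι κ (MN (X.Tw e)))
    (hG : Pm A B C (fun j => X.σ e (v j).h) * G * Pm A B C (fun j => X.σ e (v j).h) =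
      Pm A B C fun j => X.σ e (v j).h)
    (hp : ∀ p, Ps p → (v p).h = 1 → ∀ a, 0 < (v p).m.co a → (∀ b < a, (v p).m.co b = 0) →
      let δ := (G *ᵥ (Pm A B C (fun j => X.σ e (v j).h) *ᵥ fun j => (v j).m)) p
      δ.co a < (v p).m.co a ∧ ∀ b < a, δ.co b = 0) :
    ∃ v' : ι → X.SD e, Sol A B C Ps v' := by
  set P := Pm A B C fun j => X.σ e (v j).h with hP
  refine ⟨fun j => ⟨(v j).m - (G *ᵥ (P *ᵥ fun j => (v j).m)) j, (v j).h⟩, fun p h => ?_,
    fun r => SD.ext ?_ (hh r)⟩
  · refine SD.one_lt.2 ?_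
    rcases SD.one_lt.1 (h0 p h) with h1 | ⟨h1, a, h2, h3⟩
    · exact Or.inl h1
    · obtain ⟨h4, h5⟩ := hp p h h1 a h2 h3
      exact Or.inr ⟨h1, a, by simpa using h4, fun b hb =>
        (co_sub _ _ _).trans (by rw [h3 b hb, h5 b hb, sub_zero])⟩
  · have : (P *ᵥ ((fun j => (v j).m) - G *ᵥ (P *ᵥ fun j => (v j).m))) r = 0 := by
      rw [mulVec_sub, mulVec_mulVec, mulVec_mulVec, hG, sub_self]; rfl
    rw [hP, Pm_mulVec, sub_eq_zero] at this
    exact this

variable (A B C Ps)

theorem approx : ∃ N : ℕ, ∀ (g : ℕ → ℕ → Bool) (n : ℕ) (v : ι → (T g n).G), Hyp A B C Ps N v →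
    ∃ n' ≤ n, ∃ v' : ι → (T g n').G, Sol A B C Ps v' := by
  classical
  obtain ⟨G0, -, hG0⟩ := exists_ginv (H := Unit) (φ := fun _ => 0) (fun _ _ => rfl) monotone_const
    (Pm A B C fun _ => sg 1 1) 1 le_rfl fun _ _ _ _ => ⟨le_rfl, le_rfl⟩
  obtain ⟨N0, hN0⟩ := exists_nat_gt (∑ j, ∑ r, |(G0 j r).co 1|)
  obtain ⟨N, hN1, hN2⟩ : ∃ N : ℕ, N0 ≤ N ∧ 2 * Fintype.card κ < N :=
    ⟨N0 + 2 * Fintype.card κ + 1, by omega, by omega⟩
  have hNq : (0 : ℚ) < N := by exact_mod_cast (by omega : 0 < N)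
  refine ⟨N, fun g n => ?_⟩
  induction n with
  | zero =>
    exact fun v hv => ⟨0, le_rfl, v, fun p hp => (hv p hp).1, fun _ => rfl⟩
  | succ n ih =>
  intro v hv
  change ι → (T g n).SD (g n) at v
  have hpr : ∀ p, Ps p → ∀ r j, ∀ k l : ℤ, (k = N ∨ k = -N) → (l = N ∨ l = -N) →
      (v j).h ^ k * ((v (A r)).h * (v (B r)).h * (v (C r)).h⁻¹) ^ l * ((v j).h ^ k)⁻¹ ≤ (v p).h :=
    fun p hp r j k l hk hl => by
      have := SD.h_mono ((hv p hp).2 r j k l hk hl)
      erw [SD.mul_h, SD.mul_h, SD.inv_h, SD.zpow_h, SD.zpow_h] at this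
      exact this
  by_cases hall : ∀ p, Ps p → 1 < (v p).h
  · obtain ⟨n', h1, h2⟩ := ih (fun j => (v j).h) fun p hp => ⟨hall p hp, hpr p hp⟩
    exact ⟨n', h1.trans (Nat.le_succ _), h2⟩
  push Not at hall
  obtain ⟨p0, hp0, hp1⟩ := hall
  have hh : ∀ r, (v (A r)).h * (v (B r)).h = (v (C r)).h := fun r => by
    have h1 := (hpr p0 hp0 r p0 N N (Or.inl rfl) (Or.inl rfl)).trans hp1
    have h2 := (hpr p0 hp0 r p0 N (-N) (Or.inl rfl) (Or.inr rfl)).trans hp1
    set ρ := (v (A r)).h * (v (B r)).h * (v (C r)).h⁻¹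
    rw [← not_lt, conj_pos] at h1 h2
    rw [_root_.zpow_neg, one_lt_inv', zpow_natCast] at h2
    rw [zpow_natCast] at h1
    refine mul_inv_eq_one.1 (show ρ = 1 from ?_)
    rcases lt_trichotomy ρ 1 with h | h | h
    · exact absurd (pow_lt_one' h (by omega)) h2
    · exact h
    · exact absurd (one_lt_pow' h (by omega)) h1
  refine ⟨n + 1, le_rfl, ?_⟩
  have hv' : Hyp A B C Ps N v := hv
  by_cases hab : ∃ j, (v j).h ≠ 1
  · obtain ⟨S, ψ, w, h1, h2, h3, j0, h4⟩ := arch_int g n (g n) (fun j => (v j).h) hab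
    obtain ⟨j1, -, hj1⟩ := Finset.exists_max_image Finset.univ (fun j => |ψ (w j)|) ⟨j0, by simp only [Finset.mem_univ]⟩
    obtain ⟨t, k, hk, ht1, ht2⟩ : ∃ (t : S) (k : ℤ), (k = N ∨ k = -N) ∧ ψ t = |ψ (w j1)| ∧
        w j1 ^ k = t⁻¹ ^ N := by
      rcases le_total 0 (ψ (w j1)) with h | h
      · exact ⟨w j1, -N, Or.inr rfl, (abs_of_nonneg h).symm, by simp⟩
      · exact ⟨(w j1)⁻¹, N, Or.inl rfl, by rw [phi_inv h2, abs_of_nonpos h], by simp only [zpow_natCast, inv_inv]⟩
    have hd : 0 < ψ t := ht1 ▸ (abs_pos.2 h4).trans_le (hj1 j0 (by simp only [Finset.mem_univ]))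
    obtain ⟨G, hG1, hG2⟩ := exists_ginv h2 h3 (Pm A B C fun j => sg (w j) 1) t hd.le
      (Pm_sup A B C (by rw [phi_one h2]; omega) w fun j => abs_le.1 (ht1 ▸ hj1 j (by simp only [Finset.mem_univ])))
    have hS : StrictMono S.subtype := fun _ _ h => h
    have hmap : (Pm A B C fun j => sg (w j) 1).map (MN.map S.subtype hS) =
        Pm A B C fun j => (T g n).σ (g n) (v j).h := by
      rw [Pm_map]
      exact congrArg _ (funext fun j => (map_sg _ _ _ _).trans (congrArg (sg · 1) (h1 j)))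
    have hpow : ∀ m : ℕ, ψ (t⁻¹ ^ m) = -(m * ψ t) := fun m => by
      induction m with
      | zero => simp [phi_one h2]
      | succ m ih => rw [pow_succ, h2, ih, phi_inv h2]; push_cast; ring
    refine step_sol (fun p hp => (hv' p hp).1) hh (G.map (MN.map S.subtype hS))
      (by rw [← hmap, ← Matrix.map_mul, ← Matrix.map_mul, hG2]) fun p hp hp1 a ha1 ha2 => ?_
    intro δ
    have hsup : Sup (a < ·) δ := Sup.sum _ fun r _ => by
      have h5 := (step_dom hv' hh hp hp1 ha2 r j1 hk).1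
      have h6 : (T g n).tw (g n) ((v j1).h ^ k) = (t⁻¹ ^ N : S).1 := by
        rw [map_zpow, ← h1 j1, ← ht2]; rfl
      rw [h6] at h5
      refine Sup.mul (p := fun s => (t⁻¹ ^ N : S).1 < s) (q := fun c => a ≤ (t⁻¹ ^ N : S).1 * c)
        (fun s hs => ?_) (fun c hc => ?_) fun s c hs hc => hc.trans_lt (mul_lt_mul_left hs c)
      · obtain ⟨s, h7, rfl⟩ := supp_map (hf := hS) (x := G p r) hs
        have h8 := hG1 p r s h7
        refine hS (a := t⁻¹ ^ N) (b := s) (h3.reflect_lt ?_)
        rw [hpow]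
        have : (2 * Fintype.card κ : ℤ) < N := by exact_mod_cast hN2
        nlinarith only [hN2, hd, h8]
      · by_contra h7
        have := h5 _ (not_le.1 h7)
        rw [inv_mul_cancel_left] at this
        exact hc ((mul_eq_zero.1 this).resolve_left hNq.ne')
    have h0 : ∀ b ≤ a, δ.co b = 0 := fun b hb => by
      by_contra h; exact (hsup b h).not_ge hb
    exact ⟨by rw [h0 a le_rfl]; exact ha1, fun b hb => h0 b hb.le⟩
  · push Not at hab
    have hS : StrictMono (1 : Unit →* (T g n).Tw (g n)) := fun _ _ h => absurd h (lt_irrefl _)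
    have hmap : (Pm A B C fun _ => sg (1 : Unit) 1).map (MN.map 1 hS) =
        Pm A B C fun j => (T g n).σ (g n) (v j).h := by
      rw [Pm_map]
      exact congrArg _ (funext fun j => by rw [hab j, map_one]; exact map_one (MN.map 1 hS))
    refine step_sol (fun p hp => (hv' p hp).1) hh (G0.map (MN.map 1 hS))
      (by rw [← hmap, ← Matrix.map_mul, ← Matrix.map_mul, hG0]) fun p hp hp1 a ha1 ha2 => ?_
    intro δ
    set ε := Pm A B C (fun j => (T g n).σ (g n) (v j).h) *ᵥ fun j => (v j).m with hε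
    have hco : ∀ b, δ.co b = ∑ r, (G0 p r).co 1 * (ε r).co b := fun b => by
      refine (co_sum _ _ _).trans (Finset.sum_congr rfl fun r _ => ?_)
      have : G0 p r = sg 1 ((G0 p r).co 1) := MN.ext fun c => by simp [co_sg]
      show (MN.map 1 hS (G0 p r) * ε r).co b = _
      rw [this, map_sg, co_sg_mul]
      simp [co_sg]
    have h5 := fun r => step_dom hv' hh hp hp1 ha2 r p (k := N) (Or.inl rfl)
    simp only [hp1, _root_.one_zpow, map_one, inv_one, one_mul, ← hε] at h5
    refine ⟨?_, fun b hb => ?_⟩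
    · rw [hco]
      have h6 : ∑ r, |(G0 p r).co 1| < N :=
        ((Finset.single_le_sum (f := fun j => ∑ r, |(G0 j r).co 1|)
          (fun _ _ => Finset.sum_nonneg fun _ _ => abs_nonneg _) (Finset.mem_univ p)).trans_lt
          hN0).trans_le (by exact_mod_cast hN1)
      refine lt_of_mul_lt_mul_left (a := (N : ℚ)) ?_ hNq.le
      calc (N : ℚ) * ∑ r, (G0 p r).co 1 * (ε r).co a
          = ∑ r, (G0 p r).co 1 * (N * (ε r).co a) := by
            rw [Finset.mul_sum]; exact Finset.sum_congr rfl fun r _ => by ring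
        _ ≤ ∑ r, |(G0 p r).co 1| * (v p).m.co a := Finset.sum_le_sum fun r _ =>
            (le_abs_self _).trans (by
              rw [abs_mul]; exact mul_le_mul_of_nonneg_left (h5 r).2 (abs_nonneg _))
        _ < N * (v p).m.co a := by rw [← Finset.sum_mul]; exact mul_lt_mul_of_pos_right h6 ha1
    · rw [hco]
      exact Finset.sum_eq_zero fun r _ => by
        rw [(mul_eq_zero.1 ((h5 r).1 b hb)).resolve_left hNq.ne', mul_zero]

end Pool.Agent.MP_a2e0a9_al.H74

end

-- part MP_a2e0a9_al.H74.Pat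
section

/-! Sign patterns, forbidden ordered cycles, substitution, amalgamation of towers. -/

namespace Pool.Agent.MP_a2e0a9_al.H74

open LG

/-- The ordered cycle on `k + 4` vertices. -/
def cyc (k a b : ℕ) : Bool := decide (a = b + 1 ∨ (a = k + 3 ∧ b = 0))

/-- `φ` exhibits `(g, m)` as an induced ordered subpattern of `(g', n)`. -/
structure Ind (g : ℕ → ℕ → Bool) (m : ℕ) (g' : ℕ → ℕ → Bool) (n : ℕ) (φ : ℕ → ℕ) : Prop where
  mono : ∀ i j, j < i → i < m → φ j < φ i
  lt : ∀ i < m, φ i < n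
  eq : ∀ i j, j < i → i < m → g' (φ i) (φ j) = g i j

/-- All induced ordered cycles have a length allowed by `A`. -/
def Good (A : Set ℕ) (g : ℕ → ℕ → Bool) (n : ℕ) : Prop :=
  ∀ k φ, Ind (cyc k) (k + 4) g n φ → k ∈ A

theorem Good.le {A : Set ℕ} {g : ℕ → ℕ → Bool} {n n' : ℕ} (h : Good A g n) (hn : n' ≤ n) :
    Good A g n' := fun k φ hφ => h k φ ⟨hφ.mono, fun i hi => (hφ.lt i hi).trans_le hn, hφ.eq⟩

theorem good_one (A : Set ℕ) (g : ℕ → ℕ → Bool) : Good A g 1 := fun k φ hφ => by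
  have h1 := hφ.mono 1 0 (by omega) (by omega)
  have h2 := hφ.lt 1 (by omega)
  omega

theorem good_cyc {A : Set ℕ} {k : ℕ} (hk : k ∈ A) : Good A (cyc k) (k + 4) := fun l φ hφ => by
  have h0 := hφ.eq (l + 3) 0 (by omega) (by omega)
  have h1 := hφ.mono 1 0 (by omega) (by omega)
  have h2 := hφ.mono (l + 3) 1 (by omega) (by omega)
  simp only [cyc, decide_eq_decide, and_self, or_true, iff_true] at h0
  have key : ∀ i, i < l + 4 → φ i = i := fun i => by
    induction i with
    | zero => intro _; omega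
    | succ i ih =>
      intro hi
      have h3 := hφ.eq (i + 1) i (by omega) hi
      simp only [cyc, decide_eq_decide, true_or, iff_true] at h3
      have h4 := ih (by omega)
      rcases h3 with h3 | h3
      · omega
      · have : i = 0 := by omega
        subst this
        simp only [zero_add] at h3
        omega
  have := key (l + 3) (by omega)
  rwa [show l = k by omega]

/-- Collapse of the block `[j, j + m)` to `j`. -/
def col (j m a : ℕ) : ℕ := if a < j then a else if a < j + m then j else a + 1 - m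

/-- Substitution of `(g, m)` for the vertex `j` of `g'`. -/
def sub (g g' : ℕ → ℕ → Bool) (j m a b : ℕ) : Bool :=
  if j ≤ b ∧ a < j + m then g (a - j) (b - j) else g' (col j m a) (col j m b)

theorem good_sub {A : Set ℕ} {g g' : ℕ → ℕ → Bool} {m n j : ℕ} (h : Good A g m)
    (h' : Good A g' n) (hj : j < n) : Good A (sub g g' j m) (m + n - 1) := fun k φ hφ => by
  let P : ℕ → Prop := fun a => j ≤ φ a ∧ φ (a + 1) < j + m
  have step : ∀ a, a + 2 < k + 4 → (P a ↔ P (a + 1)) := fun a ha => by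
    have h1 := hφ.mono (a + 1) a (by omega) (by omega)
    have h2 := hφ.mono (a + 2) (a + 1) (by omega) ha
    have e1 := hφ.eq (a + 1) a (by omega) (by omega)
    have e2 := hφ.eq (a + 2) (a + 1) (by omega) ha
    have e3 := hφ.eq (a + 2) a (by omega) ha
    rw [show cyc k (a + 1) a = true by simp [cyc]] at e1
    rw [show cyc k (a + 2) (a + 1) = true by simp [cyc]] at e2
    rw [show cyc k (a + 2) a = false by simp [cyc]; omega] at e3
    unfold sub at e1 e2 e3
    constructor
    · rintro ⟨h3, h4⟩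
      refine ⟨by omega, not_le.1 fun h5 : j + m ≤ φ (a + 2) => ?_⟩
      rw [if_neg (by omega)] at e2 e3
      rw [show col j m (φ (a + 1)) = col j m (φ a) by unfold col; split_ifs <;> omega, e3] at e2
      exact absurd e2 (by simp)
    · rintro ⟨h3, (h4 : φ (a + 2) < j + m)⟩
      refine ⟨not_lt.1 fun h5 => ?_, by omega⟩
      rw [if_neg (by omega)] at e1 e3
      rw [show col j m (φ (a + 1)) = col j m (φ (a + 2)) by unfold col; split_ifs <;> omega,
        e3] at e1
      exact absurd e1 (by simp)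
  have all : ∀ a, a + 1 < k + 4 → (P a ↔ P 0) := fun a => by
    induction a with
    | zero => exact fun _ => Iff.rfl
    | succ a ih => exact fun ha => (step a ha).symm.trans (ih (by omega))
  by_cases h0 : P 0
  · have h1 : ∀ a, a < k + 4 → j ≤ φ a ∧ φ a < j + m := fun a ha => by
      have h2 := h0.1
      have h3 : φ (k + 3) < j + m := ((all (k + 2) (by omega)).2 h0).2
      have h4 := hφ.mono a 0
      have h5 := hφ.mono (k + 3) a
      rcases Nat.eq_zero_or_pos a with rfl | h6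
      · omega
      · rcases (show a = k + 3 ∨ a < k + 3 by omega) with rfl | h7 <;> omega
    refine h k (fun a => φ a - j) ⟨fun a b hab ha => ?_, fun a ha => ?_, fun a b hab ha => ?_⟩
    · have := hφ.mono a b hab ha
      have := h1 b (by omega)
      omega
    · have := h1 a ha
      omega
    · rw [← hφ.eq a b hab ha, sub, if_pos ⟨(h1 b (by omega)).1, (h1 a ha).2⟩]
  · have h1 : ∀ a b, b < a → a < k + 4 → ¬ (j ≤ φ b ∧ φ a < j + m) := fun a b hab ha h2 => by
      refine h0 ((all b (by omega)).1 ⟨h2.1, ?_⟩)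
      have := hφ.mono a (b + 1)
      rcases (show a = b + 1 ∨ b + 1 < a by omega) with rfl | h7 <;> omega
    refine h' k (fun a => col j m (φ a)) ⟨fun a b hab ha => ?_, fun a ha => ?_, fun a b hab ha => ?_⟩
    · have := hφ.mono a b hab ha
      have := h1 a b hab ha
      unfold col; split_ifs <;> omega
    · have := hφ.lt a ha
      unfold col; split_ifs <;> omega
    · rw [← hφ.eq a b hab ha, sub, if_neg (h1 a b hab ha)]

theorem tower_amalg {A : Set ℕ} {g g' : ℕ → ℕ → Bool} {m n : ℕ} (h : Good A g m)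
    (h' : Good A g' n) {b : (T g m).G} {c : (T g' n).G} (hb : 1 < b) (hc : 1 < c) :
    ∃ g'' l, Good A g'' l ∧ ∃ (f : (T g m).G →* (T g'' l).G) (f' : (T g' n).G →* (T g'' l).G),
      (∀ a, 1 < a → 1 < f a) ∧ (∀ a, 1 < a → 1 < f' a) ∧ f b = f' c := by
  obtain ⟨E, hE⟩ := straighten g m b hb
  obtain ⟨E', hE'⟩ := straighten g' n c hc
  have hi := (T g m).lv_lt b hb.ne'
  have hj := (T g' n).lv_lt c hc.ne'
  rw [T_ht] at hi hj
  generalize (T g m).lv b = i at hE hi
  generalize (T g' n).lv c = j at hE' hj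
  obtain ⟨F, hF⟩ := exists_emb g (sub g g' j m) (fun a => j + a) (m + n - 1) m
    (fun _ _ _ _ => by omega) (fun _ _ => by omega) fun a b _ _ => by
      rw [sub, if_pos (by omega)]; simp only [add_tsub_cancel_left]
  have hcol : ∀ a, col j m (if a < j then a else if a = j then j + i else a + m - 1) = a :=
    fun a => by unfold col; split_ifs <;> omega
  obtain ⟨F', hF'⟩ := exists_emb g' (sub g g' j m)
    (fun a => if a < j then a else if a = j then j + i else a + m - 1) (m + n - 1) n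
    (fun _ _ _ _ => by split_ifs <;> omega) (fun _ _ => by split_ifs <;> omega) fun a b _ _ => by
      rw [sub, if_neg (by split_ifs <;> omega), hcol, hcol]
  refine ⟨_, _, good_sub h h' hj, (F.comp E).f, (F'.comp E').f, (F.comp E).pos, (F'.comp E').pos, ?_⟩
  show F.f (E.f b) = F'.f (E'.f c)
  rw [hE, hE', hF i hi, hF' j hj]
  simp

end Pool.Agent.MP_a2e0a9_al.H74

end

-- part MP_a2e0a9_al.H74.Var
section

/-! The varieties generated by good towers. -/

namespace Pool.Agent.MP_a2e0a9_al.H74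

open LG Filter

universe u v

/-- A tower as a lattice-ordered group. -/
noncomputable abbrev tl (g : ℕ → ℕ → Bool) (n : ℕ) : LGrp.{0} := { carrier := (T g n).G }

/-- The identities of the good towers. -/
def Φ (A : Set ℕ) : Set (Term × Term) := {p | ∀ g n, Good A g n → Sat {p} (tl g n)}

theorem sat_tl {A : Set ℕ} {g : ℕ → ℕ → Bool} {n : ℕ} (h : Good A g n) : Sat (Φ A) (tl g n) :=
  fun p hp => hp g n h p rfl

theorem mem_Φ {A : Set ℕ} {s t : Term}
    (h : ∀ g n, Good A g n → ∀ x : ℕ → (T g n).G, s.eval x = t.eval x) : (s, t) ∈ Φ A :=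
  fun g n hg _ hp => hp ▸ h g n hg

/-- Products. -/
abbrev piL {ι : Type u} (D : ι → LGrp.{v}) : LGrp.{max u v} where
  carrier := ∀ i, (D i).carrier
  ml := ⟨fun a b c h i => mul_le_mul_right ((show b ≤ c from h) i) (a i)⟩
  mr := ⟨fun a b c h i => mul_le_mul_left ((show b ≤ c from h) i) (a i)⟩

theorem sat_pi {ι : Type u} {D : ι → LGrp.{v}} {S : Set (Term × Term)} (h : ∀ i, Sat S (D i)) :
    Sat S (piL D) := fun p hp x => funext fun i => by
  have e : IsLHom (G := piL D) (H := D i) fun a => a i :=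
    ⟨fun _ _ => rfl, fun _ _ => rfl, fun _ _ => rfl⟩
  exact (e.eval x _).symm.trans ((h i p hp _).trans (e.eval x _))

/-- Reduced powers. -/
abbrev germL {I : Type u} (l : Filter I) (E : LGrp.{0}) : LGrp.{u} where
  carrier := Germ l E.carrier
  ml := ⟨fun a b c => Germ.inductionOn₃ a b c fun a _ _ h =>
    (Germ.coe_le.1 h).mono fun i hi => mul_le_mul_right hi (a i)⟩
  mr := ⟨fun a b c => Germ.inductionOn₃ a b c fun a _ _ h =>
    (Germ.coe_le.1 h).mono fun i hi => mul_le_mul_left hi (a i)⟩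

theorem sat_germ {I : Type u} (l : Filter I) {E : LGrp.{0}} {S : Set (Term × Term)}
    (h : Sat S E) : Sat S (germL l E) := fun p hp x => by
  have e : IsLHom (G := piL fun _ : I => E) (H := germL l E) fun a => (a : Germ l E.carrier) :=
    ⟨fun _ _ => rfl, fun _ _ => rfl, fun _ _ => rfl⟩
  choose y hy using fun n => Germ.inductionOn (x n)
    (p := fun z => ∃ y : I → E.carrier, (y : Germ l E.carrier) = z) fun y => ⟨y, rfl⟩
  rw [← funext hy, e.eval, e.eval, sat_pi (fun _ => h) p hp]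

/-- Natural powers of a term. -/
def tpow (t : Term) : ℕ → Term
  | 0 => .one
  | n + 1 => .mul (tpow t n) t

/-- Integer powers of a term. -/
def tz (t : Term) : ℤ → Term
  | .ofNat n => tpow t n
  | .negSucc n => .inv (tpow t (n + 1))

/-- Meet of the positive parts. -/
def meet (t : Term) (L : List Term) : Term :=
  L.foldr (fun s r => .inf (.sup s .one) r) (.sup t .one)

section
variable {G : Type u} [Group G] [Lattice G] (x : ℕ → G)

theorem tpow_eval (t : Term) : ∀ n, (tpow t n).eval x = t.eval x ^ n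
  | 0 => (pow_zero _).symm
  | n + 1 => by rw [pow_succ, ← tpow_eval t n]; rfl

theorem tz_eval (t : Term) : ∀ k, (tz t k).eval x = t.eval x ^ k
  | .ofNat n => (tpow_eval x t n).trans (zpow_natCast _ _).symm
  | .negSucc n => by rw [zpow_negSucc, ← tpow_eval]; rfl

theorem meet_eval (tot : ∀ a b : G, a ≤ b ∨ b ≤ a) (t : Term) (L : List Term) :
    1 ≤ (meet t L).eval x ∧ (1 < (meet t L).eval x ↔ ∀ s ∈ t :: L, 1 < s.eval x) := by
  have h1 : ∀ a : G, 1 < a ⊔ 1 ↔ 1 < a := fun a => by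
    rcases tot a 1 with h | h
    · rw [sup_eq_right.2 h]; exact iff_of_false (lt_irrefl _) h.not_gt
    · rw [sup_eq_left.2 h]
  have h2 : ∀ a b : G, 1 < a ⊓ b ↔ 1 < a ∧ 1 < b := fun a b =>
    ⟨fun h => ⟨h.trans_le inf_le_left, h.trans_le inf_le_right⟩, fun h => by
      rcases tot a b with h' | h'
      · rw [inf_eq_left.2 h']; exact h.1
      · rw [inf_eq_right.2 h']; exact h.2⟩
  induction L with
  | nil => exact ⟨le_sup_right, (h1 _).trans (by simp)⟩
  | cons s L ih =>
    refine ⟨le_inf le_sup_right ih.1, (h2 _ _).trans ((and_congr (h1 _) ih.2).trans ?_)⟩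
    simp only [List.forall_mem_cons]
    tauto
end

variable {A : Set ℕ}

theorem transfer {B : LGrp.{u}} (hB : Sat (Φ A) B) {H : LGrp.{v}}
    (tot : ∀ a b : H.carrier, a ≤ b ∨ b ≤ a) {f : B.carrier → H.carrier} (hf : IsLHom f)
    (x : ℕ → B.carrier) {J : Type} [Finite J] (t : J → Term) (ht : ∀ j, 1 < f ((t j).eval x)) :
    ∃ g n, Good A g n ∧ ∃ y : ℕ → (T g n).G, ∀ j, 1 < (t j).eval y := by
  have := Fintype.ofFinite J
  have hm : ∀ j, t j ∈ Finset.univ.toList.map t := fun j => List.mem_map_of_mem (by simp only [Finset.mem_toList, Finset.mem_univ])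
  have hm' : ∀ s ∈ Finset.univ.toList.map t, 1 < s.eval fun n => f (x n) := fun s hs => by
    obtain ⟨j, -, rfl⟩ := List.mem_map.1 hs
    rw [hf.eval]; exact ht j
  generalize Finset.univ.toList.map t = L at hm hm'
  rcases L with _ | ⟨s, L⟩
  · exact ⟨fun _ _ => true, 1, good_one _ _, fun _ => 1, fun j => absurd (hm j) (by simp)⟩
  by_contra hc
  have h1 : (meet s L, Term.one) ∈ Φ A := mem_Φ fun g n hg y => by
    obtain ⟨h2, h3⟩ := meet_eval y le_total s L
    exact (h2.eq_or_lt.resolve_right fun h => hc ⟨g, n, hg, y, fun j => h3.1 h _ (hm j)⟩).symm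
  have h2 := (meet_eval _ tot s L).2.2 hm'
  rw [hf.eval, hB _ h1 x] at h2
  exact h2.ne' hf.map_one

theorem representable {G : LGrp.{u}} (hG : Sat (Φ A) G) : Representable G := by
  by_contra h
  obtain ⟨a, g, h1, h2⟩ := exists_disj_of_not_rep h
  have h3 : (Term.inf (.mul (.var 0) (.inv (.inf (.var 0) (.var 1))))
      (.mul (.mul (.var 2) (.mul (.var 1) (.inv (.inf (.var 0) (.var 1))))) (.inv (.var 2))),
      Term.one) ∈ Φ A := mem_Φ fun g n _ y => by
    simp only [Term.eval]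
    rcases le_total (y 0) (y 1) with h | h
    · rw [inf_eq_left.2 h, mul_inv_cancel, inf_eq_left]
      exact one_le_conj (by simpa only [le_mul_inv_iff_mul_le, one_mul] using h) _ _ (mul_inv_cancel _)
    · rw [inf_eq_right.2 h, mul_inv_cancel, mul_one, mul_inv_cancel, inf_eq_right]
      simpa only [le_mul_inv_iff_mul_le, one_mul] using h
  have h4 := hG _ h3 fun n => if n = 0 then a else if n = 1 then g⁻¹ * a * g else g
  have h5 : a * (a ⊓ (g⁻¹ * a * g))⁻¹ ⊓ (g * (g⁻¹ * a * g * (a ⊓ (g⁻¹ * a * g))⁻¹) * g⁻¹) = 1 := h4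
  rw [h2] at h5
  simp only [inv_one, mul_one, mul_assoc, mul_inv_cancel_left, mul_inv_cancel, Std.le_refl, inf_of_le_left] at h5
  exact h1.ne' h5

theorem one_lt_mul_inv_iff_lt {G : Type} [Group G] [LinearOrder G] [MulRightMono G] {a b : G} :
    1 < a * b⁻¹ ↔ b < a := by rw [lt_mul_inv_iff_mul_lt, one_mul]

theorem mem_of_sat {k : ℕ} (h : Sat (Φ A) (tl (cyc k) (k + 4))) : k ∈ A := by
  let z : ℕ → ℕ → Term := fun a b => if cyc k a b then .var b else .inv (.var b)
  let t : Fin (k + 4) × Fin (k + 4) → Term := fun p => if p.2 < p.1 then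
    .mul (.mul (.mul (z p.1 p.2) (.var p.1)) (.inv (z p.1 p.2))) (.inv (.mul (.var p.1) (.var p.1)))
    else .var p.1
  obtain ⟨g, n, hg, y, hy⟩ := transfer h (H := tl (cyc k) (k + 4)) le_total (f := fun a => a)
    ⟨fun _ _ => rfl, fun _ _ => rfl, fun _ _ => rfl⟩ (U (cyc k) (k + 4)) t fun ⟨a, b⟩ => by
      obtain ⟨h1, h2⟩ := U_spec (cyc k) (k + 4) a a.2
      obtain ⟨h3, h4⟩ := U_spec (cyc k) (k + 4) b b.2
      simp only [t]
      split_ifs with hab
      · refine one_lt_mul_inv_iff_lt.2 ((signs (cyc k) (k + 4) _ _ h1).1 ?_)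
        rw [LG.Q, lv_inv, h2]
        simp only [z]
        split_ifs with h5 <;> simp_all [Term.eval, lv_inv]
      · exact h1
  have h1 : ∀ a < k + 4, 1 < y a := fun a ha => by simpa [t, Term.eval] using hy (⟨a, ha⟩, ⟨a, ha⟩)
  have h2 : ∀ a b, b < a → a < k + 4 → (T g n).lv (y b) < (T g n).lv (y a) ∧
      g ((T g n).lv (y a)) ((T g n).lv (y b)) = cyc k a b := fun a b hab ha => by
    have h3 := hy (⟨a, ha⟩, ⟨b, hab.trans ha⟩)
    simp only [t, Fin.mk_lt_mk, if_pos hab] at h3
    have h4 := not_not.1 (mt (signs g n _ _ (h1 a ha)).2 (one_lt_mul_inv_iff_lt.1 h3).not_gt)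
    have h5 := (h1 b (hab.trans ha)).le
    rw [LG.Q, lv_inv] at h4
    simp only [z] at h4
    cases h6 : cyc k a b <;> simp only [h6, Term.eval, lv_inv, if_true, Bool.false_eq_true,
      if_false] at h4 <;> refine ⟨h4.1, ?_⟩ <;> by_contra h7 <;> simp_all [not_lt_of_ge]
  exact hg k (fun a => (T g n).lv (y a)) ⟨fun a b hab ha => (h2 a b hab ha).1,
    fun a ha => ((T g n).lv_lt _ (h1 a ha).ne').trans_eq (T_ht g n), fun a b hab ha => (h2 a b hab ha).2⟩

theorem subset_iff {B : Set ℕ} : A ⊆ B ↔ ∀ G : LGrp.{u}, Sat (Φ A) G → Sat (Φ B) G := by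
  refine ⟨fun h G hG p hp => hG p fun g n hg => hp g n fun k φ hφ => h (hg k φ hφ),
    fun h k hk => mem_of_sat ?_⟩
  exact IsLEmb.sat (H := piL fun _ : PUnit.{u + 1} => tl (cyc k) (k + 4)) (f := fun a _ => a)
    ⟨⟨fun _ _ => rfl, fun _ _ => rfl, fun _ _ => rfl⟩, fun _ _ e => congrFun e ⟨⟩⟩
    (h _ (sat_pi fun _ => sat_tl (good_cyc hk)))

end Pool.Agent.MP_a2e0a9_al.H74

end

-- part MP_a2e0a9_al.H74.Am
section

/-! The integers are an amalgamation base of the varieties generated by good towers. -/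

namespace Pool.Agent.MP_a2e0a9_al.H74

open LG Filter

universe u v w

variable {A : Set ℕ}

/-- `v` solves the diagram of `f` on `F`. -/
def Ex {B : Type u} {H : Type v} {G : Type} [Group H] [Lattice H] [Group G] [LinearOrder G]
    (F : Finset B) (f : B → H) (v : B → G) : Prop :=
  (∀ a ∈ F, 1 < f a → 1 < v a) ∧ ∀ a ∈ F, ∀ b ∈ F, ∀ c ∈ F, f a * f b = f c → v a * v b = v c

theorem Ex.map {B : Type u} {H : Type v} {G G' : Type} [Group H] [Lattice H] [Group G]
    [LinearOrder G] [Group G'] [LinearOrder G'] {F F' : Finset B} {f : B → H} {v : B → G}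
    (h : Ex F f v) (hF : F' ⊆ F) (j : G →* G') (hj : ∀ a, 1 < a → 1 < j a) :
    Ex F' f fun a => j (v a) :=
  ⟨fun a ha h1 => hj _ (h.1 a (hF ha) h1), fun a ha b hb c hc e => by
    rw [← map_mul, h.2 a (hF ha) b (hF hb) c (hF hc) e]⟩

theorem exists_ex {B : LGrp.{u}} (hB : Sat (Φ A) B) {H : LGrp.{v}}
    (tot : ∀ a b : H.carrier, a ≤ b ∨ b ≤ a) {f : B.carrier → H.carrier} (hf : IsLHom f)
    (F : Finset B.carrier) : ∃ g n, Good A g n ∧ ∃ v : B.carrier → (T g n).G, Ex F f v := by
  classical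
  obtain ⟨n, x, hx⟩ : ∃ (n : ℕ) (x : ℕ → B.carrier), ∀ a ∈ F, ∃ i : Fin n, x i = a :=
    ⟨F.toList.length, fun i => F.toList.getD i 1, fun a ha => by
      obtain ⟨i, hi, rfl⟩ := List.mem_iff_getElem.1 (Finset.mem_toList.2 ha)
      exact ⟨⟨i, hi⟩, List.getD_eq_getElem _ _ hi⟩⟩
  choose ix hix using hx
  let κ := {r : Fin n × Fin n × Fin n // f (x r.1) * f (x r.2.1) = f (x r.2.2)}
  let Ps : Fin n → Prop := fun p => 1 < f (x p)
  obtain ⟨N, hN⟩ := approx (fun r : κ => r.1.1) (fun r => r.1.2.1) (fun r => r.1.2.2) Ps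
  let K := ({(N : ℤ), -(N : ℤ)} : Set ℤ)
  let t : {p // Ps p} ⊕ {p // Ps p} × κ × Fin n × K × K → Term := Sum.elim (fun p => .var p.1)
    fun q => .mul (.var q.1.1) (.inv (.mul (.mul (tz (.var q.2.2.1) q.2.2.2.1)
      (tz (.mul (.mul (.var q.2.1.1.1) (.var q.2.1.1.2.1)) (.inv (.var q.2.1.1.2.2))) q.2.2.2.2))
      (.inv (tz (.var q.2.2.1) q.2.2.2.1))))
  obtain ⟨g, m, hg, y, hy⟩ := transfer hB tot hf x t fun j => by
    rcases j with p | ⟨p, r, j, k, l⟩
    · exact p.2
    · rw [← hf.eval]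
      simp only [t, Sum.elim_inr, Term.eval, tz_eval, r.2, mul_inv_cancel, one_zpow, mul_one,
        inv_one]
      exact p.2
  obtain ⟨m', hm, v, h1, h2⟩ := hN g m (fun i => y i) fun p hp => ⟨hy (.inl ⟨p, hp⟩),
    fun r j k l hk hl => by
      have := hy (.inr (⟨p, hp⟩, r, j, ⟨k, hk⟩, ⟨l, hl⟩))
      simp only [t, Sum.elim_inr, Term.eval, tz_eval] at this
      exact (one_lt_mul_inv_iff_lt.1 this).le⟩
  refine ⟨g, m', hg.le hm, fun a => if h : a ∈ F then v (ix a h) else 1, fun a ha h => ?_,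
    fun a ha b hb c hc h => ?_⟩
  · simp only [dif_pos ha]
    exact h1 _ (by simpa only [Ps, hix] using h)
  · simp only [dif_pos ha, dif_pos hb, dif_pos hc]
    exact h2 ⟨(ix a ha, ix b hb, ix c hc), by simpa only [hix] using h⟩

/-- `w` is a homomorphism as far as `F` can see. -/
def Loc {B : LGrp.{u}} {H : LGrp.{v}} {E : LGrp.{0}} (F : Finset B.carrier)
    (f : B.carrier → H.carrier) (w : B.carrier → E.carrier) : Prop :=
  (∀ a ∈ F, 1 < f a → w a ≠ 1) ∧ ∀ a b, (∀ c ∈ [a, b, a * b, a ⊔ b, a⁻¹ * b, b⁻¹ * a, 1], c ∈ F) →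
    w (a * b) = w a * w b ∧ w (a ⊔ b) = w a ⊔ w b

theorem Ex.loc {B : LGrp.{u}} {H : LGrp.{v}} {E : LGrp.{0}} {F : Finset B.carrier}
    (tot : ∀ a b : H.carrier, a ≤ b ∨ b ≤ a) {f : B.carrier → H.carrier} (hf : IsLHom f)
    {g : ℕ → ℕ → Bool} {n : ℕ} {v : B.carrier → (T g n).G} (h : Ex F f v)
    {j : (tl g n).carrier → E.carrier} (hj : IsLEmb j) : Loc F f fun a => j (v a) := by
  refine ⟨fun a ha h1 => hj.ne_one (h.1 a ha h1).ne', fun a b hF => ?_⟩
  simp only [List.forall_mem_cons] at hF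
  obtain ⟨h1, h2, h3, h4, h5, h6, h7, -⟩ := hF
  have e1 : v 1 = 1 := by simpa using h.2 1 h7 1 h7 1 h7 (by rw [hf.map_one, mul_one])
  have e2 : ∀ c ∈ F, ∀ d ∈ F, f c = f d → v c = v d := fun c hc d hd e => by
    simpa [e1] using h.2 c hc 1 h7 d hd (by rw [hf.map_one, mul_one, e])
  have e3 : ∀ c ∈ F, ∀ d ∈ F, c⁻¹ * d ∈ F → f c ≤ f d → v c ≤ v d := fun c hc d hd hcd e => by
    rcases e.eq_or_lt with e | e
    · exact (e2 c hc d hd e).le
    · rw [← h.2 c hc _ hcd d hd (by rw [← hf.1, mul_inv_cancel_left])]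
      exact le_mul_of_one_le_right' (h.1 _ hcd (by rw [hf.1, hf.map_inv]; simpa using e)).le
  refine ⟨?_, ?_⟩
  · rw [← hj.1.1, h.2 a h1 b h2 _ h3 (hf.1 a b).symm]
  · rw [← hj.1.2.1]
    refine congrArg j ?_
    rcases tot (f a) (f b) with e | e
    · rw [sup_eq_right.2 (e3 a h1 b h2 h5 e)]
      exact e2 _ h4 _ h2 (by rw [hf.2.1, sup_eq_right.2 e])
    · rw [sup_eq_left.2 (e3 b h2 a h1 h6 e)]
      exact e2 _ h4 _ h1 (by rw [hf.2.1, sup_eq_left.2 e])

theorem germ_hom {B : LGrp.{u}} {H : LGrp.{v}} {E : LGrp.{0}} {I : Type w} (l : Filter I)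
    [l.NeBot] (s : I → Finset B.carrier) (hs : ∀ F, ∀ᶠ i in l, F ⊆ s i)
    {f : B.carrier → H.carrier} {w : I → B.carrier → E.carrier} (h : ∀ i, Loc (s i) f (w i)) :
    IsLHom (H := germL l E) (fun a => ((fun i => w i a : I → E.carrier) : Germ l E.carrier)) ∧
      ∀ a, 1 < f a → ((fun i => w i a : I → E.carrier) : Germ l E.carrier) ≠ 1 := by
  classical
  have key := fun a b => (hs [a, b, a * b, a ⊔ b, a⁻¹ * b, b⁻¹ * a, 1].toFinset).mono
    fun i hi => (h i).2 a b fun c hc => hi (List.mem_toFinset.2 hc)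
  refine ⟨isLHom_of (fun a b => Germ.coe_eq.2 ((key a b).mono fun i hi => hi.1))
    fun a b => Germ.coe_eq.2 ((key a b).mono fun i hi => hi.2), fun a ha e => ?_⟩
  obtain ⟨i, h1, h2⟩ := ((hs {a}).and (Germ.coe_eq.1 e)).exists
  exact (h i).1 a (h1 (Finset.mem_singleton_self a)) ha h2

theorem isLHom_one {B : LGrp.{u}} {H : LGrp.{v}} : IsLHom (G := B) (H := H) fun _ => 1 :=
  ⟨by simp, by simp, by simp⟩

theorem half {B C : LGrp.{u}} (hB : Sat (Φ A) B) (hC : Sat (Φ A) C) {b : B.carrier}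
    {c : C.carrier} (hb : 1 < b) (hc : 1 < c) (x : B.carrier) :
    ∃ (D : LGrp.{u}) (h : B.carrier → D.carrier) (k : C.carrier → D.carrier),
      Sat (Φ A) D ∧ IsLHom h ∧ IsLHom k ∧ h b = k c ∧ (h x = 1 → x = 1) := by
  classical
  by_cases hx : x = 1
  · exact ⟨B, _, _, hB, isLHom_one, isLHom_one, rfl, fun _ => hx⟩
  obtain ⟨H, f, tot, hf, hfx⟩ := representable hB x hx
  let M := fun p : {p : (ℕ → ℕ → Bool) × ℕ // Good A p.1 p.2} => tl p.1.1 p.1.2
  let E := piL M
  have hM : ∀ i, IsLEmb (G := M i) (H := E) (Pi.mulSingle (M := fun p => (M p).carrier) i) :=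
    fun i =>
    ⟨isLHom_of (Pi.mulSingle_mul (f := fun p => (M p).carrier) i)
      (Pi.mulSingle_sup (f := fun p => (M p).carrier) i),
      Pi.mulSingle_injective (M := fun p => (M p).carrier) i⟩
  have hE : ∀ g n, Good A g n → ∃ j : (tl g n).carrier → E.carrier, IsLEmb j := fun g n hg =>
    ⟨_, hM ⟨(g, n), hg⟩⟩
  obtain ⟨H', f', tot', hf', pair⟩ : ∃ (H' : LGrp.{u}) (f' : C.carrier → H'.carrier),
      (∀ a b : H'.carrier, a ≤ b ∨ b ≤ a) ∧ IsLHom f' ∧ ∀ F F', ∃ g n, Good A g n ∧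
        ∃ (v : B.carrier → (T g n).G) (v' : C.carrier → (T g n).G),
          Ex F f v ∧ Ex F' f' v' ∧ v b = v' c := by
    rcases (hf.one_le hb.le).eq_or_lt with h | h
    · refine ⟨H, _, tot, isLHom_one, fun F F' => ?_⟩
      obtain ⟨g, n, hg, v, hv⟩ := exists_ex hB tot hf (insert b F)
      refine ⟨g, n, hg, v, fun _ => 1, hv.map (Finset.subset_insert _ _) (MonoidHom.id _)
        fun _ h => h, ⟨fun _ _ h => absurd h (lt_irrefl _), fun _ _ _ _ _ _ _ => mul_one _⟩, ?_⟩
      have := Finset.mem_insert_self b F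
      simpa using hv.2 b this b this b this (by rw [← h, mul_one])
    · obtain ⟨H', f', tot', hf', h'⟩ := representable hC c hc.ne'
      refine ⟨H', f', tot', hf', fun F F' => ?_⟩
      obtain ⟨g, n, hg, v, hv⟩ := exists_ex hB tot hf (insert b F)
      obtain ⟨g', n', hg', v', hv'⟩ := exists_ex hC tot' hf' (insert c F')
      obtain ⟨g'', l, h1, j, j', h2, h3, h4⟩ := tower_amalg hg hg'
        (hv.1 b (Finset.mem_insert_self _ _) h)
        (hv'.1 c (Finset.mem_insert_self _ _) ((hf'.one_le hc.le).lt_of_ne' h'))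
      exact ⟨g'', l, h1, _, _, hv.map (Finset.subset_insert _ _) j h2,
        hv'.map (Finset.subset_insert _ _) j' h3, h4⟩
  have key : ∀ i : Finset B.carrier × Finset C.carrier, ∃ (w : B.carrier → E.carrier)
      (w' : C.carrier → E.carrier), Loc i.1 f w ∧ Loc i.2 f' w' ∧ w b = w' c := fun i => by
    obtain ⟨g, n, hg, v, v', h1, h2, h3⟩ := pair i.1 i.2
    obtain ⟨j, hj⟩ := hE g n hg
    exact ⟨_, _, h1.loc tot hf hj, h2.loc tot' hf' hj, congrArg j h3⟩
  choose w w' h1 h2 h3 using key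
  obtain ⟨h4, h5⟩ := germ_hom atTop Prod.fst
    (fun F => (eventually_ge_atTop (F, ∅)).mono fun _ h => (Prod.le_def.1 h).1) h1
  obtain ⟨h6, -⟩ := germ_hom atTop Prod.snd
    (fun F => (eventually_ge_atTop (∅, F)).mono fun _ h => (Prod.le_def.1 h).2) h2
  refine ⟨_, _, _, sat_germ _ (sat_pi fun p => sat_tl p.2), h4, h6,
    congrArg _ (funext h3), fun e => ?_⟩
  rcases tot 1 (f x) with h | h
  · exact absurd e (h5 x (h.lt_of_ne' hfx))
  · refine absurd ((h4.map_inv x).trans (inv_eq_one.2 e)) (h5 x⁻¹ ?_)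
    rw [hf.map_inv]
    exact one_lt_inv'.2 (h.lt_of_ne hfx)

theorem amalgBase (A : Set ℕ) : IsAmalgBase.{u} (Φ A) intLGrp := by
  refine ⟨(int_emb (G := tl (fun _ _ => true) 1) (U_spec _ 1 0 one_pos).1).sat
    (sat_tl (good_one _ _)), fun B C hB hC f g hf hg => ?_⟩
  obtain ⟨b, hb, hfb⟩ := emb_int hf
  obtain ⟨c, hc, hgc⟩ := emb_int hg
  have key : ∀ i : B.carrier ⊕ C.carrier, ∃ (D : LGrp.{u}) (h : B.carrier → D.carrier)
      (k : C.carrier → D.carrier), Sat (Φ A) D ∧ IsLHom h ∧ IsLHom k ∧ h b = k c ∧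
      (∀ g, i = Sum.inl g → h g = 1 → g = 1) ∧ (∀ g, i = Sum.inr g → k g = 1 → g = 1) := by
    rintro (g | g)
    · obtain ⟨D, h, k, h1, h2, h3, h4, h5⟩ := half hB hC hb hc g
      exact ⟨D, h, k, h1, h2, h3, h4, fun g' hg => Sum.inl.inj hg ▸ h5,
        fun g' hg => absurd hg Sum.inl_ne_inr⟩
    · obtain ⟨D, k, h, h1, h2, h3, h4, h5⟩ := half hC hB hc hb g
      exact ⟨D, h, k, h1, h3, h2, h4.symm, fun g' hg => absurd hg Sum.inr_ne_inl,
        fun g' hg => Sum.inr.inj hg ▸ h5⟩
  choose D h k h1 h2 h3 h4 h5 h6 using key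
  have e1 : IsLHom (H := piLGrp D) fun a i => h i a :=
    isLHom_of (fun x y => funext fun i => (h2 i).1 x y) fun x y => funext fun i => (h2 i).2.1 x y
  have e2 : IsLHom (H := piLGrp D) fun a i => k i a :=
    isLHom_of (fun x y => funext fun i => (h3 i).1 x y) fun x y => funext fun i => (h3 i).2.1 x y
  refine ⟨piLGrp D, _, _, sat_pi h1, e1.emb fun a ha => h5 _ a rfl (congrFun ha _),
    e2.emb fun a ha => h6 _ a rfl (congrFun ha _), funext fun n => ?_⟩
  show (fun a i => h i a) (f n) = (fun a i => k i a) (g n)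
  rw [hfb n, hgc n]
  exact (e1.map_zpow _ _).trans ((congrArg (· ^ _) (funext h4)).trans (e2.map_zpow _ _).symm)

end Pool.Agent.MP_a2e0a9_al.H74

end
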