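import Pool.Agent.MP_a2e0a9_al.Mg.Ext

-- part MP_a2e0a9_al.Straight
section

/-! Straightening and the general amalgamation lemma for normal-valued groups. -/

namespace Pool.Agent.MP_a2e0a9_al

universe u

section
variable {C : Type u} [Group C] [Lattice C] {Ω : Type u} [LinearOrder Ω] {ρ : C → Ω → Ω}
  {Γ : Type u} [LinearOrder Γ] {s : Γ → Ω → ℝ}
  {E : Type u} [Group E] [Lattice E] {Λ : Type u} [LinearOrder Λ] {μ : E → Λ → Λ}
  {l0 : Λ} {β m : ℝ → E}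

namespace Setup
variable (H : Setup ρ s μ l0 β m) (c : C)

/-- The triangular group. -/
abbrev DD : Type u := AutP (closed_tri (Γ := Γ) (l0 := l0) H.hμ)

/-- Shift property on active blocks. -/
def Shift (φ : H.DD) (t : ℝ) : Prop := ∀ γ f, H.Act c γ f →
  Agree γ f (φ.app f) ∧ (φ.app f).val γ = μ (β (t * H.σ γ c f)) (f.val γ)

variable {H} {c}

theorem Shift.mul {φ ψ : H.DD} {a b : ℝ} (h1 : H.Shift c φ a) (h2 : H.Shift c ψ b) :
    H.Shift c (φ * ψ) (a + b) := by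
  intro γ f h
  obtain ⟨e1, e2⟩ := h2 γ f h
  obtain ⟨e3, e4⟩ := h1 γ _ (h.congr e1)
  refine ⟨e1.trans e3, ?_⟩
  rw [AutP.app_mul, e4, e2, ← H.σ_congr c e1, add_mul, H.hF.add, H.hμ.mul]

theorem Shift.one : H.Shift c 1 0 := fun γ f _ =>
  ⟨Agree.refl _ _, by rw [zero_mul, H.hF.zero, H.hμ.one]; rfl⟩

theorem Shift.inv {φ : H.DD} {a : ℝ} (h1 : H.Shift c φ a) : H.Shift c φ⁻¹ (-a) := by
  intro γ f h
  have e1 : Agree γ f (φ⁻¹.app f) :=
    Tri.agree_rev H.hμ φ.prop (by rw [AutP.app_inv]; exact (h1 γ f h).1.symm)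
  refine ⟨e1, ?_⟩
  have e2 := (h1 γ _ (h.congr e1)).2
  rw [AutP.app_inv, ← H.σ_congr c e1] at e2
  rw [e2, ← H.hμ.mul, ← H.hF.add, neg_mul, neg_add_cancel, H.hF.zero, H.hμ.one]

theorem Shift.zpow {φ : H.DD} (h1 : H.Shift c φ 1) (j : ℤ) : H.Shift c (φ ^ j) j := by
  induction j using Int.induction_on with
  | zero => simpa using Shift.one
  | succ n ih => rw [zpow_add_one]; push_cast; exact ih.mul h1
  | pred n ih => rw [zpow_sub_one, sub_eq_add_neg]; push_cast at ih ⊢; exact ih.mul h1.inv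

variable (H) (c)

open Classical in
/-- The integer time of a point on an active block. -/
noncomputable def ν (f : Hahn Γ l0) : ℤ :=
  if h : ∃ p : Γ × ℝ, H.Act c p.1 f ∧ f.val p.1 = μ (β p.2) l0 then
    ⌊h.choose.2 / H.σ h.choose.1 c f⌋ else 0

variable {H} {c}

theorem ν_eq {γ : Γ} {t : ℝ} {f : Hahn Γ l0} (h : H.Act c γ f) (ht : f.val γ = μ (β t) l0) :
    H.ν c f = ⌊t / H.σ γ c f⌋ := by
  have h1 : ∃ p : Γ × ℝ, H.Act c p.1 f ∧ f.val p.1 = μ (β p.2) l0 := ⟨(γ, t), h, ht⟩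
  rw [ν, dif_pos h1]
  have e1 : h1.choose.1 = γ := h1.choose_spec.1.unique h
  have e2 := h1.choose_spec.2
  rw [e1, ht] at e2
  rw [e1, ← (H.hF.strictMono H.hμ).injective e2]

theorem ν_zero {f : Hahn Γ l0} (h : ¬ ∃ γ t, H.Act c γ f ∧ f.val γ = μ (β t) l0) :
    H.ν c f = 0 := by
  rw [ν, dif_neg fun ⟨p, hp⟩ => h ⟨p.1, p.2, hp⟩]

theorem ν_congr {γ : Γ} {f g : Hahn Γ l0} (h : H.Act c γ f) (ha : Agree γ f g)
    (hv : f.val γ = g.val γ) : H.ν c f = H.ν c g := by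
  by_cases h1 : ∃ t, f.val γ = μ (β t) l0
  · obtain ⟨t, ht⟩ := h1
    rw [ν_eq h ht, ν_eq (h.congr ha) (hv ▸ ht), H.σ_congr c ha]
  · rw [ν_zero, ν_zero]
    · rintro ⟨δ, t, h2, h3⟩
      rw [h2.unique (h.congr ha), ← hv] at h3
      exact h1 ⟨t, h3⟩
    · rintro ⟨δ, t, h2, h3⟩
      rw [h2.unique h] at h3
      exact h1 ⟨t, h3⟩

theorem ν_twist {p q : H.DD} (hp : H.Shift c p 1) (hq : H.Shift c q 1) (f : Hahn Γ l0) :
    (∀ γ, H.Act c γ f → Agree γ f ((q ^ H.ν c f * p ^ (-H.ν c f)).app f) ∧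
      ((q ^ H.ν c f * p ^ (-H.ν c f)).app f).val γ = f.val γ) ∧
    H.ν c ((q ^ H.ν c f * p ^ (-H.ν c f)).app f) = H.ν c f := by
  have key : ∀ γ, H.Act c γ f → Agree γ f ((q ^ H.ν c f * p ^ (-H.ν c f)).app f) ∧
      ((q ^ H.ν c f * p ^ (-H.ν c f)).app f).val γ = f.val γ := by
    intro γ h
    have := ((hq.zpow (H.ν c f)).mul (hp.zpow (-H.ν c f))) γ f h
    refine ⟨this.1, ?_⟩
    rw [this.2]; push_cast
    rw [add_neg_cancel, zero_mul, H.hF.zero, H.hμ.one]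
  refine ⟨key, ?_⟩
  by_cases h1 : ∃ γ, H.Act c γ f
  · obtain ⟨γ, h⟩ := h1
    exact (ν_congr h (key γ h).1 (key γ h).2.symm).symm
  · have : H.ν c f = 0 := ν_zero fun ⟨γ, _, h, _⟩ => h1 ⟨γ, h⟩
    rw [this]; simpa [AutP.app_one] using this

theorem tri_twist {p q : H.DD} (hp : H.Shift c p 1) (hq : H.Shift c q 1) :
    Tri μ fun f => (q ^ H.ν c f * p ^ (-H.ν c f)).app f := by
  classical
  choose ε hε using fun j : ℤ => (q ^ j * p ^ (-j)).prop
  refine ⟨fun δ f => if ∃ γ, δ < γ ∧ H.Act c γ f then ε (H.ν c f) δ f else 1,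
    fun δ f g ha => ?_, fun δ f => ?_⟩
  · by_cases h1 : ∃ γ, δ < γ ∧ H.Act c γ f
    · obtain ⟨γ, h2, h3⟩ := id h1
      have h4 : ∃ γ, δ < γ ∧ H.Act c γ g := ⟨γ, h2, h3.congr (ha.up h2.le)⟩
      simp only [if_pos h1, if_pos h4]
      rw [ν_congr h3 (ha.up h2.le) (ha γ h2), (hε _).1 δ f g ha]
    · have h4 : ¬ ∃ γ, δ < γ ∧ H.Act c γ g := fun ⟨γ, h2, h3⟩ =>
        h1 ⟨γ, h2, h3.congr (ha.symm.up h2.le)⟩
      simp only [if_neg h1, if_neg h4]
  · by_cases h1 : ∃ γ, δ < γ ∧ H.Act c γ f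
    · simp only [if_pos h1]
      exact (hε _).2 δ f
    · simp only [if_neg h1, H.hμ.one]
      by_cases h2 : ∃ γ, H.Act c γ f
      · obtain ⟨γ, h⟩ := h2
        have h3 := (ν_twist hp hq f).1 γ h
        rcases eq_or_lt_of_le (not_lt.1 fun hc => h1 ⟨γ, hc, h⟩) with rfl | h4
        · exact h3.2
        · exact (h3.1 δ h4).symm
      · have : H.ν c f = 0 := ν_zero fun ⟨γ, _, h, _⟩ => h2 ⟨γ, h⟩
        rw [this]; simp [AutP.app_one]

theorem exists_straight (hc : 1 ≤ c) {p q : H.DD} (hp : ∀ f, p.app f = H.kf c f)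
    (hq : ∀ f, q.app f = H.Af c (β 1) f) : ∃ Θ : H.DD, Θ * p = q * Θ := by
  have sp : H.Shift c p 1 := by
    intro γ f h
    rw [hp, one_mul]
    exact ⟨fun δ hδ => by rw [kf_val, h.2 δ hδ, H.hF.zero, H.hμ.one], rfl⟩
  have sq : H.Shift c q 1 := by
    intro γ f h
    rw [hq, one_mul]
    exact ⟨Af_agree _ h, by rw [Af_of_act _ h, H.hF.scale _ (h.pos hc)]⟩
  refine ⟨AutP.mk' _ (fun f => (q ^ H.ν c f * p ^ (-H.ν c f)).app f)
    (fun f => (p ^ H.ν c f * q ^ (-H.ν c f)).app f) (tri_twist sp sq) (fun f => ?_) (fun f => ?_),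
    AutP.ext' fun f => ?_⟩
  · rw [(ν_twist sq sp f).2, ← AutP.app_mul]
    have : q ^ H.ν c f * p ^ (-H.ν c f) * (p ^ H.ν c f * q ^ (-H.ν c f)) = 1 := by group
    rw [this, AutP.app_one]
  · rw [(ν_twist sp sq f).2, ← AutP.app_mul]
    have : p ^ H.ν c f * q ^ (-H.ν c f) * (q ^ H.ν c f * p ^ (-H.ν c f)) = 1 := by group
    rw [this, AutP.app_one]
  · show (q ^ H.ν c (p.app f) * p ^ (-H.ν c (p.app f))).app (p.app f) =
      q.app ((q ^ H.ν c f * p ^ (-H.ν c f)).app f)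
    by_cases h1 : ∃ γ t, H.Act c γ f ∧ f.val γ = μ (β t) l0
    · obtain ⟨γ, t, h, ht⟩ := h1
      obtain ⟨e1, e2⟩ := sp γ f h
      rw [ht, ← H.hμ.mul, ← H.hF.add, one_mul] at e2
      have e3 : H.ν c (p.app f) = H.ν c f + 1 := by
        rw [ν_eq (h.congr e1) e2, ν_eq h ht, ← H.σ_congr c e1, add_div, div_self h.1, add_comm,
          Int.floor_add_one]
      rw [e3, ← AutP.app_mul, ← AutP.app_mul]
      congr 1; group
    · have e1 : H.ν c f = 0 := ν_zero h1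
      have e2 : p.app f = q.app f := by
        rw [hp, hq]
        ext δ
        by_cases h : H.Act c δ f
        · rw [Af_of_act _ h, H.hF.scale _ (h.pos hc), kf_val]
        · rw [Af_of_not _ h, kf_val]
          have : H.σ δ c f = 0 := by
            by_contra h2
            obtain ⟨γ, h3, h4⟩ := exists_act h2
            obtain ⟨x, hx⟩ := H.σ_wit h2
            have h5 : δ < γ := lt_of_le_of_ne h3 fun h6 => h (h6 ▸ h4)
            exact h1 ⟨γ, s γ x, h4, (hx γ h5).symm⟩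
          rw [this, H.hF.zero, H.hμ.one]
      have e3 : H.ν c (p.app f) = 0 := by
        refine ν_zero ?_
        rintro ⟨γ, t, h, ht⟩
        have h' : H.Act c γ f := by rw [e2, hq] at h; exact act_Af _ h
        refine h1 ⟨γ, -H.σ γ c f + t, h', ?_⟩
        rw [H.hF.add, H.hμ.mul, ← ht, (sp γ f h').2, ← H.hμ.mul, ← H.hF.add, one_mul,
          neg_add_cancel, H.hF.zero, H.hμ.one]
      rw [e1, e3]
      simpa [AutP.app_one] using e2

end Setup
end

/-- The general lemma. -/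
theorem general_lemma {C E : LGrp.{u}} {Ω : Type u} [LinearOrder Ω] {ρ : C.carrier → Ω → Ω}
    {Γ : Type u} [LinearOrder Γ] {s : Γ → Ω → ℝ} {Λ : Type u} [LinearOrder Λ]
    {μ : E.carrier → Λ → Λ} {l0 : Λ} {β m : ℝ → E.carrier} (H : Setup ρ s μ l0 β m)
    (hE : NormalValued E) {c : C.carrier} (hc : 1 ≤ c) :
    ∃ (D : LGrp.{u}) (Ω' : Type u) (_ : LinearOrder Ω') (ν : D.carrier → Ω' → Ω')
      (k : C.carrier → D.carrier) (h : E.carrier → D.carrier) (ι : Ω → Ω'),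
      NormalValued D ∧ IsLAct ν ∧ IsLHom k ∧ IsLHom h ∧ Function.Injective ι ∧
      (∀ g x, ν (k g) (ι x) = ι (ρ g x)) ∧ h (β 1) = k c := by
  obtain ⟨k, hk, hk'⟩ := exists_hom_of_act (closed_tri H.hμ) H.isLAct_kf H.tri_kf
  obtain ⟨A, hA, hA'⟩ := exists_hom_of_act (closed_tri H.hμ) (Setup.isLAct_Af (H := H) (c := c))
    Setup.tri_Af
  obtain ⟨Θ, hΘ⟩ := Setup.exists_straight hc (hk' c) (hA' (β 1))
  refine ⟨(closed_tri H.hμ).lgrp, Hahn Γ l0, inferInstance, AutP.app, k,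
    fun e => Θ⁻¹ * A e * Θ, H.emb, tri_normalValued H.hμ hE, AutP.isLAct, hk,
    isLHom_of (fun a b => ?_) (fun a b => ?_), H.emb_mono.injective, fun g x => ?_, ?_⟩
  · rw [hA.1]; group
  · rw [hA.2.1, mul_sup, sup_mul]
  · rw [hk', H.kf_emb]
  · simp only
    rw [mul_assoc, ← hΘ, inv_mul_cancel_left]

end Pool.Agent.MP_a2e0a9_al

end

-- part MP_a2e0a9_al.AmalN
section

/-! The integers are an amalgamation base of the normal-valued variety. -/

namespace Pool.Agent.MP_a2e0a9_al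

universe u

/-- The affine group of the line. -/
@[ext] structure Aff : Type u where
  a : ℝ
  b : ℝ

namespace Aff

noncomputable instance : Group Aff.{u} where
  mul x y := ⟨x.a + y.a, Real.exp x.a * y.b + x.b⟩
  one := ⟨0, 0⟩
  inv x := ⟨-x.a, -(Real.exp (-x.a) * x.b)⟩
  mul_assoc x y z := by
    refine Aff.ext (add_assoc _ _ _) ?_
    show Real.exp (x.a + y.a) * z.b + (Real.exp x.a * y.b + x.b) =
      Real.exp x.a * (Real.exp y.a * z.b + y.b) + x.b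
    rw [Real.exp_add]; ring
  one_mul x := by
    refine Aff.ext (zero_add _) ?_
    show Real.exp 0 * x.b + 0 = x.b
    simp
  mul_one x := by
    refine Aff.ext (add_zero _) ?_
    show Real.exp x.a * 0 + x.b = x.b
    simp
  inv_mul_cancel x := by
    refine Aff.ext (neg_add_cancel _) ?_
    show Real.exp (-x.a) * x.b + -(Real.exp (-x.a) * x.b) = 0
    ring

theorem mul_a (x y : Aff.{u}) : (x * y).a = x.a + y.a := rfl
theorem mul_b (x y : Aff.{u}) : (x * y).b = Real.exp x.a * y.b + x.b := rfl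

noncomputable instance : LinearOrder Aff.{u} :=
  LinearOrder.lift' (fun x => toLex (x.a, x.b)) fun x y h => by
    have h' : (x.a, x.b) = (y.a, y.b) := toLex.injective h
    exact Aff.ext (congrArg Prod.fst h') (congrArg Prod.snd h')

theorem le_iff (x y : Aff.{u}) : x ≤ y ↔ x.a < y.a ∨ x.a = y.a ∧ x.b ≤ y.b :=
  Prod.Lex.toLex_le_toLex

instance : MulLeftMono Aff.{u} := ⟨fun z x y h => by
  rw [le_iff] at h ⊢
  simp only [mul_a, mul_b]
  rcases h with h | h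
  · left; linarith
  · right
    exact ⟨by rw [h.1], by have := Real.exp_pos z.a; nlinarith [h.2]⟩⟩

instance : MulRightMono Aff.{u} := ⟨fun z x y h => by
  show x * z ≤ y * z
  have h' : x ≤ y := h
  rw [le_iff] at h' ⊢
  simp only [mul_a, mul_b]
  rcases h' with h | h
  · left; linarith
  · right
    exact ⟨by rw [h.1], by rw [h.1]; linarith [h.2]⟩⟩

/-- Bundled. -/
noncomputable abbrev lgrp : LGrp.{u} := { carrier := Aff.{u} }

theorem isLAct : IsLAct fun g x : Aff.{u} => g * x :=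
  ⟨one_mul, mul_assoc, fun g _ _ h => mul_lt_mul_right h g, fun g h x => sup_mul g h x⟩

theorem flow : Flow (fun g x : Aff.{u} => g * x) 1 (fun t => ⟨0, t⟩)
    (fun r => ⟨Real.log r, 0⟩) where
  add a b := by
    refine Aff.ext (add_zero _).symm ?_
    simp [mul_b, add_comm]
  pos a ha := (le_iff _ _).2 (Or.inr ⟨rfl, ha⟩)
  move := by
    simp only [mul_one]
    intro h
    exact one_ne_zero (congrArg Aff.b h)
  scale r hr := by
    rw [mul_inv_eq_iff_eq_mul]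
    refine Aff.ext (by simp [mul_a]) ?_
    simp [mul_b, Real.exp_log hr]

end Aff

theorem normalValued_of_total {G : LGrp.{u}} (h : ∀ x y : G.carrier, x ≤ y ∨ y ≤ x) :
    NormalValued G := by
  intro a b ha hb
  rcases h a b with h1 | h1
  · calc a * b ≤ b * b := mul_le_mul_left h1 _
      _ = b ^ 2 := (pow_two b).symm
      _ ≤ b ^ 2 * a ^ 2 := le_mul_of_one_le_right' (one_le_pow_of ha 2)
  · calc a * b ≤ a * a := mul_le_mul_right h1 _
      _ = a ^ 2 := (pow_two a).symm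
      _ ≤ b ^ 2 * a ^ 2 := le_mul_of_one_le_left' (one_le_pow_of hb 2)

theorem exists_coord_act {G : LGrp.{u}} (hG : NormalValued G) {a : G.carrier} (ha : a ≠ 1) :
    ∃ (Ω : Type u) (_ : LinearOrder Ω) (ρ : G.carrier → Ω → Ω) (x : Ω) (Γ : Type u)
      (_ : LinearOrder Γ) (s : Γ → Ω → ℝ), IsLAct ρ ∧ IsCoord ρ s ∧ ρ a x ≠ x := by
  obtain ⟨Ω, _, ρ, x, h, htr, hx⟩ := holland ha
  obtain ⟨Γ, _, s, hs⟩ := exists_coord h (wexp_of_law hG h)
    (wexp_of_law hG (isLAct_lowAct h)) x htr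
  exact ⟨Ω, inferInstance, ρ, x, Γ, inferInstance, s, h, hs, hx⟩

theorem half_amalgam {B C : LGrp.{u}} (hB : NormalValued B) (hC : NormalValued C)
    {b : B.carrier} {c : C.carrier} (hb : 1 < b) (hc : 1 < c) (g : C.carrier) :
    ∃ (D : LGrp.{u}) (h : B.carrier → D.carrier) (k : C.carrier → D.carrier),
      NormalValued D ∧ IsLHom h ∧ IsLHom k ∧ h b = k c ∧ (k g = 1 → g = 1) := by
  obtain ⟨Ω, _, ρ, x, Γ, _, s, hρ, hs, hx⟩ := exists_coord_act hB hb.ne'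
  obtain ⟨D1, Ω1, _, ν1, k1, h1, ι1, hD1, hν1, hk1, hh1, hι1, he1, hb1⟩ :=
    general_lemma (E := Aff.lgrp) ⟨hρ, hs, Aff.isLAct, Aff.flow⟩
      (normalValued_of_total fun x y => le_total (α := Aff) x y) hb.le
  have hF : Flow ν1 (ι1 x) (fun t => h1 ⟨0, t⟩) (fun r => h1 ⟨Real.log r, 0⟩) := by
    refine ⟨fun a b => ?_, fun a ha => hh1.one_le (Aff.flow.{u}.pos a ha), ?_, fun r hr => ?_⟩
    · rw [← hh1.1]; exact congrArg h1 (Aff.flow.add a b)
    · rw [hb1, he1]; exact fun h => hx (hι1 h)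
    · rw [← hh1.map_inv, ← hh1.1, ← hh1.1]; exact congrArg h1 (Aff.flow.scale r hr)
  obtain ⟨g', hg', hgg⟩ : ∃ g' : C.carrier, g' ≠ 1 ∧ (g ≠ 1 → g' = g) := by
    by_cases h : g = 1
    · exact ⟨c, hc.ne', fun h' => absurd h h'⟩
    · exact ⟨g, h, fun _ => rfl⟩
  obtain ⟨Ω', _, ρ', x', Γ', _, s', hρ', hs', hx'⟩ := exists_coord_act hC hg'
  obtain ⟨D2, Ω2, _, ν2, k2, h2, ι2, hD2, hν2, hk2, hh2, hι2, he2, hb2⟩ :=
    general_lemma (E := D1) ⟨hρ', hs', hν1, hF⟩ hD1 hc.le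
  refine ⟨D2, fun a => h2 (k1 a), k2, hD2, hh2.comp hk1, hk2, ?_, fun h => ?_⟩
  · simp only
    rw [← hb1, hb2]
  · by_contra hg
    have := he2 g x'
    rw [h, hν2.one] at this
    exact hx' (by rw [hgg hg]; exact (hι2 this).symm)

theorem amalgam_N {B C : LGrp.{u}} (hB : NormalValued B) (hC : NormalValued C)
    {b : B.carrier} {c : C.carrier} (hb : 1 < b) (hc : 1 < c) :
    ∃ (D : LGrp.{u}) (h : B.carrier → D.carrier) (k : C.carrier → D.carrier),
      NormalValued D ∧ IsLEmb h ∧ IsLEmb k ∧ h b = k c := by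
  have key : ∀ i : B.carrier ⊕ C.carrier, ∃ (D : LGrp.{u}) (h : B.carrier → D.carrier)
      (k : C.carrier → D.carrier), NormalValued D ∧ IsLHom h ∧ IsLHom k ∧ h b = k c ∧
      (∀ g, i = Sum.inl g → h g = 1 → g = 1) ∧ (∀ g, i = Sum.inr g → k g = 1 → g = 1) := by
    rintro (g | g)
    · obtain ⟨D, k, h, h1, h2, h3, h4, h5⟩ := half_amalgam hC hB hc hb g
      exact ⟨D, h, k, h1, h3, h2, h4.symm, fun g' hg => Sum.inl.inj hg ▸ h5,
        fun g' hg => absurd hg Sum.inl_ne_inr⟩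
    · obtain ⟨D, h, k, h1, h2, h3, h4, h5⟩ := half_amalgam hB hC hb hc g
      exact ⟨D, h, k, h1, h2, h3, h4, fun g' hg => absurd hg Sum.inr_ne_inl,
        fun g' hg => Sum.inr.inj hg ▸ h5⟩
  choose D h k h1 h2 h3 h4 h5 h6 using key
  refine ⟨piLGrp D, fun a i => h i a, fun a i => k i a,
    fun x y hx hy i => h1 i (x i) (y i) (hx i) (hy i), IsLHom.emb ?_ ?_, IsLHom.emb ?_ ?_,
    funext h4⟩
  · exact isLHom_of (fun x y => funext fun i => (h2 i).1 x y)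
      (fun x y => funext fun i => (h2 i).2.1 x y)
  · exact fun a ha => h5 _ a rfl (congrFun ha _)
  · exact isLHom_of (fun x y => funext fun i => (h3 i).1 x y)
      (fun x y => funext fun i => (h3 i).2.1 x y)
  · exact fun a ha => h6 _ a rfl (congrFun ha _)

theorem amalgBase_of_N {S : Set (Term × Term)}
    (hS : ∀ G : LGrp.{u}, Sat S G ↔ NormalValued G) : IsAmalgBase.{u} S intLGrp := by
  constructor
  · have h1 : (1 : Aff.{u}) < ⟨0, 1⟩ :=
      lt_of_le_of_ne (Aff.flow.{u}.pos 1 zero_le_one) fun h => zero_ne_one (congrArg Aff.b h)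
    exact (int_emb (G := Aff.lgrp) h1).sat
      ((hS _).2 (normalValued_of_total fun x y => le_total (α := Aff) x y))
  · intro B C hB hC f g hf hg
    obtain ⟨b, hb, hfb⟩ := emb_int hf
    obtain ⟨c, hc, hgc⟩ := emb_int hg
    obtain ⟨D, h, k, h1, h2, h3, h4⟩ := amalgam_N ((hS B).1 hB) ((hS C).1 hC) hb hc
    refine ⟨D, h, k, (hS D).2 h1, h2, h3, funext fun n => ?_⟩
    show h (f n) = k (g n)
    rw [hfb n, hgc n, h2.1.map_zpow, h3.1.map_zpow, h4]

end Pool.Agent.MP_a2e0a9_al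

end

-- part MP_a2e0a9_al.Main
section

/-! A non-representable variety with the integers as amalgamation base contains all
normal-valued groups. -/

namespace Pool.Agent.MP_a2e0a9_al

universe u

theorem IsCoord.agree {G : Type u} {Ω : Type u} [LinearOrder Ω] {ρ : G → Ω → Ω}
    {Γ : Type u} [LinearOrder Γ] {s : Γ → Ω → ℝ} (hs : IsCoord ρ s) (g : G) {γ : Γ} {x y : Ω}
    (h : ∀ δ, γ < δ → s δ x = s δ y) : ∀ δ, γ < δ → s δ (ρ g x) = s δ (ρ g y) := by
  intro δ hδ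
  have := hs.act g δ x y fun η hη => h η (hδ.trans hη)
  rw [h δ hδ] at this
  linarith

theorem sat_of_normalValued {S : Set (Term × Term)} (hA : IsAmalgBase.{u} S intLGrp)
    {G : LGrp.{u}} (hG : Sat S G) (hR : ¬ Representable G) (H : LGrp.{u})
    (hH : NormalValued H) : Sat S H := by
  classical
  refine sat_of_imitable H fun Ω _ ρ x hρ htr X => ?_
  obtain ⟨Γ, _, s, hs⟩ := exists_coord hρ (wexp_of_law hH hρ)
    (wexp_of_law hH (isLAct_lowAct hρ)) x htr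
  have hlv : ∃ L : Finset Γ, ∀ p ∈ X, ∀ q ∈ X, p ≠ q →
      ∃ γ ∈ L, (∀ δ, γ < δ → s δ p = s δ q) ∧ s γ p ≠ s γ q ∧ (p < q → s γ p < s γ q) := by
    have : ∀ p q : Ω, ∃ L : Finset Γ, p < q →
        ∃ γ ∈ L, (∀ δ, γ < δ → s δ p = s δ q) ∧ s γ p < s γ q := by
      intro p q
      by_cases h : p < q
      · obtain ⟨γ, h1⟩ := hs.ord p q h
        exact ⟨{γ}, fun _ => ⟨γ, Finset.mem_singleton_self γ, h1⟩⟩
      · exact ⟨∅, fun h' => absurd h' h⟩
    choose L hL using this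
    refine ⟨(X ×ˢ X).biUnion fun p => L p.1 p.2, fun p hp q hq hpq => ?_⟩
    rcases lt_or_gt_of_ne hpq with h | h
    · obtain ⟨γ, h1, h2, h3⟩ := hL p q h
      exact ⟨γ, Finset.mem_biUnion.2 ⟨(p, q), Finset.mem_product.2 ⟨hp, hq⟩, h1⟩, h2, h3.ne,
        fun _ => h3⟩
    · obtain ⟨γ, h1, h2, h3⟩ := hL q p h
      exact ⟨γ, Finset.mem_biUnion.2 ⟨(q, p), Finset.mem_product.2 ⟨hq, hp⟩, h1⟩,
        fun δ hδ => (h2 δ hδ).symm, h3.ne', fun h' => absurd h (not_lt.2 h'.le)⟩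
  obtain ⟨L, hL⟩ := hlv
  let e : Fin L.card ↪o Γ := L.orderEmbOfFin rfl
  have he : ∀ γ ∈ L, ∃ i, e i = γ := fun γ hγ => by
    have : γ ∈ Set.range e := by rw [Finset.range_orderEmbOfFin]; exact hγ
    exact this
  let A : Finset ℝ := (Finset.univ ×ˢ X).image fun p : Fin L.card × Ω => s (e p.1) p.2
  have hA' : ∀ i, ∀ p ∈ X, s (e i) p ∈ A := fun i p hp =>
    Finset.mem_image.2 ⟨(i, p), Finset.mem_product.2 ⟨Finset.mem_univ _, hp⟩, rfl⟩
  obtain ⟨π, hπ1, hπ2⟩ := int_approx A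
  obtain ⟨N, hN1, hN⟩ : ∃ N : ℕ, 1 ≤ N ∧ ∀ a ∈ A, ∀ b ∈ A, |π a - π b| ≤ N := by
    refine ⟨((A ×ˢ A).sup fun p => (π p.1 - π p.2).natAbs) + 1, by omega, fun a ha b hb => ?_⟩
    have := Finset.le_sup (f := fun p : ℝ × ℝ => (π p.1 - π p.2).natAbs)
      (Finset.mem_product.2 ⟨ha, hb⟩ : (a, b) ∈ A ×ˢ A)
    rw [Int.abs_eq_natAbs]
    exact_mod_cast Nat.le_succ_of_le this
  obtain ⟨D, t, hD, ht, htd⟩ := exists_tower hA hG hR N L.card
  obtain ⟨Ω', _, ρ', y, h', -, hy⟩ := holland (ht 0).ne'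
  have T : TowerAct ρ' y t N L.card := ⟨h', fun j => (ht j).le, htd, hy, hN1⟩
  let v : Ω → ℕ → ℤ := fun p i => if h : i < L.card then π (s (e ⟨i, h⟩) p) else 0
  have hv : ∀ p (i : Fin L.card), v p i = π (s (e i) p) := fun p i => dif_pos i.2
  have hag : ∀ p q (i : Fin L.card), (∀ δ, e i < δ → s δ p = s δ q) →
      ∀ l : ℕ, (i : ℕ) < l → l < L.card → v p l = v q l := by
    intro p q i h l h1 h2
    rw [hv p ⟨l, h2⟩, hv q ⟨l, h2⟩, h _ (e.strictMono (show i < ⟨l, h2⟩ from h1))]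
  refine ⟨D, Ω', inferInstance, ρ', fun p => ρ' (word t (v p) L.card) y, hD, h',
    fun p hp q hq hpq => ?_, fun g p hp q hq hp' hq' => ?_⟩
  · obtain ⟨γ, h1, h2, -, h3⟩ := hL p hp q hq hpq.ne
    obtain ⟨i, rfl⟩ := he γ h1
    refine T.word_lt i.2 le_rfl ?_ (hag p q i h2)
    rw [hv, hv]
    exact hπ2 _ (hA' i p hp) _ (hA' i q hq) (h3 hpq)
  · by_cases hpq : p = q
    · subst hpq
      refine ⟨word t (v (ρ g p)) L.card * (word t (v p) L.card)⁻¹, ?_, ?_⟩ <;>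
        simp only [h'.mul, h'.inv_act, le_refl]
    · obtain ⟨γ, h1, h2, h3, -⟩ := hL p hp q hq hpq
      obtain ⟨i, rfl⟩ := he γ h1
      refine T.word_pair i.2 le_rfl ?_ ?_ ?_ (hag p q i h2) (hag _ _ i (hs.agree g h2))
      · rw [hv, hv]
        rcases lt_or_gt_of_ne h3 with h4 | h4
        · exact (hπ2 _ (hA' i p hp) _ (hA' i q hq) h4).ne
        · exact (hπ2 _ (hA' i q hq) _ (hA' i p hp) h4).ne'
      · rw [hv, hv]
        exact hN _ (hA' i p hp) _ (hA' i q hq)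
      · rw [hv, hv, hv, hv]
        exact hπ1 _ (hA' i _ hp') _ (hA' i _ hq') _ (hA' i p hp) _ (hA' i q hq)
          (hs.act g _ p q h2)

theorem classification (S : Set (Term × Term))
    (hnr : ∃ G : LGrp.{u}, Sat S G ∧ ¬ Representable G) (hpr : ∃ G : LGrp.{u}, ¬ Sat S G) :
    IsAmalgBase.{u} S intLGrp ↔ ∀ G : LGrp.{u}, Sat S G ↔ NormalValued G := by
  refine ⟨fun hA G => ⟨fun hG => ?_, fun hG => ?_⟩, amalgBase_of_N⟩
  · by_contra hN
    obtain ⟨H, hH⟩ := hpr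
    exact hH (sat_of_not_normalValued hG hN H)
  · obtain ⟨H, h1, h2⟩ := hnr
    exact sat_of_normalValued hA h1 h2 G hG

end Pool.Agent.MP_a2e0a9_al

end
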